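import Mathlib

/-! Definitions for digit sums along polynomials of degree three and four. -/

set_option autoImplicit false

namespace Pool.Agent.MP_b1aeef_nt.G4

open Finset
open scoped BigOperators

noncomputable section

/-- additive character -/
def ee (x : ℝ) : ℂ := Complex.exp (2 * Real.pi * x * Complex.I)

/-- distance to the nearest integer -/
def nd (x : ℝ) : ℝ := |x - round x|

open Classical in
/-- indicator of a proposition -/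
def ind (p : Prop) : ℝ := if p then 1 else 0

/-- iterated square root -/
def rt (n : ℕ) (x : ℝ) : ℝ := x ^ ((1 : ℝ) / 2 ^ n)

/-- digit sum -/
def ds (q n : ℕ) : ℕ := (Nat.digits q n).sum

/-- digit sum of the lowest `w` digits of the integer part -/
def wr (q w : ℕ) (t : ℝ) : ℝ := (ds q (⌊t⌋ % (q : ℤ) ^ w).toNat : ℝ)

/-- leading block of the fractional part -/
def hi (Q : ℕ) (t : ℝ) : ZMod Q := ((⌊(Q : ℝ) * t⌋ : ℤ) : ZMod Q)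

/-- sign of a vertex of the cube -/
def sg {I : Type} [Fintype I] (ω : I → Bool) : ℝ := ∏ i, if ω i then (-1 : ℝ) else 1

/-- vertex of the cube spanned by two points -/
def mix {I Y : Type} (ω : I → Bool) (y0 y1 : I → Y) : I → Y := fun i => if ω i then y1 i else y0 i

/-- sum of the coordinates -/
def tot {I : Type} [Fintype I] {H : ℕ} (y : I → Fin H) : ℤ := ∑ i, ((y i : ℕ) : ℤ)

/-- probability density with respect to the uniform law -/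
def IsDen {O : Type} [Fintype O] (W : O → ℝ) : Prop := (∀ o, 0 ≤ W o) ∧ 𝔼 o, W o = 1

/-- symmetric stochastic kernel -/
def IsKer {Y : Type} [Fintype Y] (K : Y → Y → ℝ) : Prop :=
  (∀ y y', 0 ≤ K y y') ∧ (∀ y y', K y y' = K y' y) ∧ ∀ y, 𝔼 y', K y y' = 1

/-- soft labelling: a partition of unity -/
def IsLab {C Y : Type} (Cs : Finset C) (ψ : C → Y → ℝ) : Prop :=
  (∀ c y, 0 ≤ ψ c y) ∧ ∀ y, ∑ c ∈ Cs, ψ c y = 1

/-- pair kernel of a labelling -/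
def ker {C Y : Type} [Fintype Y] (Cs : Finset C) (ψ : C → Y → ℝ) (y y' : Y) : ℝ :=
  ∑ c ∈ Cs, ψ c y * ψ c y' / (𝔼 x, ψ c x)

/-- density after one stage -/
def nw {O I Y : Type} [Fintype I] (W : O → ℝ) (K : O → I → Y → Y → ℝ)
    (p : O × (I → Y) × (I → Y)) : ℝ :=
  W p.1 * ∏ i, K p.1 i (p.2.1 i) (p.2.2 i)

/-- normalised Fejer kernel -/
def fej (R : ℕ) (x : ℝ) : ℝ := ‖∑ r ∈ range R, ee (r * x)‖ ^ 2 / (R : ℝ) ^ 2

/-- label set -/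
def cs {L : Type} [Fintype L] [DecidableEq L] (R : L → ℕ) : Finset (L → ℕ) :=
  Fintype.piFinset fun l => range (R l)

/-- Fejer labels of a family of phases -/
def lab {L Y : Type} [Fintype L] (R : L → ℕ) (Φ : L → Y → ℝ) (c : L → ℕ) (y : Y) : ℝ :=
  ∏ l, fej (R l) (Φ l y - (c l : ℝ) / (R l : ℝ))

/-- pair kernel of Fejer labels -/
def fk {L Y : Type} [Fintype L] [DecidableEq L] [Fintype Y] (R : L → ℕ) (Φ : L → Y → ℝ) :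
    Y → Y → ℝ := ker (cs R) (lab R Φ)

/-- defect of equidistribution of `G * ζ` given the label -/
def eta {C Y : Type} [Fintype Y] (Cs : Finset C) (ψ : C → Y → ℝ) (ζ : Y → ℝ) (R G : ℕ) : ℝ :=
  R * ∑ c ∈ Cs, ∑ k ∈ Ico 1 R, ‖𝔼 y, (ψ c y : ℂ) * ee (k * G * ζ y)‖

/-- defect of joint equidistribution of two phases -/
def def2 {Y : Type} [Fintype Y] (R : ℕ) (θ φ : Y → ℝ) : ℝ :=
  ∑ c ∈ cs (fun _ : Bool => R),
    |(𝔼 y, lab (fun _ : Bool => R) (fun s => if s then φ else θ) c y) - 1 / (R : ℝ) ^ 2|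

/-- polynomial function of degree at most `e` with coefficient `β` in degree `e` -/
def IsP : ℕ → ℝ → (ℤ → ℝ) → Prop
  | 0, β, φ => ∀ n, φ n = β
  | e + 1, β, φ => ∀ h : ℤ, IsP e ((e + 1) * β * h) (fun n => φ (n + h) - φ n)

/-- cube average over the base point -/
def cA {I : Type} [Fintype I] [DecidableEq I] {Q : ℕ} [NeZero Q] (q : ℕ) (α : ℝ)
    (z : I → ZMod Q) (r : (I → Bool) → ℕ) : ℂ :=
  𝔼 x : ZMod Q, ee (α * ∑ ω : I → Bool, sg ω *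
    (ds q (x + (∑ i, if ω i then z i else 0) + (r ω : ZMod Q)).val : ℝ))

/-- majorant of the cube averages over all carries -/
def xi {I : Type} [Fintype I] [DecidableEq I] {Q : ℕ} [NeZero Q] (q : ℕ) (α : ℝ)
    (z : I → ZMod Q) : ℝ :=
  min 1 (∑ r ∈ Fintype.piFinset (fun _ : I → Bool => range (Fintype.card I + 1)), ‖cA q α z r‖)

/-- slopes of the isolating directions -/
def dl {T : Type} [DecidableEq T] (v : T → ℤ) (τ0 τ : T) : ℤ := if τ = τ0 then 1 else v τ0 - v τ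

/-- divided derivatives of the polynomial with coefficients `a 0, ..., a 4` -/
def pk (a : ℕ → ℤ) : ℕ → ℤ → ℤ
  | 0, x => a 0 + a 1 * x + a 2 * x ^ 2 + a 3 * x ^ 3 + a 4 * x ^ 4
  | 1, x => a 1 + 2 * a 2 * x + 3 * a 3 * x ^ 2 + 4 * a 4 * x ^ 3
  | 2, x => a 2 + 3 * a 3 * x + 6 * a 4 * x ^ 2
  | 3, x => a 3 + 4 * a 4 * x
  | 4, _ => a 4
  | _ + 5, _ => 0

/-- degree three or four -/
def Deg (a : ℕ → ℤ) (d : ℕ) : Prop := (d = 3 ∧ a 4 = 0 ∧ a 3 ≠ 0) ∨ (d = 4 ∧ a 4 ≠ 0)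

def K1 (d : ℕ) : ℕ := 44000 + (d - 3) * 500000000
def K2 (d : ℕ) : ℕ := 999954999 - K1 d
def K3 (d : ℕ) : ℕ := (d - 3) * 1000000000

/-- windows of stage A -/
abbrev JA (d : ℕ) : Type := Fin (K1 d) ⊕ Fin (K2 d)
/-- directions of stage A -/
abbrev IA (d : ℕ) : Type := JA d × (Unit → Bool)
/-- vertices after stage A -/
abbrev Ga (d : ℕ) : Type := (Unit → Bool) × (IA d → Bool)
/-- directions of stage B -/
abbrev IB (d : ℕ) : Type := Fin (K3 d + 1) × Ga d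
/-- directions of the stages 0 and A -/
abbrev I0 (d : ℕ) : Type := Unit ⊕ IA d
/-- points after stage B -/
abbrev Ta (d k : ℕ) : Type := (IB d → Bool) × Fin k

instance (d : ℕ) : DecidableEq (IA d) := inferInstance
instance (d : ℕ) : DecidableEq (Ga d) := inferInstance
instance (d : ℕ) : DecidableEq (IB d) := inferInstance
instance (d : ℕ) : DecidableEq (I0 d) := inferInstance
instance (d k : ℕ) : DecidableEq (Ta d k) := inferInstance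
instance (d k : ℕ) : DecidableEq (I0 d ⊕ Ta d k) := inferInstance

/-- all parameters -/
structure Par where
  q : ℕ
  d : ℕ
  k : ℕ
  mu : ℕ
  la : ℕ
  w0 : ℕ
  N : ℕ
  TT : ℕ
  M0 : ℕ
  a : ℕ → ℤ
  al : Fin k → ℝ
  l0 : Fin k
  hq : 2 ≤ q
  hd : Deg a d
  ha : ∀ i, i ≤ 4 → |a i| ≤ M0
  hk : k ≤ M0
  hM : 1000 ≤ M0
  hA : Fintype.card (IA d) + 1 ≤ M0
  hB : Fintype.card (IB d) ≤ M0
  hw : 2 * la + 4 ≤ w0
  hbig : 1000 * M0 * q ^ (w0 + 2 * la) ≤ q ^ mu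
  hN1 : q ^ (1000000000 * mu) ≤ N
  hN2 : 2 * N ≤ q ^ (1000000001 * mu)
  hpos : ∀ n : ℤ, 0 ≤ n → 0 ≤ pk a 0 n
  hT : ∀ n : ℤ, 0 ≤ n → n ≤ 2 * N → pk a 0 n < (q : ℤ) ^ TT

namespace Par

variable (π : Par)

instance (n : ℕ) : NeZero (π.q ^ n) := ⟨pow_ne_zero n (by have := π.hq; omega)⟩

instance : NeZero π.N :=
  ⟨by have h1 := π.hN1; have h2 := NeZero.ne (π.q ^ (1000000000 * π.mu)); omega⟩

def B : ℝ := (π.q : ℝ) ^ π.mu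
def E : ℝ := (π.q : ℝ) ^ π.la
def Qr : ℝ := (π.q : ℝ) ^ π.w0
def eps : ℝ := 1 / (7 * π.E)
def rho : ℕ := 999955000 * π.mu
def rho0 : ℕ := 860000000 * π.mu
def sm : ℕ := π.rho + K1 π.d * π.mu
def sp : ℕ := π.sm + π.w0
def tc : ℕ := π.sp + K2 π.d * π.mu
def ts : ℕ := π.tc + 90051 * π.mu

def sA : JA π.d → ℕ
  | Sum.inl j => π.rho + j * π.mu
  | Sum.inr j => π.sp + j * π.mu

def sB (j : Fin (K3 π.d + 1)) : ℕ := π.ts + j * π.mu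
def wB (j : Fin (K3 π.d + 1)) : ℕ := if (j : ℕ) < K3 π.d then π.mu else π.TT

abbrev Y0 : Type := Fin (π.q ^ (5300000 * π.mu))
abbrev YA : Type := Fin (π.q ^ (864 * π.mu))
abbrev YB : Type := Fin (π.q ^ (3 * π.mu))
abbrev Yb : Type := Fin (π.q ^ (22 * π.mu))
abbrev O0 : Type := Fin π.N
abbrev O1 : Type := π.O0 × (Unit → π.Y0) × (Unit → π.Y0)
abbrev O2 : Type := π.O1 × (IA π.d → π.YA) × (IA π.d → π.YA)
abbrev O3 : Type := π.O2 × (IB π.d → π.YB) × (IB π.d → π.YB)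
abbrev ZQ : Type := ZMod (π.q ^ π.w0)
abbrev ZR : Type := ZMod (π.q ^ (5 * π.mu))

def x1 (o : π.O1) (β : Unit → Bool) : ℤ :=
  ((o.1 : ℕ) : ℤ) + (π.q : ℤ) ^ π.rho0 * tot (mix β o.2.1 o.2.2)
def x2 (o : π.O2) (γ : Ga π.d) : ℤ :=
  π.x1 o.1 γ.1 + (π.q : ℤ) ^ π.rho * tot (mix γ.2 o.2.1 o.2.2)
def x3 (o : π.O3) (γ : Ga π.d) (ε : IB π.d → Bool) : ℤ :=
  π.x2 o.1 γ + tot (mix ε o.2.1 o.2.2)

/-- the polynomial, real valued -/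
def P (κ : ℕ) (x : ℤ) : ℝ := (pk π.a κ x : ℝ)

/-- the whole phase -/
def Ph (n : ℤ) : ℝ := ∑ l : Fin π.k, π.al l * (ds π.q (pk π.a 0 (n + (l : ℕ))).toNat : ℝ)

/-- phase of the window with start `s` and width `w` -/
def Wn (s w : ℕ) (n : ℤ) : ℝ :=
  ∑ l : Fin π.k, π.al l * wr π.q w (π.P 0 (n + (l : ℕ)) / (π.q : ℝ) ^ s)

def fL (n : ℤ) : ℝ := π.Wn 0 π.rho n
def fA (n : ℤ) : ℝ := ∑ j, π.Wn (π.sA j) π.mu n
def fW (n : ℤ) : ℝ := π.Wn π.sm π.w0 n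
def fC (n : ℤ) : ℝ := π.Wn π.tc (90051 * π.mu) n
def fB (n : ℤ) : ℝ := ∑ j, π.Wn (π.sB j) (π.wB j) n

/-- boundary indicator at level `s` -/
def bd (s : ℕ) (n : ℤ) : ℝ := ind (nd (π.P 0 n / (π.q : ℝ) ^ s) ≤ π.eps)

/-- phases that freeze the slope inside the surviving window -/
def wph (a0 : ℤ) (r : ℕ) (j : Fin 3) (m : ℕ) : ℝ :=
  ((j : ℕ) + 2) * π.P (j + 2) a0 * (π.q : ℝ) ^ r * m / (π.q : ℝ) ^ π.sp

/-- the slope phase -/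
def zt (a0 : ℤ) (r : ℕ) (m : ℕ) : ℝ := π.P 1 a0 * (π.q : ℝ) ^ r * m / (π.q : ℝ) ^ π.sp

def ph0 (a0 : ℤ) : (Fin 5 × Fin 5) ⊕ Fin 3 → π.Y0 → ℝ
  | Sum.inl s, m => (Nat.choose s.1 s.2 : ℝ) * π.P s.1 (a0 + (π.q : ℤ) ^ π.rho0 * (m : ℕ)) *
      (π.q : ℝ) ^ (π.rho * s.2) / (π.q : ℝ) ^ π.ts
  | Sum.inr j, m => π.wph a0 π.rho0 j m

def R0 : (Fin 5 × Fin 5) ⊕ Fin 3 → ℕ := fun _ => π.q ^ (94000 * π.mu)

def phA (a0 x : ℤ) (j : JA π.d) : Fin 4 ⊕ Fin 3 → π.YA → ℝ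
  | Sum.inl κ, m => ((κ : ℕ) + 1) * π.P (κ + 1) x * (π.q : ℝ) ^ π.rho * (m : ℕ) /
      (π.q : ℝ) ^ (π.sA j + π.mu)
  | Sum.inr j', m => π.wph a0 π.rho j' m

def RA (s : Fin 4 ⊕ Fin 3) : ℕ :=
  if s = Sum.inl 0 then π.q ^ (π.mu + 2 * π.la) else π.q ^ (71 * π.mu)

def phB (x : ℤ) (j : Fin (K3 π.d + 1)) : Unit → π.YB → ℝ :=
  fun _ v => π.P 1 x * (v : ℕ) / (π.q : ℝ) ^ (π.sB j + π.mu)

def RB : Unit → ℕ := fun _ => π.q ^ (2 * π.mu)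

def K0 (o : π.O0) (_ : Unit) : π.Y0 → π.Y0 → ℝ := fk π.R0 (π.ph0 (o : ℕ))
def KA (o : π.O1) (i : IA π.d) : π.YA → π.YA → ℝ :=
  fk π.RA (π.phA (o.1 : ℕ) (π.x1 o i.2) i.1)
def KB (o : π.O2) (i : IB π.d) : π.YB → π.YB → ℝ := fk π.RB (π.phB (π.x2 o i.2) i.1)

def W0 : π.O0 → ℝ := fun _ => 1
def W1 : π.O1 → ℝ := nw π.W0 π.K0
def W2 : π.O2 → ℝ := nw π.W1 π.KA
def W3 : π.O3 → ℝ := nw π.W2 π.KB

def A0 : ℝ := 𝔼 o : π.O0, π.W0 o * 𝔼 z : (IA π.d → π.YA) × (IB π.d → π.YB) × π.Yb,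
  ‖𝔼 y : Unit → π.Y0, ee (π.Ph (((o : ℕ) : ℤ) + (π.q : ℤ) ^ π.rho0 * tot y +
    (π.q : ℤ) ^ π.rho * tot z.1 + tot z.2.1 + (z.2.2 : ℕ)))‖

def A1 : ℝ := 𝔼 o : π.O1, π.W1 o * 𝔼 z : (IB π.d → π.YB) × π.Yb,
  ‖𝔼 y : IA π.d → π.YA, ee (∑ β : Unit → Bool, sg β * (π.fA + π.fW + π.fB)
    (π.x1 o β + (π.q : ℤ) ^ π.rho * tot y + tot z.1 + (z.2 : ℕ)))‖

def A2 : ℝ := 𝔼 o : π.O2, π.W2 o * 𝔼 z : π.Yb,
  ‖𝔼 y : IB π.d → π.YB, ee (∑ γ : Ga π.d, sg γ.1 * sg γ.2 * (π.fW + π.fB)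
    (π.x2 o γ + tot y + (z : ℕ)))‖

def A3 : ℝ := 𝔼 o : π.O3, π.W3 o *
  ‖𝔼 z : π.Yb, ee (∑ ε : IB π.d → Bool, sg ε * ∑ γ : Ga π.d, sg γ.1 * sg γ.2 *
    π.fW (π.x3 o γ ε + (z : ℕ)))‖

def d0 : ℝ := π.eps / (150 * π.B ^ 93603)
def dA (κ : Fin 4) : ℝ := if κ = 0 then π.eps / (2 * π.B) else π.eps / (6 * π.B ^ 70)
def dB : ℝ := π.eps / (2 * π.B)
def dW : ℝ := π.eps / (12 * π.M0 * π.Qr * π.B ^ 69)
def dF : ℝ := π.eps / (8 * π.Qr * π.B ^ 4)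

/-- number of frequencies, multiplier and constant of the domination step -/
def Rp : ℕ := π.q ^ (π.w0 - (2 * π.la + 4))
def Gp : ℕ := π.q ^ (2 * π.la + 1)
def Cd : ℝ := 8 * (π.q : ℝ) ^ (2 * π.la + 4)

/-- base vertex -/
def x0 (o : π.O2) : ℤ := π.x2 o (fun _ => false, fun _ => false)
def tau0 : Ta π.d π.k := (fun _ => false, π.l0)
def vt (o : π.O3) (τ : Ta π.d π.k) : ℤ := tot (mix τ.1 o.2.1 o.2.2) + (τ.2 : ℕ)
def kap (x v : ℤ) : ℝ :=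
  (π.P 2 x * (v : ℝ) ^ 2 + π.P 3 x * (v : ℝ) ^ 3 + π.P 4 x * (v : ℝ) ^ 4) / (π.q : ℝ) ^ π.sp
def th (x : ℤ) (b : π.Yb) : ℝ := π.P 0 (x + (b : ℕ)) / (π.q : ℝ) ^ π.sp
def fi (x : ℤ) (b : π.Yb) : ℝ := π.P 1 (x + (b : ℕ)) / (π.q : ℝ) ^ π.sp

/-- edges of the cube inside the surviving window -/
def Zd (o : π.O2) : I0 π.d → ℝ
  | Sum.inl u => π.zt (o.1.1 : ℕ) π.rho0 (o.1.2.2 u) - π.zt (o.1.1 : ℕ) π.rho0 (o.1.2.1 u)
  | Sum.inr i => π.zt (o.1.1 : ℕ) π.rho (o.2.2 i) - π.zt (o.1.1 : ℕ) π.rho (o.2.1 i)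

/-- number of freezing phases that moved -/
def farW (o : π.O2) : ℝ :=
  (∑ j, ind (π.dW < nd (π.wph (o.1.1 : ℕ) π.rho0 j (o.1.2.1 ()) -
    π.wph (o.1.1 : ℕ) π.rho0 j (o.1.2.2 ())))) +
  ∑ i, ∑ j, ind (π.dW < nd (π.wph (o.1.1 : ℕ) π.rho j (o.2.1 i) -
    π.wph (o.1.1 : ℕ) π.rho j (o.2.2 i)))

end Par

end

end Pool.Agent.MP_b1aeef_nt.G4
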