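import Pool.Agent.MP_b1aeef_nt.G4.Kit2

/-! The boundary is rarely met; moving the range of summation. -/

set_option autoImplicit false

namespace Pool.Agent.MP_b1aeef_nt.G4

open Finset
open scoped BigOperators

namespace RBd

theorem weyl (hW : WeylS) (π : Par) (s k : ℕ) (c : ℤ) (h1 : π.rho ≤ s)
    (h2 : s ≤ π.ts + K3 π.d * π.mu) (hk : 1 ≤ k) (hk' : k < π.q ^ π.la) :
    ‖𝔼 a : π.O0, ee (k * (π.P 0 (((a : ℕ) : ℤ) + c) / (π.q : ℝ) ^ s))‖ ≤ 3 / π.B := by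
  have hq := π.qp_pos s
  have hk1 : (1 : ℝ) ≤ k := by exact_mod_cast hk
  have hk2 : (k : ℝ) ≤ π.E := by
    unfold Par.E
    exact_mod_cast hk'.le
  have hX : ((π.q ^ π.mu : ℕ) : ℝ) = π.B := by
    unfold Par.B
    push_cast
    rfl
  have hu : |(k : ℝ) * π.a π.d| = k * |(π.a π.d : ℝ)| := by rw [abs_mul, Nat.abs_cast]
  have h := hW π.q π.d s (26 * π.mu) (999999957 * π.mu) π.N (π.q ^ π.mu)
    (k / (π.q : ℝ) ^ s * π.a π.d) (k * π.a π.d) 0
    (fun n => k / (π.q : ℝ) ^ s * π.P 0 (n + c)) π.hq (by have := π.le_d; omega) π.d_le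
    ((π.isP0.shift c).mul _) (by push_cast; field_simp; ring)
    (by unfold Par.rho at h1; omega)
    (by
      have h3 := π.w_lt
      rw [π.ts_eq] at h2
      rcases π.cases with ⟨a1, -, -, a2, -⟩ | ⟨a1, -, -, a2⟩ <;> rw [a2] at h2 <;> rw [a1] <;> omega)
    (by rw [hu]; nlinarith [π.one_le_lead]) (π.one_le_np _)
    (by
      have h3 : (k : ℝ) * |(π.a π.d : ℝ)| ≤ π.E * π.M0 :=
        mul_le_mul hk2 π.lead_le (abs_nonneg _) π.E_pos.le
      have h4 : 48 * ((k : ℝ) * |(π.a π.d : ℝ)|) ≤ π.B ^ 2 := by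
        have h5 : 0 ≤ π.E * π.M0 := by have := π.E_pos; positivity
        nlinarith [π.bigM, π.one_le_B]
      rw [hu, hX, ← π.B_pow, show 26 = 2 + 24 from rfl, pow_add]
      exact mul_le_mul_of_nonneg_right h4 (pow_pos π.B_pos _).le)
    (by
      have h3 := π.three_le_N
      have h4 := pow_pos π.B_pos 999999999
      have h5 : (2 : ℝ) * (π.q : ℝ) ^ (999999999 * π.mu) ≤ π.N := by
        rw [← π.B_pow]
        linarith
      rw [mul_assoc, ← pow_mul, ← pow_add,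
        show 999999957 * π.mu + 26 * π.mu + π.mu * 16 = 999999999 * π.mu by ring]
      exact_mod_cast h5)
  rw [hX] at h
  refine le_of_eq_of_le ?_ h
  congr 2
  funext a
  congr 1
  ring

theorem swap {A Z Y : Type} [Fintype A] [Fintype Z] [Nonempty Z] [Fintype Y] [Nonempty Y] (c : ℂ)
    (G : A → Z → Y → ℂ) (δ : ℝ) (h : ∀ z y, ‖c - 𝔼 a, G a z y‖ ≤ δ) :
    ‖c‖ ≤ δ + 𝔼 a, 𝔼 z, ‖𝔼 y, G a z y‖ := by
  have h1 : 𝔼 a, 𝔼 z, 𝔼 y, G a z y = 𝔼 z, 𝔼 y, 𝔼 a, G a z y := by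
    rw [expect_comm]
    exact expect_congr rfl fun z _ => expect_comm _ _ _
  have h2 : c = (𝔼 z, 𝔼 y, (c - 𝔼 a, G a z y)) + 𝔼 a, 𝔼 z, 𝔼 y, G a z y := by
    simp only [h1, expect_sub_distrib, expect_const univ_nonempty, sub_add_cancel]
  rw [h2]
  refine (norm_add_le _ _).trans (add_le_add ?_ ?_)
  · exact (norm_av_le _).trans (av_le_const fun z => (norm_av_le _).trans (av_le_const (h z)))
  · exact (norm_av_le _).trans (av_le fun a => norm_av_le _)

end RBd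

theorem bdOf : BdOf := by
  intro hM hW π s c h1 h2
  have hE : ((π.q ^ π.la : ℕ) : ℝ) = π.E := by
    unfold Par.E
    push_cast
    rfl
  have h := hM π.O0 (fun _ => 1) (fun a => π.P 0 (((a : ℕ) : ℤ) + c) / (π.q : ℝ) ^ s)
    (π.q ^ π.la) 0 (π.one_le_np _) fun _ => zero_le_one
  simp only [one_mul, sub_zero, Complex.ofReal_one, av_const, hE] at h
  refine le_trans h ?_
  have h3 := sum_le_card_nsmul (Ico 1 (π.q ^ π.la)) _ _ fun k hk =>
    RBd.weyl hW π s k c h1 h2 (mem_Ico.1 hk).1 (mem_Ico.1 hk).2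
  have h4 : ((Ico 1 (π.q ^ π.la)).card : ℝ) ≤ π.E := by
    rw [← hE, Nat.card_Ico]
    exact_mod_cast Nat.sub_le _ _
  have hB := π.B_pos
  have hE0 := π.E_pos
  have h5 : π.E * (3 / π.B) ≤ 1 / π.E := by
    rw [← mul_div_assoc, div_le_div_iff₀ hB hE0]
    nlinarith [π.bigE, π.M_ge, sq_nonneg π.E]
  rw [nsmul_eq_mul] at h3
  have h6 := mul_le_mul_of_nonneg_right h4 (show 0 ≤ 3 / π.B by positivity)
  have h7 : 8 / π.E = 4 * (1 / π.E + 1 / π.E) := by ring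
  rw [h7]
  linarith

theorem edgeS : EdgeS := by
  intro π
  unfold Par.A0 Par.W0
  simp only [one_mul]
  refine RBd.swap _ _ _ fun z y => ?_
  have h0 : 0 ≤ (π.q : ℤ) ^ π.rho0 * tot y + (π.q : ℤ) ^ π.rho * tot z.1 + tot z.2.1 +
      (z.2.2 : ℕ) := by
    have h1 := tot_nonneg y
    have h2 := tot_nonneg z.1
    have h3 := tot_nonneg z.2.1
    positivity
  obtain ⟨s, hs⟩ := Int.eq_ofNat_of_zero_le h0
  have h1 := π.shift_le y z.1 z.2.1 z.2.2
  rw [hs] at h1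
  push_cast at h1
  have h2 := edge (fun n => ee (π.Ph n)) (fun n => (norm_ee _).le) π.N s
  simp only [← hs, ← add_assoc] at h2
  refine h2.trans ?_
  have h3 := π.N_ge
  have h4 := pow_pos π.B_pos 999999999
  have hE := π.E_pos
  have h5 : (0 : ℝ) ≤ π.k := Nat.cast_nonneg _
  rw [pow_succ' π.B 999999999] at h3
  have h6 := mul_le_mul_of_nonneg_right π.E_le_B h4.le
  have h7 := mul_le_mul_of_nonneg_left (show (s : ℝ) ≤ 3 * π.B ^ 999999999 by linarith) hE.le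
  have h8 := mul_pos hE h4
  rw [div_le_div_iff₀ (by linarith) hE]
  linarith

end Pool.Agent.MP_b1aeef_nt.G4
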