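import Pool.Agent.MP_b1aeef_nt.G4.Kit2

/-! Carries: the average over a window is bounded by the majorant of the cube averages. -/

set_option autoImplicit false

namespace Pool.Agent.MP_b1aeef_nt.G4

open Finset
open scoped BigOperators

namespace RCar

theorem av_zmod (N : ℕ) [NeZero N] (F : ℕ → ℂ) : 𝔼 c : ZMod N, F c.val = 𝔼 a : Fin N, F a := by
  cases N with
  | zero => exact absurd rfl (NeZero.ne 0)
  | succ n => rfl

theorem av_split (Q S : ℕ) [NeZero Q] [NeZero (Q * S)] (F : ℕ → ℂ) :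
    𝔼 c : ZMod (Q * S), F c.val = 𝔼 l : Fin S, 𝔼 x : ZMod Q, F (l + S * x.val) := by
  rw [av_zmod, ← Fintype.expect_equiv finProdFinEquiv
    (fun p : Fin Q × Fin S => F (p.2 + S * p.1)) (fun a => F a) fun _ => rfl, av_prod, expect_comm]
  exact expect_congr rfl fun l _ => (av_zmod Q fun x => F (l + S * x)).symm

theorem carry {I : Type} [Fintype I] (s : ℝ) (t : I → ℝ) : ∃ r : ℕ, r < Fintype.card I + 1 ∧
    ∀ x : ℤ, ⌊x + s + ∑ i, t i⌋ = x + ⌊s⌋ + ∑ i, ⌊t i⌋ + r := by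
  have h0 : 0 ≤ Int.fract s + ∑ i, Int.fract (t i) :=
    add_nonneg (Int.fract_nonneg s) (sum_nonneg fun i _ => Int.fract_nonneg _)
  refine ⟨⌊Int.fract s + ∑ i, Int.fract (t i)⌋₊, (Nat.floor_lt h0).2 ?_, fun x => ?_⟩
  · have h1 := sum_le_card_nsmul univ (fun i => Int.fract (t i)) 1
      fun i _ => (Int.fract_lt_one _).le
    rw [card_univ, nsmul_eq_mul, mul_one] at h1
    have h2 := Int.fract_lt_one s
    push_cast
    linarith
  · have h1 : x + s + ∑ i, t i = Int.fract s + ∑ i, Int.fract (t i) +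
        ((x + ⌊s⌋ + ∑ i, ⌊t i⌋ : ℤ) : ℝ) := by
      simp only [Int.fract, sum_sub_distrib]
      push_cast
      ring
    rw [h1, Int.floor_add_intCast, Int.natCast_floor_eq_floor h0, add_comm]

theorem wr_eq (q w Q : ℕ) [NeZero Q] (hQ : Q = q ^ w) (t : ℝ) :
    wr q w t = (ds q ((⌊t⌋ : ℤ) : ZMod Q).val : ℝ) := by
  have h := ZMod.val_intCast (n := Q) ⌊t⌋
  have h1 : (q : ℤ) ^ w = Q := by rw [hQ, Nat.cast_pow]
  rw [wr, h1, ← h, Int.toNat_natCast]

theorem inner (q w Q : ℕ) [NeZero Q] (hQ : Q = q ^ w) {I : Type} [Fintype I] [DecidableEq I]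
    (α s : ℝ) (Y : I → ℝ) : ‖𝔼 x : ZMod Q, ee (α * ∑ ω : I → Bool, sg ω *
      wr q w (x.val + s + ∑ i, if ω i then (Q : ℝ) * Y i else 0))‖ ≤
      xi q α fun i => hi Q (Y i) := by
  refine le_min (norm_av_ee_le _) ?_
  choose r hr hx using fun ω : I → Bool => carry s fun i => if ω i then (Q : ℝ) * Y i else 0
  refine le_trans (le_of_eq (congrArg norm ?_)) (single_le_sum
    (f := fun r => ‖cA q α (fun i => hi Q (Y i)) r‖) (fun _ _ => norm_nonneg _)
    (Fintype.mem_piFinset.2 fun ω => mem_range.2 (hr ω)))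
  refine Fintype.expect_equiv (Equiv.addRight ((⌊s⌋ : ℤ) : ZMod Q)) _ _ fun x => ?_
  refine congrArg (fun u => ee (α * u)) (sum_congr rfl fun ω _ => ?_)
  have h1 := hx ω (x.val : ℕ)
  rw [Int.cast_natCast] at h1
  rw [wr_eq q w Q hQ, h1]
  refine congrArg (fun u : ZMod Q => sg ω * (ds q u.val : ℝ)) ?_
  have h2 : ∀ i, ((⌊if ω i then (Q : ℝ) * Y i else 0⌋ : ℤ) : ZMod Q) =
      if ω i then hi Q (Y i) else 0 := fun i => by
    split_ifs
    · rfl
    · rw [Int.floor_zero, Int.cast_zero]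
  rw [Int.cast_add, Int.cast_add, Int.cast_add, Int.cast_sum, Int.cast_natCast, Int.cast_natCast,
    ZMod.natCast_zmod_val, sum_congr rfl fun i _ => h2 i, Equiv.coe_addRight]

end RCar

theorem carOf : CarOf := by
  intro _ q w Q R _ _ _ hQ hR I _ _ α κ Y
  obtain ⟨S, rfl⟩ := hR
  have hS : S ≠ 0 := right_ne_zero_of_mul (NeZero.ne (Q * S))
  have : Nonempty (Fin S) := ⟨⟨0, Nat.pos_of_ne_zero hS⟩⟩
  have h1 : (Q : ℝ) ≠ 0 := Nat.cast_ne_zero.2 (NeZero.ne Q)
  have h2 : (S : ℝ) ≠ 0 := Nat.cast_ne_zero.2 hS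
  rw [RCar.av_split Q S fun n => ee (α * ∑ ω : I → Bool, sg ω *
    wr q w ((Q : ℝ) * ((n : ℝ) / (Q * S : ℕ) + κ + ∑ i, if ω i then Y i else 0)))]
  refine (norm_av_le _).trans (av_le_const fun l => le_trans (le_of_eq ?_)
    (RCar.inner q w Q hQ α (((l : ℕ) : ℝ) / S + Q * κ) Y))
  refine congrArg norm (expect_congr rfl fun x _ => ?_)
  refine congrArg (fun u => ee (α * u)) (sum_congr rfl fun ω _ => ?_)
  refine congrArg (fun u => sg ω * wr q w u) ?_
  rw [mul_add, mul_sum]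
  simp only [mul_ite, mul_zero]
  push_cast
  field_simp
  ring

end Pool.Agent.MP_b1aeef_nt.G4
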