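import Pool.Agent.MP_b1aeef_nt.G4.Kit2

/-! Collisions of the points and moved freezing phases are rare. -/

set_option autoImplicit false

namespace Pool.Agent.MP_b1aeef_nt.G4

open Finset
open scoped BigOperators

namespace RColl

lemma av_sum_le {O T : Type} [Fintype O] [Fintype T] {W : O → ℝ} {f : T → O → ℝ} {c : ℝ}
    (h : ∀ t, 𝔼 o, W o * f t o ≤ c) : 𝔼 o, W o * ∑ t, f t o ≤ Fintype.card T * c := by
  simp only [mul_sum]
  rw [expect_sum_comm]
  simpa using sum_le_card_nsmul univ _ c fun t _ => h t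

lemma one {O I : Type} [Fintype O] [Fintype I] [DecidableEq I] {H : ℕ} [NeZero H] (hN : NwS)
    {W : O → ℝ} {K : O → I → Fin H → Fin H → ℝ} (hW : IsDen W) (hK : ∀ o i, IsKer (K o i))
    {c : ℝ} (hc : ∀ o i (s : Fin H → Fin H → Prop), (∀ y y1 y2, s y y1 → s y y2 → y1 = y2) →
      𝔼 y, 𝔼 y', K o i y y' * ind (s y y') ≤ c) (ω : I → Bool) (i : I) (hi : ω i = true)
    (t t' : ℤ) : 𝔼 p : O × (I → Fin H) × (I → Fin H),
      nw W K p * ind (tot (mix ω p.2.1 p.2.2) + t = tot p.2.1 + t') ≤ c := by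
  refine ((hN O I (Fin H) W K hW hK).2.2 i
    (fun _ y0 y1 => ind (tot (mix ω y0 y1) + t = tot y0 + t')) (fun _ => c)
    fun o y0 y1 => hc o i _ fun a b b' h h' => ?_).trans (av_den_le hW fun _ => le_rfl)
  have e : ∀ b, mix ω (Function.update y0 i a) (Function.update y1 i b) =
      Function.update (mix ω y0 y1) i b := fun b => by
    funext l
    by_cases hl : l = i
    · simp [mix, hl, hi]
    · simp [mix, hl]
  rw [e, tot_update] at h h'
  exact Fin.ext (by omega)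

lemma two {O I Y : Type} [Fintype O] [Fintype I] [DecidableEq I] [Fintype Y] [Nonempty Y]
    (hN : NwS) {W : O → ℝ} {K : O → I → Y → Y → ℝ} (hW : IsDen W) (hK : ∀ o i, IsKer (K o i))
    {c : ℝ} (i : I) (g : O → Y → Y → ℝ) (hc : ∀ o, 𝔼 y, 𝔼 y', K o i y y' * g o y y' ≤ c) :
    𝔼 p : O × (I → Y) × (I → Y), nw W K p * g p.1 (p.2.1 i) (p.2.2 i) ≤ c :=
  ((hN O I Y W K hW hK).2.2 i (fun o y0 y1 => g o (y0 i) (y1 i)) (fun _ => c)
    fun o y0 y1 => by simpa only [Function.update_self] using hc o).trans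
      (av_den_le hW fun _ => le_rfl)

lemma mar {O I Y : Type} [Fintype O] [Fintype I] [DecidableEq I] [Fintype Y] [Nonempty Y]
    (hN : NwS) {W : O → ℝ} {K : O → I → Y → Y → ℝ} (hW : IsDen W) (hK : ∀ o i, IsKer (K o i))
    (g : O → ℝ) : 𝔼 p : O × (I → Y) × (I → Y), nw W K p * g p.1 = 𝔼 o, W o * g o := by
  have := (hN O I Y W K hW hK).2.1 (fun _ => false) fun o _ => g o
  simpa only [av_const] using this

lemma dW_pos (π : Par) : 0 < π.dW := by
  have h1 := π.eps_pos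
  have h2 := π.Qr_pos
  have h3 := π.B_pos
  have h4 : (0 : ℝ) < π.M0 := by linarith [π.M_ge]
  unfold Par.dW
  positivity

lemma num (π : Par) {n : ℕ} (hn : 71 ≤ n) :
    16 / (((π.q ^ (n * π.mu) : ℕ) : ℝ) * π.dW) ≤ 1 / π.E := by
  have h2 := π.Qr_pos
  have h3 := π.B_pos
  have h4 : (0 : ℝ) < π.M0 := by linarith [π.M_ge]
  have h5 := π.E_pos
  have h6 : (2 : ℝ) ≤ π.B := by linarith [π.M_le_B, π.M_ge]
  have h7 : 16 * π.E ≤ π.B ^ 71 * π.dW := by
    have e : π.B ^ 71 * π.dW = π.B ^ 2 / (84 * π.M0 * π.Qr * π.E) := by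
      unfold Par.dW Par.eps
      field_simp
      ring
    rw [e, le_div_iff₀ (by positivity)]
    have h8 : 0 ≤ π.M0 * π.Qr * π.E ^ 2 := by positivity
    nlinarith [π.big]
  have h9 := mul_le_mul_of_nonneg_right (π.Bp_le hn) (dW_pos π).le
  push_cast
  rw [← Par.B_pow, div_le_div_iff₀ (mul_pos (pow_pos h3 _) (dW_pos π)) h5]
  linarith

end RColl

open RColl

theorem collOf : CollOf := by
  intro hK hN hL hV π
  obtain ⟨-, -, w2, w3, -, -, kB, -⟩ := hV π
  have h1 : ∀ τ : Ta π.d π.k, 𝔼 o : π.O3, π.W3 o *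
      ind (τ ≠ π.tau0 ∧ π.vt o τ = π.vt o π.tau0) ≤ 1 / π.B := fun τ => by
    by_cases h : ∃ i, τ.1 i = true
    · obtain ⟨i, hi⟩ := h
      refine le_trans (av_le fun o => mul_le_mul_of_nonneg_left (ind_mono fun h => ?_) (w3.1 o))
        (one hN w2 kB (fun o i s hs => ?_) τ.1 i hi (τ.2 : ℕ) (π.l0 : ℕ))
      · simpa only [Par.vt, Par.tau0, mix_false] using h.2
      · refine ((hK _ _ _ _ (hL Unit π.YB π.RB (π.phB (π.x2 o i.2) i.1)
          fun _ => π.one_le_np _).1).2 s hs).trans_eq ?_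
        have hB := π.B_pos
        rw [cs, Fintype.card_piFinset, Fintype.card_fin]
        simp only [Par.RB, card_range, prod_const, card_univ, Fintype.card_unit, pow_one]
        push_cast
        rw [← Par.B_pow, ← Par.B_pow]
        field_simp
    · refine av_den_le w3 fun o => (ind_neg fun h' => h'.1 ?_).trans_le
        (one_div_pos.2 π.B_pos).le
      have e : τ.1 = fun _ => false := funext fun i => by simpa using fun q => h ⟨i, q⟩
      have h2 := h'.2
      simp only [Par.vt, Par.tau0, e] at h2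
      exact Prod.ext e (Fin.ext (by simp only [Par.tau0]; omega))
  rw [div_eq_mul_one_div]
  refine le_trans (av_le fun o => mul_le_mul_of_nonneg_left ?_ (w3.1 o)) (av_sum_le h1)
  by_cases h : ∃ τ, τ ≠ π.tau0 ∧ π.vt o τ = π.vt o π.tau0
  · obtain ⟨τ, hτ⟩ := h
    exact (ind_le_one _).trans ((sum_ind_cases univ _).resolve_left fun q => q τ (mem_univ _) hτ)
  · rw [ind_neg h]
    exact sum_nonneg fun _ _ => ind_nonneg _

theorem farOf : FarOf := by
  intro hN hL hV π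
  obtain ⟨w0, w1, -, -, k0, kA, -⟩ := hV π
  have h0 : ∀ j : Fin 3, 𝔼 o : π.O2, π.W2 o *
      ind (π.dW < nd (π.wph (o.1.1 : ℕ) π.rho0 j (o.1.2.1 ()) -
        π.wph (o.1.1 : ℕ) π.rho0 j (o.1.2.2 ()))) ≤ 1 / π.E := fun j =>
    (mar hN w1 kA fun o : π.O1 => ind (π.dW < nd (π.wph (o.1 : ℕ) π.rho0 j (o.2.1 ()) -
      π.wph (o.1 : ℕ) π.rho0 j (o.2.2 ())))).trans_le
      (two hN w0 k0 () (fun (o : π.O0) (y y' : π.Y0) => ind (π.dW <
        nd (π.wph (o : ℕ) π.rho0 j y - π.wph (o : ℕ) π.rho0 j y'))) fun o =>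
        ((hL _ π.Y0 π.R0 (π.ph0 (o : ℕ)) fun _ => π.one_le_np _).2.2.2 (Sum.inr j) _
          (dW_pos π)).trans (num π (by norm_num)))
  have hR : ∀ l, 1 ≤ π.RA l := fun l => by
    unfold Par.RA
    split_ifs <;> exact π.one_le_np _
  have h1 : ∀ (i : IA π.d) (j : Fin 3), 𝔼 o : π.O2, π.W2 o *
      ind (π.dW < nd (π.wph (o.1.1 : ℕ) π.rho j (o.2.1 i) -
        π.wph (o.1.1 : ℕ) π.rho j (o.2.2 i))) ≤ 1 / π.E := fun i j =>
    two hN w1 kA i (fun (o : π.O1) (y y' : π.YA) => ind (π.dW <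
      nd (π.wph (o.1 : ℕ) π.rho j y - π.wph (o.1 : ℕ) π.rho j y'))) fun o =>
      ((hL _ π.YA π.RA (π.phA (o.1 : ℕ) (π.x1 o i.2) i.1) hR).2.2.2 (Sum.inr j) _
        (dW_pos π)).trans (by
          rw [Par.RA, if_neg Sum.inr_ne_inl]
          exact num π le_rfl)
  have h2 := av_sum_le h0
  have h3 := av_sum_le fun i => av_sum_le (h1 i)
  have h4 : (Fintype.card (IA π.d) : ℝ) + 1 ≤ π.M0 := by exact_mod_cast π.hA
  have h5 := mul_le_mul_of_nonneg_right h4 (one_div_pos.2 π.E_pos).le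
  simp only [Par.farW, mul_add]
  rw [expect_add_distrib, div_eq_mul_one_div]
  rw [Fintype.card_fin] at h2 h3
  push_cast at h2 h3
  linarith

end Pool.Agent.MP_b1aeef_nt.G4
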