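import Pool.Agent.MP_b1aeef_nt.G4.Kit2

/-! Domination for a product of kernels. -/

set_option autoImplicit false

namespace Pool.Agent.MP_b1aeef_nt.G4

open Finset
open scoped BigOperators

namespace RDom

theorem av_cons {X : Type} [Fintype X] (n : ℕ) (F : (Fin (n + 1) → X) → ℝ) :
    𝔼 f, F f = 𝔼 x : X, 𝔼 g : Fin n → X, F (Fin.cons x g) := by
  rw [← av_prod fun p : X × (Fin n → X) => F (Fin.cons p.1 p.2)]
  exact (Fintype.expect_equiv (Fin.consEquiv fun _ => X) _ _ fun _ => rfl).symm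

theorem core {P A : Type} [Fintype P] [Fintype A] [Nonempty A] {C : ℝ} (hC : 1 ≤ C) (n : ℕ) :
    ∀ (k : Fin n → P → ℝ) (z : Fin n → P → A) (η : Fin n → ℝ), (∀ i, IsDen (k i)) →
      (∀ i, 0 ≤ η i) → (∀ i (ξ : A → ℝ), (∀ a, 0 ≤ ξ a ∧ ξ a ≤ 1) →
        𝔼 p, k i p * ξ (z i p) ≤ η i + C * 𝔼 a, ξ a) →
      ∀ Ξ : (Fin n → A) → ℝ, (∀ a, 0 ≤ Ξ a ∧ Ξ a ≤ 1) →
        𝔼 p : Fin n → P, (∏ i, k i (p i)) * Ξ (fun i => z i (p i)) ≤
          C ^ n * (∑ i, η i + 𝔼 a, Ξ a) := by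
  induction n with
  | zero =>
    intro k z η _ _ _ Ξ _
    have h1 : ∀ a : Fin 0 → A, Ξ a = Ξ default := fun a => congrArg Ξ (Subsingleton.elim _ _)
    simp only [h1, av_const, univ_eq_empty, prod_empty, sum_empty, one_mul, pow_zero, zero_add,
      le_refl]
  | succ n ih =>
    intro k z η hk hη hd Ξ hΞ
    have hCn : 0 ≤ C ^ n := pow_nonneg (by linarith) n
    obtain ⟨ξ, hξ⟩ : ∃ ξ : A → ℝ, ∀ a, ξ a = 𝔼 g : Fin n → A, Ξ (Fin.cons a g) := ⟨_, fun _ => rfl⟩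
    have hξ1 : ∀ a, 0 ≤ ξ a ∧ ξ a ≤ 1 := fun a => by
      rw [hξ]
      exact ⟨av_nonneg fun g => (hΞ _).1, av_le_const fun g => (hΞ _).2⟩
    have hE : 𝔼 a, Ξ a = 𝔼 a, ξ a := by
      rw [av_cons]
      exact expect_congr rfl fun a _ => (hξ a).symm
    have h1 : ∀ x : P, 𝔼 g : Fin n → P,
        (∏ i, k i ((Fin.cons x g : Fin (n + 1) → P) i)) *
          Ξ (fun i => z i ((Fin.cons x g : Fin (n + 1) → P) i)) ≤
        C ^ n * (∑ i : Fin n, η i.succ) * k 0 x + C ^ n * (k 0 x * ξ (z 0 x)) := by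
      intro x
      have h2 := ih (fun i => k i.succ) (fun i => z i.succ) (fun i => η i.succ)
        (fun i => hk _) (fun i => hη _) (fun i => hd _) (fun g => Ξ (Fin.cons (z 0 x) g))
        fun g => hΞ _
      have h3 := mul_le_mul_of_nonneg_left h2 ((hk 0).1 x)
      rw [← hξ, mul_expect] at h3
      refine le_of_eq_of_le (expect_congr rfl fun g _ => ?_) (h3.trans_eq (by ring))
      have h4 : (fun i => z i ((Fin.cons x g : Fin (n + 1) → P) i)) =
          Fin.cons (z 0 x) fun i => z i.succ (g i) := by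
        funext i
        refine Fin.cases ?_ (fun j => ?_) i <;> simp
      rw [h4, Fin.prod_univ_succ, mul_assoc]
      simp only [Fin.cons_zero, Fin.cons_succ]
    rw [av_cons]
    refine (av_le h1).trans ?_
    rw [expect_add_distrib, ← mul_expect, ← mul_expect, (hk 0).2, mul_one, hE, Fin.sum_univ_succ,
      ← mul_add, pow_succ, mul_assoc]
    refine mul_le_mul_of_nonneg_left ?_ hCn
    have h5 := hd 0 ξ hξ1
    have h6 : 0 ≤ ∑ i : Fin n, η i.succ := sum_nonneg fun i _ => hη _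
    have h7 := hη 0
    nlinarith

theorem gen {I P A : Type} [Fintype I] [DecidableEq I] [Fintype P] [Fintype A] [Nonempty A]
    {C : ℝ} (hC : 1 ≤ C) (k : I → P → ℝ) (z : I → P → A) (η : I → ℝ) (hk : ∀ i, IsDen (k i))
    (hη : ∀ i, 0 ≤ η i) (hd : ∀ i (ξ : A → ℝ), (∀ a, 0 ≤ ξ a ∧ ξ a ≤ 1) →
      𝔼 p, k i p * ξ (z i p) ≤ η i + C * 𝔼 a, ξ a) (Ξ : (I → A) → ℝ)
    (hΞ : ∀ a, 0 ≤ Ξ a ∧ Ξ a ≤ 1) :
    𝔼 p : I → P, (∏ i, k i (p i)) * Ξ (fun i => z i (p i)) ≤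
      C ^ Fintype.card I * (∑ i, η i + 𝔼 a, Ξ a) := by
  let e := Fintype.equivFin I
  have h := core hC (Fintype.card I) (fun j => k (e.symm j)) (fun j => z (e.symm j))
    (fun j => η (e.symm j)) (fun j => hk _) (fun j => hη _) (fun j => hd _)
    (fun a => Ξ fun i => a (e i)) fun a => hΞ _
  have h1 : ∑ j, η (e.symm j) = ∑ i, η i := e.symm.sum_comp η
  have h2 : 𝔼 a : Fin (Fintype.card I) → A, Ξ (fun i => a (e i)) = 𝔼 a, Ξ a :=
    Fintype.expect_equiv (Equiv.arrowCongr e.symm (Equiv.refl A)) _ _ fun _ => rfl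
  rw [h1, h2] at h
  refine le_of_eq_of_le (Eq.symm ?_) h
  refine Fintype.expect_equiv (Equiv.arrowCongr e.symm (Equiv.refl P)) _ _ fun q => ?_
  have h3 : ∏ j, k (e.symm j) (q j) = ∏ i, k i (q (e i)) :=
    (Fintype.prod_equiv e _ _ fun i => by rw [e.symm_apply_apply]).symm
  rw [h3]
  simp only [e.symm_apply_apply]
  rfl

end RDom

theorem domS : DomS := by
  intro O I Y A _ _ _ _ _ _ _ W K z η C hW hK hC hη hd Ξ hΞ
  rw [av_prod, mul_expect]
  refine av_le fun o => ?_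
  have h := RDom.gen (P := Y × Y) hC (fun i p => K o i p.1 p.2) (fun i p => z o i p.1 p.2) (η o)
    (fun i => ⟨fun p => (hK o i).1 _ _, by
      rw [av_prod]
      simp only [(hK o i).2.2, av_const]⟩) (hη o)
    (fun i ξ hξ => by rw [av_prod]; exact hd o i ξ hξ) (Ξ o) (hΞ o)
  have h1 := mul_le_mul_of_nonneg_left h (hW.1 o)
  rw [mul_expect] at h1
  refine le_of_eq_of_le (Eq.symm ?_) (h1.trans_eq (by ring))
  refine Fintype.expect_equiv (Equiv.arrowProdEquivProdArrow I (fun _ => Y) fun _ => Y) _ _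
    fun p => ?_
  rw [nw, mul_assoc]
  rfl

end Pool.Agent.MP_b1aeef_nt.G4
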