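import Pool.Agent.MP_b1aeef_nt.G4.Kit2

/-! Row DomA: domination for the stages 0 and A. -/

set_option autoImplicit false

namespace Pool.Agent.MP_b1aeef_nt.G4

open Finset
open scoped BigOperators

namespace RDomA

theorem eta_nonneg {C Y : Type} [Fintype Y] (Cs : Finset C) (ψ : C → Y → ℝ) (ζ : Y → ℝ)
    (R G : ℕ) : 0 ≤ eta Cs ψ ζ R G :=
  mul_nonneg (Nat.cast_nonneg _) (sum_nonneg fun _ _ => sum_nonneg fun _ _ => norm_nonneg _)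

theorem av_sum {A I J : Type} [Fintype A] [Fintype I] [Fintype J] [DecidableEq I] [DecidableEq J]
    [DecidableEq (I ⊕ J)] (f : (I ⊕ J → A) → ℝ) :
    𝔼 a : I → A, 𝔼 b : J → A, f (Sum.elim a b) = 𝔼 z, f z := by
  rw [← av_prod (fun p : (I → A) × (J → A) => f (Sum.elim p.1 p.2))]
  exact expect_equiv (Equiv.sumArrowEquivProdArrow I J A).symm (by simp) fun _ _ => rfl

theorem split {O I : Type} [Fintype O] [Fintype I] (W X : O → ℝ) (η : O → I → ℝ) (c : ℝ)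
    (h : ∀ i, 𝔼 o, W o * η o i ≤ c) :
    𝔼 o, W o * (∑ i, η o i + X o) ≤ Fintype.card I * c + 𝔼 o, W o * X o := by
  simp only [mul_add, mul_sum, expect_add_distrib, expect_sum_comm]
  gcongr
  simpa using sum_le_card_nsmul univ _ c fun i _ => h i

theorem one (h1 : Dom1S) (hL : LabS) (π : Par) {L Y : Type} [Fintype L] [DecidableEq L]
    [Fintype Y] [Nonempty Y] (R : L → ℕ) (Φ : L → Y → ℝ) (hR : ∀ l, 1 ≤ R l) (ζ : Y → ℝ)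
    (ξ : π.ZQ → ℝ) (hξ : ∀ a, 0 ≤ ξ a ∧ ξ a ≤ 1) :
    𝔼 y, 𝔼 y', fk R Φ y y' * ξ (hi (π.q ^ π.w0) (ζ y' - ζ y)) ≤
      eta (cs R) (lab R Φ) ζ π.Rp π.Gp + π.Cd * 𝔼 a, ξ a := by
  rw [π.Cd_eq]
  exact h1 _ Y (cs R) (lab R Φ) ζ (π.q ^ π.w0) π.Rp π.Gp (hL L Y R Φ hR).1 (π.one_le_np _)
    (π.one_le_np _) π.GR_le ξ hξ

end RDomA

open RDomA in
theorem domAOf : DomAOf := by
  intro hD h1 hL hV h0 hA π Ξ hΞ
  obtain ⟨hW0, hW1, -, -, hK0, hKA, -, hF⟩ := hV π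
  have hRA : ∀ l, 1 ≤ π.RA l := fun l => by
    unfold Par.RA
    split_ifs <;> exact π.one_le_np _
  have sA := hD π.O1 (IA π.d) π.YA π.ZQ π.W1 π.KA
    (fun o _ y y' => hi (π.q ^ π.w0) (π.zt (o.1 : ℕ) π.rho y' - π.zt (o.1 : ℕ) π.rho y))
    (fun o i => eta (cs π.RA) (lab π.RA (π.phA (o.1 : ℕ) (π.x1 o i.2) i.1))
      (fun m : π.YA => π.zt (o.1 : ℕ) π.rho m) π.Rp π.Gp) π.Cd hW1 hKA π.one_le_Cd
    (fun _ _ => eta_nonneg _ _ _ _ _)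
    (fun o i ξ hξ => one h1 hL π π.RA _ hRA (fun m : π.YA => π.zt (o.1 : ℕ) π.rho m) ξ hξ)
    (fun o a => Ξ (Sum.elim (fun u => hi (π.q ^ π.w0)
      (π.zt (o.1 : ℕ) π.rho0 (o.2.2 u) - π.zt (o.1 : ℕ) π.rho0 (o.2.1 u))) a))
    (fun _ _ => hΞ _)
  have s0 := hD π.O0 Unit π.Y0 π.ZQ π.W0 π.K0
    (fun o _ y y' => hi (π.q ^ π.w0) (π.zt (o : ℕ) π.rho0 y' - π.zt (o : ℕ) π.rho0 y))
    (fun o _ => eta (cs π.R0) (lab π.R0 (π.ph0 (o : ℕ)))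
      (fun m : π.Y0 => π.zt (o : ℕ) π.rho0 m) π.Rp π.Gp) π.Cd hW0 hK0 π.one_le_Cd
    (fun _ _ => eta_nonneg _ _ _ _ _)
    (fun o _ ξ hξ => one h1 hL π π.R0 _ (fun _ => π.one_le_np _)
      (fun m : π.Y0 => π.zt (o : ℕ) π.rho0 m) ξ hξ)
    (fun _ a0 => 𝔼 a : IA π.d → π.ZQ, Ξ (Sum.elim a0 a))
    (fun _ _ => ⟨av_nonneg fun _ => (hΞ _).1, av_le_const fun _ => (hΞ _).2⟩)
  have tA := split π.W1 (fun o => 𝔼 a : IA π.d → π.ZQ, Ξ (Sum.elim (fun u => hi (π.q ^ π.w0)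
      (π.zt (o.1 : ℕ) π.rho0 (o.2.2 u) - π.zt (o.1 : ℕ) π.rho0 (o.2.1 u))) a))
    (fun o (i : IA π.d) => eta (cs π.RA) (lab π.RA (π.phA (o.1 : ℕ) (π.x1 o i.2) i.1))
      (fun m : π.YA => π.zt (o.1 : ℕ) π.rho m) π.Rp π.Gp) (1 / π.B)
    (fun i => (hF (fun a x => eta (cs π.RA) (lab π.RA (π.phA a x i.1))
      (fun m : π.YA => π.zt a π.rho m) π.Rp π.Gp) (1 / π.B) (hA π i.1)).1 i.2)
  have t0 := split π.W0 (fun _ => 𝔼 a0 : Unit → π.ZQ, 𝔼 a : IA π.d → π.ZQ, Ξ (Sum.elim a0 a))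
    (fun o (_ : Unit) => eta (cs π.R0) (lab π.R0 (π.ph0 (o : ℕ)))
      (fun m : π.Y0 => π.zt (o : ℕ) π.rho0 m) π.Rp π.Gp) (1 / π.B)
    (fun _ => by simpa only [Par.W0, one_mul] using h0 π)
  have t1 : 𝔼 o : π.O0, π.W0 o * 𝔼 a0 : Unit → π.ZQ, 𝔼 a : IA π.d → π.ZQ, Ξ (Sum.elim a0 a) ≤
      𝔼 z, Ξ z := av_den_le hW0 fun _ => (av_sum Ξ).le
  have e : ∀ o : π.O2, (fun i => hi (π.q ^ π.w0) (π.Zd o i)) =
      Sum.elim (fun u => hi (π.q ^ π.w0) (π.zt (o.1.1 : ℕ) π.rho0 (o.1.2.2 u) -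
        π.zt (o.1.1 : ℕ) π.rho0 (o.1.2.1 u)))
      (fun i => hi (π.q ^ π.w0) (π.zt (o.1.1 : ℕ) π.rho (o.2.2 i) -
        π.zt (o.1.1 : ℕ) π.rho (o.2.1 i))) := by
    intro o
    funext i
    cases i <;> rfl
  simp only [e]
  refine sA.trans ?_
  have hC := π.one_le_Cd
  have hB := one_div_pos.2 π.B_pos
  have hM : (Fintype.card (IA π.d) : ℝ) + 1 ≤ π.M0 := by exact_mod_cast π.hA
  rw [Fintype.card_sum, Fintype.card_unit, add_comm 1, pow_succ, mul_assoc]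
  refine mul_le_mul_of_nonneg_left (tA.trans ?_) (by positivity)
  rw [Fintype.card_unit, pow_one] at s0
  rw [Fintype.card_unit, Nat.cast_one, one_mul] at t0
  have u1 := s0.trans (mul_le_mul_of_nonneg_left (t0.trans (add_le_add le_rfl t1)) (by linarith))
  have u2 : (Fintype.card (IA π.d) : ℝ) * (1 / π.B) ≤
      π.Cd * (Fintype.card (IA π.d) * (1 / π.B)) :=
    le_mul_of_one_le_left (by positivity) hC
  have u3 : π.Cd * ((Fintype.card (IA π.d) + 1) * (1 / π.B)) ≤ π.Cd * (π.M0 * (1 / π.B)) := by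
    gcongr
  refine (add_le_add u2 u1).trans ?_
  rw [div_eq_mul_one_div (π.M0 : ℝ)]
  linarith

end Pool.Agent.MP_b1aeef_nt.G4
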