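import Pool.Agent.MP_b1aeef_nt.G4.Kit2

/-! Joint equidistribution of the value and the slope in the surviving window. -/

set_option autoImplicit false

namespace Pool.Agent.MP_b1aeef_nt.G4

open Finset
open scoped BigOperators

namespace REqW

theorem key (hW : WeylS) (π : Par) (e : ℕ) (h1 : 1 ≤ e) (h4 : e ≤ 4)
    (hT : π.sp ≤ 581 * π.mu + e * (999999050 * π.mu)) (u : ℝ) (hu : 1 ≤ |u|)
    (hu' : |u| ≤ 12 * π.M0 * π.B ^ 27) (φ : ℤ → ℝ) (F : Fin π.N → ℝ)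
    (hF : ∀ a, F a = φ ((a : ℕ) : ℤ)) (hφ : IsP e (u / (π.q : ℝ) ^ π.sp) φ) :
    ‖𝔼 a : Fin π.N, ee (F a)‖ ≤ 3 / ((π.q ^ (23 * π.mu) : ℕ) : ℝ) := by
  rw [funext hF]
  refine hW π.q e π.sp (581 * π.mu) (999999050 * π.mu) π.N (π.q ^ (23 * π.mu)) _ u 0 φ π.hq h1 h4
    hφ ?_ ?_ hT (by linarith) (π.one_le_np _) ?_ ?_
  · rw [div_mul_cancel₀ _ (π.qp_pos _).ne', Int.cast_zero, zero_mul, add_zero]
  · have := π.le_sm
    unfold Par.sp
    omega
  · push_cast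
    rw [← π.B_pow, ← π.B_pow, ← pow_mul]
    have h2 := π.M_le_B
    have h3 := π.M_ge
    have h5 := pow_pos π.B_pos 27
    have h6 : 48 * |u| ≤ π.B ^ 28 := by
      rw [pow_succ' π.B 27]
      nlinarith
    calc 48 * |u| * π.B ^ (23 * 24) ≤ π.B ^ 28 * π.B ^ (23 * 24) :=
          mul_le_mul_of_nonneg_right h6 (pow_pos π.B_pos _).le
      _ ≤ π.B ^ 581 := by rw [← pow_add]; exact π.Bp_le (by norm_num)
  · refine le_trans ?_ π.hN1
    have h2 : 2 ≤ π.q ^ π.mu :=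
      π.hq.trans (Nat.le_self_pow (by have := π.w_lt; omega) _)
    rw [← pow_mul, mul_assoc, ← pow_add,
      show 1000000000 * π.mu = π.mu + (999999050 * π.mu + 581 * π.mu + 23 * π.mu * 16) by ring,
      pow_add π.q π.mu]
    exact Nat.mul_le_mul_right _ h2

theorem size (π : Par) (n : ℤ) (hn0 : n ≠ 0) (hn : |n| < (π.q ^ (5 * π.mu) : ℕ)) (t : ℝ)
    (ht : 1 ≤ t) (ht' : t ≤ 12) (y y' : π.Yb) (hy : y ≠ y') :
    1 ≤ |(n : ℝ) * t * π.a π.d * (((y : ℕ) : ℝ) - (y' : ℕ))| ∧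
      |(n : ℝ) * t * π.a π.d * (((y : ℕ) : ℝ) - (y' : ℕ))| ≤ 12 * π.M0 * π.B ^ 27 := by
  have h1 : (1 : ℝ) ≤ |(n : ℝ)| := by exact_mod_cast Int.one_le_abs hn0
  have h2 : |(n : ℝ)| ≤ π.B ^ 5 := by
    rw [π.B_pow]
    exact_mod_cast hn.le
  have h3 : (1 : ℝ) ≤ |((y : ℕ) : ℝ) - (y' : ℕ)| := by
    have : (((y : ℕ) : ℤ) - (y' : ℕ)) ≠ 0 := fun h => hy (Fin.ext (by omega))
    exact_mod_cast Int.one_le_abs this
  have h4 : |((y : ℕ) : ℝ) - (y' : ℕ)| ≤ π.B ^ 22 := by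
    have h5 := π.Yb_le y
    have h6 := π.Yb_le y'
    have h7 : (0 : ℝ) ≤ (y : ℕ) := Nat.cast_nonneg _
    have h8 : (0 : ℝ) ≤ (y' : ℕ) := Nat.cast_nonneg _
    rw [abs_le]
    constructor <;> linarith
  have h5 := π.one_le_lead
  have h6 := π.lead_le
  rw [abs_mul, abs_mul, abs_mul, abs_of_pos (zero_lt_one.trans_le ht)]
  refine ⟨one_le_mul_of_one_le_of_one_le (one_le_mul_of_one_le_of_one_le
    (one_le_mul_of_one_le_of_one_le h1 ht) h5) h3, ?_⟩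
  have h7 := pow_pos π.B_pos 5
  calc |(n : ℝ)| * t * |(π.a π.d : ℝ)| * |((y : ℕ) : ℝ) - (y' : ℕ)|
      ≤ π.B ^ 5 * 12 * π.M0 * π.B ^ 22 := by gcongr
    _ = 12 * π.M0 * π.B ^ 27 := by ring

end REqW

open REqW

theorem eqWOf : EqWOf := by
  intro hG hW π c
  have hd3 := π.le_d
  have hd4 := π.d_le
  have hd3' : (3 : ℝ) ≤ π.d := by exact_mod_cast hd3
  have hd4' : (π.d : ℝ) ≤ 4 := by exact_mod_cast hd4
  have h1 := (hG π.O0 Bool π.Yb (fun _ => π.q ^ (5 * π.mu))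
    (fun a s => if s then π.fi (((a : ℕ) : ℤ) + c) else π.th (((a : ℕ) : ℤ) + c))
    (3 / ((π.q ^ (23 * π.mu) : ℕ) : ℝ)) (fun _ => π.one_le_np _) (by positivity)).2 ?_
  · rw [Fintype.prod_bool, ← sq] at h1
    refine h1.trans ?_
    have hB := π.B_pos
    have hB1 := π.one_le_B
    rw [Fintype.card_fin]
    push_cast
    rw [← π.B_pow, ← π.B_pow, ← π.B_pow]
    have h2 : √(1 / π.B ^ 22 + 3 / π.B ^ 23) ≤ 2 / π.B ^ 11 := by
      refine Real.sqrt_le_iff.2 ⟨by positivity, ?_⟩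
      have h3 : 3 / π.B ^ 23 ≤ 3 / π.B ^ 22 :=
        div_le_div_of_nonneg_left (by norm_num) (by positivity) (π.Bp_le (by norm_num))
      have h4 : (2 / π.B ^ 11) ^ 2 = 1 / π.B ^ 22 + 3 / π.B ^ 22 := by
        field_simp
        norm_num
      linarith
    refine (mul_le_mul_of_nonneg_left h2 (by positivity)).trans_eq ?_
    field_simp
  · intro n hn0 hn y y' hy
    obtain ⟨φ, hφd⟩ : ∃ φ : ℤ → ℝ, ∀ m, φ m = (n true : ℝ) / (π.q : ℝ) ^ π.sp *
            (π.P 1 (m + (c + (y : ℕ))) - π.P 1 (m + (c + (y' : ℕ)))) +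
          (n false : ℝ) / (π.q : ℝ) ^ π.sp *
            (π.P 0 (m + (c + (y : ℕ))) - π.P 0 (m + (c + (y' : ℕ)))) := ⟨_, fun _ => rfl⟩
    have hφ : ∀ a : π.O0, ∑ l, (n l : ℝ) *
        ((if l then π.fi (((a : ℕ) : ℤ) + c) else π.th (((a : ℕ) : ℤ) + c)) y -
          (if l then π.fi (((a : ℕ) : ℤ) + c) else π.th (((a : ℕ) : ℤ) + c)) y') =
        φ ((a : ℕ) : ℤ) := by
      intro a
      rw [Fintype.sum_bool, hφd]
      simp only [if_true, Bool.false_eq_true, if_false, Par.fi, Par.th, add_assoc]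
      ring
    by_cases h0 : n false = 0
    · have h2 : n true ≠ 0 := fun h => hn0 (funext fun l => by cases l <;> assumption)
      obtain ⟨h3, h4⟩ := size π _ h2 (hn true) ((π.d - 1) * π.d) (by nlinarith) (by nlinarith)
        y y' hy
      refine key hW π (π.d - 2) (by omega) (by omega) ?_ _ h3 h4 φ _ hφ
        (((π.isP1_diff (c + (y : ℕ)) (c + (y' : ℕ))).mul
          ((n true : ℝ) / (π.q : ℝ) ^ π.sp)).congr ?_ fun m => ?_)
      · have h5 := π.sp_le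
        have h6 := π.w_lt
        rcases π.cases with ⟨h, hk, -⟩ | ⟨h, -⟩
        · rw [Par.sp, π.sm_eq, hk, h]
          omega
        · rw [h]
          omega
      · push_cast
        ring
      · rw [hφd, h0, Int.cast_zero, zero_div, zero_mul, add_zero]
    · obtain ⟨h3, h4⟩ := size π _ h0 (hn false) π.d (by linarith) (by linarith) y y' hy
      refine key hW π (π.d - 1) (by omega) (by omega) ?_ _ h3 h4 φ _ hφ
        ((((π.isP_diff 0 (c + (y : ℕ)) (c + (y' : ℕ))).mul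
          ((n true : ℝ) / (π.q : ℝ) ^ π.sp)).add
          ((π.isP0_diff (c + (y : ℕ)) (c + (y' : ℕ))).mul
            ((n false : ℝ) / (π.q : ℝ) ^ π.sp))).congr ?_ fun m => (hφd m).symm)
      · have h5 := π.sp_le
        rcases π.cases with ⟨h, -⟩ | ⟨h, -⟩ <;> rw [h] <;> omega
      · push_cast
        ring

end Pool.Agent.MP_b1aeef_nt.G4
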