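import Pool.Agent.MP_b1aeef_nt.G4.Kit2

/-! Row Fej: the Fejer kernel. -/

set_option autoImplicit false

namespace Pool.Agent.MP_b1aeef_nt.G4

open Finset

namespace RFej

theorem nonneg (R : ℕ) (x : ℝ) : 0 ≤ fej R x := by
  unfold fej
  positivity

theorem expand (R : ℕ) (x : ℝ) : (fej R x : ℂ) =
    (∑ r ∈ range R, ∑ r' ∈ range R, ee (((r : ℝ) - r') * x)) / (R : ℂ) ^ 2 := by
  unfold fej
  push_cast
  congr 1
  rw [← Complex.mul_conj', map_sum, sum_mul_sum]
  refine sum_congr rfl fun r _ => sum_congr rfl fun r' _ => ?_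
  rw [sub_mul, ee_sub]

theorem per (R : ℕ) (x : ℝ) (n : ℤ) : fej R (x + n) = fej R x := by
  unfold fej
  congr 3
  refine sum_congr rfl fun r _ => ?_
  rw [← ee_add_int (r * x) (r * n)]
  congr 1
  push_cast
  ring

theorem part {R : ℕ} (hR : 1 ≤ R) (x : ℝ) : ∑ c ∈ range R, fej R (x - (c : ℝ) / R) = 1 := by
  have hR' : (R : ℂ) ≠ 0 := by exact_mod_cast (by omega : R ≠ 0)
  apply Complex.ofReal_injective
  rw [Complex.ofReal_sum, Complex.ofReal_one]
  simp only [expand]
  rw [← sum_div, sum_comm, div_eq_one_iff_eq (pow_ne_zero 2 hR')]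
  have h : ∀ r ∈ range R, ∑ c ∈ range R, ∑ r' ∈ range R,
      ee (((r : ℝ) - r') * (x - (c : ℝ) / R)) = (R : ℂ) := by
    intro r hr
    rw [sum_comm, sum_eq_single_of_mem r hr]
    · simp [ee_zero]
    · intro r' hr' hne
      have h1 := sum_ee_eq_zero R ((r' : ℤ) - r) (by omega) (by
        rw [mem_range] at hr hr'
        rw [abs_lt]
        omega)
      calc _ = ee (((r : ℝ) - r') * x) *
            ∑ c ∈ range R, ee (c * ((((r' : ℤ) - r : ℤ) : ℝ) / R)) := by
            rw [mul_sum]
            refine sum_congr rfl fun c _ => ?_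
            rw [← ee_add]
            congr 1
            push_cast
            ring
        _ = 0 := by rw [h1, mul_zero]
  rw [sum_congr rfl h]
  simp [sq]

theorem shift (R : ℕ) (G : ℤ → ℝ) (h : ∀ c, G (c + R) = G c) (k : ℤ) :
    ∑ j ∈ range R, G (k + j) = ∑ j ∈ range R, G j := by
  have step : ∀ k : ℤ, ∑ j ∈ range R, G (k + 1 + j) = ∑ j ∈ range R, G (k + j) := by
    intro k
    have h1 := sum_range_succ (fun j : ℕ => G (k + j)) R
    have h2 := sum_range_succ' (fun j : ℕ => G (k + j)) R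
    simp only [h, Nat.cast_zero, add_zero] at h1 h2
    have h3 : ∑ j ∈ range R, G (k + 1 + j) = ∑ j ∈ range R, G (k + (j + 1 : ℕ)) :=
      sum_congr rfl fun j _ => by
        congr 1
        push_cast
        ring
    linarith
  induction k using Int.induction_on with
  | zero => simp
  | succ k ih => rw [step, ih]
  | pred k ih => rw [← step, sub_add_cancel, ih]

theorem aux {D y a f : ℝ} (hD : 2 ≤ D) (h1 : D < y) (ha : 0 ≤ a) (h2 : a - 1 / 2 ≤ y)
    (hf : 4 * y ^ 2 * f ≤ 1) (h0 : 0 ≤ f) : f ≤ 1 / (D + a - 1) - 1 / (D + a) := by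
  have h3 : 0 < D + a - 1 := by linarith
  have h4 : 0 < D + a := by linarith
  have h5 : 1 / (D + a - 1) - 1 / (D + a) = 1 / ((D + a - 1) * (D + a)) := by
    field_simp
    ring
  rw [h5, le_div_iff₀ (mul_pos h3 h4)]
  have h6 : (D + a - 1) * (D + a) ≤ 4 * y ^ 2 := by nlinarith
  nlinarith

theorem gpos {D a : ℝ} (hD : 2 ≤ D) (ha : 0 ≤ a) : 0 ≤ 1 / (D + a - 1) - 1 / (D + a) :=
  sub_nonneg.2 (one_div_le_one_div_of_le (by linarith) (by linarith))

theorem tail {R : ℕ} (hR : 1 ≤ R) (x δ : ℝ) (hδ : 0 < δ) :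
    ∑ c ∈ range R, fej R (x - (c : ℝ) / R) * ind (δ < nd (x - (c : ℝ) / R)) ≤ 4 / (R * δ) := by
  have hR0 : (0 : ℝ) < R := by exact_mod_cast hR
  have hD0 : 0 < R * δ := mul_pos hR0 hδ
  rcases lt_or_ge (R * δ) 2 with hD | hD
  · calc _ ≤ ∑ c ∈ range R, fej R (x - (c : ℝ) / R) := sum_le_sum fun c _ =>
          mul_le_of_le_one_right (nonneg _ _) (ind_le_one _)
      _ = 1 := part hR x
      _ ≤ _ := by rw [le_div_iff₀ hD0]; linarith
  set D := R * δ with hDd
  have h1 := shift R (fun c => fej R (x - (c : ℝ) / R) * ind (δ < nd (x - (c : ℝ) / R)))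
    (fun c => by
      have e : x - ((c + R : ℤ) : ℝ) / R = x - (c : ℝ) / R + ((-1 : ℤ) : ℝ) := by
        push_cast
        field_simp
        ring
      simp only [e, per, nd_add_int]) (round (R * x))
  simp only [Int.cast_natCast] at h1
  rw [← h1]
  have h2 : ∀ j ∈ range R, fej R (x - ((round (R * x) + j : ℤ) : ℝ) / R) *
      ind (δ < nd (x - ((round (R * x) + j : ℤ) : ℝ) / R)) ≤
      (1 / (D + j - 1) - 1 / (D + (j + 1 : ℕ) - 1)) +
        (1 / (D + R - (j + 1 : ℕ)) - 1 / (D + R - j)) := by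
    intro j hj
    have hj' : (j : ℝ) ≤ R := by exact_mod_cast (mem_range.1 hj).le
    have g1 := gpos hD (Nat.cast_nonneg (α := ℝ) j)
    have g2 := gpos hD (sub_nonneg.2 hj')
    have e1 : D + (j + 1 : ℕ) - 1 = D + j := by push_cast; ring
    have e2 : D + R - (j + 1 : ℕ) = D + (R - j) - 1 := by push_cast; ring
    have e3 : D + R - j = D + (R - j) := by ring
    rw [e1, e2, e3]
    set z := x - ((round (R * x) + j : ℤ) : ℝ) / R with hz
    by_cases hc : δ < nd z
    · rw [ind_pos hc, mul_one]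
      have k1 : D < R * nd z := mul_lt_mul_of_pos_left hc hR0
      have k2 : 4 * (R * nd z) ^ 2 * fej R z ≤ 1 := by
        have k3 := geo z R
        have k4 : 4 * (R * nd z) ^ 2 * fej R z =
            (2 * nd z * ‖∑ r ∈ range R, ee (r * z)‖) ^ 2 := by
          unfold fej
          generalize ‖∑ r ∈ range R, ee (r * z)‖ = w
          field_simp
          ring
        rw [k4]
        exact pow_le_one₀ (mul_nonneg (mul_nonneg zero_le_two (nd_nonneg z)) (norm_nonneg _)) k3
      have k5 : R * nd z = |R * x - round (R * x) - j - R * round z| := by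
        rw [nd, ← abs_of_pos hR0, ← abs_mul, abs_of_pos hR0]
        congr 1
        rw [mul_sub, hz]
        push_cast
        field_simp
        ring
      have k6 := abs_le.1 (abs_sub_round (R * x))
      rcases le_or_gt 0 (round z) with hn | hn
      · have k7 : (0 : ℝ) ≤ R * round z := mul_nonneg hR0.le (by exact_mod_cast hn)
        have k8 := neg_le_abs (R * x - round (R * x) - j - R * round z)
        have := aux hD k1 (Nat.cast_nonneg j) (by linarith) k2 (nonneg _ _)
        linarith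
      · have k7 : (round z : ℝ) ≤ -1 := by exact_mod_cast (by omega : round z ≤ -1)
        have k8 := le_abs_self (R * x - round (R * x) - j - R * round z)
        have := aux hD k1 (sub_nonneg.2 hj') (by nlinarith) k2 (nonneg _ _)
        linarith
    · rw [ind_neg hc, mul_zero]
      linarith
  refine (sum_le_sum h2).trans ?_
  rw [sum_add_distrib, sum_range_sub' (fun j : ℕ => 1 / (D + j - 1)),
    sum_range_sub (fun j : ℕ => 1 / (D + R - j))]
  simp only [Nat.cast_zero, add_zero, sub_zero, add_sub_cancel_right]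
  have k1 : 0 < 1 / (D + R - 1) := one_div_pos.2 (by linarith)
  have k2 : 0 < 1 / (D + R) := one_div_pos.2 (by linarith)
  have k3 : 1 / (D - 1) ≤ 2 / D := by
    rw [div_le_div_iff₀ (by linarith) hD0]
    linarith
  have k4 : 1 / D ≤ 2 / D := div_le_div_of_nonneg_right (by norm_num) hD0.le
  have k5 : 4 / D = 2 / D + 2 / D := by ring
  linarith

theorem lower {R : ℕ} (hR : 1 ≤ R) (x : ℝ) (hx : nd x ≤ 1 / (7 * R)) : 1 / 4 ≤ fej R x := by
  have hR0 : (0 : ℝ) < R := by exact_mod_cast hR
  have e : x = (x - round x) + (round x : ℤ) := by ring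
  rw [e, per]
  set y := x - round x with hy
  have hy1 : R * |y| ≤ 1 / 7 := by
    have h1 : |y| ≤ 1 / (7 * R) := hx
    rw [le_div_iff₀ (by positivity)] at h1
    linarith
  have h1 : (R : ℝ) / 2 ≤ ‖∑ r ∈ range R, ee (r * y)‖ := by
    refine le_trans ?_ (Complex.re_le_norm _)
    rw [Complex.re_sum]
    calc (R : ℝ) / 2 = ∑ _r ∈ range R, (1 / 2 : ℝ) := by simp; ring
      _ ≤ _ := sum_le_sum fun r hr => by
        rw [ee_re]
        refine le_trans ?_ Real.one_sub_sq_div_two_le_cos
        have h2 : (r : ℝ) ≤ R := by exact_mod_cast (mem_range.1 hr).le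
        have h3 : |2 * Real.pi * (r * y)| ≤ 1 := by
          rw [abs_mul, abs_mul (r : ℝ), abs_of_pos (by positivity), Nat.abs_cast]
          have h4 : (r : ℝ) * |y| ≤ 1 / 7 :=
            (mul_le_mul_of_nonneg_right h2 (abs_nonneg y)).trans hy1
          nlinarith [Real.pi_lt_d2, Real.pi_pos, mul_nonneg (Nat.cast_nonneg (α := ℝ) r)
            (abs_nonneg y)]
        have h5 := (sq_le_one_iff_abs_le_one _).2 h3
        linarith
  unfold fej
  rw [le_div_iff₀ (by positivity)]
  nlinarith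

end RFej

theorem fejS : FejS := fun R hR =>
  ⟨RFej.nonneg R, RFej.part hR, RFej.tail hR, RFej.lower hR, RFej.expand R⟩

end Pool.Agent.MP_b1aeef_nt.G4
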