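import Pool.Agent.MP_b1aeef_nt.G4.Kit2

/-! Isolation of one point, carries, domination of the new directions. -/

set_option autoImplicit false

namespace Pool.Agent.MP_b1aeef_nt.G4

open Finset
open scoped BigOperators

namespace RFin

theorem wr_cong (hW : WinS) {q w Q R : ℕ} [NeZero R] (hq : 2 ≤ q) (hQ : Q = q ^ w) (x : ZMod R)
    (m : ℤ) (hx : (m : ZMod R) = x) (t s : ℝ) (hs : s = (m : ℝ) / R + t) :
    wr q w ((Q : ℝ) * ((x.val : ℝ) / R + t)) = wr q w ((Q : ℝ) * s) := by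
  have h1 : ((x.val : ℤ) : ZMod R) = (m : ZMod R) := by rw [hx]; simp
  obtain ⟨n, hn⟩ := (ZMod.intCast_eq_intCast_iff_dvd_sub _ _ _).1 h1
  have hR : (R : ℝ) ≠ 0 := Nat.cast_ne_zero.2 (NeZero.ne R)
  have h2 : (m : ℝ) = x.val + R * n := by
    have : m = (x.val : ℤ) + R * n := by linarith
    exact_mod_cast this
  rw [← (hW q hq).2.2.2.2.1 w _ n, hs, h2, hQ]
  congr 1
  push_cast
  field_simp
  ring

theorem av_zero {R : ℕ} [NeZero R] (n : ℤ) (h0 : n ≠ 0) (h : |n| < R) :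
    𝔼 y : ZMod R, ee ((y.val : ℝ) * ((n : ℝ) / R)) = 0 := by
  rw [expect_eq_sum_div_card]
  have h1 : ∑ y : ZMod R, ee ((y.val : ℝ) * ((n : ℝ) / R)) =
      ∑ r ∈ range R, ee (r * ((n : ℝ) / R)) :=
    sum_nbij' (fun y => y.val) (fun r => (r : ZMod R)) (fun y _ => mem_range.2 (ZMod.val_lt y))
      (fun _ _ => mem_univ _) (fun y _ => by simp)
      (fun r hr => ZMod.val_cast_of_lt (mem_range.1 hr)) fun _ _ => rfl
  rw [h1, sum_ee_eq_zero R n h0 h, zero_div]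

theorem dom1 (hD : Dom1S) {Q R Rp Hv : ℕ} [NeZero Q] [NeZero R] (h1 : 1 ≤ Rp) (h2 : 7 * Rp ≤ Q)
    (h3 : Rp * Hv ≤ R) (n : ℤ) (h0 : n ≠ 0) (hn : |n| ≤ Hv) (ξ : ZMod Q → ℝ)
    (hξ : ∀ a, 0 ≤ ξ a ∧ ξ a ≤ 1) :
    𝔼 y : ZMod R, 𝔼 y' : ZMod R, ξ (hi Q ((n : ℝ) * y'.val / R - (n : ℝ) * y.val / R)) ≤
      8 * (Q : ℝ) / Rp * 𝔼 a, ξ a := by
  have h := hD Unit (ZMod R) {()} (fun _ _ => 1) (fun y => (n : ℝ) * y.val / R) Q Rp 1
    ⟨fun _ _ => zero_le_one, fun _ => by simp⟩ h1 le_rfl (by omega) ξ hξ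
  have e1 : ∀ y y' : ZMod R, ker {()} (fun (_ : Unit) (_ : ZMod R) => (1 : ℝ)) y y' = 1 := by
    intro y y'
    simp [ker]
  have e2 : eta {()} (fun (_ : Unit) (_ : ZMod R) => (1 : ℝ))
      (fun y => (n : ℝ) * y.val / R) Rp 1 = 0 := by
    unfold eta
    rw [sum_singleton, sum_eq_zero, mul_zero]
    intro k hk
    obtain ⟨k1, k2⟩ := mem_Ico.1 hk
    have a1 : (k : ℤ) * n ≠ 0 := mul_ne_zero (by omega) h0
    have a2 : |(k : ℤ) * n| < R := by
      rw [abs_mul, Nat.abs_cast]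
      have b1 : (k : ℤ) + 1 ≤ Rp := by omega
      have b2 : (Rp : ℤ) * Hv ≤ R := by exact_mod_cast h3
      have b3 := Int.one_le_abs h0
      nlinarith
    rw [norm_eq_zero, ← av_zero (R := R) _ a1 a2]
    refine expect_congr rfl fun y _ => ?_
    push_cast
    rw [one_mul]
    congr 1
    ring
  simp only [e1, e2, one_mul, zero_add] at h
  exact h

theorem sum_cube {I T : Type} [Fintype I] [DecidableEq I] [Fintype T] [DecidableEq T]
    [DecidableEq (I ⊕ T)] (G : (I → Bool) → (T → Bool) → ℝ) :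
    ∑ ω : T → Bool, sg ω * ∑ γ : I → Bool, sg γ * G γ ω =
      ∑ Ω : I ⊕ T → Bool, sg Ω * G (fun i => Ω (Sum.inl i)) fun t => Ω (Sum.inr t) := by
  rw [← (Equiv.sumArrowEquivProdArrow I T Bool).symm.sum_comp, Fintype.sum_prod_type_right]
  refine sum_congr rfl fun ω _ => ?_
  rw [mul_sum]
  refine sum_congr rfl fun γ _ => ?_
  rw [sg_sum]
  simp only [Equiv.sumArrowEquivProdArrow_symm_apply_inl,
    Equiv.sumArrowEquivProdArrow_symm_apply_inr]
  ring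

end RFin

open RFin

theorem finOf : FinOf := by
  intro hW hI hC hD hD1 q w Q R Rp Hv _ _ hq hQ hQR h1 h2 h3 h4 I T _ _ _ _ _ τ0 v al κ Z hv
  refine le_rt _ (norm_nonneg _) ?_
  have hiso := hI T τ0 R v fun τ c => al τ * ∑ γ : I → Bool, sg γ *
    wr q w ((Q : ℝ) * ((c.val : ℝ) / R + (κ τ + ∑ i, if γ i then Z i else 0)))
  have e1 : ∀ (c : ZMod R × ZMod R) (τ : T) (γ : I → Bool),
      wr q w ((Q : ℝ) * (((c.1 + (v τ : ZMod R) * c.2).val : ℝ) / R +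
        (κ τ + ∑ i, if γ i then Z i else 0))) =
      wr q w ((Q : ℝ) * (((c.1.val : ℝ) + v τ * (c.2.val : ℝ)) / R + κ τ +
        ∑ i, if γ i then Z i else 0)) := fun c τ γ =>
    wr_cong hW hq hQ _ ((c.1.val : ℤ) + v τ * (c.2.val : ℤ)) (by simp) _ _ (by push_cast; ring)
  simp only [e1] at hiso
  refine hiso.trans ?_
  have hdl : ∀ τ, dl v τ0 τ ≠ 0 ∧ |dl v τ0 τ| ≤ Hv := by
    intro τ
    unfold dl
    split_ifs with h
    · exact ⟨one_ne_zero, by rw [abs_one]; exact_mod_cast h4⟩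
    · exact ⟨sub_ne_zero.2 (hv τ h).1.symm, (hv τ h).2⟩
  have hRp : (0 : ℝ) < Rp := by exact_mod_cast h1
  have hC1 : 1 ≤ 8 * (Q : ℝ) / Rp := by
    have : (7 : ℝ) * Rp ≤ Q := by exact_mod_cast h2
    rw [le_div_iff₀ hRp]
    linarith
  have hdom := hD Unit T (ZMod R) (ZMod Q) (fun _ => 1) (fun _ _ _ _ => 1)
    (fun _ τ y y' => hi Q ((dl v τ0 τ : ℝ) * y'.val / R - (dl v τ0 τ : ℝ) * y.val / R))
    (fun _ _ => 0) (8 * (Q : ℝ) / Rp) ⟨fun _ => zero_le_one, av_const 1⟩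
    (fun _ _ => ⟨fun _ _ => zero_le_one, fun _ _ => rfl, fun _ => av_const 1⟩) hC1
    (fun _ _ => le_rfl) (fun _ τ ξ hξ => by
      simp only [one_mul, zero_add]
      exact dom1 hD1 h1 h2 h3 _ (hdl τ).1 (hdl τ).2 ξ hξ)
    (fun _ z => xi q (al τ0) (Sum.elim (fun i => hi Q (Z i)) z)) fun _ _ => xi_mem _ _ _
  rw [av_prod] at hdom
  simp only [nw, prod_const_one, one_mul, sum_const_zero, zero_add, av_const] at hdom
  refine le_trans (av_le fun j => ?_) hdom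
  have hcar := hC q w Q R hq hQ hQR (I ⊕ T) (al τ0) (κ τ0) (Sum.elim Z fun τ =>
    (dl v τ0 τ : ℝ) * (j.2 τ).val / R - (dl v τ0 τ : ℝ) * (j.1 τ).val / R)
  refine le_trans (le_of_eq ?_) (hcar.trans (le_of_eq ?_))
  · congr 1
    refine expect_congr rfl fun c _ => ?_
    congr 1
    have e2 : ∀ (ω : T → Bool) (γ : I → Bool),
        wr q w ((Q : ℝ) * (((c + ∑ τ, if ω τ then (dl v τ0 τ : ZMod R) * (j.2 τ - j.1 τ)
          else 0).val : ℝ) / R + (κ τ0 + ∑ i, if γ i then Z i else 0))) =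
        wr q w ((Q : ℝ) * ((c.val : ℝ) / R + κ τ0 + ((∑ i, if γ i then Z i else 0) +
          ∑ τ, if ω τ then (dl v τ0 τ : ℝ) * (j.2 τ).val / R -
            (dl v τ0 τ : ℝ) * (j.1 τ).val / R else 0))) := by
      intro ω γ
      refine wr_cong hW hq hQ _ ((c.val : ℤ) + ∑ τ, if ω τ then
        dl v τ0 τ * (((j.2 τ).val : ℤ) - ((j.1 τ).val : ℤ)) else 0) (by simp) _ _ ?_
      push_cast
      rw [add_div, sum_div]
      have e3 : ∀ τ, (if ω τ then (dl v τ0 τ : ℝ) * (((j.2 τ).val : ℝ) - ((j.1 τ).val : ℝ))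
          else 0) / R = if ω τ then (dl v τ0 τ : ℝ) * (j.2 τ).val / R -
            (dl v τ0 τ : ℝ) * (j.1 τ).val / R else 0 := by
        intro τ
        split_ifs
        · ring
        · ring
      simp only [e3]
      ring
    simp only [e2, Fintype.sum_sum_type, Sum.elim_inl, Sum.elim_inr]
    rw [← sum_cube fun γ ω => wr q w ((Q : ℝ) * ((c.val : ℝ) / R + κ τ0 +
      ((∑ i, if γ i then Z i else 0) + ∑ τ, if ω τ then (dl v τ0 τ : ℝ) * (j.2 τ).val / R -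
        (dl v τ0 τ : ℝ) * (j.1 τ).val / R else 0))), mul_sum]
    exact sum_congr rfl fun ω _ => by ring
  · congr 1
    funext s
    rcases s with i | τ <;> rfl

end Pool.Agent.MP_b1aeef_nt.G4
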