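import Pool.Agent.MP_b1aeef_nt.G4.Kit2

/-! The last stage for fixed outer variables. -/

set_option autoImplicit false

namespace Pool.Agent.MP_b1aeef_nt.G4

open Finset
open scoped BigOperators

namespace RFin1

theorem reord {J U V L : Type} [Fintype J] [DecidableEq J] [Fintype U] [DecidableEq U] [Fintype V]
    [DecidableEq V] [DecidableEq (U ⊕ V)] [Fintype L] (al : L → ℝ)
    (G : (U → Bool) × (V → Bool) → (J → Bool) → L → ℝ) :
    ∑ ε : J → Bool, sg ε * ∑ γ : (U → Bool) × (V → Bool), sg γ.1 * sg γ.2 * ∑ l, al l * G γ ε l =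
      ∑ τ : (J → Bool) × L, sg τ.1 * al τ.2 * ∑ γ : U ⊕ V → Bool, sg γ *
        G (fun u => γ (Sum.inl u), fun i => γ (Sum.inr i)) τ.1 τ.2 := by
  rw [Fintype.sum_prod_type (f := fun τ : (J → Bool) × L => sg τ.1 * al τ.2 *
    ∑ γ : U ⊕ V → Bool, sg γ * G (fun u => γ (Sum.inl u), fun i => γ (Sum.inr i)) τ.1 τ.2)]
  refine sum_congr rfl fun ε _ => ?_
  have h : ∀ l, ∑ γ : U ⊕ V → Bool, sg γ * G (fun u => γ (Sum.inl u), fun i => γ (Sum.inr i)) ε l =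
      ∑ γ : (U → Bool) × (V → Bool), sg γ.1 * sg γ.2 * G γ ε l := fun l =>
    Fintype.sum_equiv (Equiv.sumArrowEquivProdArrow U V Bool) _ _ fun γ => by
      rw [sg_sum]; rfl
  simp only [h, mul_sum]
  rw [sum_comm]
  exact sum_congr rfl fun l _ => sum_congr rfl fun γ _ => by ring

theorem sum_cases {ι : Type} [Fintype ι] {f : ι → ℝ} (h : ∀ i, f i = 0 ∨ 1 ≤ f i) :
    ∑ i, f i = 0 ∨ 1 ≤ ∑ i, f i := by
  by_cases h0 : ∀ i, f i = 0
  · exact Or.inl (sum_eq_zero fun i _ => h0 i)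
  · obtain ⟨i, hi⟩ := not_forall.1 h0
    exact Or.inr (((h i).resolve_left hi).trans (single_le_sum
      (fun j _ => (h j).elim (fun e => e.ge) zero_le_one.trans) (mem_univ i)))

theorem ind_cases (p : Prop) : ind p = 0 ∨ 1 ≤ ind p := by
  by_cases h : p
  · exact Or.inr (ind_pos h).ge
  · exact Or.inl (ind_neg h)

theorem add_cases {a b : ℝ} (ha : a = 0 ∨ 1 ≤ a) (hb : b = 0 ∨ 1 ≤ b) : a + b = 0 ∨ 1 ≤ a + b := by
  rcases ha with ha | ha <;> rcases hb with hb | hb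
  · exact Or.inl (by linarith)
  all_goals exact Or.inr (by linarith)

theorem farW_cases (π : Par) (o : π.O2) : π.farW o = 0 ∨ 1 ≤ π.farW o :=
  add_cases (sum_cases fun _ => ind_cases _) (sum_cases fun _ => sum_cases fun _ => ind_cases _)

theorem small (π : Par) : 16 / (((π.q ^ (5 * π.mu) : ℕ) : ℝ) * π.dF) ≤ 1 / π.E := by
  have h1 : ((π.q ^ (5 * π.mu) : ℕ) : ℝ) = π.B ^ 5 := by rw [π.B_pow]; push_cast; rfl
  have hB := π.B_pos
  have hE := π.E_pos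
  have hQ := π.Qr_pos
  have h2 : π.B ^ 5 * π.dF = π.B / (56 * π.E * π.Qr) := by
    unfold Par.dF Par.eps
    field_simp
    norm_num
  rw [h1, h2, div_div_eq_mul_div, div_le_div_iff₀ hB hE]
  have h3 : 0 < π.Qr * π.E ^ 2 := by positivity
  nlinarith [π.big, π.M_ge]

theorem dF_pos (π : Par) : 0 < π.dF := by
  have hB := π.B_pos
  have hQ := π.Qr_pos
  have he := π.eps_pos
  unfold Par.dF
  positivity

theorem vt_diff (π : Par) (o : π.O3) (τ τ' : Ta π.d π.k) :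
    |π.vt o τ - π.vt o τ'| ≤ ((π.q ^ (4 * π.mu) : ℕ) : ℤ) := by
  have h : ∀ τ, π.vt o τ ≤ ((π.q ^ (4 * π.mu) : ℕ) : ℤ) := fun τ => by
    have h1 := π.vt_le o τ
    rw [π.B_pow] at h1
    exact_mod_cast h1
  rw [abs_le]
  constructor <;> linarith [h τ, h τ', π.vt_nonneg o τ, π.vt_nonneg o τ']

end RFin1

theorem fin1Of : Fin1Of := by
  intro hW hE hF hI π o
  have p1 : 0 ≤ π.farW o.1 := (RFin1.farW_cases π o.1).elim (fun e => e.ge) zero_le_one.trans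
  have p2 : 0 ≤ ∑ γ : Ga π.d, ∑ τ : Ta π.d π.k,
      𝔼 b : π.Yb, π.bd π.sm (π.x3 o γ τ.1 + (b : ℕ) + (τ.2 : ℕ)) :=
    sum_nonneg fun _ _ => sum_nonneg fun _ _ => av_nonneg fun _ => π.bd_nonneg _ _
  have p3 : 0 ≤ 1 / π.E := (one_div_pos.2 π.E_pos).le
  have p4 : 0 ≤ def2 (π.q ^ (5 * π.mu)) (π.th (π.x0 o.1)) (π.fi (π.x0 o.1)) :=
    sum_nonneg fun _ _ => abs_nonneg _
  have p5 := ind_nonneg (∃ τ, τ ≠ π.tau0 ∧ π.vt o τ = π.vt o π.tau0)
  have p6 : 0 ≤ rt (Fintype.card (Ta π.d π.k)) (π.Cd ^ Fintype.card (Ta π.d π.k) *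
      𝔼 z : Ta π.d π.k → π.ZQ,
        xi π.q (π.al π.l0) (Sum.elim (fun i => hi (π.q ^ π.w0) (π.Zd o.1 i)) z)) :=
    rt_nonneg _ (mul_nonneg (pow_nonneg (zero_le_one.trans π.one_le_Cd) _)
      (av_nonneg fun _ => (xi_mem _ _ _).1))
  rcases RFin1.farW_cases π o.1 with hfar | hfar
  swap
  · exact (norm_av_ee_le _).trans (by linarith)
  by_cases hc : ∃ τ, τ ≠ π.tau0 ∧ π.vt o τ = π.vt o π.tau0
  · have h1 := ind_pos hc
    exact (norm_av_ee_le _).trans (by linarith)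
  have hwl := π.w_lt
  have h1 := hF π.q π.w0 (π.q ^ π.w0) (π.q ^ (5 * π.mu)) π.Rp (π.q ^ (4 * π.mu)) π.hq rfl
    (pow_dvd_pow _ (by omega)) (π.one_le_np _)
    (le_trans (Nat.mul_le_mul_right _ (Nat.le_mul_of_pos_right 7 (π.one_le_np _))) π.GR_le)
    ((Nat.mul_le_mul_right _ π.Rp_le).trans (by rw [← pow_add]; exact le_of_eq (by congr 1; ring)))
    (π.one_le_np _) (I0 π.d) (Ta π.d π.k) π.tau0 (π.vt o) (fun τ => sg τ.1 * π.al τ.2)
    (fun τ => π.kap (π.x0 o.1) (π.vt o τ)) (π.Zd o.1)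
    (fun τ hτ => ⟨fun e => hc ⟨τ, hτ, e⟩, RFin1.vt_diff π o _ _⟩)
  have h2 : sg (π.tau0).1 * π.al (π.tau0).2 = π.al π.l0 := by
    rw [Par.tau0, sg_false, one_mul]
  rw [← π.Cd_eq, h2] at h1
  have h3 := hE π.Yb (π.q ^ (5 * π.mu)) (π.th (π.x0 o.1)) (π.fi (π.x0 o.1))
    (fun b => 2 * ∑ γ : Ga π.d, ∑ τ : Ta π.d π.k, π.bd π.sm (π.x3 o γ τ.1 + (b : ℕ) + (τ.2 : ℕ)))
    (fun z => ee (∑ ε : IB π.d → Bool, sg ε * ∑ γ : Ga π.d, sg γ.1 * sg γ.2 *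
      π.fW (π.x3 o γ ε + (z : ℕ))))
    (fun c => ee (∑ τ : Ta π.d π.k, sg τ.1 * π.al τ.2 * ∑ γ : I0 π.d → Bool, sg γ *
      wr π.q π.w0 (((π.q ^ π.w0 : ℕ) : ℝ) * (((c.1.val : ℝ) + π.vt o τ * (c.2.val : ℝ)) /
        ((π.q ^ (5 * π.mu) : ℕ) : ℝ) + π.kap (π.x0 o.1) (π.vt o τ) +
          ∑ i, if γ i then π.Zd o.1 i else 0))))
    π.dF (RFin1.dF_pos π) (fun _ => (norm_ee _).le) (fun _ => (norm_ee _).le)
    (fun b => mul_nonneg zero_le_two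
      (sum_nonneg fun _ _ => sum_nonneg fun _ _ => π.bd_nonneg _ _))
    (fun b c c1 c2 => by
      rcases RFin1.sum_cases (f := fun γ : Ga π.d => ∑ τ : Ta π.d π.k,
        π.bd π.sm (π.x3 o γ τ.1 + (b : ℕ) + (τ.2 : ℕ)))
        (fun _ => RFin1.sum_cases fun _ => RFin1.ind_cases _) with h4 | h4
      swap
      · exact (norm_ee_sub_le _ _).trans (by linarith)
      have h5 : ∀ (γ : Ga π.d) (τ : Ta π.d π.k),
          π.eps < nd (π.P 0 (π.x3 o γ τ.1 + (b : ℕ) + (τ.2 : ℕ)) / (π.q : ℝ) ^ π.sm) := by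
        intro γ τ
        have h6 := (sum_eq_zero_iff_of_nonneg fun _ _ => π.bd_nonneg _ _).1
          ((sum_eq_zero_iff_of_nonneg fun _ _ => sum_nonneg fun _ _ => π.bd_nonneg _ _).1 h4 γ
            (mem_univ _)) τ (mem_univ _)
        by_contra h7
        exact one_ne_zero ((ind_pos (not_lt.1 h7)).symm.trans h6)
      refine le_trans (le_of_eq ?_) (by linarith : (0 : ℝ) ≤ _)
      rw [norm_eq_zero, sub_eq_zero]
      refine congrArg ee ((RFin1.reord π.al fun γ ε l =>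
        wr π.q π.w0 (π.P 0 (π.x3 o γ ε + (b : ℕ) + (l : ℕ)) / (π.q : ℝ) ^ π.sm)).trans ?_)
      refine sum_congr rfl fun τ _ => congrArg _ (sum_congr rfl fun γ _ => congrArg _ ?_)
      refine (hW π.q π.hq).2.2.2.1 π.w0 _ _ π.eps ?_ (h5 _ τ)
      have h6 := hI π o b γ τ _ _ hfar c1 c2
      rw [add_div, mul_div_assoc, Nat.cast_pow π.q π.w0]
      exact h6)
  have h4 : 𝔼 b : π.Yb, (2 * ∑ γ : Ga π.d, ∑ τ : Ta π.d π.k,
      π.bd π.sm (π.x3 o γ τ.1 + (b : ℕ) + (τ.2 : ℕ))) = 2 * ∑ γ : Ga π.d, ∑ τ : Ta π.d π.k,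
        𝔼 b : π.Yb, π.bd π.sm (π.x3 o γ τ.1 + (b : ℕ) + (τ.2 : ℕ)) := by
    rw [← mul_expect, expect_sum_comm]
    exact congrArg _ (sum_congr rfl fun γ _ => expect_sum_comm _ _ _)
  rw [h4] at h3
  have h5 := RFin1.small π
  linarith

end Pool.Agent.MP_b1aeef_nt.G4
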