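import Pool.Agent.MP_b1aeef_nt.G4.Kit2

/-! The last stage, averaged over the outer variables. -/

set_option autoImplicit false

namespace Pool.Agent.MP_b1aeef_nt.G4

open Finset
open scoped BigOperators

namespace RFinG

theorem six {O : Type} [Fintype O] {W f t1 t2 t4 t5 t6 : O → ℝ} {t3 : ℝ} (hW : IsDen W)
    (h : ∀ o, f o ≤ 2 * t1 o + 2 * t2 o + t3 + t4 o + t5 o + t6 o) :
    𝔼 o, W o * f o ≤ 2 * (𝔼 o, W o * t1 o) + 2 * (𝔼 o, W o * t2 o) + t3 + (𝔼 o, W o * t4 o) +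
      (𝔼 o, W o * t5 o) + 𝔼 o, W o * t6 o := by
  have h1 : ∀ o, W o * f o ≤ 2 * (W o * t1 o) + 2 * (W o * t2 o) + W o * t3 + W o * t4 o +
      W o * t5 o + W o * t6 o := fun o =>
    (mul_le_mul_of_nonneg_left (h o) (hW.1 o)).trans_eq (by ring)
  refine (av_le h1).trans_eq ?_
  simp only [expect_add_distrib]
  rw [← mul_expect, ← mul_expect, ← expect_mul, hW.2, one_mul]

theorem dsum {O A B : Type} [Fintype O] [Fintype A] [Fintype B] {W : O → ℝ} {f : O → A → B → ℝ}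
    {c : ℝ} (h : ∀ a b, 𝔼 o, W o * f o a b ≤ c) :
    𝔼 o, W o * ∑ a, ∑ b, f o a b ≤ Fintype.card A * (Fintype.card B * c) := by
  simp only [mul_sum, expect_sum_comm]
  refine (sum_le_sum fun a _ => sum_le_sum fun b _ => h a b).trans_eq ?_
  simp only [sum_const, card_univ, nsmul_eq_mul]

theorem elim {A B X : Type} [Fintype A] [DecidableEq A] [Fintype B] [DecidableEq B]
    [DecidableEq (A ⊕ B)] [Fintype X] (g : (A ⊕ B → X) → ℝ) :
    𝔼 z0 : A → X, 𝔼 z : B → X, g (Sum.elim z0 z) = 𝔼 z, g z := by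
  rw [← av_prod (fun p : (A → X) × (B → X) => g (Sum.elim p.1 p.2))]
  refine expect_equiv (Equiv.sumArrowEquivProdArrow A B X).symm (by simp) fun p _ => ?_
  rfl

theorem num {M G T E B : ℝ} (hM : 1000 ≤ M) (hG : 1 ≤ G) (hT : 1 ≤ T) (hE : 0 < E)
    (hB : 1000 * E ≤ B) :
    2 * (3 * M / E) + 2 * (G * (T * (8 / E))) + 1 / E + 2 / B + T / B ≤ 100 * M * G * T / E := by
  have h1 : 2 / B ≤ 2 / E := div_le_div_of_nonneg_left (by norm_num) hE (by linarith)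
  have h2 : T / B ≤ T / E := div_le_div_of_nonneg_left (by linarith) hE (by linarith)
  have h3 : 2 * (3 * M / E) + 2 * (G * (T * (8 / E))) + 1 / E + 2 / E + T / E =
      (6 * M + 16 * (G * T) + 3 + T) / E := by ring
  have h4 : T ≤ G * T := by nlinarith
  have h5 : 6 * M + 16 * (G * T) + 3 + T ≤ 100 * M * G * T := by nlinarith
  have h6 := div_le_div_of_nonneg_right h5 hE.le
  linarith

theorem root {O A B X : Type} [Fintype O] [Fintype A] [DecidableEq A] [Fintype B] [Nonempty X]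
    [DecidableEq B] [DecidableEq (A ⊕ B)] [Fintype X] {W : O → ℝ} (hW : IsDen W)
    (g : (A ⊕ B → X) → ℝ) (hg : ∀ z, 0 ≤ g z ∧ g z ≤ 1) (z : O → A → X) {C c : ℝ} (hC : 1 ≤ C)
    (h : ∀ Ξ : (A → X) → ℝ, (∀ z, 0 ≤ Ξ z ∧ Ξ z ≤ 1) →
      𝔼 o, W o * Ξ (z o) ≤ C ^ Fintype.card A * (c + 𝔼 z, Ξ z)) :
    𝔼 o, W o * rt (Fintype.card B) (C ^ Fintype.card B * 𝔼 y : B → X, g (Sum.elim (z o) y)) ≤
      rt (Fintype.card B) (C ^ Fintype.card (A ⊕ B) * (c + 𝔼 y, g y)) := by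
  have hp : 0 ≤ C ^ Fintype.card B := by positivity
  have h0 : ∀ o, 0 ≤ C ^ Fintype.card B * 𝔼 y : B → X, g (Sum.elim (z o) y) :=
    fun o => mul_nonneg hp (av_nonneg fun y => (hg _).1)
  refine (av_rt_le hW h0 _).trans
    (rt_mono _ (av_nonneg fun o => mul_nonneg (hW.1 o) (h0 o)) ?_)
  have h1 := h (fun a => 𝔼 y : B → X, g (Sum.elim a y))
    fun a => ⟨av_nonneg fun y => (hg _).1, av_le_const fun y => (hg _).2⟩
  rw [elim g] at h1
  simp only [mul_left_comm (W _)]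
  rw [← mul_expect, Fintype.card_sum, pow_add, mul_comm (C ^ Fintype.card A), mul_assoc]
  exact mul_le_mul_of_nonneg_left h1 hp

end RFinG

theorem finGOf : FinGOf := by
  intro hN hV hBd hEq hCo hFar hDom hFin π
  obtain ⟨-, -, d2, d3, -, -, kB, hF⟩ := hV π
  have marg : ∀ h : π.O2 → ℝ, 𝔼 o : π.O3, π.W3 o * h o.1 = 𝔼 o, π.W2 o * h o := by
    intro h
    have h1 := (hN π.O2 (IB π.d) π.YB π.W2 π.KB d2 kB).2.1 (fun _ => false) fun o _ => h o
    simp only [av_const] at h1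
    exact h1
  have t1 : 𝔼 o : π.O3, π.W3 o * π.farW o.1 ≤ 3 * π.M0 / π.E := (marg _).trans_le (hFar π)
  have hs : π.rho ≤ π.sm := Nat.le_add_right _ _
  have hs' : π.sm ≤ π.ts + K3 π.d * π.mu := by
    unfold Par.ts Par.tc Par.sp
    omega
  have t2 : 𝔼 o : π.O3, π.W3 o * ∑ γ : Ga π.d, ∑ τ : Ta π.d π.k,
      𝔼 b : π.Yb, π.bd π.sm (π.x3 o γ τ.1 + (b : ℕ) + (τ.2 : ℕ)) ≤
      Fintype.card (Ga π.d) * (Fintype.card (Ta π.d π.k) * (8 / π.E)) := by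
    refine RFinG.dsum fun γ τ => av_den_av_le fun b => ?_
    refine (hF (fun _ x => π.bd π.sm (x + (b : ℕ) + (τ.2 : ℕ))) _ fun c => ?_).2.2 γ τ.1
    simp only [add_assoc]
    exact hBd π π.sm _ hs hs'
  have t4 : 𝔼 o : π.O3, π.W3 o *
      def2 (π.q ^ (5 * π.mu)) (π.th (π.x0 o.1)) (π.fi (π.x0 o.1)) ≤ 2 / π.B :=
    (marg fun o => def2 (π.q ^ (5 * π.mu)) (π.th (π.x0 o)) (π.fi (π.x0 o))).trans_le
      ((hF (fun _ x => def2 (π.q ^ (5 * π.mu)) (π.th x) (π.fi x)) _ (hEq π)).2.1 _)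
  have t6 := (marg fun o => rt (Fintype.card (Ta π.d π.k)) (π.Cd ^ Fintype.card (Ta π.d π.k) *
      𝔼 z : Ta π.d π.k → π.ZQ,
        xi π.q (π.al π.l0) (Sum.elim (fun i => hi (π.q ^ π.w0) (π.Zd o i)) z))).trans_le
    (RFinG.root d2 (xi π.q (π.al π.l0)) (xi_mem _ _) (fun o i => hi (π.q ^ π.w0) (π.Zd o i))
      π.one_le_Cd (hDom π))
  have hG : (1 : ℝ) ≤ Fintype.card (Ga π.d) := by
    exact_mod_cast Fintype.card_pos_iff.2 ⟨(fun _ => false, fun _ => false)⟩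
  have hT : (1 : ℝ) ≤ Fintype.card (Ta π.d π.k) := by
    exact_mod_cast Fintype.card_pos_iff.2 ⟨π.tau0⟩
  have h7 := RFinG.num π.M_ge hG hT π.E_pos π.E_le_B
  have h8 := RFinG.six d3 (hFin π)
  have t5 := hCo π
  unfold Par.A3
  linarith

end Pool.Agent.MP_b1aeef_nt.G4
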