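import Pool.Agent.MP_b1aeef_nt.G4.Kit2

/-! Generic equidistribution of Fejer labels. -/

set_option autoImplicit false

namespace Pool.Agent.MP_b1aeef_nt.G4

open Finset
open scoped BigOperators

namespace RGen

variable {L Y : Type} [Fintype L] [DecidableEq L]

theorem card_cs (R : L → ℕ) : ((cs R).card : ℝ) = ∏ l, (R l : ℝ) := by
  simp [cs, Fintype.card_piFinset]

theorem lab_eq (hF : FejS) (R : L → ℕ) (hR : ∀ l, 1 ≤ R l) (Φ : L → Y → ℝ) (c : L → ℕ) (y : Y) :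
    (lab R Φ c y : ℂ) = (∑ r ∈ cs R, ∑ r' ∈ cs R,
      ee (∑ l, ((r l : ℝ) - r' l) * (Φ l y - (c l : ℝ) / R l))) /
        ((∏ l, (R l : ℝ) : ℝ) : ℂ) ^ 2 := by
  unfold lab cs
  rw [Complex.ofReal_prod, prod_congr rfl fun l _ => (hF (R l) (hR l)).2.2.2.2 _,
    prod_div_distrib, prod_univ_sum, prod_pow]
  congr 1
  · refine sum_congr rfl fun r _ => ?_
    rw [prod_univ_sum]
    exact sum_congr rfl fun r' _ => (ee_sum _ _).symm
  · push_cast
    rfl

theorem av_eq [Fintype Y] (hF : FejS) (R : L → ℕ) (hR : ∀ l, 1 ≤ R l) (Φ : L → Y → ℝ)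
    (ζ : Y → ℝ) (c : L → ℕ) :
    𝔼 y, (lab R Φ c y : ℂ) * ee (ζ y) = (∑ r ∈ cs R, ∑ r' ∈ cs R,
      ee (-∑ l, ((r l : ℝ) - r' l) * ((c l : ℝ) / R l)) *
        𝔼 y, ee (∑ l, ((r l : ℝ) - r' l) * Φ l y + ζ y)) / ((∏ l, (R l : ℝ) : ℝ) : ℂ) ^ 2 := by
  simp only [mul_expect, ← expect_sum_comm, expect_div]
  refine expect_congr rfl fun y _ => ?_
  rw [lab_eq hF R hR, div_mul_eq_mul_div, sum_mul]
  congr 1
  refine sum_congr rfl fun r _ => ?_
  rw [sum_mul]
  refine sum_congr rfl fun r' _ => ?_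
  rw [← ee_add, ← ee_add]
  congr 1
  simp only [mul_sub, sum_sub_distrib]
  ring

theorem core {A : Type} [Fintype A] (R : L → ℕ) (hR : ∀ l, 1 ≤ R l) (G : A → (L → ℕ) → ℝ)
    (T : A → (L → ℕ) → (L → ℕ) → ℝ) (s : ℝ)
    (hG : ∀ a c, G a c ≤ (∑ r ∈ cs R, ∑ r' ∈ cs R, T a r r') / (∏ l, (R l : ℝ)) ^ 2)
    (hT : ∀ r ∈ cs R, ∀ r' ∈ cs R, 𝔼 a, T a r r' ≤ s) :
    𝔼 a, ∑ c ∈ cs R, G a c ≤ (∏ l, (R l : ℝ)) * s := by
  have hP : 0 < ∏ l, (R l : ℝ) := prod_pos fun l _ => by exact_mod_cast hR l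
  have hc := card_cs R
  generalize ∏ l, (R l : ℝ) = P at *
  refine (av_le fun a => sum_le_sum fun c _ => hG a c).trans ?_
  simp only [sum_const, nsmul_eq_mul, hc]
  rw [← mul_expect, ← expect_div, expect_sum_comm]
  refine mul_le_mul_of_nonneg_left ?_ hP.le
  rw [div_le_iff₀ (by positivity)]
  calc ∑ r ∈ cs R, 𝔼 a, ∑ r' ∈ cs R, T a r r' ≤ ∑ r ∈ cs R, ∑ r' ∈ cs R, s :=
        sum_le_sum fun r hr => by
          rw [expect_sum_comm]
          exact sum_le_sum fun r' hr' => hT r hr r' hr'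
    _ = s * P ^ 2 := by
        simp only [sum_const, nsmul_eq_mul, hc]
        ring

theorem abs_lt_of_mem {R r r' : L → ℕ} (hr : r ∈ cs R) (hr' : r' ∈ cs R) (l : L) :
    |(r l : ℤ) - r' l| < R l := by
  have h1 := mem_range.1 (Fintype.mem_piFinset.1 hr l)
  have h2 := mem_range.1 (Fintype.mem_piFinset.1 hr' l)
  rw [abs_lt]
  omega

end RGen

open RGen in
theorem genOf : GenOf := by
  intro hF hA A L Y _ _ _ _ _ _ R Φ η hR hη
  have hP : 0 < ∏ l, (R l : ℝ) := prod_pos fun l _ => by exact_mod_cast hR l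
  have key : ∀ (ζ : A → Y → ℝ) (r r' : L → ℕ), (∀ y y', y ≠ y' →
      ‖𝔼 a, ee (∑ l, (((r l : ℤ) - r' l : ℤ) : ℝ) * (Φ a l y - Φ a l y') + (ζ a y - ζ a y'))‖ ≤
        η) → 𝔼 a, ‖𝔼 y, ee (∑ l, ((r l : ℝ) - r' l) * Φ a l y + ζ a y)‖ ≤
        Real.sqrt (1 / Fintype.card Y + η) := by
    intro ζ r r' h
    refine hA A Y (fun a y => ∑ l, ((r l : ℝ) - r' l) * Φ a l y + ζ a y) η hη fun y y' hy => ?_
    refine le_of_eq_of_le ?_ (h y y' hy)
    congr 1
    refine expect_congr rfl fun a _ => ?_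
    congr 1
    push_cast
    simp only [mul_sub, sum_sub_distrib]
    ring
  refine ⟨fun ζ h => ?_, fun h => ?_⟩
  · refine core R hR _ (fun a r r' => ‖𝔼 y, ee (∑ l, ((r l : ℝ) - r' l) * Φ a l y + ζ a y)‖) _
      (fun a c => ?_) fun r hr r' hr' => key ζ r r' (h _ (abs_lt_of_mem hr hr'))
    rw [av_eq hF R hR, norm_div, norm_pow, Complex.norm_real, Real.norm_of_nonneg hP.le]
    gcongr
    refine norm_sum_le_of_le _ fun r _ => norm_sum_le_of_le _ fun r' _ => ?_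
    rw [norm_mul, norm_ee, one_mul]
  · refine core R hR _ (fun a r r' => if r = r' then 0 else
      ‖𝔼 y, ee (∑ l, ((r l : ℝ) - r' l) * Φ a l y + 0)‖) _ (fun a c => ?_) fun r hr r' hr' => ?_
    · have e := av_eq hF R hR (Φ a) (fun _ => 0) c
      have hc : ((cs R).card : ℂ) = ((∏ l, (R l : ℝ) : ℝ) : ℂ) := by
        rw [← card_cs]
        rfl
      have e2 : ∀ r ∈ cs R, ∑ r' ∈ cs R, ee (-∑ l, ((r l : ℝ) - r' l) * ((c l : ℝ) / R l)) *
          𝔼 y, ee (∑ l, ((r l : ℝ) - r' l) * Φ a l y + 0) = 1 + ∑ r' ∈ cs R, if r = r' then 0 else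
            ee (-∑ l, ((r l : ℝ) - r' l) * ((c l : ℝ) / R l)) *
              𝔼 y, ee (∑ l, ((r l : ℝ) - r' l) * Φ a l y + 0) := by
        intro r hr
        rw [← add_sum_erase _ _ hr, ← add_sum_erase _ _ hr, if_pos rfl, zero_add]
        congr 1
        · simp [ee_zero, expect_const univ_nonempty]
        · exact sum_congr rfl fun r' hr' => by rw [if_neg (ne_of_mem_erase hr').symm]
      rw [sum_congr rfl e2, sum_add_distrib, sum_const, nsmul_eq_mul, mul_one, hc] at e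
      simp only [ee_zero, mul_one] at e
      have hP' : ((∏ l, (R l : ℝ) : ℝ) : ℂ) ≠ 0 := Complex.ofReal_ne_zero.2 hP.ne'
      rw [← Real.norm_eq_abs, ← Complex.norm_real, Complex.ofReal_sub, Complex.ofReal_expect, e,
        add_div, Complex.ofReal_div, Complex.ofReal_one, sq, div_mul_cancel_right₀ hP',
        one_div, add_sub_cancel_left, norm_div, norm_mul, Complex.norm_real,
        Real.norm_of_nonneg hP.le, sq]
      gcongr
      refine norm_sum_le_of_le _ fun r _ => norm_sum_le_of_le _ fun r' _ => ?_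
      split_ifs
      · simp
      · rw [norm_mul, norm_ee, one_mul]
    · by_cases e : r = r'
      · simp only [if_pos e]
        exact av_le_const fun _ => Real.sqrt_nonneg _
      · simp only [if_neg e]
        refine key (fun _ _ => 0) r r' fun y y' hy => ?_
        simp only [sub_self, add_zero]
        refine h (fun l => (r l : ℤ) - r' l) (fun h0 => e (funext fun l => ?_))
          (abs_lt_of_mem hr hr') y y' hy
        have := congrFun h0 l
        simp only [Pi.zero_apply] at this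
        omega

end Pool.Agent.MP_b1aeef_nt.G4
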