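import Pool.Agent.MP_b1aeef_nt.G4.Kit2

/-! Equidistribution of the slope phase given the labels of the first stage. -/

set_option autoImplicit false

namespace Pool.Agent.MP_b1aeef_nt.G4

open Finset
open scoped BigOperators

namespace RGen0

variable (π : Par)

/-- leading coefficients of the phases -/
noncomputable def co (m m' : ℕ) (l : (Fin 5 × Fin 5) ⊕ Fin 3) : ℝ :=
  if l = Sum.inl (0, 0) then
    π.d * π.a π.d * ((π.q : ℝ) ^ π.rho0 * (m - m')) / (π.q : ℝ) ^ π.ts else 0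

theorem isP_ph (m m' : π.Y0) (l : (Fin 5 × Fin 5) ⊕ Fin 3) :
    IsP (π.d - 1) (co π m m' l) (fun a => π.ph0 a l m - π.ph0 a l m') := by
  rcases l with ⟨s, i⟩ | j
  · refine Fin.cases ?_ (fun s => ?_) s
    · refine Fin.cases ?_ (fun i => ?_) i
      · refine ((π.isP0_diff ((π.q : ℤ) ^ π.rho0 * (m : ℕ)) ((π.q : ℤ) ^ π.rho0 * (m' : ℕ))).mul
          (1 / (π.q : ℝ) ^ π.ts)).congr ?_ fun n => ?_
        · rw [co, if_pos rfl]
          push_cast
          ring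
        · simp only [Par.ph0, Fin.val_zero, Nat.choose_self, mul_zero, pow_zero]
          push_cast
          ring
      · refine (isP_zero _).congr ?_ fun n => ?_
        · rw [co, if_neg (by simp [Fin.succ_ne_zero])]
        · simp only [Par.ph0, Fin.val_zero, Fin.val_succ, Nat.choose_zero_succ]
          simp
    · refine ((π.isP_diff s ((π.q : ℤ) ^ π.rho0 * (m : ℕ)) ((π.q : ℤ) ^ π.rho0 * (m' : ℕ))).mul
        ((Nat.choose (s + 1) i : ℝ) * (π.q : ℝ) ^ (π.rho * i) / (π.q : ℝ) ^ π.ts)).congr ?_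
        fun n => ?_
      · rw [co, if_neg (by simp [Fin.succ_ne_zero]), mul_zero]
      · simp only [Par.ph0, Fin.val_succ]
        ring
  · refine ((π.isP2 j).mul ((((j : ℕ) : ℝ) + 2) * (π.q : ℝ) ^ π.rho0 * ((m : ℕ) - (m' : ℕ)) /
      (π.q : ℝ) ^ π.sp)).congr ?_ fun n => ?_
    · rw [co, if_neg (by simp), mul_zero]
    · simp only [Par.ph0, Par.wph]
      ring

theorem small {n : ℤ} (hn : |n| < (π.q ^ (94000 * π.mu) : ℕ)) :
    |(n : ℝ) * ((π.q : ℝ) ^ π.sp / (π.q : ℝ) ^ π.ts)| ≤ 1 / 2 := by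
  have h1 : |(n : ℝ)| ≤ π.B ^ 94000 := by
    rw [π.B_pow]
    exact_mod_cast hn.le
  have h2 : (π.q : ℝ) ^ π.sp * π.B ^ 94001 ≤ (π.q : ℝ) ^ π.ts := by
    rw [π.B_pow, ← pow_add]
    refine π.qp_le ?_
    have := π.sp_le
    rw [π.ts_eq]
    omega
  have h3 : (2 : ℝ) ≤ π.B := by linarith [π.M_le_B, π.M_ge]
  have h4 := π.qp_pos π.sp
  have h5 := π.qp_pos π.ts
  have h6 := pow_pos π.B_pos 94000
  rw [abs_mul, abs_of_pos (div_pos h4 h5), ← mul_div_assoc, div_le_iff₀ h5]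
  rw [pow_succ π.B 94000] at h2
  nlinarith [mul_le_mul_of_nonneg_right h1 h4.le, mul_pos h4 h6]

theorem weyl (hW : WeylS) {k : ℕ} (hk : k ∈ Ico 1 π.Rp) (n : (Fin 5 × Fin 5) ⊕ Fin 3 → ℤ)
    (hn : ∀ l, |n l| < π.R0 l) (m m' : π.Y0) (hm : m ≠ m') :
    ‖𝔼 a : π.O0, ee (∑ l, n l * (π.ph0 (a : ℕ) l m - π.ph0 (a : ℕ) l m') +
      (k * π.Gp * π.zt (a : ℕ) π.rho0 m - k * π.Gp * π.zt (a : ℕ) π.rho0 m'))‖ ≤
      3 / ((π.q ^ (5300001 * π.mu) : ℕ) : ℝ) := by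
  rw [mem_Ico] at hk
  have hP := (IsP.sum univ fun l _ => (isP_ph π m m' l).mul (n l)).add
    (π.isP1.mul (k * π.Gp * (π.q : ℝ) ^ π.rho0 * ((m : ℕ) - (m' : ℕ)) / (π.q : ℝ) ^ π.sp))
  have hs := small π (hn (Sum.inl (0, 0)))
  have hd := π.le_d
  have hd' := π.d_le
  have hw := π.w_lt
  have h1 := π.sp_le
  have h2 : 999999000 * π.mu ≤ π.sp := π.le_sm.trans (Nat.le_add_right _ _)
  have h3 : π.rho0 = 860000000 * π.mu := rfl
  have hkG : (1 : ℝ) ≤ k * π.Gp ∧ (k * π.Gp : ℝ) ≤ π.B := by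
    have e1 : 1 ≤ k * π.Gp := Nat.mul_pos hk.1 (π.one_le_np _)
    have e2 : k * π.Gp ≤ π.q ^ π.w0 := by nlinarith [π.GR_le, hk.2]
    refine ⟨by exact_mod_cast e1, le_trans ?_ π.Qr_le_B⟩
    unfold Par.Qr
    exact_mod_cast e2
  have hmm : (1 : ℝ) ≤ |((m : ℕ) : ℝ) - (m' : ℕ)| ∧ |((m : ℕ) : ℝ) - (m' : ℕ)| ≤ π.B ^ 5300000 := by
    have e1 : (1 : ℤ) ≤ |((m : ℕ) : ℤ) - (m' : ℕ)| :=
      Int.one_le_abs (sub_ne_zero.2 fun h => hm (Fin.ext (by exact_mod_cast h)))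
    have e2 : ((m : ℕ) : ℝ) ≤ π.B ^ 5300000 := by
      rw [π.B_pow]
      exact_mod_cast m.2.le
    have e3 : ((m' : ℕ) : ℝ) ≤ π.B ^ 5300000 := by
      rw [π.B_pow]
      exact_mod_cast m'.2.le
    refine ⟨by exact_mod_cast e1, abs_le.2 ⟨?_, ?_⟩⟩
    · linarith [Nat.cast_nonneg (α := ℝ) m]
    · linarith [Nat.cast_nonneg (α := ℝ) m']
  set z : ℝ := (n (Sum.inl (0, 0)) : ℝ) * ((π.q : ℝ) ^ π.sp / (π.q : ℝ) ^ π.ts) with hz
  have hab : |(π.d : ℝ) * π.a π.d * (((m : ℕ) : ℝ) - (m' : ℕ)) * (k * π.Gp + z)| =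
      π.d * |(π.a π.d : ℝ)| * |((m : ℕ) : ℝ) - (m' : ℕ)| * (k * π.Gp + z) := by
    rw [abs_mul, abs_mul, abs_mul, Nat.abs_cast,
      abs_of_nonneg (a := k * π.Gp + z) (by linarith [(abs_le.1 hs).1, hkG.1])]
  have hdr : (3 : ℝ) ≤ π.d ∧ (π.d : ℝ) ≤ 4 := ⟨by exact_mod_cast hd, by exact_mod_cast hd'⟩
  have hzz := abs_le.1 hs
  have hB := π.one_le_B
  refine (hW π.q (π.d - 1) (π.sp - π.rho0) (133000000 * π.mu) (700000000 * π.mu) π.N
    (π.q ^ (5300001 * π.mu)) _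
    (π.d * π.a π.d * (((m : ℕ) : ℝ) - (m' : ℕ)) * (k * π.Gp + z)) 0 _ π.hq (by omega) (by omega)
    hP ?_ (by omega) ?_ ?_ (π.one_le_np _) ?_ ?_).trans_eq' ?_
  · rw [sum_eq_single (Sum.inl (0, 0)) (fun l _ hl => by rw [co, if_neg hl, mul_zero])
      (by simp), co, if_pos rfl, hz]
    have e1 : (π.q : ℝ) ^ π.sp = (π.q : ℝ) ^ π.rho0 * (π.q : ℝ) ^ (π.sp - π.rho0) := by
      rw [← pow_add, Nat.add_sub_cancel' (by omega)]
    have e2 := π.qp_pos π.rho0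
    have e3 := π.qp_pos (π.sp - π.rho0)
    have e4 := π.qp_pos π.ts
    rw [e1]
    field_simp
    push_cast
    ring
  · have : 700000000 * π.mu ≤ (π.d - 1) * (700000000 * π.mu) :=
      Nat.le_mul_of_pos_left _ (by omega)
    omega
  · rw [hab]
    have e1 : (1 : ℝ) ≤ π.d * |(π.a π.d : ℝ)| :=
      one_le_mul_of_one_le_of_one_le (by linarith [hdr.1]) π.one_le_lead
    have e2 := one_le_mul_of_one_le_of_one_le e1 hmm.1
    nlinarith [hkG.1]
  · rw [hab]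
    have e1 : (π.d : ℝ) * |(π.a π.d : ℝ)| ≤ 4 * π.M0 :=
      mul_le_mul hdr.2 π.lead_le (abs_nonneg _) (by norm_num)
    have e2 := mul_le_mul e1 hmm.2 (abs_nonneg _) (by positivity)
    have e3 : k * π.Gp + z ≤ 2 * π.B := by linarith [hkG.2]
    have e4 := mul_le_mul e2 e3 (by linarith [hkG.1]) (by positivity)
    have e5 : 48 * (4 * π.M0 * π.B ^ 5300000 * (2 * π.B)) ≤ π.B ^ 5300002 := by
      have e6 : 0 < π.B ^ 5300000 * π.B := by positivity
      have e7 : (0 : ℝ) ≤ π.M0 := Nat.cast_nonneg _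
      rw [pow_succ π.B 5300001, pow_succ π.B 5300000]
      nlinarith [π.M_le_B]
    push_cast
    rw [← π.B_pow, ← π.B_pow, ← pow_mul]
    calc _ ≤ π.B ^ 5300002 * π.B ^ (5300001 * 24) := by
          refine mul_le_mul_of_nonneg_right ?_ (by positivity)
          linarith
      _ ≤ _ := by
          rw [← pow_add]
          exact π.Bp_le (by norm_num)
  · refine le_trans ?_ π.hN1
    rw [← pow_mul, mul_assoc, ← pow_add]
    refine (Nat.mul_le_mul_right _ π.hq).trans ?_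
    rw [← pow_succ']
    exact Nat.pow_le_pow_right (by have := π.hq; omega) (by omega)
  · congr 1
    refine expect_congr rfl fun a _ => ?_
    congr 2
    unfold Par.zt
    ring

end RGen0

open RGen0 in
theorem gen0Of : Gen0Of := by
  intro hG hW π
  have hB := π.B_pos
  have h3 : (3 : ℝ) ≤ π.B := by linarith [π.M_le_B, π.M_ge]
  have hX : (0 : ℝ) ≤ 3 / ((π.q ^ (5300001 * π.mu) : ℕ) : ℝ) := by positivity
  have h1 : ∀ k ∈ Ico 1 π.Rp, 𝔼 a : π.O0, ∑ c ∈ cs π.R0,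
      ‖𝔼 y : π.Y0, (lab π.R0 (π.ph0 (a : ℕ)) c y : ℂ) * ee (k * π.Gp * π.zt (a : ℕ) π.rho0 y)‖ ≤
      π.B ^ 2632000 * (2 / π.B ^ 2650000) := fun k hk => by
    refine ((hG π.O0 _ π.Y0 π.R0 (fun a => π.ph0 (a : ℕ)) _ (fun _ => π.one_le_np _) hX).1
      (fun a y => k * π.Gp * π.zt (a : ℕ) π.rho0 y) (weyl π hW hk)).trans ?_
    refine mul_le_mul ?_ ?_ (Real.sqrt_nonneg _) (by positivity)
    · simp only [Par.R0, prod_const, card_univ, Fintype.card_sum, Fintype.card_prod,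
        Fintype.card_fin]
      push_cast
      rw [← π.B_pow, ← pow_mul]
    · rw [Real.sqrt_le_left (by positivity), Fintype.card_fin]
      push_cast
      rw [← π.B_pow, ← π.B_pow, div_pow, ← pow_mul, pow_succ π.B 5300000]
      have e1 := pow_pos hB 5300000
      have e2 : 3 / (π.B ^ 5300000 * π.B) ≤ 1 / π.B ^ 5300000 := by
        rw [div_le_div_iff₀ (by positivity) e1]
        nlinarith
      have e3 : (2 : ℝ) ^ 2 / π.B ^ (2650000 * 2) = 4 * (1 / π.B ^ 5300000) := by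
        norm_num
        ring
      have e4 : 0 < 1 / π.B ^ 5300000 := by positivity
      linarith
  have hR : (π.Rp : ℝ) ≤ π.B := by
    unfold Par.B
    exact_mod_cast π.Rp_le
  have h2 := sum_le_card_nsmul _ _ _ h1
  rw [Nat.card_Ico, nsmul_eq_mul] at h2
  have h4 : ((π.Rp - 1 : ℕ) : ℝ) ≤ π.B := le_trans (by exact_mod_cast Nat.sub_le _ _) hR
  unfold eta
  rw [← mul_expect]
  simp only [sum_comm (s := cs π.R0)]
  rw [expect_sum_comm]
  calc _ ≤ π.B * (π.B * (π.B ^ 2632000 * (2 / π.B ^ 2650000))) := by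
        refine mul_le_mul hR (h2.trans ?_) (sum_nonneg fun k _ => av_nonneg fun a =>
          sum_nonneg fun c _ => norm_nonneg _) hB.le
        exact mul_le_mul_of_nonneg_right h4 (by positivity)
    _ ≤ _ := by
        have e1 : π.B ^ 2632004 ≤ π.B ^ 2650000 := π.Bp_le (by norm_num)
        have e2 := pow_pos hB 2632000
        rw [← mul_div_assoc, ← mul_div_assoc, ← mul_div_assoc,
          div_le_div_iff₀ (by positivity) hB, one_mul]
        refine le_trans ?_ e1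
        rw [pow_add π.B 2632000 4]
        have e3 : 0 < π.B ^ 2632000 * π.B ^ 3 := by positivity
        nlinarith

end Pool.Agent.MP_b1aeef_nt.G4
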