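import Pool.Agent.MP_b1aeef_nt.G4.Kit2

/-! Equidistribution of the slope phase given the labels of stage A. -/

set_option autoImplicit false

namespace Pool.Agent.MP_b1aeef_nt.G4

open Finset
open scoped BigOperators

namespace RGenA

variable (π : Par)

theorem split (j : JA π.d) (k : ℕ) (n0 : ℤ) (hk1 : 1 ≤ k) (hk : k < π.Rp)
    (hn : |n0| < (π.q ^ (π.mu + 2 * π.la) : ℕ)) :
    ∃ (s : ℝ) (s' : ℤ) (κ p : ℕ), κ ≤ 44000 ∧ p + 21625 ≤ κ ∧ 1 / 2 ≤ |s| ∧ |s| ≤ π.B ^ p ∧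
      (k : ℝ) * π.Gp + n0 * ((π.q : ℝ) ^ π.sp / (π.q : ℝ) ^ (π.sA j + π.mu)) =
        s + s' * (π.q : ℝ) ^ (κ * π.mu) := by
  have hw := π.w_lt
  have hG := π.GR_le
  have hG1 : 1 ≤ π.Gp := π.one_le_np _
  have hkG : k * π.Gp < π.q ^ π.w0 := by nlinarith
  have hkG1 : 1 ≤ k * π.Gp := Nat.mul_pos hk1 hG1
  have hkB : (k : ℝ) * π.Gp ≤ π.B := by
    refine le_trans ?_ π.Qr_le_B
    unfold Par.Qr
    exact_mod_cast hkG.le
  have hk1' : (1 : ℝ) ≤ (k : ℝ) * π.Gp := by exact_mod_cast hkG1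
  have hn' : |(n0 : ℝ)| ≤ (π.q : ℝ) ^ (π.mu + 2 * π.la) := by exact_mod_cast hn.le
  have hB : (2 : ℝ) ≤ π.B := by linarith [π.M_le_B, π.M_ge]
  rcases j with j | j
  · have h1 := Nat.mul_le_mul_right π.mu (Nat.succ_le_of_lt j.2)
    rw [Nat.succ_mul] at h1
    obtain ⟨D, hD⟩ : ∃ D, π.sp = π.sA (Sum.inl j) + π.mu + (π.w0 + D) :=
      ⟨K1 π.d * π.mu - (j * π.mu + π.mu), by simp only [Par.sA, Par.sp, Par.sm]; omega⟩
    have e : (π.q : ℝ) ^ π.sp / (π.q : ℝ) ^ (π.sA (Sum.inl j) + π.mu) =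
        (π.q : ℝ) ^ (π.w0 + D) := by
      rw [hD, pow_add, mul_div_cancel_left₀ _ (π.qp_pos _).ne']
    rw [e]
    by_cases hc : 22000 * π.mu ≤ π.w0 + D
    · refine ⟨k * π.Gp, n0 * (π.q : ℤ) ^ (π.w0 + D - 22000 * π.mu), 22000, 1, by norm_num,
        by norm_num, ?_, ?_, ?_⟩
      · rw [abs_of_nonneg (by linarith)]
        linarith
      · rw [abs_of_nonneg (by linarith), pow_one]
        exact hkB
      · push_cast
        rw [mul_assoc, ← pow_add, Nat.sub_add_cancel hc]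
    · refine ⟨_, 0, 44000, 22003, le_rfl, by norm_num, ?_, ?_, by rw [Int.cast_zero, zero_mul,
        add_zero]⟩
      · have h2 : ((k * π.Gp : ℕ) : ℤ) + n0 * (π.q : ℤ) ^ (π.w0 + D) ≠ 0 := by
          intro h0
          have h3 : ((π.q ^ π.w0 : ℕ) : ℤ) ∣ ((k * π.Gp : ℕ) : ℤ) := by
            refine ⟨-(n0 * (π.q : ℤ) ^ D), ?_⟩
            rw [pow_add] at h0
            push_cast at h0 ⊢
            linear_combination h0
          exact absurd (Nat.le_of_dvd hkG1 (Int.natCast_dvd_natCast.1 h3)) (not_le.2 hkG)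
        have h4 : (1 : ℝ) ≤ |(k : ℝ) * π.Gp + n0 * (π.q : ℝ) ^ (π.w0 + D)| := by
          exact_mod_cast Int.one_le_abs h2
        linarith
      · refine (abs_add_le _ _).trans ?_
        rw [abs_of_nonneg (by linarith), abs_mul, abs_of_pos (π.qp_pos _)]
        have h2 : |(n0 : ℝ)| * (π.q : ℝ) ^ (π.w0 + D) ≤ π.B ^ 22002 := by
          refine (mul_le_mul_of_nonneg_right hn' (π.qp_pos _).le).trans ?_
          rw [← pow_add, π.B_pow]
          exact π.qp_le (by omega)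
        have h3 : π.B ^ 1 ≤ π.B ^ 22002 := π.Bp_le (by norm_num)
        rw [pow_one] at h3
        rw [pow_succ' π.B 22002]
        nlinarith [pow_pos π.B_pos 22002]
  · have h1 : |(n0 : ℝ) * ((π.q : ℝ) ^ π.sp / (π.q : ℝ) ^ (π.sA (Sum.inr j) + π.mu))| ≤
        (π.q : ℝ) ^ (2 * π.la) := by
      rw [abs_mul, abs_of_pos (div_pos (π.qp_pos _) (π.qp_pos _)), ← mul_div_assoc,
        div_le_iff₀ (π.qp_pos _)]
      refine (mul_le_mul_of_nonneg_right hn' (π.qp_pos _).le).trans ?_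
      rw [← pow_add, ← pow_add]
      exact π.qp_le (by simp only [Par.sA]; omega)
    have h2 : 2 * (π.q : ℝ) ^ (2 * π.la) ≤ π.Gp := by
      unfold Par.Gp
      push_cast
      rw [pow_succ']
      exact mul_le_mul_of_nonneg_right π.two_le_q (π.qp_pos _).le
    have h3 : (π.Gp : ℝ) ≤ (k : ℝ) * π.Gp :=
      le_mul_of_one_le_left (Nat.cast_nonneg _) (by exact_mod_cast hk1)
    have h4 := abs_le.1 h1
    refine ⟨_, 0, 22000, 2, by norm_num, by norm_num, ?_, ?_, by rw [Int.cast_zero, zero_mul,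
      add_zero]⟩
    · refine le_trans ?_ (le_abs_self _)
      linarith [h4.1]
    · rw [abs_le]
      constructor <;> nlinarith [h4.1, h4.2]

theorem isP (j : JA π.d) (c : ℤ) (g : ℝ) (n : Fin 4 ⊕ Fin 3 → ℤ) (m m' : π.YA) :
    IsP (π.d - 1) (π.d * π.a π.d * (((m : ℕ) : ℝ) - (m' : ℕ)) * (π.q : ℝ) ^ π.rho *
        (g / (π.q : ℝ) ^ π.sp + n (Sum.inl 0) / (π.q : ℝ) ^ (π.sA j + π.mu)))
      fun a => ∑ l, n l * (π.phA a (a + c) j l m - π.phA a (a + c) j l m') +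
        (g * π.zt a π.rho m - g * π.zt a π.rho m') := by
  have h1 : ∀ l ∈ (univ : Finset (Fin 4 ⊕ Fin 3)), IsP (π.d - 1)
      (if l = Sum.inl 0 then (n (Sum.inl 0) * (π.q : ℝ) ^ π.rho * (((m : ℕ) : ℝ) - (m' : ℕ)) /
        (π.q : ℝ) ^ (π.sA j + π.mu)) * (π.d * π.a π.d) else 0)
      fun a => n l * (π.phA a (a + c) j l m - π.phA a (a + c) j l m') := by
    rintro (l | l) -
    · refine Fin.cases ?_ (fun l => ?_) l
      · rw [if_pos rfl]
        refine ((π.isP1.shift c).mul _).congr rfl fun a => ?_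
        simp only [Par.phA, Fin.val_zero, zero_add]
        push_cast
        ring
      · rw [if_neg (by simp [Fin.succ_ne_zero])]
        refine (((π.isP2 l).shift c).mul (n (Sum.inl l.succ) * ((l : ℕ) + 2) * (π.q : ℝ) ^ π.rho *
          (((m : ℕ) : ℝ) - (m' : ℕ)) / (π.q : ℝ) ^ (π.sA j + π.mu))).congr (mul_zero _)
          fun a => ?_
        simp only [Par.phA, Fin.val_succ, add_assoc, one_add_one_eq_two]
        push_cast
        ring
    · rw [if_neg (by simp)]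
      refine ((π.isP2 l).mul (n (Sum.inr l) * ((l : ℕ) + 2) * (π.q : ℝ) ^ π.rho *
        (((m : ℕ) : ℝ) - (m' : ℕ)) / (π.q : ℝ) ^ π.sp)).congr (mul_zero _) fun a => ?_
      simp only [Par.phA, Par.wph]
      ring
  refine ((IsP.sum univ h1).add (π.isP1.mul (g * (π.q : ℝ) ^ π.rho *
    (((m : ℕ) : ℝ) - (m' : ℕ)) / (π.q : ℝ) ^ π.sp))).congr ?_ fun a => ?_
  · rw [sum_ite_eq' univ, if_pos (mem_univ _)]
    ring
  · simp only [Par.zt]
    ring

theorem weyl (hW : WeylS) (j : JA π.d) (c : ℤ) (k : ℕ) (hk1 : 1 ≤ k) (hk : k < π.Rp)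
    (n : Fin 4 ⊕ Fin 3 → ℤ) (hn : ∀ l, |n l| < π.RA l) (m m' : π.YA) (hm : m ≠ m') :
    ‖𝔼 a : π.O0, ee (∑ l, n l * (π.phA (a : ℕ) (((a : ℕ) : ℤ) + c) j l m -
      π.phA (a : ℕ) (((a : ℕ) : ℤ) + c) j l m') +
        (k * π.Gp * π.zt (a : ℕ) π.rho m - k * π.Gp * π.zt (a : ℕ) π.rho m'))‖ ≤
      3 / ((π.q ^ (865 * π.mu) : ℕ) : ℝ) := by
  obtain ⟨s, s', κ, p, h1, h2, h3, h4, h5⟩ := split π j k (n (Sum.inl 0)) hk1 hk
    (by simpa only [Par.RA, if_true] using hn (Sum.inl 0))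
  have hw := π.w_lt
  have hd := π.le_d
  have hd' := π.d_le
  have hK : 44000 ≤ K1 π.d ∧ K1 π.d ≤ 500044000 := by rcases π.cases with h | h <;> omega
  have hK1 := Nat.mul_le_mul_right π.mu hK.1
  have hK2 := Nat.mul_le_mul_right π.mu hK.2
  have hκ := Nat.mul_le_mul_right π.mu h1
  have he := Nat.mul_le_mul_right (900000000 * π.mu) (show 1 ≤ π.d - 1 by omega)
  obtain ⟨D, hD⟩ : ∃ D : ℤ, D = π.d * π.a π.d * (((m : ℕ) : ℤ) - (m' : ℕ)) := ⟨_, rfl⟩
  have hD0 : D ≠ 0 := by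
    rw [hD]
    refine mul_ne_zero (mul_ne_zero (by omega) π.lead_ne) fun h => hm (Fin.ext ?_)
    omega
  have hD1 : (1 : ℝ) ≤ |(D : ℝ)| := by exact_mod_cast Int.one_le_abs hD0
  have hD2 : 48 * |(D : ℝ)| ≤ π.B ^ 865 := by
    have a1 : |((m : ℕ) : ℝ) - (m' : ℕ)| ≤ π.B ^ 864 := by
      have b1 : ((m : ℕ) : ℝ) ≤ π.B ^ 864 := by
        rw [π.B_pow]
        exact_mod_cast m.2.le
      have b2 : ((m' : ℕ) : ℝ) ≤ π.B ^ 864 := by
        rw [π.B_pow]
        exact_mod_cast m'.2.le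
      rw [abs_le]
      constructor <;> linarith [Nat.cast_nonneg (α := ℝ) (m : ℕ), Nat.cast_nonneg (α := ℝ) (m' : ℕ)]
    have a2 : (π.d : ℝ) ≤ 4 := by exact_mod_cast hd'
    have a3 : |(D : ℝ)| ≤ 4 * π.M0 * π.B ^ 864 := by
      rw [hD]
      push_cast
      rw [abs_mul, abs_mul, Nat.abs_cast]
      gcongr
      exact π.lead_le
    rw [pow_succ' π.B 864]
    nlinarith [pow_pos π.B_pos 864, π.M_le_B, π.M_ge]
  have key := fun e1 e2 e3 e4 => hW π.q (π.d - 1) (K1 π.d * π.mu + π.w0) (κ * π.mu)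
    (900000000 * π.mu) π.N (π.q ^ (865 * π.mu)) _ (D * s) (D * s') _ π.hq (by omega) (by omega)
    (isP π j c (k * π.Gp) n m m') e1 (by omega) (by omega) e2 (π.one_le_np _) e3 e4
  refine key ?_ ?_ ?_ ?_
  · have e : (π.q : ℝ) ^ π.rho * (π.q : ℝ) ^ (K1 π.d * π.mu + π.w0) = (π.q : ℝ) ^ π.sp := by
      rw [← pow_add, Par.sp, Par.sm, add_assoc]
    have e2 : (D : ℝ) = π.d * π.a π.d * (((m : ℕ) : ℝ) - (m' : ℕ)) := by
      rw [hD]
      push_cast
      rfl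
    have e3 := (π.qp_pos π.sp).ne'
    rw [← e2, Int.cast_mul, mul_assoc (D : ℝ) s', ← mul_add, ← h5, mul_right_comm,
      mul_assoc (D : ℝ), e, mul_assoc]
    congr 1
    field_simp
  · rw [abs_mul]
    nlinarith
  · push_cast
    rw [abs_mul, ← π.B_pow, ← π.B_pow, ← pow_mul, ← mul_assoc]
    calc 48 * |(D : ℝ)| * |s| * π.B ^ (865 * 24) ≤ π.B ^ 865 * π.B ^ p * π.B ^ (865 * 24) := by
          have := π.B_pos
          gcongr
      _ ≤ π.B ^ κ := by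
          rw [← pow_add, ← pow_add]
          exact π.Bp_le (by omega)
  · refine le_trans ?_ π.hN1
    calc 2 * π.q ^ (900000000 * π.mu + κ * π.mu) * (π.q ^ (865 * π.mu)) ^ 16 ≤
          π.q ^ 1 * π.q ^ (900000000 * π.mu + κ * π.mu) * (π.q ^ (865 * π.mu)) ^ 16 := by
          rw [pow_one]
          gcongr
          exact π.hq
      _ ≤ _ := by
          rw [← pow_mul, ← pow_add, ← pow_add]
          exact Nat.pow_le_pow_right (by have := π.hq; omega) (by omega)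

theorem prod_le : ∏ l, (π.RA l : ℝ) ≤ π.B ^ 428 := by
  have hw := π.w_lt
  rw [Fintype.prod_sum_type, Fin.prod_univ_four, Fin.prod_univ_three]
  simp only [Par.RA, if_true, Sum.inl.injEq, reduceCtorEq, if_false,
    show (1 : Fin 4) ≠ 0 by decide, show (2 : Fin 4) ≠ 0 by decide,
    show (3 : Fin 4) ≠ 0 by decide]
  push_cast
  simp only [← pow_add]
  rw [π.B_pow]
  exact π.qp_le (by omega)

theorem sqrt_le : Real.sqrt (1 / Fintype.card π.YA + 3 / ((π.q ^ (865 * π.mu) : ℕ) : ℝ)) ≤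
    2 / π.B ^ 432 := by
  have hB := π.one_le_B
  have h0 := pow_pos π.B_pos 432
  refine Real.sqrt_le_iff.2 ⟨by positivity, ?_⟩
  rw [Fintype.card_fin]
  push_cast
  rw [← π.B_pow, ← π.B_pow, div_pow, ← pow_mul]
  have h1 : 3 / π.B ^ 865 ≤ 3 / π.B ^ 864 :=
    div_le_div_of_nonneg_left (by norm_num) (pow_pos π.B_pos _) (π.Bp_le (by norm_num))
  refine (add_le_add_right h1 _).trans_eq ?_
  rw [← add_div]
  norm_num

end RGenA

open RGenA in
theorem genAOf : GenAOf := by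
  intro hG hW π j c
  have hR : ∀ l, 1 ≤ π.RA l := fun l => by
    unfold Par.RA
    split_ifs <;> exact π.one_le_np _
  have hB := π.B_pos
  have h1 : ∀ k ∈ Ico 1 π.Rp, 𝔼 a : π.O0, ∑ c' ∈ cs π.RA,
      ‖𝔼 y, (lab π.RA (π.phA (a : ℕ) (((a : ℕ) : ℤ) + c) j) c' y : ℂ) *
        ee (k * π.Gp * π.zt (a : ℕ) π.rho y)‖ ≤ π.B ^ 428 * (2 / π.B ^ 432) := by
    intro k hk
    rw [mem_Ico] at hk
    refine ((hG π.O0 _ π.YA π.RA (fun a => π.phA (a : ℕ) (((a : ℕ) : ℤ) + c) j)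
      (3 / ((π.q ^ (865 * π.mu) : ℕ) : ℝ)) hR (by positivity)).1
      (fun a y => k * π.Gp * π.zt (a : ℕ) π.rho y)
      fun n hn y y' hy => weyl π hW j c k hk.1 hk.2 n hn y y' hy).trans ?_
    exact mul_le_mul (prod_le π) (sqrt_le π) (Real.sqrt_nonneg _) (by positivity)
  have h2 : (π.Rp : ℝ) ≤ π.B := by
    unfold Par.B
    exact_mod_cast π.Rp_le
  unfold eta
  rw [← mul_expect]
  simp only [sum_comm (s := cs π.RA)]
  rw [expect_sum_comm]
  have h3 := sum_le_card_nsmul _ _ _ h1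
  rw [nsmul_eq_mul, Nat.card_Ico] at h3
  have h4 : ((π.Rp - 1 : ℕ) : ℝ) ≤ π.B := le_trans (by exact_mod_cast Nat.sub_le _ _) h2
  have h5 : (2 : ℝ) ≤ π.B := by linarith [π.M_le_B, π.M_ge]
  calc _ ≤ π.B * (π.B * (π.B ^ 428 * (2 / π.B ^ 432))) :=
        mul_le_mul h2 (h3.trans (mul_le_mul_of_nonneg_right h4 (by positivity)))
          (sum_nonneg fun _ _ => av_nonneg fun _ => sum_nonneg fun _ _ => norm_nonneg _) hB.le
    _ = 2 / π.B * (1 / π.B) := by field_simp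
    _ ≤ 1 / π.B := mul_le_of_le_one_left (by positivity) ((div_le_one hB).2 h5)

end Pool.Agent.MP_b1aeef_nt.G4
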