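import Pool.Agent.MP_b1aeef_nt.G4.Kit2

/-! Invariance of the windows at the stages 0 and A. -/

set_option autoImplicit false

namespace Pool.Agent.MP_b1aeef_nt.G4

open Finset
open scoped BigOperators

namespace RInv0

theorem exp0 (F : ℕ → ℝ) (G U u : ℝ) :
    F 0 + F 1 * (G * U + u) + F 2 * (G * U + u) ^ 2 + F 3 * (G * U + u) ^ 3 +
      F 4 * (G * U + u) ^ 4 = ∑ s : Fin 5 × Fin 5, U ^ (s.2 : ℕ) * u ^ ((s.1 : ℕ) - s.2) *
        ((Nat.choose s.1 s.2 : ℝ) * F s.1 * G ^ (s.2 : ℕ)) := by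
  simp [Fintype.sum_prod_type, Fin.sum_univ_five, Nat.choose]
  ring

theorem P_exp (π : Par) (X U u : ℤ) :
    π.P 0 (X + (π.q : ℤ) ^ π.rho * U + u) = ∑ s : Fin 5 × Fin 5,
      (U : ℝ) ^ (s.2 : ℕ) * (u : ℝ) ^ ((s.1 : ℕ) - s.2) *
        ((Nat.choose s.1 s.2 : ℝ) * π.P s.1 X * (π.q : ℝ) ^ (π.rho * s.2)) := by
  simp only [pow_mul]
  rw [← exp0 (fun κ => π.P κ X), add_assoc X, Par.P, pk_add]
  simp only [Par.P]
  push_cast
  rfl

theorem P_expA (π : Par) (x V u : ℤ) : ∃ Z : ℤ,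
    π.P 0 (x + (π.q : ℤ) ^ π.rho * V + u) = π.P 0 (x + u) +
      (∑ κ : Fin 4, (u : ℝ) ^ (κ : ℕ) * (((κ : ℕ) + 1) * π.P (κ + 1) x * (π.q : ℝ) ^ π.rho)) * V +
      ((π.q : ℝ) ^ π.rho) ^ 2 * Z := by
  refine ⟨pk π.a 2 (x + u) * V ^ 2 + pk π.a 3 (x + u) * (π.q : ℤ) ^ π.rho * V ^ 3 +
    pk π.a 4 (x + u) * ((π.q : ℤ) ^ π.rho) ^ 2 * V ^ 4, ?_⟩
  rw [add_right_comm x, Par.P, pk_add π.a (x + u), pk1_add]
  simp only [Par.P, Fin.sum_univ_four]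
  push_cast
  generalize (π.q : ℝ) ^ π.rho = G
  simp only [Fin.val_zero, Fin.val_one, Fin.val_two, show ((3 : Fin 4) : ℕ) = 3 from rfl]
  push_cast
  ring

end RInv0

theorem inv0 : Inv0S := by
  intro π a0 U u m m' hU0 hU hu0 hu h
  have hB := π.B_pos
  have hU0' : (0 : ℝ) ≤ U := by exact_mod_cast hU0
  have hu0' : (0 : ℝ) ≤ u := by exact_mod_cast hu0
  have h1 : (π.P 0 (a0 + (π.q : ℤ) ^ π.rho0 * (m : ℕ) + (π.q : ℤ) ^ π.rho * U + u) -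
      π.P 0 (a0 + (π.q : ℤ) ^ π.rho0 * (m' : ℕ) + (π.q : ℤ) ^ π.rho * U + u)) /
        (π.q : ℝ) ^ (π.tc + 90051 * π.mu) = ∑ s : Fin 5 × Fin 5,
        ((U ^ (s.2 : ℕ) * u ^ ((s.1 : ℕ) - s.2) : ℤ) : ℝ) *
          (π.ph0 a0 (Sum.inl s) m - π.ph0 a0 (Sum.inl s) m') := by
    rw [RInv0.P_exp, RInv0.P_exp, ← sum_sub_distrib, sum_div]
    refine sum_congr rfl fun s _ => ?_
    rw [← mul_sub, mul_div_assoc, sub_div]
    push_cast
    rfl
  have h2 : ∀ s : Fin 5 × Fin 5, |((U ^ (s.2 : ℕ) * u ^ ((s.1 : ℕ) - s.2) : ℤ) : ℝ)| ≤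
      π.B ^ 3552 := by
    intro s
    push_cast
    rw [abs_of_nonneg (by positivity)]
    have h3 : (U : ℝ) ^ (s.2 : ℕ) ≤ π.B ^ 3460 := by
      refine (pow_le_pow_left₀ hU0' hU _).trans ?_
      rw [← pow_mul]
      exact π.Bp_le (by have := s.2.2; omega)
    have h4 : (u : ℝ) ^ ((s.1 : ℕ) - s.2) ≤ π.B ^ 92 := by
      refine (pow_le_pow_left₀ hu0' hu _).trans ?_
      rw [← pow_mul]
      exact π.Bp_le (by have := s.1.2; omega)
    refine (mul_le_mul h3 h4 (by positivity) (by positivity)).trans_eq ?_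
    rw [← pow_add]
  rw [h1]
  refine (nd_sum_le _ _).trans ?_
  refine (sum_le_card_nsmul _ _ (π.B ^ 3552 * π.d0) fun s _ => (nd_int_mul_le _ _).trans
    (mul_le_mul (h2 s) (h s) (nd_nonneg _) (by positivity))).trans ?_
  have h5 : π.B ^ 93603 = π.B ^ 3552 * π.B ^ 90051 := by rw [← pow_add]
  have h6 := π.eps_pos
  rw [← π.B_pow, Par.d0, h5, card_univ, Fintype.card_prod, Fintype.card_fin, nsmul_eq_mul]
  have h7 : 0 < π.B ^ 3552 := pow_pos hB _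
  have h8 : 0 < π.B ^ 90051 := pow_pos hB _
  generalize π.B ^ 3552 = a at h7
  generalize π.B ^ 90051 = b at h8
  have h9 : ((5 * 5 : ℕ) : ℝ) * (a * (π.eps / (150 * (a * b)))) = π.eps / b / 6 := by
    push_cast
    field_simp
    norm_num
  rw [h9]
  have h10 : 0 < π.eps / b := by positivity
  linarith

theorem invA : InvAS := by
  intro π a0 x U u j m m' hu0 hu h
  have hB := π.B_pos
  have hu0' : (0 : ℝ) ≤ u := by exact_mod_cast hu0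
  obtain ⟨Z, hZ⟩ := RInv0.P_expA π x (U + (m : ℕ)) u
  obtain ⟨Z', hZ'⟩ := RInv0.P_expA π x (U + (m' : ℕ)) u
  obtain ⟨r, hr⟩ := Nat.exists_eq_add_of_le ((π.sA_le j).trans π.tc_le)
  have h0 : ((π.q : ℝ) ^ π.rho) ^ 2 = (π.q : ℝ) ^ (π.sA j + π.mu) * (π.q : ℝ) ^ r := by
    rw [← pow_mul, ← pow_add, ← hr, mul_comm]
  have hT := (π.qp_pos (π.sA j + π.mu)).ne'
  have h1 : (π.P 0 (x + (π.q : ℤ) ^ π.rho * (U + (m : ℕ)) + u) -
      π.P 0 (x + (π.q : ℤ) ^ π.rho * (U + (m' : ℕ)) + u)) / (π.q : ℝ) ^ (π.sA j + π.mu) =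
      ∑ κ : Fin 4, ((u ^ (κ : ℕ) : ℤ) : ℝ) *
        (π.phA a0 x j (Sum.inl κ) m - π.phA a0 x j (Sum.inl κ) m') +
        (((π.q : ℤ) ^ r * (Z - Z') : ℤ) : ℝ) := by
    have h2 : ∀ κ : Fin 4, ((u ^ (κ : ℕ) : ℤ) : ℝ) *
        (π.phA a0 x j (Sum.inl κ) m - π.phA a0 x j (Sum.inl κ) m') =
        (u : ℝ) ^ (κ : ℕ) * (((κ : ℕ) + 1) * π.P (κ + 1) x * (π.q : ℝ) ^ π.rho) *
          ((((m : ℕ) : ℝ) - (m' : ℕ)) / (π.q : ℝ) ^ (π.sA j + π.mu)) := by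
      intro κ
      simp only [Par.phA]
      push_cast
      generalize (π.q : ℝ) ^ (π.sA j + π.mu) = T
      generalize (π.q : ℝ) ^ π.rho = G
      ring
    rw [hZ, hZ', h0, sum_congr rfl fun κ _ => h2 κ, ← sum_mul]
    push_cast
    generalize (∑ κ : Fin 4, (u : ℝ) ^ (κ : ℕ) *
      (((κ : ℕ) + 1) * π.P (κ + 1) x * (π.q : ℝ) ^ π.rho)) = S
    generalize (π.q : ℝ) ^ (π.sA j + π.mu) = T at hT
    generalize (π.q : ℝ) ^ r = G
    field_simp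
    ring
  have h3 : ∀ κ : Fin 4, nd (((u ^ (κ : ℕ) : ℤ) : ℝ) *
      (π.phA a0 x j (Sum.inl κ) m - π.phA a0 x j (Sum.inl κ) m')) ≤
      if κ = 0 then π.eps / π.B / 2 else π.eps / π.B / 6 := by
    intro κ
    refine (nd_int_mul_le _ _).trans ?_
    have h4 := h κ
    rw [Par.dA] at h4
    split_ifs with hκ
    · rw [if_pos hκ] at h4
      rw [hκ] at h4 ⊢
      rw [Fin.val_zero, pow_zero, Int.cast_one, abs_one, one_mul, div_div, mul_comm π.B]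
      exact h4
    · rw [if_neg hκ] at h4
      have h5 : |((u ^ (κ : ℕ) : ℤ) : ℝ)| ≤ π.B ^ 69 := by
        push_cast
        rw [abs_of_nonneg (by positivity)]
        refine (pow_le_pow_left₀ hu0' hu _).trans ?_
        rw [← pow_mul]
        exact π.Bp_le (by have := κ.2; omega)
      refine (mul_le_mul h5 h4 (nd_nonneg _) (by positivity)).trans_eq ?_
      rw [pow_succ π.B 69]
      have h7 : 0 < π.B ^ 69 := pow_pos hB _
      generalize π.B ^ 69 = a at h7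
      field_simp
  rw [h1, nd_add_int]
  refine ((nd_sum_le _ _).trans (sum_le_sum fun κ _ => h3 κ)).trans_eq ?_
  rw [Fin.sum_univ_four, if_pos rfl, if_neg (by decide), if_neg (by decide), if_neg (by decide)]
  change _ = π.eps / π.B
  ring

end Pool.Agent.MP_b1aeef_nt.G4
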