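import Pool.Agent.MP_b1aeef_nt.G4.Kit2

/-! Invariance of the windows of stage B under close labels. -/

set_option autoImplicit false

namespace Pool.Agent.MP_b1aeef_nt.G4

namespace RInvB

theorem term {c M x X : ℝ} (n : ℕ) (hc : |c| ≤ M) (hx : 0 ≤ x) (hX : x ≤ X) (h1 : 1 ≤ X) {m : ℕ}
    (hn : n ≤ m) : |c * x ^ n| ≤ M * X ^ m := by
  rw [abs_mul, abs_of_nonneg (pow_nonneg hx n)]
  exact mul_le_mul hc ((pow_le_pow_left₀ hx hX n).trans (pow_le_pow_right₀ h1 hn))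
    (pow_nonneg hx n) ((abs_nonneg c).trans hc)

theorem dif {a b T : ℝ} (n : ℕ) (ha : 0 ≤ a) (ha' : a ≤ T) (hb : 0 ≤ b) (hb' : b ≤ T) :
    |a ^ n - b ^ n| ≤ T ^ n := by
  have h1 := pow_le_pow_left₀ ha ha' n
  have h2 := pow_le_pow_left₀ hb hb' n
  have h3 := pow_nonneg ha n
  have h4 := pow_nonneg hb n
  rw [abs_le]
  constructor <;> linarith

theorem mul_bd {p s P S : ℝ} (hp : |p| ≤ P) (hs : |s| ≤ S) : |p * s| ≤ P * S := by
  rw [abs_mul]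
  exact mul_le_mul hp hs (abs_nonneg _) ((abs_nonneg _).trans hp)

variable (π : Par) {x : ℤ} {X : ℝ}

theorem P1_le (hx : (0 : ℝ) ≤ x) (hX : (x : ℝ) ≤ X) (h1 : 1 ≤ X) :
    |π.P 1 x| ≤ 10 * π.M0 * X ^ 3 := by
  have e1 := abs_le.1 (term 0 (π.abs_a (i := 1) (by norm_num)) hx hX h1 (m := 3) (by norm_num))
  have e2 := abs_le.1 (term 1 (π.abs_a (i := 2) (by norm_num)) hx hX h1 (m := 3) (by norm_num))
  have e3 := abs_le.1 (term 2 (π.abs_a (i := 3) (by norm_num)) hx hX h1 (m := 3) (by norm_num))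
  have e4 := abs_le.1 (term 3 (π.abs_a (i := 4) (by norm_num)) hx hX h1 (m := 3) (by norm_num))
  simp only [Par.P, pk]
  push_cast
  rw [abs_le]
  constructor <;> linarith [e1.1, e1.2, e2.1, e2.2, e3.1, e3.2, e4.1, e4.2]

theorem P1_le' (h4 : π.a 4 = 0) (hx : (0 : ℝ) ≤ x) (hX : (x : ℝ) ≤ X) (h1 : 1 ≤ X) :
    |π.P 1 x| ≤ 6 * π.M0 * X ^ 2 := by
  have e1 := abs_le.1 (term 0 (π.abs_a (i := 1) (by norm_num)) hx hX h1 (m := 2) (by norm_num))
  have e2 := abs_le.1 (term 1 (π.abs_a (i := 2) (by norm_num)) hx hX h1 (m := 2) (by norm_num))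
  have e3 := abs_le.1 (term 2 (π.abs_a (i := 3) (by norm_num)) hx hX h1 (m := 2) (by norm_num))
  simp only [Par.P, pk, h4]
  push_cast
  rw [abs_le]
  constructor <;> linarith [e1.1, e1.2, e2.1, e2.2, e3.1, e3.2]

theorem P2_le (hx : (0 : ℝ) ≤ x) (hX : (x : ℝ) ≤ X) (h1 : 1 ≤ X) :
    |π.P 2 x| ≤ 10 * π.M0 * X ^ 2 := by
  have e2 := abs_le.1 (term 0 (π.abs_a (i := 2) (by norm_num)) hx hX h1 (m := 2) (by norm_num))
  have e3 := abs_le.1 (term 1 (π.abs_a (i := 3) (by norm_num)) hx hX h1 (m := 2) (by norm_num))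
  have e4 := abs_le.1 (term 2 (π.abs_a (i := 4) (by norm_num)) hx hX h1 (m := 2) (by norm_num))
  simp only [Par.P, pk]
  push_cast
  rw [abs_le]
  constructor <;> linarith [e2.1, e2.2, e3.1, e3.2, e4.1, e4.2]

theorem P3_le (hx : (0 : ℝ) ≤ x) (hX : (x : ℝ) ≤ X) (h1 : 1 ≤ X) :
    |π.P 3 x| ≤ 5 * π.M0 * X := by
  have e3 := abs_le.1 (term 0 (π.abs_a (i := 3) (by norm_num)) hx hX h1 (m := 1) (by norm_num))
  have e4 := abs_le.1 (term 1 (π.abs_a (i := 4) (by norm_num)) hx hX h1 (m := 1) (by norm_num))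
  simp only [Par.P, pk]
  push_cast
  rw [abs_le]
  constructor <;> linarith [e3.1, e3.2, e4.1, e4.2]

theorem P4_le : |π.P 4 x| ≤ π.M0 := π.abs_a le_rfl

theorem rest {a b T : ℝ} (hx : (0 : ℝ) ≤ x) (hX : (x : ℝ) ≤ X) (h1 : 1 ≤ T) (hT : T ≤ X)
    (ha : 0 ≤ a) (ha' : a ≤ T) (hb : 0 ≤ b) (hb' : b ≤ T) :
    |π.P 2 x * (a ^ 2 - b ^ 2) + π.P 3 x * (a ^ 3 - b ^ 3) + π.P 4 x * (a ^ 4 - b ^ 4)| ≤
      16 * π.M0 * (X ^ 2 * T ^ 2) := by
  have e2 := abs_le.1 (mul_bd (P2_le π hx hX (h1.trans hT)) (dif 2 ha ha' hb hb'))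
  have e3 := abs_le.1 (mul_bd (P3_le π hx hX (h1.trans hT)) (dif 3 ha ha' hb hb'))
  have e4 := abs_le.1 (mul_bd (P4_le π (x := x)) (dif 4 ha ha' hb hb'))
  have hM : (0 : ℝ) ≤ π.M0 := Nat.cast_nonneg _
  have h0 : 0 ≤ T := by linarith
  have f3 : π.M0 * (X * T ^ 2) * T ≤ π.M0 * (X * T ^ 2) * X :=
    mul_le_mul_of_nonneg_left hT (mul_nonneg hM (mul_nonneg (h0.trans hT) (sq_nonneg T)))
  have f4 : π.M0 * T ^ 2 * T ^ 2 ≤ π.M0 * T ^ 2 * X ^ 2 :=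
    mul_le_mul_of_nonneg_left (pow_le_pow_left₀ h0 hT 2) (mul_nonneg hM (sq_nonneg T))
  rw [abs_le]
  constructor <;> linarith [e2.1, e2.2, e3.1, e3.2, e4.1, e4.2]

theorem fin_le {c : ℝ} {m n s : ℕ} (hc : c ≤ 100) (hm : m + 1 ≤ n) (hs : n * π.mu ≤ s) :
    c * π.M0 * π.B ^ m ≤ π.eps * (π.q : ℝ) ^ s := by
  have h1 : π.B ^ m * π.B ≤ (π.q : ℝ) ^ s := by
    rw [← pow_succ]
    exact (π.Bp_le hm).trans (by rw [π.B_pow]; exact π.qp_le hs)
  have h2 := π.bigM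
  have h3 := π.E_pos
  have h4 := pow_pos π.B_pos m
  have h5 : (0 : ℝ) ≤ π.M0 * π.E := by positivity
  unfold Par.eps
  rw [div_mul_eq_mul_div, one_mul, le_div_iff₀ (by positivity)]
  have h6 : 7 * c * (π.M0 * π.E) ≤ π.B := by nlinarith
  nlinarith [mul_le_mul_of_nonneg_left h6 h4.le]

end RInvB

open RInvB in
theorem invB : InvBS := by
  intro π x u j v v' hx hxN hu huB hnd
  have hx' : (0 : ℝ) ≤ x := by exact_mod_cast hx
  have hu' : (0 : ℝ) ≤ u := by exact_mod_cast hu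
  have hX : (x : ℝ) ≤ π.B ^ 1000000001 := le_trans (by exact_mod_cast hxN) π.N_le
  have hv : ∀ y : π.YB, (0 : ℝ) ≤ u + (y : ℕ) ∧ (u : ℝ) + (y : ℕ) ≤ π.B ^ 23 := fun y => by
    have h1 : ((y : ℕ) : ℝ) ≤ π.B ^ 3 := by
      rw [π.B_pow]
      exact_mod_cast y.2.le
    exact ⟨by positivity, by linarith⟩
  have hT : 1 ≤ π.B ^ 23 := one_le_pow₀ π.one_le_B
  have hTX : π.B ^ 23 ≤ π.B ^ 1000000001 := π.Bp_le (by omega)
  have hR := rest π hx' hX hT hTX (hv v).1 (hv v).2 (hv v').1 (hv v').2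
  have hD := dif 1 (hv v).1 (hv v).2 (hv v').1 (hv v').2
  have e1 : (π.B ^ 1000000001) ^ 2 * (π.B ^ 23) ^ 2 = π.B ^ 2000000048 := by
    rw [← pow_mul, ← pow_mul, ← pow_add]
  have hP : ∀ y : π.YB, π.P 0 (x + u + (y : ℕ)) = π.P 0 x + π.P 1 x * (u + (y : ℕ)) +
      π.P 2 x * (u + (y : ℕ)) ^ 2 + π.P 3 x * (u + (y : ℕ)) ^ 3 + π.P 4 x * (u + (y : ℕ)) ^ 4 := by
    intro y
    unfold Par.P
    rw [add_assoc x, pk_add]
    push_cast
    ring
  rw [e1] at hR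
  rw [pow_one, pow_one, pow_one] at hD
  rw [hP, hP]
  generalize hRd : π.P 2 x * ((u + (v : ℕ)) ^ 2 - (u + (v' : ℕ)) ^ 2) +
    π.P 3 x * ((u + (v : ℕ)) ^ 3 - (u + (v' : ℕ)) ^ 3) +
    π.P 4 x * ((u + (v : ℕ)) ^ 4 - (u + (v' : ℕ)) ^ 4) = R at hR
  have e2 : π.P 0 x + π.P 1 x * (u + (v : ℕ)) + π.P 2 x * (u + (v : ℕ)) ^ 2 +
      π.P 3 x * (u + (v : ℕ)) ^ 3 + π.P 4 x * (u + (v : ℕ)) ^ 4 -
      (π.P 0 x + π.P 1 x * (u + (v' : ℕ)) + π.P 2 x * (u + (v' : ℕ)) ^ 2 +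
      π.P 3 x * (u + (v' : ℕ)) ^ 3 + π.P 4 x * (u + (v' : ℕ)) ^ 4) =
      π.P 1 x * ((u + (v : ℕ)) - (u + (v' : ℕ))) + R := by
    rw [← hRd]
    ring
  rw [e2]
  have hs := π.qp_pos (π.sB j)
  have hts : 2000000050 * π.mu ≤ π.sB j := by
    rw [Par.sB, π.ts_eq]
    omega
  by_cases hj : (j : ℕ) < K3 π.d
  · have hw : π.wB j = π.mu := if_pos hj
    have hm := π.qp_pos π.mu
    have e3 : (π.P 1 x * ((u + (v : ℕ)) - (u + (v' : ℕ))) + R) / (π.q : ℝ) ^ (π.sB j + π.mu) =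
        (π.phB x j () v - π.phB x j () v') + R / (π.q : ℝ) ^ (π.sB j + π.mu) := by
      unfold Par.phB
      ring
    have h1 := fin_le π (c := 32) (m := 2000000048) (by norm_num) (by omega) hts
    have h2 : |R / (π.q : ℝ) ^ (π.sB j + π.mu)| ≤ π.eps / (2 * (π.q : ℝ) ^ π.mu) := by
      rw [abs_div, abs_of_pos (π.qp_pos _), pow_add, div_le_div_iff₀ (by positivity) (by positivity)]
      have h3 : 2 * |R| ≤ π.eps * (π.q : ℝ) ^ π.sB j := by linarith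
      nlinarith [mul_le_mul_of_nonneg_right h3 hm.le]
    have e4 : π.eps / (π.q : ℝ) ^ π.mu =
        π.eps / (2 * (π.q : ℝ) ^ π.mu) + π.eps / (2 * (π.q : ℝ) ^ π.mu) := by
      field_simp
      ring
    rw [hw, e3, e4]
    exact (nd_add_le _ _).trans (add_le_add hnd ((nd_le_abs _).trans h2))
  · have hw := π.qp_pos (π.wB j)
    have hM : (0 : ℝ) ≤ π.M0 := Nat.cast_nonneg _
    have key : |π.P 1 x * ((u + (v : ℕ)) - (u + (v' : ℕ))) + R| ≤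
        π.eps * (π.q : ℝ) ^ π.sB j := by
      refine (abs_add_le _ _).trans ?_
      rcases π.cases with ⟨-, -, -, -, h4⟩ | ⟨-, -, -, h3⟩
      · have h1 := mul_bd (P1_le' π h4 hx' hX (hT.trans hTX)) hD
        rw [mul_assoc, ← pow_mul, ← pow_add] at h1
        have h2 := fin_le π (c := 22) (m := 2000000048) (by norm_num) (by omega) hts
        have h5 := mul_le_mul_of_nonneg_left
          (π.Bp_le (show 1000000001 * 2 + 23 ≤ 2000000048 by omega)) hM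
        linarith
      · have h1 := mul_bd (P1_le π hx' hX (hT.trans hTX)) hD
        rw [mul_assoc, ← pow_mul, ← pow_add] at h1
        have hs' : 3000000050 * π.mu ≤ π.sB j := by
          have h6 := Nat.mul_le_mul_right π.mu (h3.symm.le.trans (not_lt.1 hj))
          rw [Par.sB, π.ts_eq]
          omega
        have h2 := fin_le π (c := 26) (m := 1000000001 * 3 + 23) (by norm_num) (by omega) hs'
        have h5 := mul_le_mul_of_nonneg_left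
          (π.Bp_le (show 2000000048 ≤ 1000000001 * 3 + 23 by omega)) hM
        linarith
    refine (nd_le_abs _).trans ?_
    rw [abs_div, abs_of_pos (π.qp_pos _), pow_add, div_le_div_iff₀ (by positivity) hw]
    nlinarith [mul_le_mul_of_nonneg_right key hw.le]

end Pool.Agent.MP_b1aeef_nt.G4
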