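import Pool.Agent.MP_b1aeef_nt.G4.Kit2

/-! Isolation of one point of a family of linear forms. -/

set_option autoImplicit false

namespace Pool.Agent.MP_b1aeef_nt.G4

open Finset
open scoped BigOperators

namespace RIso

theorem av_shift {A M : Type} [Fintype A] [AddCommGroup A] [AddCommMonoid M] [Module ℚ≥0 M]
    (g : A → M) (a : A) : 𝔼 c, g (c + a) = 𝔼 c, g c :=
  Fintype.expect_equiv (Equiv.addRight a) _ _ fun _ => rfl

theorem av_re {A : Type} [Fintype A] (g : A → ℂ) : 𝔼 a, (g a).re = (𝔼 a, g a).re := by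
  rw [expect_eq_sum_div_card, expect_eq_sum_div_card, ← Complex.re_sum, Complex.div_natCast_re]

/-- coefficient of the new variable `t` in the form `τ` -/
def co {T : Type} [DecidableEq T] (v : T → ℤ) (τ0 τ t : T) : ℤ := if t = τ0 then 1 else v τ - v t

theorem step1 {T : Type} [Fintype T] [DecidableEq T] (τ0 : T) {R : ℕ} [NeZero R] (v : T → ℤ)
    (f : T → ZMod R → ℝ) :
    𝔼 c : ZMod R × ZMod R, ee (∑ τ, f τ (c.1 + (v τ : ZMod R) * c.2)) =
      𝔼 c : ZMod R × ZMod R, 𝔼 j : T → ZMod R,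
        ee (∑ τ, f τ (c.1 + (v τ : ZMod R) * c.2 + ∑ t, (co v τ0 τ t : ZMod R) * j t)) := by
  rw [expect_comm]
  refine (expect_const (s := (univ : Finset (T → ZMod R))) univ_nonempty _).symm.trans ?_
  refine expect_congr rfl fun j _ => ?_
  rw [← av_shift (fun c : ZMod R × ZMod R => ee (∑ τ, f τ (c.1 + (v τ : ZMod R) * c.2)))
    (∑ t, (if t = τ0 then (1 : ZMod R) else -(v t : ZMod R)) * j t,
      ∑ t, (if t = τ0 then (0 : ZMod R) else 1) * j t)]
  refine expect_congr rfl fun c _ => ?_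
  refine congrArg ee (sum_congr rfl fun τ _ => congrArg (f τ) ?_)
  have h : ∑ t, (co v τ0 τ t : ZMod R) * j t =
      ∑ t, (if t = τ0 then (1 : ZMod R) else -(v t : ZMod R)) * j t +
        (v τ : ZMod R) * ∑ t, (if t = τ0 then (0 : ZMod R) else 1) * j t := by
    rw [mul_sum, ← sum_add_distrib]
    refine sum_congr rfl fun t _ => ?_
    unfold co
    split_ifs
    · push_cast
      ring
    · push_cast
      ring
  rw [h, Prod.fst_add, Prod.snd_add]
  ring

theorem step3 (hB : BoxS) {T : Type} [Fintype T] [DecidableEq T] (τ0 : T) {R : ℕ} [NeZero R]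
    (v : T → ℤ) (f : T → ZMod R → ℝ) (x : T → ZMod R) :
    ‖𝔼 j : T → ZMod R, ee (∑ τ, f τ (x τ + ∑ t, (co v τ0 τ t : ZMod R) * j t))‖ ^
        (2 ^ Fintype.card T) ≤
      (𝔼 y : (T → ZMod R) × (T → ZMod R), ee (∑ ω : T → Bool, sg ω *
        f τ0 (x τ0 + ∑ t, (dl v τ0 t : ZMod R) * mix ω y.1 y.2 t))).re := by
  have : Nonempty T := ⟨τ0⟩
  have h := hB T (ZMod R) (fun _ _ => 1) (fun _ => ⟨fun _ => zero_le_one, av_const 1⟩)
    (fun j => f τ0 (x τ0 + ∑ t, (dl v τ0 t : ZMod R) * j t))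
    (fun τ j => if τ = τ0 then 1 else ee (f τ (x τ + ∑ t, (co v τ0 τ t : ZMod R) * j t)))
    (fun τ j => by
      split_ifs
      · exact norm_one.le
      · exact (norm_ee _).le)
    (fun τ j y' => by
      by_cases hτ : τ = τ0
      · simp only [if_pos hτ]
      · simp only [if_neg hτ]
        refine congrArg (fun z => ee (f τ (x τ + z))) (sum_congr rfl fun t _ => ?_)
        by_cases ht : t = τ
        · subst ht
          simp [co, hτ]
        · rw [Function.update_of_ne ht])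
  simp only [prod_const_one, mul_one, Complex.ofReal_one, one_mul] at h
  refine le_of_eq_of_le ?_ h
  congr 2
  refine expect_congr rfl fun j _ => ?_
  rw [ee_sum, ← mul_prod_erase _ _ (mem_univ τ0),
    ← mul_prod_erase univ (fun τ => if τ = τ0 then (1 : ℂ) else _) (mem_univ τ0), if_pos rfl,
    one_mul]
  congr 1
  exact prod_congr rfl fun τ hτ => by rw [if_neg (ne_of_mem_erase hτ)]

theorem step4 {T : Type} [Fintype T] [DecidableEq T] (τ0 : T) {R : ℕ} [NeZero R]
    (v : T → ℤ) (g : ZMod R → ℝ) (y : (T → ZMod R) × (T → ZMod R)) :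
    𝔼 c : ZMod R × ZMod R, ee (∑ ω : T → Bool, sg ω *
        g (c.1 + (v τ0 : ZMod R) * c.2 + ∑ t, (dl v τ0 t : ZMod R) * mix ω y.1 y.2 t)) =
      𝔼 c : ZMod R, ee (∑ ω : T → Bool, sg ω *
        g (c + ∑ τ, if ω τ then (dl v τ0 τ : ZMod R) * (y.2 τ - y.1 τ) else 0)) := by
  rw [av_prod, expect_comm]
  refine Eq.trans ?_ (expect_const (s := (univ : Finset (ZMod R))) univ_nonempty _)
  refine expect_congr rfl fun b _ => ?_
  rw [← av_shift (fun c : ZMod R => ee (∑ ω : T → Bool, sg ω *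
        g (c + ∑ τ, if ω τ then (dl v τ0 τ : ZMod R) * (y.2 τ - y.1 τ) else 0)))
    ((v τ0 : ZMod R) * b + ∑ t, (dl v τ0 t : ZMod R) * y.1 t)]
  refine expect_congr rfl fun a _ => ?_
  refine congrArg ee (sum_congr rfl fun ω _ => congrArg (fun z => sg ω * g z) ?_)
  have h : ∑ t, (dl v τ0 t : ZMod R) * mix ω y.1 y.2 t =
      ∑ t, (dl v τ0 t : ZMod R) * y.1 t +
        ∑ τ, if ω τ then (dl v τ0 τ : ZMod R) * (y.2 τ - y.1 τ) else 0 := by
    rw [← sum_add_distrib]
    refine sum_congr rfl fun t _ => ?_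
    unfold mix
    split_ifs <;> ring
  rw [h]
  ring

end RIso

theorem isoOf : IsoOf := by
  intro hB T _ _ τ0 R _ v f
  rw [RIso.step1 τ0 v f]
  refine (pow_le_pow_left₀ (norm_nonneg _) (norm_av_le _) _).trans ?_
  have hj := jen (O := ZMod R × ZMod R) (W := fun _ => 1)
    (g := fun c => ‖𝔼 j : T → ZMod R, ee (∑ τ, f τ (c.1 + (v τ : ZMod R) * c.2 +
      ∑ t, (RIso.co v τ0 τ t : ZMod R) * j t))‖)
    ⟨fun _ => zero_le_one, av_const 1⟩ (fun _ => norm_nonneg _) (2 ^ Fintype.card T)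
  simp only [one_mul] at hj
  refine hj.trans ?_
  refine (av_le fun c : ZMod R × ZMod R =>
    RIso.step3 hB τ0 v f (fun τ => c.1 + (v τ : ZMod R) * c.2)).trans ?_
  rw [RIso.av_re, expect_comm]
  refine (Complex.re_le_norm _).trans ((norm_av_le _).trans ?_)
  exact av_le fun y => by rw [RIso.step4 τ0 v (f τ0) y]

end Pool.Agent.MP_b1aeef_nt.G4
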