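import Pool.Agent.MP_b1aeef_nt.G4.Kit2

/-! Rows Ker and Avg: pair kernels and the averaged second moment bound. -/

set_option autoImplicit false

namespace Pool.Agent.MP_b1aeef_nt.G4

open Finset
open scoped BigOperators

namespace RKer

theorem ind_av {Y : Type} [Fintype Y] (s : Y → Prop) (h : ∀ y1 y2, s y1 → s y2 → y1 = y2) :
    𝔼 y, ind (s y) ≤ 1 / (Fintype.card Y : ℝ) := by
  rw [expect_eq_sum_div_card, card_univ]
  gcongr
  by_cases h0 : ∃ y, s y
  · obtain ⟨y, hy⟩ := h0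
    rw [sum_eq_single y (fun b _ hb => ind_neg fun k => hb (h _ _ k hy))
      fun k => (k (mem_univ y)).elim]
    exact ind_le_one _
  · rw [sum_eq_zero fun b _ => ind_neg fun k => h0 ⟨b, k⟩]
    exact zero_le_one

theorem cancel {Y : Type} [Fintype Y] {f : Y → ℝ} (h : ∀ y, 0 ≤ f y) (y : Y) :
    (f y * 𝔼 x, f x) / (𝔼 x, f x) = f y := by
  by_cases h0 : 𝔼 x, f x = 0
  · rw [h0, div_zero]
    exact ((expect_eq_zero_iff_of_nonneg fun i _ => h i).1 h0 y (mem_univ y)).symm
  · exact mul_div_cancel_right₀ _ h0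

theorem sq_eq {Y : Type} [Fintype Y] (θ : Y → ℝ) :
    ‖𝔼 y, ee (θ y)‖ ^ 2 = (𝔼 y, 𝔼 y', ee (θ y - θ y')).re := by
  have h : (starRingEnd ℂ) (𝔼 y, ee (θ y)) = 𝔼 y, (starRingEnd ℂ) (ee (θ y)) := by
    simp only [expect_eq_sum_div_card, map_div₀, map_sum, map_natCast]
  simp only [ee_sub]
  rw [← Fintype.expect_mul_expect, ← h, Complex.mul_conj', ← Complex.ofReal_pow,
    Complex.ofReal_re]

end RKer

theorem kerS : KerS := by
  intro C Y _ _ Cs ψ h
  have hp : ∀ c, 0 ≤ 𝔼 x, ψ c x := fun c => av_nonneg (h.1 c)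
  refine ⟨⟨fun y y' => sum_nonneg fun c _ => div_nonneg (mul_nonneg (h.1 c y) (h.1 c y')) (hp c),
    fun y y' => sum_congr rfl fun c _ => by rw [mul_comm], fun y => ?_⟩, fun s hs => ?_⟩
  · unfold ker
    rw [expect_sum_comm, ← h.2 y]
    exact sum_congr rfl fun c _ => by rw [← expect_div, ← mul_expect, RKer.cancel (h.1 c)]
  · have h1 : ∀ y y', ker Cs ψ y y' ≤ ∑ c ∈ Cs, ψ c y / 𝔼 x, ψ c x := fun y y' =>
      sum_le_sum fun c hc => div_le_div_of_nonneg_right (mul_le_of_le_one_right (h.1 c y)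
        ((single_le_sum (fun c _ => h.1 c y') hc).trans_eq (h.2 y'))) (hp c)
    have h2 : ∀ y, 𝔼 y', ker Cs ψ y y' * ind (s y y') ≤
        (∑ c ∈ Cs, ψ c y / 𝔼 x, ψ c x) * (1 / (Fintype.card Y : ℝ)) := fun y => by
      refine (av_le fun y' => mul_le_mul_of_nonneg_right (h1 y y') (ind_nonneg _)).trans ?_
      rw [← mul_expect]
      exact mul_le_mul_of_nonneg_left (RKer.ind_av _ (hs y))
        (sum_nonneg fun c _ => div_nonneg (h.1 c y) (hp c))
    refine (av_le h2).trans ?_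
    rw [← expect_mul, mul_one_div, expect_sum_comm]
    gcongr
    refine (sum_le_card_nsmul Cs _ 1 fun c _ => ?_).trans_eq (by simp)
    rw [← expect_div]
    exact div_self_le_one _

theorem avg : AvgS := by
  intro A Y _ _ _ _ Θ η hη h
  refine Real.le_sqrt_of_sq_le ?_
  have h1 := jen (W := fun _ : A => 1) (g := fun a => ‖𝔼 y, ee (Θ a y)‖)
    ⟨fun _ => zero_le_one, av_const 1⟩ (fun _ => norm_nonneg _) 2
  simp only [one_mul] at h1
  refine h1.trans ?_
  simp only [RKer.sq_eq]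
  rw [← Complex.re_expect, expect_comm]
  refine (Complex.re_le_norm _).trans ((norm_av_le _).trans (av_le_const fun y => ?_))
  rw [expect_comm]
  refine (norm_av_le _).trans ((av_le (g := fun y' => ind (y = y') + η) fun y' => ?_).trans ?_)
  · by_cases e : y = y'
    · rw [ind_pos e]
      exact (norm_av_ee_le _).trans (le_add_of_nonneg_right hη)
    · rw [ind_neg e, zero_add]
      exact h y y' e
  · rw [expect_add_distrib, av_const]
    exact add_le_add_left (RKer.ind_av _ fun _ _ a b => a.symm.trans b) η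

end Pool.Agent.MP_b1aeef_nt.G4
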