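import Pool.Agent.MP_b1aeef_nt.G4.Kit2

/-! Fejer labels of a family of phases, and the passage to the uniform law on a grid. -/

set_option autoImplicit false

namespace Pool.Agent.MP_b1aeef_nt.G4

open Finset
open scoped BigOperators

namespace RLab

theorem half {C Y : Type} [Fintype Y] (Cs : Finset C) {ψ t : C → Y → ℝ} (h : ∀ c y, 0 ≤ ψ c y)
    (ht : ∀ c y, 0 ≤ t c y) :
    𝔼 y, 𝔼 y', ∑ c ∈ Cs, ψ c y * ψ c y' / (𝔼 x, ψ c x) * t c y ≤ 𝔼 y, ∑ c ∈ Cs, ψ c y * t c y := by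
  refine av_le fun y => ?_
  rw [expect_sum_comm]
  refine sum_le_sum fun c _ => ?_
  have e : ∀ y', ψ c y * ψ c y' / (𝔼 x, ψ c x) * t c y =
      ψ c y * t c y / (𝔼 x, ψ c x) * ψ c y' := fun y' => by ring
  simp only [e, ← mul_expect]
  rw [div_mul_comm]
  exact mul_le_of_le_one_left (mul_nonneg (h c y) (ht c y)) (div_self_le_one _)

theorem pair {C Y : Type} [Fintype Y] (Cs : Finset C) {ψ t : C → Y → ℝ} {s : Y → Y → ℝ}
    (h : ∀ c y, 0 ≤ ψ c y) (ht : ∀ c y, 0 ≤ t c y) (hs : ∀ c y y', s y y' ≤ t c y + t c y') :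
    𝔼 y, 𝔼 y', ker Cs ψ y y' * s y y' ≤ 2 * 𝔼 y, ∑ c ∈ Cs, ψ c y * t c y := by
  have h1 := half Cs h ht
  have h2 := h1
  rw [expect_comm] at h2
  refine le_trans ?_ ((add_le_add h1 h2).trans_eq (two_mul _).symm)
  rw [← expect_add_distrib]
  refine av_le fun y => ?_
  rw [← expect_add_distrib]
  refine av_le fun y' => ?_
  rw [ker, sum_mul, ← sum_add_distrib]
  refine sum_le_sum fun c _ => ?_
  rw [mul_comm (ψ c y'), ← mul_add]
  exact mul_le_mul_of_nonneg_left (hs c y y')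
    (div_nonneg (mul_nonneg (h c y) (h c y')) (av_nonneg (h c)))

theorem ind_split (a b c δ : ℝ) :
    ind (δ < nd (a - b)) ≤ ind (δ / 2 < nd (a - c)) + ind (δ / 2 < nd (b - c)) := by
  by_cases h1 : δ / 2 < nd (a - c)
  · rw [ind_pos h1]
    linarith [ind_le_one (δ < nd (a - b)), ind_nonneg (δ / 2 < nd (b - c))]
  by_cases h2 : δ / 2 < nd (b - c)
  · rw [ind_pos h2]
    linarith [ind_le_one (δ < nd (a - b)), ind_nonneg (δ / 2 < nd (a - c))]
  have h3 := nd_sub_le (a - c) (b - c)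
  rw [sub_sub_sub_cancel_right] at h3
  rw [ind_neg h1, ind_neg h2, ind_neg (by linarith)]
  linarith

theorem grid (R : ℕ) [NeZero R] (Ψ : ZMod R × ZMod R → ℂ) :
    ∑ c ∈ cs (fun _ : Bool => R), Ψ (c false, c true) = ∑ c, Ψ c := by
  refine sum_nbij' (fun c => ((c false : ZMod R), (c true : ZMod R)))
    (fun p s => if s then p.2.val else p.1.val) (fun _ _ => mem_univ _) (fun p _ => ?_)
    (fun c hc => ?_) (fun p _ => by simp) fun _ _ => rfl
  · refine Fintype.mem_piFinset.2 fun s => mem_range.2 ?_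
    cases s <;> exact ZMod.val_lt _
  · funext s
    have := mem_range.1 (Fintype.mem_piFinset.1 hc s)
    cases s <;> exact ZMod.val_natCast_of_lt this

end RLab

open RLab

theorem labOf : LabOf := fun hF hK L Y _ _ _ _ R Φ hR => by
  have h0 : ∀ c y, 0 ≤ lab R Φ c y := fun c y => prod_nonneg fun l _ => (hF _ (hR l)).1 _
  have h1 : IsLab (cs R) (lab R Φ) := ⟨h0, fun y => by
    rw [← prod_eq_one fun l (_ : l ∈ univ) => (hF _ (hR l)).2.1 (Φ l y), prod_univ_sum]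
    rfl⟩
  have h2 : ∀ l (δ : ℝ) y, 0 < δ → ∑ c ∈ cs R, lab R Φ c y *
      ind (δ < nd (Φ l y - (c l : ℝ) / R l)) ≤ 4 / (R l * δ) := fun l δ y hδ => by
    have e := prod_univ_sum (fun i => range (R i)) fun i (j : ℕ) => fej (R i) (Φ i y - j / R i) *
      if i = l then ind (δ < nd (Φ i y - (j : ℝ) / R i)) else 1
    simp only [prod_mul_distrib, prod_ite_eq', mem_univ, if_true] at e
    refine e.symm.trans_le ?_
    rw [Fintype.prod_eq_single l fun i hi => by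
      simpa only [if_neg hi, mul_one] using (hF _ (hR i)).2.1 (Φ i y)]
    simpa only [if_true] using (hF _ (hR l)).2.2.1 (Φ l y) δ hδ
  refine ⟨h1, (hK _ _ _ _ h1).1, h2, fun l δ hδ => ?_⟩
  refine (pair (cs R) h0 (t := fun c y => ind (δ / 2 < nd (Φ l y - (c l : ℝ) / R l)))
    (fun _ _ => ind_nonneg _) fun c y y' => ind_split _ _ _ _).trans ?_
  have h3 := av_le_const fun y => h2 l (δ / 2) y (half_pos hδ)
  have h4 : 16 / (R l * δ) = 2 * (4 / (R l * (δ / 2))) := by ring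
  linarith

theorem eq2Of : Eq2Of := fun hL Y _ _ R _ θ φ bad F Ψ δ hδ hF hΨ hb H => by
  obtain ⟨⟨h0, h1⟩, -, h2, -⟩ := hL Bool Y (fun _ => R) (fun s => if s then φ else θ)
    fun _ => Nat.pos_of_neZero R
  unfold def2
  set ψ := lab (fun _ : Bool => R) (fun s => if s then φ else θ)
  set Cs := cs fun _ : Bool => R
  have a1 : ∀ y, ‖F y - ∑ c ∈ Cs, (ψ c y : ℂ) * Ψ (c false, c true)‖ ≤ bad y + 16 / (R * δ) :=
      fun y => by
    have e : F y - ∑ c ∈ Cs, (ψ c y : ℂ) * Ψ (c false, c true) =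
        ∑ c ∈ Cs, (ψ c y : ℂ) * (F y - Ψ (c false, c true)) := by
      simp only [mul_sub, sum_sub_distrib, ← sum_mul, ← Complex.ofReal_sum, h1 y,
        Complex.ofReal_one, one_mul]
    have b : ∀ c ∈ Cs, ‖(ψ c y : ℂ) * (F y - Ψ (c false, c true))‖ ≤ ψ c y * bad y +
        2 * (ψ c y * ind (δ < nd (θ y - (c false : ℝ) / R))) +
        2 * (ψ c y * ind (δ < nd (φ y - (c true : ℝ) / R))) := fun c hc => by
      have v := fun s => ZMod.val_natCast_of_lt (mem_range.1 (Fintype.mem_piFinset.1 hc s))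
      have n := (norm_sub_le _ _).trans (add_le_add (hF y) (hΨ (c false, c true)))
      have i1 := ind_nonneg (δ < nd (θ y - (c false : ℝ) / R))
      have i2 := ind_nonneg (δ < nd (φ y - (c true : ℝ) / R))
      have k : ‖F y - Ψ (c false, c true)‖ ≤ bad y + 2 * ind (δ < nd (θ y - (c false : ℝ) / R)) +
          2 * ind (δ < nd (φ y - (c true : ℝ) / R)) := by
        by_cases k1 : δ < nd (θ y - (c false : ℝ) / R)
        · rw [ind_pos k1]
          linarith [hb y]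
        by_cases k2 : δ < nd (φ y - (c true : ℝ) / R)
        · rw [ind_pos k2]
          linarith [hb y]
        have := H y (c false, c true) (by rw [v]; exact not_lt.1 k1) (by rw [v]; exact not_lt.1 k2)
        linarith
      rw [norm_mul, Complex.norm_real, Real.norm_of_nonneg (h0 c y)]
      exact (mul_le_mul_of_nonneg_left k (h0 c y)).trans_eq (by ring)
    rw [e]
    refine ((norm_sum_le _ _).trans (sum_le_sum b)).trans ?_
    simp only [sum_add_distrib, ← mul_sum]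
    rw [← sum_mul, h1 y, one_mul]
    have t1 : ∑ c ∈ Cs, ψ c y * ind (δ < nd (θ y - (c false : ℝ) / R)) ≤ 4 / (R * δ) :=
      h2 false δ y hδ
    have t2 : ∑ c ∈ Cs, ψ c y * ind (δ < nd (φ y - (c true : ℝ) / R)) ≤ 4 / (R * δ) :=
      h2 true δ y hδ
    have t3 : 16 / (R * δ) = 4 * (4 / (R * δ)) := by ring
    linarith
  have a2 : 𝔼 y, F y = 𝔼 c, Ψ c + 𝔼 y, (F y - ∑ c ∈ Cs, (ψ c y : ℂ) * Ψ (c false, c true)) +
      ∑ c ∈ Cs, ((𝔼 y, ψ c y - 1 / (R : ℝ) ^ 2 : ℝ) : ℂ) * Ψ (c false, c true) := by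
    rw [expect_sub_distrib, expect_sum_comm, expect_eq_sum_div_card _ Ψ, ← grid R Ψ, card_univ,
      Fintype.card_prod, ZMod.card]
    simp only [← expect_mul, Complex.ofReal_sub, sub_mul, sum_sub_distrib, ← mul_sum,
      Complex.ofReal_expect]
    push_cast
    ring
  have a3 : ‖𝔼 y, (F y - ∑ c ∈ Cs, (ψ c y : ℂ) * Ψ (c false, c true))‖ ≤
      𝔼 y, bad y + 16 / (R * δ) := by
    refine ((norm_av_le _).trans (av_le a1)).trans_eq ?_
    rw [expect_add_distrib, av_const]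
  have a4 : ‖∑ c ∈ Cs, ((𝔼 y, ψ c y - 1 / (R : ℝ) ^ 2 : ℝ) : ℂ) * Ψ (c false, c true)‖ ≤
      ∑ c ∈ Cs, |𝔼 y, ψ c y - 1 / (R : ℝ) ^ 2| := (norm_sum_le _ _).trans (sum_le_sum fun c _ => by
    rw [norm_mul, Complex.norm_real, Real.norm_eq_abs]
    exact mul_le_of_le_one_right (abs_nonneg _) (hΨ _))
  rw [a2]
  linarith [norm_add₃_le (a := 𝔼 c, Ψ c)
    (b := 𝔼 y, (F y - ∑ c ∈ Cs, (ψ c y : ℂ) * Ψ (c false, c true)))
    (c := ∑ c ∈ Cs, ((𝔼 y, ψ c y - 1 / (R : ℝ) ^ 2 : ℝ) : ℂ) * Ψ (c false, c true))]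

end Pool.Agent.MP_b1aeef_nt.G4
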