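import Pool.Agent.MP_b1aeef_nt.G4.Kit2

/-! Choice of the parameters and the power saving. -/

set_option autoImplicit false

namespace Pool.Agent.MP_b1aeef_nt.G4

open Finset
open scoped BigOperators

namespace RMain

theorem step {x X Y c c' g : ℝ} (n : ℕ) (hx : 0 < x) (hx1 : x ≤ 1) (hX : 0 ≤ X)
    (h : X ≤ c * x ^ g) (hg : 0 < g) (hg1 : g ≤ 1) (hc : 0 ≤ c) (hc' : 0 ≤ c')
    (hY : Y ≤ c' * x + rt n X) : Y ≤ (c' + c + 1) * x ^ (g / 2 ^ n) := by
  have h2 : (1 : ℝ) ≤ 2 ^ n := one_le_pow₀ one_le_two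
  have h3 : g / 2 ^ n ≤ 1 := (div_le_self hg.le h2).trans hg1
  have h4 : x ≤ x ^ (g / 2 ^ n) := by
    conv_lhs => rw [← Real.rpow_one x]
    exact Real.rpow_le_rpow_of_exponent_ge hx hx1 h3
  have h5 : rt n X ≤ (c + 1) * x ^ (g / 2 ^ n) := by
    refine (rt_mono n hX (h.trans (mul_le_mul_of_nonneg_right (by linarith : c ≤ c + 1)
      (by positivity)))).trans ?_
    rw [rt, Real.mul_rpow (by linarith) (by positivity), ← Real.rpow_mul hx.le, mul_one_div]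
    refine mul_le_mul_of_nonneg_right ?_ (by positivity)
    conv_rhs => rw [← Real.rpow_one (c + 1)]
    exact Real.rpow_le_rpow_of_exponent_le (by linarith) (by rw [div_le_one (by linarith)]; exact h2)
  nlinarith [mul_le_mul_of_nonneg_left h4 hc']

theorem A_nonneg {O : Type} [Fintype O] {W f : O → ℝ} (hW : ∀ o, 0 ≤ W o) (hf : ∀ o, 0 ≤ f o) :
    0 ≤ 𝔼 o, W o * f o := av_nonneg fun o => mul_nonneg (hW o) (hf o)

theorem fk_nonneg {L Y : Type} [Fintype L] [DecidableEq L] [Fintype Y] (R : L → ℕ)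
    (Φ : L → Y → ℝ) (y y' : Y) : 0 ≤ fk R Φ y y' := by
  have h : ∀ c y, 0 ≤ lab R Φ c y := fun c y => prod_nonneg fun l _ => by unfold fej; positivity
  exact sum_nonneg fun c _ => div_nonneg (mul_nonneg (h _ _) (h _ _)) (av_nonneg (h c))

theorem W1_nonneg (π : Par) (o : π.O1) : 0 ≤ π.W1 o :=
  mul_nonneg zero_le_one (prod_nonneg fun _ _ => fk_nonneg _ _ _ _)

theorem W2_nonneg (π : Par) (o : π.O2) : 0 ≤ π.W2 o :=
  mul_nonneg (W1_nonneg π _) (prod_nonneg fun _ _ => fk_nonneg _ _ _ _)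

theorem W3_nonneg (π : Par) (o : π.O3) : 0 ≤ π.W3 o :=
  mul_nonneg (W2_nonneg π _) (prod_nonneg fun _ _ => fk_nonneg _ _ _ _)

/-- the chain of the four stages -/
theorem chain (he : EdgeS) (h0 : St0S) (hA : StAS) (hB : StBS) (hF : FinGS) (d k M : ℕ) (c : ℝ)
    (hc : 0 ≤ c) : ∃ g C : ℝ, 0 < g ∧ 0 ≤ C ∧ ∀ π : Par, π.d = d → π.k = k → π.M0 = M →
      π.Cd ^ Fintype.card (I0 π.d ⊕ Ta π.d π.k) *
        (π.M0 / π.B + 𝔼 z : I0 π.d ⊕ Ta π.d π.k → π.ZQ, xi π.q (π.al π.l0) z) ≤ c * (1 / π.E) →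
      ‖𝔼 a : π.O0, ee (π.Ph ((a : ℕ) : ℤ))‖ ≤ C * (1 / π.E) ^ g := by
  set nT := Fintype.card (Ta d k)
  set nG := Fintype.card (Ga d)
  set nA := Fintype.card (IA d)
  set nB := Fintype.card (IB d)
  refine ⟨1 / 2 ^ nT / 2 ^ nB / 2 ^ nA / 2 ^ 1, 1 + 100 * M + (nA * (100 * M) + (nB * (100 * M) +
    (100 * M * nG * nT + c + 1) + 1) + 1) + 1, by positivity, by positivity, ?_⟩
  rintro π rfl rfl rfl h
  have hx : 0 < 1 / π.E := by have := π.E_pos; positivity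
  have hx1 : 1 / π.E ≤ 1 := by rw [div_le_one π.E_pos]; exact π.one_le_E
  have hle : ∀ (g : ℝ) (n : ℕ), 0 < g → g ≤ 1 → g / 2 ^ n ≤ 1 := fun g n hg hg1 =>
    (div_le_self hg.le (one_le_pow₀ one_le_two)).trans hg1
  have l1 := hle 1 nT one_pos le_rfl
  have l2 := hle _ nB (by positivity) l1
  have l3 := hle _ nA (by positivity) l2
  have p1 : 0 ≤ π.A1 := A_nonneg (W1_nonneg π) fun _ => av_nonneg fun _ => norm_nonneg _
  have p2 : 0 ≤ π.A2 := A_nonneg (W2_nonneg π) fun _ => av_nonneg fun _ => norm_nonneg _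
  have p3 : 0 ≤ π.A3 := A_nonneg (W3_nonneg π) fun _ => norm_nonneg _
  have s3 : π.A3 ≤ _ := step (c' := 100 * π.M0 * nG * nT) nT hx hx1
    (mul_nonneg (pow_nonneg (zero_le_one.trans π.one_le_Cd) _)
      (add_nonneg (div_nonneg (Nat.cast_nonneg _) π.B_pos.le) (av_nonneg fun z => (xi_mem _ _ z).1)))
    (h.trans_eq (by rw [Real.rpow_one])) one_pos le_rfl hc (by positivity)
    ((hF π).trans_eq (by rw [mul_one_div]))
  have s2 : π.A2 ≤ _ := step (c' := nB * (100 * π.M0)) nB hx hx1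
    p3 s3 (by positivity) l1 (by positivity)
    (by positivity) ((hB π).trans_eq (by rw [mul_one_div, mul_div_assoc (nB : ℝ)]))
  have s1 : π.A1 ≤ _ := step (c' := nA * (100 * π.M0)) nA hx hx1
    p2 s2 (by positivity) l2
    (by positivity) (by positivity)
    ((hA π).trans_eq (by rw [mul_one_div, mul_div_assoc (nA : ℝ)]))
  refine step (c' := 1 + 100 * π.M0) 1 hx hx1
    p1 s1 (by positivity) l3
    (by positivity) (by positivity) ((he π).trans ?_)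
  have h5 := h0 π
  rw [add_mul, mul_one_div (100 * _), one_mul]
  linarith

/-- the input of the last stage is small -/
theorem last (π : Par) (n j C1 : ℕ) (θ Cx S : ℝ) (hθ : 0 < θ) (hCx : 0 ≤ Cx)
    (h1 : θ ^ C1 * (π.q : ℝ) ^ (2 * n + 1) ≤ 1) (hj : j = C1 * π.la)
    (hmu : (2 * n + 1) * π.la ≤ π.mu) (hS : S ≤ Cx * θ ^ j) :
    π.Cd ^ n * (π.M0 / π.B + S) ≤ (8 * (π.q : ℝ) ^ 4) ^ n * (π.M0 + Cx) * (1 / π.E) := by
  have hE := π.E_pos
  have hB := π.B_pos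
  have e1 : π.Cd ^ n = (8 * (π.q : ℝ) ^ 4) ^ n * π.E ^ (2 * n) := by
    unfold Par.Cd Par.E
    ring
  have e2 : π.E ^ (2 * n) * (1 / π.B) ≤ 1 / π.E := by
    rw [mul_one_div, div_le_div_iff₀ hB hE, one_mul, ← pow_succ, Par.E, ← pow_mul, mul_comm]
    exact π.qp_le hmu
  have e3 : π.E ^ (2 * n) * θ ^ j ≤ 1 / π.E := by
    rw [le_div_iff₀ hE, mul_right_comm, ← pow_succ, Par.E, ← pow_mul, hj, mul_comm π.la, pow_mul,
      pow_mul θ, ← mul_pow, mul_comm]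
    exact pow_le_one₀ (mul_nonneg (pow_pos hθ _).le (π.qp_pos _).le) h1
  have h8 : (0 : ℝ) ≤ (8 * (π.q : ℝ) ^ 4) ^ n := by positivity
  rw [e1, mul_assoc, mul_assoc]
  refine mul_le_mul_of_nonneg_left ?_ h8
  have h9 := mul_le_mul_of_nonneg_left hS (pow_pos hE (2 * n)).le
  have h10 := mul_le_mul_of_nonneg_left e2 (Nat.cast_nonneg π.M0 : (0 : ℝ) ≤ π.M0)
  have h11 := mul_le_mul_of_nonneg_left e3 hCx
  rw [div_eq_mul_one_div (π.M0 : ℝ)]
  nlinarith

theorem exTT (q N : ℕ) (hq : 2 ≤ q) (f : ℤ → ℤ) :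
    ∃ T : ℕ, ∀ n : ℤ, 0 ≤ n → n ≤ 2 * N → f n < (q : ℤ) ^ T := by
  obtain ⟨b, hb⟩ := ((Icc (0 : ℤ) (2 * N)).image f).bddAbove
  obtain ⟨T, hT⟩ := pow_unbounded_of_one_lt b (show (1 : ℤ) < q by exact_mod_cast hq)
  exact ⟨T, fun n h0 h1 => (hb (mem_coe.2 (mem_image_of_mem f (mem_Icc.2 ⟨h0, h1⟩)))).trans_lt hT⟩

/-- from the scale to a power of the length -/
theorem scale {q N D C2 mu la : ℕ} {g : ℝ} (hq : 2 ≤ q) (hN : 0 < N) (hD : 0 < D) (hC : 0 < C2)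
    (h1 : N < q ^ (D * (mu + 1))) (h2 : la = mu / C2) (hg : 0 < g) :
    (1 / (q : ℝ) ^ la) ^ g ≤ (q : ℝ) ^ g * (N : ℝ) ^ (-(g / (D * C2))) := by
  have hq' : (1 : ℝ) < q := by exact_mod_cast hq
  have hN' : (0 : ℝ) < N := by exact_mod_cast hN
  have h3 : mu + 1 ≤ C2 * (la + 1) := by
    have := Nat.lt_mul_div_succ mu hC
    rw [h2]
    omega
  have h4 : (N : ℝ) ≤ ((q : ℝ) ^ (la + 1)) ^ (D * C2) := by
    rw [← pow_mul]
    have h5 : q ^ (D * (mu + 1)) ≤ q ^ ((la + 1) * (D * C2)) :=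
      Nat.pow_le_pow_right (by omega) (by nlinarith [Nat.mul_le_mul_left D h3])
    exact_mod_cast h1.le.trans h5
  have hDC : (0 : ℝ) < D * C2 := by positivity
  have h6 : (N : ℝ) ^ (g / (D * C2)) ≤ ((q : ℝ) ^ (la + 1)) ^ g := by
    refine (Real.rpow_le_rpow hN'.le h4 (by positivity)).trans_eq ?_
    rw [← Real.rpow_natCast _ (D * C2), ← Real.rpow_mul (by positivity)]
    congr 1
    push_cast
    field_simp
  rw [Real.rpow_neg hN'.le, ← div_eq_mul_inv, le_div_iff₀ (by positivity)]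
  refine (mul_le_mul_of_nonneg_left h6 (by positivity)).trans_eq ?_
  rw [← Real.mul_rpow (by positivity) (by positivity)]
  congr 1
  rw [pow_succ]
  field_simp

end RMain

open RMain in
theorem mainOf : MainOf := by
  intro hXi he h0 hA hB hF q d k a al l0 hq hd hal hpos
  obtain ⟨m, θ, Cx, hm, hθ, hθ1, hCx, hX⟩ := hXi q (al l0) hq hal (I0 d ⊕ Ta d k)
  set n := Fintype.card (I0 d ⊕ Ta d k) with hn
  have hq' : (1 : ℝ) < q := by exact_mod_cast hq
  obtain ⟨C0, hC0⟩ := exists_pow_lt_of_lt_one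
    (show (0 : ℝ) < 1 / (q : ℝ) ^ (2 * n + 1) by positivity) hθ1
  have hC1 : θ ^ (C0 + 6) * (q : ℝ) ^ (2 * n + 1) ≤ 1 := by
    rw [lt_div_iff₀ (by positivity)] at hC0
    refine le_trans (mul_le_mul_of_nonneg_right ?_ (by positivity)) hC0.le
    exact pow_le_pow_of_le_one hθ.le hθ1.le (by omega)
  obtain ⟨M, hM⟩ : ∃ M : ℕ, M = 1000 + k + (Fintype.card (IA d) + 1) + Fintype.card (IB d) +
    ∑ i ∈ range 5, (a i).natAbs := ⟨_, rfl⟩
  obtain ⟨mu0, hmu0⟩ := pow_unbounded_of_one_lt (1000 * M) (show 1 < q by omega)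
  obtain ⟨g, C, hg, hC, hch⟩ := chain he h0 hA hB hF d k M ((8 * (q : ℝ) ^ 4) ^ n * (M + Cx))
    (by positivity)
  obtain ⟨C2, hC2⟩ : ∃ C2 : ℕ, C2 = m * (C0 + 6) + 2 * n + 3 := ⟨_, rfl⟩
  obtain ⟨D, hD⟩ : ∃ D : ℕ, D = 1000000000 := ⟨_, rfl⟩
  have hD0 : 0 < D := by omega
  have hC20 : 0 < 2 * C2 := by omega
  obtain ⟨N0, hN0⟩ : ∃ N0 : ℕ, N0 = q ^ (D * (2 * mu0 + 2 * C2 + D + 2)) := ⟨_, rfl⟩
  obtain ⟨c, hc⟩ : ∃ c : ℝ, c = g / (D * (2 * C2 : ℕ)) := ⟨_, rfl⟩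
  have hc0 : 0 < c := by rw [hc]; positivity
  refine ⟨c, C * (q : ℝ) ^ g + (N0 : ℝ) ^ c, hc0, fun N => ?_⟩
  rcases Nat.eq_zero_or_pos N with rfl | hN
  · simp only [range_zero, sum_empty, norm_zero]
    positivity
  have hN' : (0 : ℝ) < N := by exact_mod_cast hN
  have hp : (N : ℝ) ^ (1 - c) = N * (N : ℝ) ^ (-c) := by
    rw [sub_eq_add_neg, Real.rpow_add hN', Real.rpow_one]
  obtain ⟨mu, hmu⟩ : ∃ mu : ℕ, mu = Nat.log q N / D := ⟨_, rfl⟩
  have hlo : q ^ (D * mu) ≤ N :=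
    (Nat.pow_le_pow_right (by omega) (by rw [hmu]; exact Nat.mul_div_le _ _)).trans
      (Nat.pow_log_le_self q hN.ne')
  have hhi : N < q ^ (D * (mu + 1)) :=
    (Nat.lt_pow_succ_log_self (by omega) N).trans_le
      (Nat.pow_le_pow_right (by omega) (by rw [hmu]; exact Nat.lt_mul_div_succ _ hD0))
  have h1 : 0 ≤ C * (q : ℝ) ^ g * (N : ℝ) ^ (1 - c) := by positivity
  have h2 : 0 ≤ (N0 : ℝ) ^ c * (N : ℝ) ^ (1 - c) := by positivity
  rw [add_mul]
  rcases lt_or_ge mu (2 * mu0 + 2 * C2 + D + 1) with hs | hs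
  · have h3 : N ≤ N0 := by
      rw [hN0]
      exact hhi.le.trans (Nat.pow_le_pow_right (by omega) (Nat.mul_le_mul_left D (by omega)))
    have h4 : (N : ℝ) ≤ (N0 : ℝ) ^ c * (N : ℝ) ^ (1 - c) := by
      refine le_trans (le_of_eq ?_) (mul_le_mul_of_nonneg_right
        (Real.rpow_le_rpow hN'.le (by exact_mod_cast h3) hc0.le) (by positivity))
      rw [← Real.rpow_add hN', add_sub_cancel, Real.rpow_one]
    refine (norm_sum_le _ _).trans ?_
    simp only [norm_ee, sum_const, card_range, nsmul_eq_mul, mul_one]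
    linarith
  obtain ⟨la, hla⟩ : ∃ la : ℕ, la = mu / (2 * C2) := ⟨_, rfl⟩
  have hla1 : 1 ≤ la := by rw [hla]; exact (Nat.le_div_iff_mul_le hC20).2 (by omega)
  have hla2 : 2 * C2 * la ≤ mu := by rw [hla]; exact Nat.mul_div_le _ _
  have hla3 : C2 * la = m * ((C0 + 6) * la) + 2 * n * la + 3 * la := by rw [hC2]; ring
  have hla4 : 6 * la ≤ m * ((C0 + 6) * la) := by nlinarith [Nat.zero_le (C0 * la)]
  have hla5 : 2 * (C2 * la) ≤ mu := by rw [← mul_assoc]; exact hla2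
  obtain ⟨TT, hTT⟩ := exTT q N hq (pk a 0)
  let π : Par :=
    { q := q, d := d, k := k, mu := mu, la := la, w0 := m * ((C0 + 6) * la), N := N, TT := TT,
      M0 := M, a := a, al := al, l0 := l0, hq := hq, hd := hd
      ha := fun i hi => by
        have h3 := single_le_sum (f := fun i => (a i).natAbs) (fun _ _ => Nat.zero_le _)
          (mem_range.2 (show i < 5 by omega))
        rw [← Int.natCast_natAbs]
        exact_mod_cast h3.trans (by omega)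
      hk := by omega
      hM := by omega
      hA := by omega
      hB := by omega
      hw := by omega
      hbig := by
        refine (Nat.mul_le_mul_right _ hmu0.le).trans ?_
        rw [← pow_add]
        exact Nat.pow_le_pow_right (by omega) (by omega)
      hN1 := hD ▸ hlo
      hN2 := by
        refine (Nat.mul_le_mul hq hhi.le).trans ?_
        rw [← pow_succ']
        exact Nat.pow_le_pow_right (by omega) (by rw [hD] at hs ⊢; omega)
      hpos := hpos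
      hT := hTT }
  have h3 := hch π rfl rfl rfl (last π n _ (C0 + 6) θ Cx _ hθ hCx hC1 rfl
    (show (2 * n + 1) * la ≤ mu by rw [add_mul]; omega) 
    (@hX _ _ ⟨pow_ne_zero _ (show q ≠ 0 by omega)⟩ rfl))
  have h4 := scale hq hN hD0 hC20 hhi hla hg
  rw [← hc] at h4
  have h5 : ‖(∑ n ∈ range N, ee (π.Ph (n : ℤ))) / (N : ℂ)‖ ≤ C * ((q : ℝ) ^ g * (N : ℝ) ^ (-c)) := by
    rw [← av_fin N fun n => ee (π.Ph n)]
    exact h3.trans (mul_le_mul_of_nonneg_left h4 hC)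
  rw [norm_div, Complex.norm_natCast, div_le_iff₀ hN'] at h5
  refine le_trans (h5.trans_eq ?_) (le_add_of_nonneg_right h2)
  rw [hp]
  ring

end Pool.Agent.MP_b1aeef_nt.G4
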