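import Pool.Agent.MP_b1aeef_nt.G4.Kit2

/-! The Fejer majorant and domination in one direction. -/

set_option autoImplicit false

namespace Pool.Agent.MP_b1aeef_nt.G4

open Finset
open scoped BigOperators

namespace RMaj

theorem half (a : ℕ → ℝ) (ha : ∀ k, 0 ≤ a k) (R : ℕ) (s : Finset ℕ) (f : ℕ → ℕ)
    (hf : Set.InjOn f s) (hm : ∀ x ∈ s, f x ∈ Ico 1 R) :
    ∑ x ∈ s, a (f x) ≤ ∑ k ∈ Ico 1 R, a k := by
  rw [← sum_image (f := a) hf]
  refine sum_le_sum_of_subset_of_nonneg ?_ fun k _ _ => ha k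
  intro k hk
  obtain ⟨x, hx, rfl⟩ := mem_image.1 hk
  exact hm x hx

theorem row (a : ℕ → ℝ) (ha : ∀ k, 0 ≤ a k) (R r : ℕ) (hr : r < R) :
    ∑ r' ∈ range R, a (Nat.dist r r') ≤ a 0 + 2 * ∑ k ∈ Ico 1 R, a k := by
  have h1 := half a ha R (Ico 0 r) (fun x => Nat.dist r x) (by
    intro x hx y hy h
    simp only [coe_Ico, Set.mem_Ico, Nat.dist] at hx hy h
    omega) (by
    intro x hx
    simp only [mem_Ico, Nat.dist] at hx ⊢
    omega)
  have h2 := half a ha R (Ico (r + 1) R) (fun x => Nat.dist r x) (by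
    intro x hx y hy h
    simp only [coe_Ico, Set.mem_Ico, Nat.dist] at hx hy h
    omega) (by
    intro x hx
    simp only [mem_Ico, Nat.dist] at hx ⊢
    omega)
  rw [range_eq_Ico, ← sum_Ico_consecutive _ (Nat.zero_le r) hr.le,
    sum_eq_sum_Ico_succ_bot hr, Nat.dist_self]
  linarith

theorem nrm {Y : Type} [Fintype Y] (w θ : Y → ℝ) (t : ℝ) (r r' : ℕ) :
    ‖𝔼 y, (w y : ℂ) * ee (((r : ℝ) - r') * (θ y - t))‖ =
      ‖𝔼 y, (w y : ℂ) * ee ((Nat.dist r r' : ℕ) * θ y)‖ := by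
  have h1 : ∀ s : ℝ, ‖𝔼 y, (w y : ℂ) * ee (s * (θ y - t))‖ = ‖𝔼 y, (w y : ℂ) * ee (s * θ y)‖ := by
    intro s
    have h : ∀ y, (w y : ℂ) * ee (s * (θ y - t)) = (w y : ℂ) * ee (s * θ y) * ee (-(s * t)) := by
      intro y
      rw [mul_assoc, ← ee_add]
      congr 2
      ring
    simp only [h]
    rw [← expect_mul, norm_mul, norm_ee, mul_one]
  rw [h1]
  rcases le_total r' r with h | h
  · rw [Nat.dist_eq_sub_of_le_right h, Nat.cast_sub h]
  · rw [Nat.dist_eq_sub_of_le h, Nat.cast_sub h, ← Complex.norm_conj, map_expect]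
    congr 2
    funext y
    rw [map_mul, Complex.conj_ofReal, ← ee_neg]
    congr 2
    ring

theorem near {Q R G : ℕ} [NeZero Q] (hR : 1 ≤ R) (hQ : 7 * G * R ≤ Q) (t : ℝ) (z : ZMod Q)
    (h : hi Q t = z) : nd (G * t - G * (z.val : ℝ) / Q) ≤ 1 / (7 * R) := by
  have hQ0 : (0 : ℝ) < Q := by exact_mod_cast Nat.pos_of_ne_zero (NeZero.ne Q)
  have hR0 : (0 : ℝ) < R := by exact_mod_cast hR
  have h1 : ((⌊(Q : ℝ) * t⌋ : ℤ) : ZMod Q) = ((z.val : ℤ) : ZMod Q) := by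
    rw [Int.cast_natCast, ZMod.natCast_zmod_val]
    exact h
  obtain ⟨m, hm⟩ := (ZMod.intCast_eq_intCast_iff_dvd_sub _ _ _).1 h1.symm
  have h2 : ((⌊(Q : ℝ) * t⌋ : ℤ) : ℝ) - z.val = Q * m := by exact_mod_cast hm
  have h3 := Int.floor_le ((Q : ℝ) * t)
  have h4 := Int.lt_floor_add_one ((Q : ℝ) * t)
  refine (nd_le _ (G * m)).trans ?_
  have h5 : (G : ℝ) * t - G * (z.val : ℝ) / Q - ((G * m : ℤ) : ℝ) =
      G * ((Q : ℝ) * t - ⌊(Q : ℝ) * t⌋) / Q := by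
    generalize ((⌊(Q : ℝ) * t⌋ : ℤ) : ℝ) = u at h2 ⊢
    push_cast
    field_simp
    linear_combination (G : ℝ) * h2
  have hG : (0 : ℝ) ≤ G := Nat.cast_nonneg G
  have h6 : (7 : ℝ) * G * R ≤ Q := by exact_mod_cast hQ
  rw [h5, abs_of_nonneg (div_nonneg (mul_nonneg hG (by linarith)) hQ0.le),
    div_le_div_iff₀ hQ0 (by linarith)]
  have h7 : (G : ℝ) * ((Q : ℝ) * t - ⌊(Q : ℝ) * t⌋) ≤ G := by nlinarith
  nlinarith

theorem split {Q : ℕ} [NeZero Q] (ξ : ZMod Q → ℝ) (a : ZMod Q) :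
    ξ a = ∑ z, ξ z * ind (a = z) := by
  rw [sum_eq_single a]
  · rw [ind_pos rfl, mul_one]
  · intro z _ hz
    rw [ind_neg (Ne.symm hz), mul_zero]
  · intro h
    exact absurd (mem_univ a) h

end RMaj

theorem majOf : MajOf := by
  intro hF Y _ w θ R t hR hw
  obtain ⟨h0, -, -, h4, h5⟩ := hF R hR
  have hR0 : (0 : ℝ) < R := by exact_mod_cast hR
  set a : ℕ → ℝ := fun k => ‖𝔼 y, (w y : ℂ) * ee (k * θ y)‖ with ha
  have ha0 : a 0 = 𝔼 y, w y := by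
    simp only [ha, Nat.cast_zero, zero_mul, ee_zero, mul_one]
    rw [← Complex.ofReal_expect, Complex.norm_real, Real.norm_of_nonneg (av_nonneg hw)]
  have hS : 0 ≤ ∑ k ∈ Ico 1 R, a k := sum_nonneg fun _ _ => norm_nonneg _
  have h1 : 𝔼 y, w y * ind (nd (θ y - t) ≤ 1 / (7 * R)) ≤ 4 * 𝔼 y, w y * fej R (θ y - t) := by
    rw [mul_expect]
    refine av_le fun y => ?_
    by_cases h : nd (θ y - t) ≤ 1 / (7 * R)
    · rw [ind_pos h]
      nlinarith [h4 _ h, hw y]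
    · rw [ind_neg h]
      nlinarith [mul_nonneg (hw y) (h0 (θ y - t))]
  have h2 : ((𝔼 y, w y * fej R (θ y - t) : ℝ) : ℂ) = (∑ r ∈ range R, ∑ r' ∈ range R,
      𝔼 y, (w y : ℂ) * ee (((r : ℝ) - r') * (θ y - t))) / (R : ℂ) ^ 2 := by
    rw [Complex.ofReal_expect]
    simp only [← expect_sum_comm]
    rw [expect_div]
    refine expect_congr rfl fun y _ => ?_
    rw [Complex.ofReal_mul, h5, ← mul_div_assoc]
    simp only [mul_sum]
  have h3 : 𝔼 y, w y * fej R (θ y - t) ≤ (a 0 + 2 * ∑ k ∈ Ico 1 R, a k) / R := by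
    refine (le_abs_self _).trans ?_
    rw [← Real.norm_eq_abs, ← Complex.norm_real, h2, norm_div, norm_pow, Complex.norm_natCast,
      div_le_div_iff₀ (by positivity) hR0]
    have h6 : ‖∑ r ∈ range R, ∑ r' ∈ range R,
        𝔼 y, (w y : ℂ) * ee (((r : ℝ) - r') * (θ y - t))‖ ≤
        ∑ _r ∈ range R, (a 0 + 2 * ∑ k ∈ Ico 1 R, a k) := by
      refine (norm_sum_le _ _).trans (sum_le_sum fun r hr => (norm_sum_le _ _).trans ?_)
      simp only [RMaj.nrm]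
      exact RMaj.row a (fun _ => norm_nonneg _) R r (mem_range.1 hr)
    rw [sum_const, card_range, nsmul_eq_mul] at h6
    nlinarith [mul_le_mul_of_nonneg_right h6 hR0.le]
  have h7 : 2 * (∑ k ∈ Ico 1 R, a k) / R ≤ ∑ k ∈ Ico 1 R, a k := by
    rcases eq_or_lt_of_le hR with h | h
    · subst h
      simp
    · have h8 : (2 : ℝ) ≤ R := by exact_mod_cast h
      rw [div_le_iff₀ hR0]
      nlinarith
  rw [add_div, ha0] at h3
  linarith

theorem dom1Of : Dom1Of := by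
  intro hM C Y _ _ Cs ψ ζ Q R G _ hL hR hG hQ ξ hξ
  have hR0 : (0 : ℝ) < R := by exact_mod_cast hR
  have hE : 0 ≤ 𝔼 a, ξ a := av_nonneg fun a => (hξ a).1
  have hsum : ∑ z, ξ z = Q * 𝔼 a, ξ a := by
    have hQ0 : (Q : ℝ) ≠ 0 := by exact_mod_cast NeZero.ne Q
    rw [expect_eq_sum_div_card, card_univ, ZMod.card]
    field_simp
  have key : ∀ c, 𝔼 y, 𝔼 y', ψ c y * ψ c y' / (𝔼 x, ψ c x) * ξ (hi Q (ζ y' - ζ y)) ≤
      R * ∑ k ∈ Ico 1 R, ‖𝔼 y, (ψ c y : ℂ) * ee (k * G * ζ y)‖ +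
        8 * (Q : ℝ) / R * (𝔼 a, ξ a) * 𝔼 x, ψ c x := by
    intro c
    have hp : 0 ≤ 𝔼 x, ψ c x := av_nonneg (hL.1 c)
    have hS : 0 ≤ ∑ k ∈ Ico 1 R, ‖𝔼 y, (ψ c y : ℂ) * ee (k * G * ζ y)‖ :=
      sum_nonneg fun _ _ => norm_nonneg _
    have hB : 0 ≤ 8 * (Q : ℝ) / R * (𝔼 a, ξ a) * 𝔼 x, ψ c x := by positivity
    have hA := mul_nonneg hR0.le hS
    have gen : ∀ b : ℝ, 0 ≤ b → (∀ y, 𝔼 y', ψ c y' * ξ (hi Q (ζ y' - ζ y)) ≤ b) →
        𝔼 y, 𝔼 y', ψ c y * ψ c y' / (𝔼 x, ψ c x) * ξ (hi Q (ζ y' - ζ y)) ≤ b := by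
      intro b hb h
      have h1 : ∀ y, 𝔼 y', ψ c y * ψ c y' / (𝔼 x, ψ c x) * ξ (hi Q (ζ y' - ζ y)) ≤
          ψ c y * (b / 𝔼 x, ψ c x) := by
        intro y
        have h2 : ∀ y', ψ c y * ψ c y' / (𝔼 x, ψ c x) * ξ (hi Q (ζ y' - ζ y)) =
            ψ c y / (𝔼 x, ψ c x) * (ψ c y' * ξ (hi Q (ζ y' - ζ y))) := fun y' => by ring
        simp only [h2]
        rw [← mul_expect]
        refine (mul_le_mul_of_nonneg_left (h y) (div_nonneg (hL.1 c y) hp)).trans_eq ?_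
        ring
      refine (av_le h1).trans ?_
      rw [← expect_mul]
      rcases eq_or_lt_of_le hp with h0 | h0
      · rw [← h0, zero_mul]
        exact hb
      · rw [mul_div_cancel₀ _ h0.ne']
    by_cases hc : ∑ k ∈ Ico 1 R, ‖𝔼 y, (ψ c y : ℂ) * ee (k * G * ζ y)‖ ≤ (𝔼 x, ψ c x) / R
    · refine (gen _ hB fun y => ?_).trans (by linarith)
      have h1 : ∀ z : ZMod Q, 𝔼 y', ψ c y' * ind (hi Q (ζ y' - ζ y) = z) ≤
          8 * ((𝔼 x, ψ c x) / R) := by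
        intro z
        have h2 := hM Y (ψ c) (fun y' => G * ζ y') R (G * ζ y + G * (z.val : ℝ) / Q) hR (hL.1 c)
        simp only [← mul_assoc] at h2
        refine le_trans (av_le fun y' => mul_le_mul_of_nonneg_left (ind_mono fun h => ?_)
          (hL.1 c y')) (h2.trans (by linarith))
        have h3 := RMaj.near hR hQ _ z h
        rwa [mul_sub, sub_sub] at h3
      have h2 : ∀ y', ψ c y' * ξ (hi Q (ζ y' - ζ y)) =
          ∑ z, ξ z * (ψ c y' * ind (hi Q (ζ y' - ζ y) = z)) := by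
        intro y'
        rw [RMaj.split ξ (hi Q (ζ y' - ζ y)), mul_sum]
        exact sum_congr rfl fun z _ => by ring
      simp only [h2]
      rw [expect_sum_comm]
      simp only [← mul_expect]
      refine (sum_le_sum fun z _ => mul_le_mul_of_nonneg_left (h1 z) (hξ z).1).trans_eq ?_
      rw [← sum_mul, hsum]
      ring
    · refine (gen _ hp fun y => av_le fun y' => ?_).trans ?_
      · exact mul_le_of_le_one_right (hL.1 c y') (hξ _).2
      · push Not at hc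
        rw [div_lt_iff₀ hR0] at hc
        linarith
  have h1 : ∑ c ∈ Cs, 𝔼 x, ψ c x = 1 := by
    rw [← expect_sum_comm]
    simp only [hL.2]
    exact av_const 1
  have h2 : 𝔼 y, 𝔼 y', ker Cs ψ y y' * ξ (hi Q (ζ y' - ζ y)) =
      ∑ c ∈ Cs, 𝔼 y, 𝔼 y', ψ c y * ψ c y' / (𝔼 x, ψ c x) * ξ (hi Q (ζ y' - ζ y)) := by
    simp only [ker, sum_mul, expect_sum_comm]
  rw [h2]
  refine (sum_le_sum fun c _ => key c).trans_eq ?_
  rw [sum_add_distrib, ← mul_sum, ← mul_sum, h1, mul_one, eta]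

end Pool.Agent.MP_b1aeef_nt.G4
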