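import Pool.Agent.MP_b1aeef_nt.G4.Kit2

/-! The density after a stage: total mass, marginals, resampling. -/

set_option autoImplicit false

namespace Pool.Agent.MP_b1aeef_nt.G4

open Finset
open scoped BigOperators

namespace RNw

variable {I Y : Type} [Fintype I] [DecidableEq I] [Fintype Y]

theorem av_pi (f : I → Y → ℝ) : 𝔼 y : I → Y, ∏ i, f i (y i) = ∏ i, 𝔼 a, f i a := by
  simp only [expect_eq_sum_div_card, card_univ]
  rw [prod_div_distrib, prod_univ_sum, Fintype.piFinset_univ, prod_const, card_univ,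
    Fintype.card_fun, Nat.cast_pow]

theorem marg0 {K : I → Y → Y → ℝ} (hK : ∀ i, IsKer (K i)) (F : (I → Y) → ℝ) :
    𝔼 p : (I → Y) × (I → Y), (∏ i, K i (p.1 i) (p.2 i)) * F p.1 = 𝔼 y, F y := by
  rw [av_prod]
  refine expect_congr rfl fun y _ => ?_
  dsimp only
  rw [← expect_mul, av_pi fun i a => K i (y i) a, prod_eq_one fun i _ => (hK i).2.2 (y i), one_mul]

omit [Fintype I] [DecidableEq I] [Fintype Y] in
theorem mix_mix (ω : I → Bool) (y0 y1 : I → Y) : mix ω (mix ω y0 y1) (mix ω y1 y0) = y0 := by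
  funext i
  cases h : ω i <;> simp [mix, h]

theorem marg {K : I → Y → Y → ℝ} (hK : ∀ i, IsKer (K i)) (ω : I → Bool) (F : (I → Y) → ℝ) :
    𝔼 p : (I → Y) × (I → Y), (∏ i, K i (p.1 i) (p.2 i)) * F (mix ω p.1 p.2) = 𝔼 y, F y := by
  rw [← marg0 hK F]
  have hi : Function.Involutive fun p : (I → Y) × (I → Y) => (mix ω p.1 p.2, mix ω p.2 p.1) :=
    fun p => Prod.ext (mix_mix ω p.1 p.2) (mix_mix ω p.2 p.1)
  refine Fintype.expect_equiv hi.toPerm _ _ fun p => ?_
  show _ = (∏ i, K i (mix ω p.1 p.2 i) (mix ω p.2 p.1 i)) * F (mix ω p.1 p.2)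
  congr 1
  refine prod_congr rfl fun i _ => ?_
  cases h : ω i
  · simp [mix, h]
  · simp only [mix, h, if_true]
    exact (hK i).2.1 _ _

theorem resample [Nonempty Y] (i : I) (F : (I → Y) → ℝ) :
    𝔼 y, F y = 𝔼 y, 𝔼 a, F (Function.update y i a) := by
  have hi : Function.Involutive fun p : (I → Y) × Y => (Function.update p.1 i p.2, p.1 i) :=
    fun p => Prod.ext (by simp) (by simp)
  have h1 : 𝔼 p : (I → Y) × Y, F (Function.update p.1 i p.2) = 𝔼 p : (I → Y) × Y, F p.1 :=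
    Fintype.expect_equiv hi.toPerm _ _ fun p => rfl
  rw [av_prod, av_prod] at h1
  dsimp only at h1
  rw [h1]
  exact expect_congr rfl fun y _ => (av_const _).symm

theorem split [Nonempty Y] (K : I → Y → Y → ℝ) (i : I) (h : (I → Y) → (I → Y) → ℝ) :
    𝔼 p : (I → Y) × (I → Y), (∏ j, K j (p.1 j) (p.2 j)) * h p.1 p.2 =
      𝔼 y0 : I → Y, 𝔼 y1 : I → Y, (∏ j ∈ univ.erase i, K j (y0 j) (y1 j)) *
        𝔼 a, 𝔼 b, K i a b * h (Function.update y0 i a) (Function.update y1 i b) := by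
  rw [av_prod, resample i]
  refine expect_congr rfl fun y0 _ => ?_
  simp only [mul_expect]
  rw [expect_comm univ univ fun (y1 : I → Y) (a : Y) => 𝔼 b,
    (∏ j ∈ univ.erase i, K j (y0 j) (y1 j)) *
      (K i a b * h (Function.update y0 i a) (Function.update y1 i b))]
  refine expect_congr rfl fun a _ => ?_
  rw [resample i]
  refine expect_congr rfl fun y1 _ => expect_congr rfl fun b _ => ?_
  rw [← mul_prod_erase univ _ (mem_univ i), Function.update_self, Function.update_self,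
    prod_congr rfl fun j hj => by
      rw [Function.update_of_ne (ne_of_mem_erase hj), Function.update_of_ne (ne_of_mem_erase hj)]]
  ring

theorem res_le [Nonempty Y] {K : I → Y → Y → ℝ} (hK : ∀ i, IsKer (K i)) (i : I)
    (h : (I → Y) → (I → Y) → ℝ) (η : ℝ)
    (hη : ∀ y0 y1, 𝔼 a, 𝔼 b, K i a b * h (Function.update y0 i a) (Function.update y1 i b) ≤ η) :
    𝔼 p : (I → Y) × (I → Y), (∏ j, K j (p.1 j) (p.2 j)) * h p.1 p.2 ≤ η := by
  have h1 := split K i fun _ _ => η
  rw [marg0 hK fun _ => η, av_const] at h1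
  have h2 : 𝔼 a, 𝔼 b, K i a b * η = η := by
    rw [expect_congr rfl fun a _ => by rw [← expect_mul, (hK i).2.2 a, one_mul], av_const]
  rw [h2] at h1
  rw [split K i h]
  refine le_trans (av_le fun y0 => av_le fun y1 => mul_le_mul_of_nonneg_left (hη y0 y1)
    (prod_nonneg fun j _ => (hK j).1 _ _)) h1.ge

omit [DecidableEq I] [Fintype Y] in
theorem nw_av {O : Type} [Fintype O] [Fintype (I → Y)] (W : O → ℝ) (K : O → I → Y → Y → ℝ)
    (G : O → (I → Y) × (I → Y) → ℝ) :
    𝔼 p : O × (I → Y) × (I → Y), nw W K p * G p.1 p.2 =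
      𝔼 o, W o * 𝔼 q : (I → Y) × (I → Y), (∏ i, K o i (q.1 i) (q.2 i)) * G o q := by
  rw [av_prod]
  refine expect_congr rfl fun o _ => ?_
  rw [mul_expect]
  exact expect_congr rfl fun q _ => mul_assoc _ _ _

end RNw

open RNw in
theorem nwS : NwS := by
  intro O I Y _ _ _ _ _ W K hW hK
  refine ⟨⟨fun p => mul_nonneg (hW.1 _) (prod_nonneg fun i _ => (hK _ i).1 _ _), ?_⟩,
    fun ω F => ?_, fun i h η hη => ?_⟩
  · have h1 := nw_av W K fun _ _ => 1
    simp only [mul_one] at h1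
    rw [h1, ← hW.2]
    refine expect_congr rfl fun o _ => ?_
    have h2 := marg0 (hK o) fun _ => 1
    simp only [mul_one] at h2
    rw [h2, av_const, mul_one]
  · rw [nw_av W K fun o q => F o (mix ω q.1 q.2)]
    exact expect_congr rfl fun o _ => by rw [marg (hK o) ω (F o)]
  · rw [nw_av W K fun o q => h o q.1 q.2]
    exact av_le fun o => mul_le_mul_of_nonneg_left (res_le (hK o) i (h o) (η o) (hη o)) (hW.1 o)

end Pool.Agent.MP_b1aeef_nt.G4
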