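import Pool.Agent.MP_b1aeef_nt.G4.Kit2

/-! From exponential sums to counting. -/

set_option autoImplicit false

namespace Pool.Agent.MP_b1aeef_nt.G4

open Finset
open scoped BigOperators

namespace RRes

theorem orth {m : ℕ} (hm : 1 ≤ m) (t : ℤ) :
    ∑ h ∈ range m, ee (h * ((t : ℝ) / m)) = if (m : ℤ) ∣ t then (m : ℂ) else 0 := by
  have hm' : (m : ℝ) ≠ 0 := by positivity
  have h1 : ∀ h : ℕ, ee (h * ((t : ℝ) / m)) = ee (h * (((t % m : ℤ) : ℝ) / m)) := fun h => by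
    rw [← ee_add_int (h * (((t % m : ℤ) : ℝ) / m)) (h * (t / m))]
    congr 1
    have h2 : (t : ℝ) = ((t % m : ℤ) : ℝ) + m * ((t / m : ℤ) : ℝ) := by
      exact_mod_cast (Int.emod_add_mul_ediv t m).symm
    push_cast
    conv_lhs => rw [h2]
    field_simp
  simp only [h1]
  split_ifs with h
  · simp [Int.emod_eq_zero_of_dvd h, ee_zero]
  · refine sum_ee_eq_zero m _ (fun h0 => h (Int.dvd_of_emod_eq_zero h0)) ?_
    rw [abs_of_nonneg (Int.emod_nonneg _ (by omega))]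
    exact Int.emod_lt_of_pos _ (by omega)

theorem orth2 {m c : ℕ} (hm : 1 ≤ m) (t : ℤ) :
    ∑ h ∈ (range m).filter (fun h => m ∣ c * h), ee (h * ((t : ℝ) / m)) =
      if ((Nat.gcd m c : ℕ) : ℤ) ∣ t then ((Nat.gcd m c : ℕ) : ℂ) else 0 := by
  have hg : 0 < Nat.gcd m c := Nat.gcd_pos_of_pos_left c hm
  obtain ⟨g, m', c', hg0, hco, rfl, rfl⟩ := Nat.exists_coprime' hg
  have hm' : 0 < m' := Nat.pos_of_mul_pos_right hm
  rw [Nat.gcd_mul_right, hco, one_mul, ← orth hg0 t]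
  symm
  refine sum_bij (fun j _ => j * m') (fun j hj => ?_) (fun j _ j' _ h => ?_) (fun h hh => ?_)
    fun j _ => ?_
  · refine mem_filter.2 ⟨mem_range.2 ?_, ⟨c' * j, by ring⟩⟩
    rw [mul_comm m' g]
    exact Nat.mul_lt_mul_of_pos_right (mem_range.1 hj) hm'
  · exact Nat.eq_of_mul_eq_mul_right hm' h
  · obtain ⟨h1, h2⟩ := mem_filter.1 hh
    rw [mul_right_comm, Nat.mul_dvd_mul_iff_right hg0] at h2
    obtain ⟨j, rfl⟩ := hco.dvd_of_dvd_mul_left h2
    exact ⟨j, mem_range.2 (Nat.lt_of_mul_lt_mul_left (mem_range.1 h1)), mul_comm _ _⟩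
  · congr 1
    push_cast
    field_simp

theorem ds_modEq {q g : ℕ} (hq : 2 ≤ q) (hg : g ∣ q - 1) (n : ℕ) : n ≡ ds q n [MOD g] := by
  have h := Nat.ofDigits_modEq' q 1 g ((Nat.modEq_iff_dvd' (by omega)).2 hg).symm (Nat.digits q n)
  rwa [Nat.ofDigits_digits, Nat.ofDigits_one] at h

theorem prod_ite {k : ℕ} (p : Fin k → Prop) [DecidablePred p] (x : ℂ) :
    ∏ l, (if p l then x else 0) = x ^ k * if ∀ l, p l then 1 else 0 := by
  split_ifs with h
  · simp [h]
  · push Not at h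
    obtain ⟨l, hl⟩ := h
    rw [mul_zero]
    exact prod_eq_zero (mem_univ l) (if_neg hl)

theorem unif {ι : Type} (S : Finset ι) (f : ι → ℕ → ℝ)
    (h : ∀ i ∈ S, ∃ c C : ℝ, 0 < c ∧ ∀ N : ℕ, f i N ≤ C * (N : ℝ) ^ (1 - c)) :
    ∃ c C : ℝ, 0 < c ∧ 0 ≤ C ∧ ∀ N : ℕ, 1 ≤ N → ∑ i ∈ S, f i N ≤ C * (N : ℝ) ^ (1 - c) := by
  classical
  induction S using Finset.induction_on with
  | empty => exact ⟨1, 0, one_pos, le_rfl, fun N _ => by simp⟩
  | insert a S ha ih =>
    obtain ⟨c, C, hc, hC, h1⟩ := ih fun i hi => h i (mem_insert_of_mem hi)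
    obtain ⟨c', C', hc', h2⟩ := h a (mem_insert_self _ _)
    refine ⟨min c c', |C'| + C, lt_min hc hc', by positivity, fun N hN => ?_⟩
    have hN' : (1 : ℝ) ≤ N := by exact_mod_cast hN
    have h3 := Real.rpow_le_rpow_of_exponent_le hN' (sub_le_sub_left (min_le_left c c') 1)
    have h4 := Real.rpow_le_rpow_of_exponent_le hN' (sub_le_sub_left (min_le_right c c') 1)
    rw [sum_insert ha, add_mul]
    exact add_le_add ((h2 N).trans (mul_le_mul (le_abs_self _) h4 (by positivity) (abs_nonneg _)))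
      ((h1 N hN).trans (mul_le_mul_of_nonneg_left h3 hC))

theorem eval_eq (P : Polynomial ℤ) (h : P.natDegree < 5) (x : ℤ) : P.eval x = pk P.coeff 0 x := by
  rw [Polynomial.eval_eq_sum_range' h]
  simp [sum_range_succ, pk]

/-- the difference of the two indicators as a sum over the nontrivial characters -/
theorem expand {q m k : ℕ} (hq : 2 ≤ q) (hm : 1 ≤ m) (x w : Fin k → ℕ) :
    (m : ℂ) ^ k * (if ∀ l, ds q (x l) ≡ w l [MOD m] then 1 else 0) -
      ((Nat.gcd m (q - 1) : ℕ) : ℂ) ^ k *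
        (if ∀ l, x l ≡ w l [MOD Nat.gcd m (q - 1)] then 1 else 0) =
      ∑ h ∈ Fintype.piFinset (fun _ : Fin k => range m) \
          Fintype.piFinset (fun _ : Fin k => (range m).filter fun h => m ∣ (q - 1) * h),
        ee (∑ l, (h l : ℝ) / m * (ds q (x l) : ℝ)) * ee (-∑ l, (h l : ℝ) / m * w l) := by
  have e : ∀ h : Fin k → ℕ, ee (∑ l, (h l : ℝ) / m * (ds q (x l) : ℝ)) *
      ee (-∑ l, (h l : ℝ) / m * w l) =
        ∏ l, ee (h l * ((((ds q (x l) : ℤ) - w l : ℤ) : ℝ) / m)) := fun h => by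
    rw [← ee_add, ← ee_sum, ← sub_eq_add_neg, ← sum_sub_distrib]
    congr 1
    refine sum_congr rfl fun l _ => ?_
    push_cast
    ring
  simp only [e]
  rw [sum_sdiff_eq_sub (Fintype.piFinset_subset _ _ fun _ => filter_subset _ _),
    ← prod_univ_sum (fun _ => range m)
      fun l h => ee (h * ((((ds q (x l) : ℤ) - w l : ℤ) : ℝ) / m)),
    ← prod_univ_sum (fun _ => (range m).filter fun h => m ∣ (q - 1) * h)
      fun l h => ee (h * ((((ds q (x l) : ℤ) - w l : ℤ) : ℝ) / m))]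
  simp only [orth hm, orth2 hm]
  rw [prod_ite, prod_ite]
  congr 2
  · exact if_congr (forall_congr' fun l => Nat.ModEq.comm.trans Nat.modEq_iff_dvd) rfl rfl
  · refine if_congr (forall_congr' fun l => ?_) rfl rfl
    have h1 := ds_modEq hq (Nat.gcd_dvd_right m (q - 1)) (x l)
    rw [← Nat.modEq_iff_dvd]
    exact ⟨fun h => h.symm.trans h1, fun h => h1.trans h.symm⟩

end RRes

open RRes in
theorem resOf : ResOf := by
  intro hM q m k hq hm P hd hP
  have hlt : P.natDegree < 5 := by omega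
  have hP0 : P ≠ 0 := by
    rintro rfl
    simp at hd
  have hdeg : Deg P.coeff P.natDegree := by
    have h := Polynomial.leadingCoeff_ne_zero.2 hP0
    rw [Polynomial.leadingCoeff] at h
    rcases hd with hd | hd
    · exact Or.inl ⟨hd, Polynomial.coeff_eq_zero_of_natDegree_lt (by omega), hd ▸ h⟩
    · exact Or.inr ⟨hd, hd ▸ h⟩
  have hpos : ∀ n : ℤ, 0 ≤ n → 0 ≤ pk P.coeff 0 n := fun n hn => by
    rw [← eval_eq P hlt, ← Int.toNat_of_nonneg hn]
    exact hP _
  have hm' : (0 : ℝ) < m := by exact_mod_cast hm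
  obtain ⟨c, C, hc, hC, h1⟩ := unif (Fintype.piFinset (fun _ : Fin k => range m) \
      Fintype.piFinset (fun _ : Fin k => (range m).filter fun h => m ∣ (q - 1) * h))
    (fun h N => ‖∑ n ∈ range N, ee (∑ l : Fin k, (h l : ℝ) / m *
      (ds q (pk P.coeff 0 ((n : ℤ) + (l : ℕ))).toNat : ℝ))‖) fun h hh => by
      obtain ⟨h2, h3⟩ := mem_sdiff.1 hh
      rw [Fintype.mem_piFinset] at h2 h3
      push Not at h3
      obtain ⟨l0, h3⟩ := h3
      refine hM q _ k P.coeff (fun l => (h l : ℝ) / m) l0 hq hdeg (fun n hn => h3 ?_) hpos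
      refine mem_filter.2 ⟨h2 l0, Int.natCast_dvd_natCast.1 ⟨n, ?_⟩⟩
      rw [← mul_div_assoc, div_eq_iff hm'.ne'] at hn
      rw [Nat.cast_mul, Nat.cast_sub (by omega), mul_comm (m : ℤ)]
      exact_mod_cast hn
  refine ⟨c, C, hc, fun w N => ?_⟩
  rcases Nat.eq_zero_or_pos N with rfl | hN
  · simp only [range_zero, filter_empty, card_empty, Nat.cast_zero, mul_zero, sub_zero, abs_zero]
    positivity
  refine le_trans ?_ (h1 N hN)
  have h2 := sum_congr (s₁ := range N) rfl fun n _ =>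
    expand hq hm (fun l : Fin k => (P.eval ((n + l : ℕ) : ℤ)).toNat) w
  rw [sum_sub_distrib, ← mul_sum, ← mul_sum, sum_boole, sum_boole, sum_comm] at h2
  have h3 := (congrArg norm h2).trans_le (norm_sum_le _ _)
  simp only [← sum_mul, norm_mul, norm_ee, mul_one] at h3
  simp only [← eval_eq P hlt, ← Nat.cast_add]
  refine le_trans ?_ h3
  have h4 : (1 : ℝ) ≤ (m : ℝ) ^ k := one_le_pow₀ (by exact_mod_cast hm)
  refine (le_mul_of_one_le_left (abs_nonneg _) h4).trans_eq ?_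
  rw [← abs_of_pos (pow_pos hm' k), ← abs_mul, ← Real.norm_eq_abs, ← Complex.norm_real]
  congr 1
  have h5 : (m : ℂ) ≠ 0 := by exact_mod_cast hm'.ne'
  unfold ds
  push_cast
  rw [div_pow]
  field_simp

end Pool.Agent.MP_b1aeef_nt.G4
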