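import Pool.Agent.MP_b1aeef_nt.G4.Kit2

/-! Stage 0. -/

set_option autoImplicit false

namespace Pool.Agent.MP_b1aeef_nt.G4

open Finset
open scoped BigOperators

namespace RSt0

variable (π : Par)

/-- the inner variables -/
abbrev Z : Type := (IA π.d → π.YA) × (IB π.d → π.YB) × π.Yb

/-- the point -/
def pt (o : π.O0) (z : Z π) (y : Unit → π.Y0) : ℤ :=
  ((o : ℕ) : ℤ) + (π.q : ℤ) ^ π.rho0 * tot y + (π.q : ℤ) ^ π.rho * tot z.1 + tot z.2.1 +
    (z.2.2 : ℕ)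

theorem fL_per (hW : WinS) (x U : ℤ) : π.fL (x + (π.q : ℤ) ^ π.rho * U) = π.fL x := by
  unfold Par.fL Par.Wn
  refine sum_congr rfl fun l _ => ?_
  rw [pow_zero, div_one, div_one, add_right_comm, Par.P, pk_add]
  obtain ⟨t, ht⟩ : ∃ t, t = x + ((l : ℕ) : ℤ) := ⟨_, rfl⟩
  rw [← ht, ← (hW π.q π.hq).2.2.2.2.1 π.rho (π.P 0 t) (pk π.a 1 t * U +
    pk π.a 2 t * (π.q : ℤ) ^ π.rho * U ^ 2 + pk π.a 3 t * ((π.q : ℤ) ^ π.rho) ^ 2 * U ^ 3 +
    pk π.a 4 t * ((π.q : ℤ) ^ π.rho) ^ 3 * U ^ 4), Par.P]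
  congr 2
  push_cast
  ring

theorem inv (hWn : WnS) (hI : Inv0S) (o : π.O0) (z : Z π) (y : Unit → π.Y0) (y' : π.Y0) :
    ‖ee (π.fC (pt π o z y)) - ee (π.fC (pt π o z (Function.update y () y')))‖ ≤
      2 * ∑ l : Fin π.k, π.bd π.tc (pt π o z y + (l : ℕ)) +
      2 * ∑ s : Fin 5 × Fin 5, ind (π.d0 < nd (π.ph0 (o : ℕ) (Sum.inl s) (y ()) -
        π.ph0 (o : ℕ) (Sum.inl s) y')) := by
  have h1 : 0 ≤ ∑ l : Fin π.k, π.bd π.tc (pt π o z y + (l : ℕ)) :=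
    sum_nonneg fun _ _ => π.bd_nonneg _ _
  have h2 : 0 ≤ ∑ s : Fin 5 × Fin 5, ind (π.d0 < nd (π.ph0 (o : ℕ) (Sum.inl s) (y ()) -
      π.ph0 (o : ℕ) (Sum.inl s) y')) := sum_nonneg fun _ _ => ind_nonneg _
  rcases sum_ind_cases univ (fun s : Fin 5 × Fin 5 => π.d0 < nd (π.ph0 (o : ℕ) (Sum.inl s) (y ()) -
      π.ph0 (o : ℕ) (Sum.inl s) y')) with h | h
  · have h3 := hWn π π.tc (90051 * π.mu) (pt π o z y) (pt π o z (Function.update y () y')) 1
      fun l => by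
        have h4 : ((l : ℕ) : ℝ) ≤ π.k := by exact_mod_cast l.2.le
        have h5 := π.small_le z.2.1 z.2.2
        have h6 := pow_pos π.B_pos 3
        have h7 := tot_nonneg z.2.1
        have h8 := hI π (o : ℕ) (tot z.1) (tot z.2.1 + (z.2.2 : ℕ) + (l : ℕ)) (y ()) y'
          (tot_nonneg _) (π.totA_le _) (by positivity) (by push_cast; linarith)
          fun s => not_lt.1 (h s (mem_univ s))
        unfold pt
        rw [tot_unit, tot_unit, Function.update_self]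
        simpa only [add_assoc] using h8
    rw [one_mul, one_mul] at h3
    unfold Par.fC
    linarith
  · have h3 := norm_ee_sub_le (π.fC (pt π o z y)) (π.fC (pt π o z (Function.update y () y')))
    linarith

theorem beta (hB : BdS) : 𝔼 o : π.O0, π.W0 o * 𝔼 z : Z π, 𝔼 y : Unit → π.Y0,
    2 * ∑ l : Fin π.k, π.bd π.tc (pt π o z y + (l : ℕ)) ≤ 16 * π.k / π.E := by
  refine av_den_av_le fun z => av_den_av_le fun y => ?_
  simp only [Par.W0, one_mul]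
  rw [← mul_expect, expect_sum_comm]
  have h1 : ∀ l : Fin π.k, 𝔼 o : π.O0, π.bd π.tc (pt π o z y + (l : ℕ)) ≤ 8 / π.E := fun l => by
    have h2 := hB π π.tc ((π.q : ℤ) ^ π.rho0 * tot y + (π.q : ℤ) ^ π.rho * tot z.1 + tot z.2.1 +
      (z.2.2 : ℕ) + (l : ℕ)) (by simp only [Par.tc, Par.sp, Par.sm]; omega)
      (by simp only [Par.ts]; omega)
    unfold pt
    simpa only [add_assoc] using h2
  have h3 := sum_le_card_nsmul univ _ _ fun l _ => h1 l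
  rw [card_univ, Fintype.card_fin, nsmul_eq_mul] at h3
  calc _ ≤ 2 * ((π.k : ℝ) * (8 / π.E)) := by linarith
    _ = _ := by ring

theorem small : 16 / (((π.q ^ (94000 * π.mu) : ℕ) : ℝ) * π.d0) ≤ 1 / π.E := by
  have h1 := π.bigE
  have h2 := π.M_ge
  have h3 := π.E_pos
  have h4 := π.B_pos
  have h5 : π.B ≤ π.B ^ 397 := by
    simpa using π.Bp_le (show 1 ≤ 397 by norm_num)
  have h6 : π.B ^ 94000 = π.B ^ 93603 * π.B ^ 397 := by rw [← pow_add]
  have h7 := pow_pos h4 93603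
  have h8 := pow_pos h4 397
  rw [Nat.cast_pow, ← π.B_pow, h6, Par.d0, Par.eps]
  generalize π.B ^ 93603 = S at *
  generalize π.B ^ 397 = T at *
  have h9 : 16 / (S * T * (1 / (7 * π.E) / (150 * S))) = 16800 * π.E / T := by
    field_simp
    ring
  rw [h9, div_le_div_iff₀ h8 h3]
  nlinarith [sq_nonneg π.E]

theorem tau (hL : LabS) (o : π.O0) : 𝔼 y : π.Y0, 𝔼 y' : π.Y0,
    ker (cs π.R0) (lab π.R0 (π.ph0 (o : ℕ))) y y' *
      (2 * ∑ s : Fin 5 × Fin 5, ind (π.d0 < nd (π.ph0 (o : ℕ) (Sum.inl s) y -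
        π.ph0 (o : ℕ) (Sum.inl s) y'))) ≤ 50 / π.E := by
  have hd : 0 < π.d0 := by
    have := π.eps_pos
    have := π.B_pos
    unfold Par.d0
    positivity
  have h1 := fun s : Fin 5 × Fin 5 =>
    ((hL _ _ π.R0 (π.ph0 (o : ℕ)) fun _ => π.one_le_np _).2.2.2 (Sum.inl s) π.d0 hd).trans
      (small π)
  have h3 := sum_le_card_nsmul univ _ _ fun s _ => h1 s
  simp only [mul_left_comm _ (2 : ℝ), mul_sum, ← mul_expect, expect_sum_comm]
  rw [← mul_sum]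
  simp only [card_univ, Fintype.card_prod, Fintype.card_fin, nsmul_eq_mul, fk] at h3
  calc _ ≤ 2 * (((5 * 5 : ℕ) : ℝ) * (1 / π.E)) := by linarith
    _ = _ := by push_cast; ring

theorem next (hW : WinS) (p : π.O1) :
    ‖𝔼 z : Z π, ee (∑ ω : Unit → Bool, sg ω *
      (π.fL + (π.fA + π.fW + π.fB)) (pt π p.1 z (mix ω p.2.1 p.2.2)))‖ ≤
    𝔼 z : (IB π.d → π.YB) × π.Yb, ‖𝔼 y : IA π.d → π.YA, ee (∑ β : Unit → Bool,
      sg β * (π.fA + π.fW + π.fB)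
        (π.x1 p β + (π.q : ℤ) ^ π.rho * tot y + tot z.1 + (z.2 : ℕ)))‖ := by
  rw [av_prod, expect_comm]
  refine (norm_av_le _).trans (av_le fun z => le_of_eq ?_)
  have h1 : ∀ y : IA π.d → π.YA, ee (∑ ω : Unit → Bool, sg ω *
      (π.fL + (π.fA + π.fW + π.fB)) (pt π p.1 (y, z) (mix ω p.2.1 p.2.2))) =
      ee (∑ ω : Unit → Bool, sg ω * π.fL (π.x1 p ω + tot z.1 + (z.2 : ℕ))) *
      ee (∑ β : Unit → Bool, sg β * (π.fA + π.fW + π.fB)
        (π.x1 p β + (π.q : ℤ) ^ π.rho * tot y + tot z.1 + (z.2 : ℕ))) := fun y => by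
    rw [← ee_add, ← sum_add_distrib]
    refine congrArg ee (sum_congr rfl fun ω _ => ?_)
    have h2 : pt π p.1 (y, z) (mix ω p.2.1 p.2.2) =
        π.x1 p ω + (π.q : ℤ) ^ π.rho * tot y + tot z.1 + (z.2 : ℕ) := rfl
    rw [h2, Pi.add_apply, mul_add, ← fL_per π hW (π.x1 p ω + tot z.1 + (z.2 : ℕ)) (tot y)]
    congr 3
    ring
  simp only [h1]
  rw [← mul_expect, norm_mul, norm_ee, one_mul]

end RSt0

open RSt0 in
theorem st0Of : St0Of := by
  intro hS hL hW hB hV hD hWn hI π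
  have h1 := hS π.O0 (Z π) Unit π.Y0 _ π.W0 (cs π.R0) (fun o _ => lab π.R0 (π.ph0 (o : ℕ)))
    (fun o z y => (π.fL + (π.fA + π.fW + π.fB)) (pt π o z y)) (fun o z _ y => π.fC (pt π o z y))
    (fun o z _ y => 2 * ∑ l : Fin π.k, π.bd π.tc (pt π o z y + (l : ℕ)))
    (fun o _ y y' => 2 * ∑ s : Fin 5 × Fin 5, ind (π.d0 < nd (π.ph0 (o : ℕ) (Sum.inl s) y -
      π.ph0 (o : ℕ) (Sum.inl s) y'))) (16 * π.k / π.E) (50 / π.E) π.A1 (hV π).1
    (fun o _ => (hL _ _ π.R0 (π.ph0 (o : ℕ)) fun _ => π.one_le_np _).1)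
    (fun o z _ y y' => inv π hWn hI o z y y') (fun _ => beta π hB) (fun o _ => tau π hL o)
    (av_le fun p => mul_le_mul_of_nonneg_left (next π hW p) ((hV π).2.1.1 p))
  have h2 : ∀ (o : π.O0) (z : Z π) (y : Unit → π.Y0), π.Ph (pt π o z y) =
      (π.fL + (π.fA + π.fW + π.fB)) (pt π o z y) + ∑ _i : Unit, π.fC (pt π o z y) := by
    intro o z y
    have h3 := π.pt_nonneg o y z.1
    have h4 := tot_nonneg z.2.1
    rw [hD π (pt π o z y) (by unfold pt; positivity) (π.pt_le o y z.1 z.2.1 z.2.2)]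
    simp only [Pi.add_apply, univ_unique, sum_singleton]
    ring
  simp only [← h2, Fintype.card_unit, Nat.cast_one, one_mul] at h1
  have h5 : 16 * π.k / π.E + 50 / π.E ≤ 100 * π.M0 / π.E := by
    rw [← add_div]
    exact div_le_div_of_nonneg_right (by linarith [π.k_le, π.M_ge]) π.E_pos.le
  exact le_trans h1 (by linarith)

end Pool.Agent.MP_b1aeef_nt.G4
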