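import Pool.Agent.MP_b1aeef_nt.G4.Kit2

/-! Row StA: the stage A. -/

set_option autoImplicit false

namespace Pool.Agent.MP_b1aeef_nt.G4

open Finset
open scoped BigOperators

namespace RStA

variable (π : Par)

/-- the running point -/
noncomputable def pt (o : π.O1) (z : (IB π.d → π.YB) × π.Yb) (β : Unit → Bool)
    (y : IA π.d → π.YA) : ℤ :=
  π.x1 o β + (π.q : ℤ) ^ π.rho * tot y + tot z.1 + (z.2 : ℕ)

theorem split {J B : Type} [Fintype J] [Fintype B] (s : B → ℝ) (F : J → B → ℝ) (G H : B → ℝ) :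
    ∑ β, s β * (∑ j, F j β + G β + H β) =
      ∑ β, s β * (G β + H β) + ∑ i : J × B, s i.2 * F i.1 i.2 := by
  rw [Fintype.sum_prod_type_right, ← sum_add_distrib]
  refine sum_congr rfl fun β _ => ?_
  simp only [← mul_sum]
  ring

theorem merge {J B : Type} [Fintype J] [Fintype B] (s : B → ℝ) (t : J → ℝ) (F : B → J → ℝ) :
    ∑ j, t j * ∑ β, s β * F β j = ∑ γ : B × J, s γ.1 * t γ.2 * F γ.1 γ.2 := by
  rw [Fintype.sum_prod_type_right]
  refine sum_congr rfl fun j _ => ?_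
  rw [mul_sum]
  refine sum_congr rfl fun β _ => ?_
  ring

theorem swap {V B : Type} [Fintype V] [Fintype B] (F : V × B → ℂ) :
    ‖𝔼 z, F z‖ ≤ 𝔼 b, ‖𝔼 v, F (v, b)‖ := by
  rw [av_prod, expect_comm]
  exact norm_av_le _

theorem inv (hw : WnS) (hi : InvAS) (o : π.O1) (z : (IB π.d → π.YB) × π.Yb) (i : IA π.d)
    (y : IA π.d → π.YA) (y' : π.YA) :
    ‖ee (sg i.2 * π.Wn (π.sA i.1) π.mu (pt π o z i.2 y)) -
      ee (sg i.2 * π.Wn (π.sA i.1) π.mu (pt π o z i.2 (Function.update y i y')))‖ ≤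
      2 * ∑ l : Fin π.k, π.bd (π.sA i.1) (pt π o z i.2 y + (l : ℕ)) +
      2 * ∑ κ : Fin 4, ind (π.dA κ < nd (π.phA (o.1 : ℕ) (π.x1 o i.2) i.1 (Sum.inl κ) (y i) -
        π.phA (o.1 : ℕ) (π.x1 o i.2) i.1 (Sum.inl κ) y')) := by
  have b0 : 0 ≤ ∑ l : Fin π.k, π.bd (π.sA i.1) (pt π o z i.2 y + (l : ℕ)) :=
    sum_nonneg fun l _ => π.bd_nonneg _ _
  rcases sum_ind_cases univ fun κ : Fin 4 => π.dA κ <
    nd (π.phA (o.1 : ℕ) (π.x1 o i.2) i.1 (Sum.inl κ) (y i) -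
      π.phA (o.1 : ℕ) (π.x1 o i.2) i.1 (Sum.inl κ) y') with h | h
  · refine (hw π _ _ _ _ _ fun l => ?_).trans (le_add_of_nonneg_right
      (mul_nonneg zero_le_two (sum_nonneg fun κ _ => ind_nonneg _)))
    have h1 := tot_nonneg z.1
    have h2 := π.small_le z.1 z.2
    have h3 : ((l : ℕ) : ℝ) ≤ π.k := by exact_mod_cast l.2.le
    have h4 := pow_pos π.B_pos 3
    have h5 := hi π (o.1 : ℕ) (π.x1 o i.2) (tot y - (y i : ℕ)) (tot z.1 + (z.2 : ℕ) + (l : ℕ)) i.1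
      (y i) y' (by positivity) (by push_cast; linarith) fun κ => not_lt.1 (h κ (mem_univ κ))
    have e1 : pt π o z i.2 y + (l : ℕ) = π.x1 o i.2 +
        (π.q : ℤ) ^ π.rho * (tot y - (y i : ℕ) + (y i : ℕ)) + (tot z.1 + (z.2 : ℕ) + (l : ℕ)) := by
      unfold pt
      ring
    have e2 : pt π o z i.2 (Function.update y i y') + (l : ℕ) = π.x1 o i.2 +
        (π.q : ℤ) ^ π.rho * (tot y - (y i : ℕ) + (y' : ℕ)) + (tot z.1 + (z.2 : ℕ) + (l : ℕ)) := by
      unfold pt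
      rw [tot_update]
      ring
    rw [e1, e2]
    exact h5
  · linarith [norm_ee_sub_le (sg i.2 * π.Wn (π.sA i.1) π.mu (pt π o z i.2 y))
      (sg i.2 * π.Wn (π.sA i.1) π.mu (pt π o z i.2 (Function.update y i y')))]

theorem bad (hb : BdS) (hv : VtxS) (i : IA π.d) :
    𝔼 o : π.O1, π.W1 o * 𝔼 z : (IB π.d → π.YB) × π.Yb, 𝔼 y : IA π.d → π.YA,
      2 * ∑ l : Fin π.k, π.bd (π.sA i.1) (pt π o z i.2 y + (l : ℕ)) ≤ 16 * π.M0 / π.E := by
  refine av_den_av_le fun z => av_den_av_le fun y => ?_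
  refine ((hv π).2.2.2.2.2.2.2 (fun _ x => 2 * ∑ l : Fin π.k, π.bd (π.sA i.1)
    (x + (π.q : ℤ) ^ π.rho * tot y + tot z.1 + (z.2 : ℕ) + (l : ℕ))) _ fun c => ?_).1 i.2
  have h1 : π.sA i.1 ≤ π.ts + K3 π.d * π.mu := by
    have := π.sA_le i.1
    unfold Par.ts
    omega
  rw [← mul_expect, expect_sum_comm]
  have h2 := sum_le_card_nsmul univ (fun l : Fin π.k => 𝔼 a : π.O0, π.bd (π.sA i.1)
    (((a : ℕ) : ℤ) + c + (π.q : ℤ) ^ π.rho * tot y + tot z.1 + (z.2 : ℕ) + (l : ℕ))) (8 / π.E)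
    fun l _ => by
      simp only [add_assoc]
      exact hb π _ _ (π.rho_le_sA i.1) h1
  rw [card_univ, Fintype.card_fin, nsmul_eq_mul] at h2
  have h3 := mul_le_mul_of_nonneg_right π.k_le (div_nonneg (by norm_num : (0 : ℝ) ≤ 8) π.E_pos.le)
  have h4 : 16 * π.M0 / π.E = 2 * (π.M0 * (8 / π.E)) := by ring
  linarith

theorem one_le_RA (l : Fin 4 ⊕ Fin 3) : 1 ≤ π.RA l := by
  unfold Par.RA
  split_ifs <;> exact π.one_le_np _

theorem dA_pos (κ : Fin 4) : 0 < π.dA κ := by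
  have h1 := π.eps_pos
  have h2 := π.B_pos
  unfold Par.dA
  split_ifs <;> positivity

theorem RA_dA (κ : Fin 4) : 16 / ((π.RA (Sum.inl κ) : ℝ) * π.dA κ) ≤ 224 / π.E := by
  have h1 := π.E_pos
  have h2 := π.B_pos
  unfold Par.RA Par.dA
  by_cases h : κ = 0
  · rw [if_pos h, if_pos (by rw [h]), Nat.cast_pow, pow_add, mul_comm 2, pow_mul]
    refine le_of_eq ?_
    change 16 / (π.B * π.E ^ 2 * (1 / (7 * π.E) / (2 * π.B))) = _
    field_simp
    norm_num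
  · rw [if_neg h, if_neg (fun c => h (Sum.inl_injective c)), Nat.cast_pow, ← π.B_pow]
    have e : 16 / (π.B ^ 71 * (π.eps / (6 * π.B ^ 70))) = 672 * π.E / π.B := by
      unfold Par.eps
      field_simp
      norm_num
    rw [e, div_le_div_iff₀ h2 h1]
    nlinarith [π.bigE, π.M_ge, mul_pos h1 h1]

theorem far (hl : LabS) (Φ : Fin 4 ⊕ Fin 3 → π.YA → ℝ) :
    𝔼 y, 𝔼 y', ker (cs π.RA) (lab π.RA Φ) y y' *
      (2 * ∑ κ : Fin 4, ind (π.dA κ < nd (Φ (Sum.inl κ) y - Φ (Sum.inl κ) y'))) ≤ 1792 / π.E := by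
  have h := fun κ : Fin 4 => ((hl _ _ π.RA Φ (one_le_RA π)).2.2.2 (Sum.inl κ) _ (dA_pos π κ)).trans
    (RA_dA π κ)
  simp only [mul_left_comm _ (2 : ℝ), ← mul_expect]
  simp only [mul_sum, expect_sum_comm]
  refine (sum_le_card_nsmul univ _ (2 * (224 / π.E)) fun κ _ =>
    mul_le_mul_of_nonneg_left (h κ) zero_le_two).trans_eq ?_
  rw [card_univ, Fintype.card_fin, nsmul_eq_mul]
  push_cast
  ring

end RStA

open RStA in
theorem stAOf : StAOf := by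
  intro hs hl hb hv hw hi π
  have h := hs π.O1 ((IB π.d → π.YB) × π.Yb) (IA π.d) π.YA _ π.W1 (cs π.RA)
    (fun o i => lab π.RA (π.phA (o.1 : ℕ) (π.x1 o i.2) i.1))
    (fun o z y => ∑ β : Unit → Bool, sg β * (π.fW (pt π o z β y) + π.fB (pt π o z β y)))
    (fun o z i y => sg i.2 * π.Wn (π.sA i.1) π.mu (pt π o z i.2 y)) _
    (fun o i m m' => 2 * ∑ κ : Fin 4, ind (π.dA κ <
      nd (π.phA (o.1 : ℕ) (π.x1 o i.2) i.1 (Sum.inl κ) m -
        π.phA (o.1 : ℕ) (π.x1 o i.2) i.1 (Sum.inl κ) m'))) _ _ π.A2 (hv π).2.1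
    (fun o i => (hl _ _ π.RA _ (one_le_RA π)).1) (inv π hw hi) (bad π hb hv)
    (fun o i => far π hl _) (av_le fun p => mul_le_mul_of_nonneg_left
      ((swap _).trans_eq (by
        refine expect_congr rfl fun b _ => congrArg norm (expect_congr rfl fun v _ => ?_)
        exact congrArg ee (merge _ _ fun β ω => π.fW (π.x2 p (β, ω) + tot v + (b : ℕ)) +
          π.fB (π.x2 p (β, ω) + tot v + (b : ℕ))))) ((hv π).2.2.1.1 p))
  refine le_trans (le_of_eq ?_) (h.trans ?_)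
  · refine expect_congr rfl fun o _ => congrArg _ (expect_congr rfl fun z _ =>
      congrArg norm (expect_congr rfl fun y _ => congrArg ee ?_))
    exact split sg (fun j β => π.Wn (π.sA j) π.mu (pt π o z β y)) _ _
  · have h1 := π.M_ge
    have h2 := π.E_pos
    rw [← add_div]
    gcongr
    linarith

end Pool.Agent.MP_b1aeef_nt.G4
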