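import Pool.Agent.MP_b1aeef_nt.G4.Kit2

/-! Stage B. -/

set_option autoImplicit false

namespace Pool.Agent.MP_b1aeef_nt.G4

open Finset
open scoped BigOperators

namespace RStB

variable (π : Par)

theorem inv (hW : WnS) (hI : InvBS) (o : π.O2) (z : π.Yb) (i : IB π.d) (y : IB π.d → π.YB)
    (y' : π.YB) (c : ℝ) :
    ‖ee (c * π.Wn (π.sB i.1) (π.wB i.1) (π.x2 o i.2 + tot y + (z : ℕ))) -
      ee (c * π.Wn (π.sB i.1) (π.wB i.1) (π.x2 o i.2 + tot (Function.update y i y') + (z : ℕ)))‖ ≤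
      2 * ∑ l : Fin π.k, π.bd (π.sB i.1) (π.x2 o i.2 + tot y + (z : ℕ) + (l : ℕ)) +
        2 * ind (π.dB < nd (π.phB (π.x2 o i.2) i.1 () (y i) - π.phB (π.x2 o i.2) i.1 () y')) := by
  have hb : 0 ≤ ∑ l : Fin π.k, π.bd (π.sB i.1) (π.x2 o i.2 + tot y + (z : ℕ) + (l : ℕ)) :=
    sum_nonneg fun _ _ => π.bd_nonneg _ _
  by_cases h : π.dB < nd (π.phB (π.x2 o i.2) i.1 () (y i) - π.phB (π.x2 o i.2) i.1 () y')
  · rw [ind_pos h]
    linarith [norm_ee_sub_le (c * π.Wn (π.sB i.1) (π.wB i.1) (π.x2 o i.2 + tot y + (z : ℕ)))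
      (c * π.Wn (π.sB i.1) (π.wB i.1) (π.x2 o i.2 + tot (Function.update y i y') + (z : ℕ)))]
  · rw [ind_neg h, mul_zero, add_zero]
    refine hW π _ _ _ _ c fun l => ?_
    have h1 := le_tot y i
    have h2 := π.small_le y z
    have h3 : ((l : ℕ) : ℝ) ≤ π.k := by exact_mod_cast l.2.le
    have h4 : (0 : ℝ) ≤ ((y i : ℕ) : ℝ) := Nat.cast_nonneg _
    have h5 := hI π (π.x2 o i.2) (tot y - ((y i : ℕ) : ℤ) + (z : ℕ) + (l : ℕ)) i.1 (y i) y'
      (π.x2_nonneg o i.2) (π.x2_le o i.2) (by omega) (by push_cast; linarith) (not_lt.1 h)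
    have e1 : π.x2 o i.2 + tot y + (z : ℕ) + (l : ℕ) =
        π.x2 o i.2 + (tot y - ((y i : ℕ) : ℤ) + (z : ℕ) + (l : ℕ)) + (y i : ℕ) := by ring
    have e2 : π.x2 o i.2 + tot (Function.update y i y') + (z : ℕ) + (l : ℕ) =
        π.x2 o i.2 + (tot y - ((y i : ℕ) : ℤ) + (z : ℕ) + (l : ℕ)) + (y' : ℕ) := by
      rw [tot_update]; ring
    rw [e1, e2]
    exact h5

theorem bad (hB : BdS) (hV : VtxS) (i : IB π.d) (c : ℤ) :
    𝔼 o : π.O2, π.W2 o * (2 * ∑ l : Fin π.k, π.bd (π.sB i.1) (π.x2 o i.2 + c + (l : ℕ))) ≤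
      16 * π.k / π.E := by
  have h : ∀ l : Fin π.k,
      𝔼 o : π.O2, π.W2 o * π.bd (π.sB i.1) (π.x2 o i.2 + c + (l : ℕ)) ≤ 8 / π.E := fun l =>
    ((hV π).2.2.2.2.2.2.2 (fun _ x => π.bd (π.sB i.1) (x + c + (l : ℕ))) (8 / π.E) fun c' => by
      have h := hB π (π.sB i.1) (c' + c + (l : ℕ)) (π.rho_le_sB _) (π.sB_le _)
      simp only [← add_assoc] at h
      exact h).2.1 i.2
  have e : 𝔼 o : π.O2, π.W2 o * (2 * ∑ l : Fin π.k, π.bd (π.sB i.1) (π.x2 o i.2 + c + (l : ℕ))) =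
      2 * ∑ l : Fin π.k, 𝔼 o : π.O2, π.W2 o * π.bd (π.sB i.1) (π.x2 o i.2 + c + (l : ℕ)) := by
    rw [← expect_sum_comm, mul_expect]
    refine expect_congr rfl fun o _ => ?_
    rw [← mul_sum]; ring
  rw [e]
  have h2 := sum_le_card_nsmul univ _ _ fun l _ => h l
  rw [card_univ, Fintype.card_fin, nsmul_eq_mul] at h2
  have e2 : 16 * π.k / π.E = 2 * (π.k * (8 / π.E)) := by ring
  rw [e2]
  linarith

theorem far (hL : LabS) (x : ℤ) (j : Fin (K3 π.d + 1)) :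
    𝔼 y : π.YB, 𝔼 y' : π.YB, ker (cs π.RB) (lab π.RB (π.phB x j)) y y' *
      (2 * ind (π.dB < nd (π.phB x j () y - π.phB x j () y'))) ≤ 1 / π.E := by
  have hE := π.E_pos
  have hB := π.B_pos
  have hd : 0 < π.dB := by have := π.eps_pos; unfold Par.dB; positivity
  have h := (hL Unit π.YB π.RB (π.phB x j) fun _ => π.one_le_np _).2.2.2 () π.dB hd
  have e : 𝔼 y : π.YB, 𝔼 y' : π.YB, ker (cs π.RB) (lab π.RB (π.phB x j)) y y' *
      (2 * ind (π.dB < nd (π.phB x j () y - π.phB x j () y'))) =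
      2 * 𝔼 y : π.YB, 𝔼 y' : π.YB, fk π.RB (π.phB x j) y y' *
        ind (π.dB < nd (π.phB x j () y - π.phB x j () y')) := by
    rw [mul_expect]
    refine expect_congr rfl fun y _ => ?_
    rw [mul_expect]
    refine expect_congr rfl fun y' _ => ?_
    rw [fk]; ring
  have e2 : ((π.RB () : ℕ) : ℝ) = π.B ^ 2 := by rw [π.B_pow, Par.RB]; push_cast; rfl
  have e3 : 16 / (π.B ^ 2 * π.dB) = 224 * π.E / π.B := by
    unfold Par.dB Par.eps
    field_simp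
    norm_num
  rw [e2, e3] at h
  have h2 : 2 * (224 * π.E / π.B) ≤ 1 / π.E := by
    rw [← mul_div_assoc, div_le_div_iff₀ hB hE]
    nlinarith [π.bigE, π.M_ge, sq_nonneg π.E]
  rw [e]
  linarith

theorem split (n : Ga π.d → ℤ) :
    ∑ γ : Ga π.d, sg γ.1 * sg γ.2 * (π.fW + π.fB) (n γ) =
      ∑ γ : Ga π.d, sg γ.1 * sg γ.2 * π.fW (n γ) +
        ∑ i : IB π.d, sg i.2.1 * sg i.2.2 * π.Wn (π.sB i.1) (π.wB i.1) (n i.2) := by
  rw [Fintype.sum_prod_type_right (f := fun i : IB π.d =>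
    sg i.2.1 * sg i.2.2 * π.Wn (π.sB i.1) (π.wB i.1) (n i.2)), ← sum_add_distrib]
  refine sum_congr rfl fun γ _ => ?_
  rw [Pi.add_apply, Par.fB, mul_add, mul_sum]

end RStB

theorem stBOf : StBOf := by
  intro hS hL hB hV hW hI π
  have h := hS π.O2 π.Yb (IB π.d) π.YB (Unit → ℕ) π.W2 (cs π.RB)
    (fun o i => lab π.RB (π.phB (π.x2 o i.2) i.1))
    (fun o z y => ∑ γ : Ga π.d, sg γ.1 * sg γ.2 * π.fW (π.x2 o γ + tot y + (z : ℕ)))
    (fun o z i y => sg i.2.1 * sg i.2.2 *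
      π.Wn (π.sB i.1) (π.wB i.1) (π.x2 o i.2 + tot y + (z : ℕ)))
    (fun o z i y => 2 * ∑ l : Fin π.k, π.bd (π.sB i.1) (π.x2 o i.2 + tot y + (z : ℕ) + (l : ℕ)))
    (fun o i y y' =>
      2 * ind (π.dB < nd (π.phB (π.x2 o i.2) i.1 () y - π.phB (π.x2 o i.2) i.1 () y')))
    (16 * π.k / π.E) (1 / π.E) π.A3 (hV π).2.2.1
    (fun o i => (hL Unit π.YB π.RB _ fun _ => π.one_le_np _).1)
    (fun o z i y y' => RStB.inv π hW hI o z i y y' _)
    (fun i => av_den_av_le fun z => av_den_av_le fun y => by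
      have h := RStB.bad π hB hV i (tot y + (z : ℕ))
      simp only [← add_assoc] at h
      exact h)
    (fun o i => RStB.far π hL _ _) le_rfl
  have e : π.A2 = 𝔼 o : π.O2, π.W2 o * 𝔼 z : π.Yb, ‖𝔼 y : IB π.d → π.YB,
      ee (∑ γ : Ga π.d, sg γ.1 * sg γ.2 * π.fW (π.x2 o γ + tot y + (z : ℕ)) +
        ∑ i : IB π.d, sg i.2.1 * sg i.2.2 *
          π.Wn (π.sB i.1) (π.wB i.1) (π.x2 o i.2 + tot y + (z : ℕ)))‖ := by
    unfold Par.A2
    refine expect_congr rfl fun o _ => congrArg _ (expect_congr rfl fun z _ => congrArg _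
      (expect_congr rfl fun y _ => congrArg _ ?_))
    exact RStB.split π fun γ => π.x2 o γ + tot y + (z : ℕ)
  rw [e]
  refine h.trans (add_le_add_left (mul_le_mul_of_nonneg_left ?_ (Nat.cast_nonneg _)) _)
  rw [← add_div]
  exact div_le_div_of_nonneg_right (by linarith [π.k_le, π.M_ge]) π.E_pos.le

end Pool.Agent.MP_b1aeef_nt.G4
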