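import Pool.Agent.MP_b1aeef_nt.G4.Kit2

/-! Row Stg: one stage. -/

set_option autoImplicit false

namespace Pool.Agent.MP_b1aeef_nt.G4

open Finset
open scoped BigOperators

namespace RStg

theorem tele {ι : Type} (s : Finset ι) (a b : ι → ℂ) (ha : ∀ i, ‖a i‖ ≤ 1) (hb : ∀ i, ‖b i‖ ≤ 1) :
    ‖∏ i ∈ s, a i - ∏ i ∈ s, b i‖ ≤ ∑ i ∈ s, ‖a i - b i‖ := by
  classical
  induction s using Finset.induction_on with
  | empty => simp
  | insert j s hj ih =>
    rw [prod_insert hj, prod_insert hj, sum_insert hj,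
      show a j * ∏ i ∈ s, a i - b j * ∏ i ∈ s, b i =
        (a j - b j) * ∏ i ∈ s, a i + b j * (∏ i ∈ s, a i - ∏ i ∈ s, b i) by ring]
    refine (norm_add_le _ _).trans (add_le_add ?_ ?_)
    · rw [norm_mul, norm_prod]
      exact mul_le_of_le_one_right (norm_nonneg _)
        (prod_le_one (fun i _ => norm_nonneg _) fun i _ => ha i)
    · rw [norm_mul]
      exact (mul_le_of_le_one_left (norm_nonneg _) (hb j)).trans ih

theorem av_coord {I Y : Type} [Fintype I] [DecidableEq I] [Fintype Y] [Nonempty Y] (i : I)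
    (h : Y → ℝ) : 𝔼 y : I → Y, h (y i) = 𝔼 a, h a := by
  rw [Fintype.expect_equiv (Equiv.funSplitAt i Y) (fun y => h (y i)) (fun p => h p.1)
    fun _ => rfl, av_prod]
  exact expect_congr rfl fun a _ => av_const (h a)

theorem marg {I C : Type} [Fintype I] [DecidableEq I] (Cs : Finset C) (u : I → C → ℝ)
    (hu : ∀ j, ∑ c ∈ Cs, u j c = 1) (i : I) (h : C → ℝ) :
    ∑ c ∈ Fintype.piFinset fun _ : I => Cs, (∏ j, u j (c j)) * h (c i) =
      ∑ c ∈ Cs, u i c * h c := by
  have h1 : ∀ c : I → C, (∏ j, u j (c j)) * h (c i) =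
      ∏ j, u j (c j) * if j = i then h (c j) else 1 := fun c => by
    rw [prod_mul_distrib, prod_ite_eq' univ i fun j => h (c j), if_pos (mem_univ i)]
  simp only [h1]
  rw [← prod_univ_sum (fun _ : I => Cs) fun j c => u j c * if j = i then h c else 1,
    prod_eq_single i (fun j _ hj => by simp only [if_neg hj, mul_one, hu]) fun e => (e (mem_univ i)).elim]
  simp

variable {I Y C : Type} [Fintype I] [DecidableEq I] [Fintype Y] [Nonempty Y]

/-- conditional density of a label -/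
noncomputable def dn (φ : C → Y → ℝ) (c : C) (y : Y) : ℝ := φ c y / 𝔼 x, φ c x

omit [Nonempty Y] in
theorem dn_mul {Cs : Finset C} {φ : C → Y → ℝ} (h : IsLab Cs φ) (c : C) (y : Y) :
    (𝔼 x, φ c x) * dn φ c y = φ c y := by
  by_cases h0 : 𝔼 x, φ c x = 0
  · rw [h0, zero_mul, (expect_eq_zero_iff_of_nonneg fun x _ => h.1 c x).1 h0 y (mem_univ y)]
  · exact mul_div_cancel₀ _ h0

omit [Nonempty Y] in
theorem dn_nonneg {Cs : Finset C} {φ : C → Y → ℝ} (h : IsLab Cs φ) (c : C) (y : Y) :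
    0 ≤ dn φ c y := div_nonneg (h.1 c y) (av_nonneg (h.1 c))

omit [Nonempty Y] in
theorem av_dn {φ : C → Y → ℝ} {c : C} (h0 : 𝔼 x, φ c x ≠ 0) : 𝔼 y, dn φ c y = 1 := by
  unfold dn
  rw [← expect_div, div_self h0]

omit [Nonempty Y] in
theorem av_dn_le (φ : C → Y → ℝ) (c : C) : 𝔼 y, dn φ c y ≤ 1 := by
  unfold dn
  rw [← expect_div]
  exact div_self_le_one _

/-- the resampled factor -/
noncomputable def Gt (ψ : I → C → Y → ℝ) (g : I → (I → Y) → ℝ) (c : I → C) (i : I) (y : I → Y) :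
    ℂ := 𝔼 a, (dn (ψ i) (c i) a : ℂ) * ee (g i (Function.update y i a))

variable {Cs : Finset C} {ψ : I → C → Y → ℝ}

omit [Nonempty Y] [Fintype I] in
theorem Gt_le (h : ∀ i, IsLab Cs (ψ i)) (g : I → (I → Y) → ℝ) (c : I → C) (i : I) (y : I → Y) :
    ‖Gt ψ g c i y‖ ≤ 1 := by
  refine (norm_av_le _).trans (le_trans (av_le fun a => ?_) (av_dn_le (ψ i) (c i)))
  rw [norm_mul, norm_ee, mul_one, Complex.norm_real, Real.norm_of_nonneg (dn_nonneg (h i) _ _)]

omit [Nonempty Y] [Fintype I] in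
theorem Gt_sub (h : ∀ i, IsLab Cs (ψ i)) (g : I → (I → Y) → ℝ) (c : I → C) (i : I) (y : I → Y)
    (u : Y → ℝ) (hu : ∀ a, ‖ee (g i y) - ee (g i (Function.update y i a))‖ ≤ u a)
    (h0 : 𝔼 x, ψ i (c i) x ≠ 0) :
    ‖ee (g i y) - Gt ψ g c i y‖ ≤ 𝔼 a, dn (ψ i) (c i) a * u a := by
  have h1 : ee (g i y) = 𝔼 a, (dn (ψ i) (c i) a : ℂ) * ee (g i y) := by
    rw [← expect_mul, ← Complex.ofReal_expect, av_dn h0, Complex.ofReal_one, one_mul]
  rw [h1, Gt, ← expect_sub_distrib]
  refine (norm_av_le _).trans (av_le fun a => ?_)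
  rw [← mul_sub, norm_mul, Complex.norm_real, Real.norm_of_nonneg (dn_nonneg (h i) _ _)]
  exact mul_le_mul_of_nonneg_left (hu a) (dn_nonneg (h i) _ _)

/-- the main term of a label -/
noncomputable def mt (ψ : I → C → Y → ℝ) (f : (I → Y) → ℝ) (g : I → (I → Y) → ℝ) (c : I → C) :
    ℝ := ‖𝔼 y : I → Y, ((∏ i, dn (ψ i) (c i) (y i) : ℝ) : ℂ) * (ee (f y) * ∏ i, Gt ψ g c i y)‖

theorem pt (hK : KerS) (h : ∀ i, IsLab Cs (ψ i)) (g bad : I → (I → Y) → ℝ)
    (far : I → Y → Y → ℝ)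
    (hb : ∀ i y y', ‖ee (g i y) - ee (g i (Function.update y i y'))‖ ≤ bad i y + far i (y i) y')
    (y : I → Y) :
    ∑ c ∈ Fintype.piFinset fun _ : I => Cs, (∏ j, ψ j (c j) (y j)) *
      ‖∏ i, ee (g i y) - ∏ i, Gt ψ g c i y‖ ≤
      ∑ i, (bad i y + 𝔼 a, ker Cs (ψ i) (y i) a * far i (y i) a) := by
  calc _ ≤ ∑ c ∈ Fintype.piFinset fun _ : I => Cs, ∑ i, (∏ j, ψ j (c j) (y j)) *
        𝔼 a, dn (ψ i) (c i) a * (bad i y + far i (y i) a) := by
        refine sum_le_sum fun c _ => ?_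
        rw [← mul_sum]
        by_cases h0 : ∏ j, ψ j (c j) (y j) = 0
        · rw [h0, zero_mul, zero_mul]
        · refine mul_le_mul_of_nonneg_left ((tele _ _ _ (fun i => (norm_ee _).le)
            fun i => Gt_le h g c i y).trans (sum_le_sum fun i _ => Gt_sub h g c i y _ (hb i y) ?_))
            (prod_nonneg fun j _ => (h j).1 _ _)
          intro e
          exact prod_ne_zero_iff.1 h0 i (mem_univ i) (by rw [← dn_mul (h i), e, zero_mul])
    _ = _ := by
        rw [sum_comm]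
        refine sum_congr rfl fun i _ => ?_
        rw [marg Cs (fun j c => ψ j c (y j)) (fun j => (h j).2 _) i
          fun c => 𝔼 a, dn (ψ i) c a * (bad i y + far i (y i) a)]
        simp only [mul_expect]
        rw [← expect_sum_comm]
        have h1 : ∀ a, ∑ c ∈ Cs, ψ i c (y i) * (dn (ψ i) c a * (bad i y + far i (y i) a)) =
            ker Cs (ψ i) (y i) a * bad i y + ker Cs (ψ i) (y i) a * far i (y i) a := fun a => by
          rw [← mul_add, ker, sum_mul]
          exact sum_congr rfl fun c _ => by rw [dn]; ring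
        simp only [h1]
        rw [expect_add_distrib, ← expect_mul, (hK C Y Cs (ψ i) (h i)).1.2.2, one_mul]

theorem loc (hK : KerS) (h : ∀ i, IsLab Cs (ψ i)) (f : (I → Y) → ℝ) (g bad : I → (I → Y) → ℝ)
    (far : I → Y → Y → ℝ)
    (hb : ∀ i y y', ‖ee (g i y) - ee (g i (Function.update y i y'))‖ ≤ bad i y + far i (y i) y') :
    ‖𝔼 y, ee (f y + ∑ i, g i y)‖ ≤
      ∑ i, (𝔼 y, bad i y + 𝔼 y, 𝔼 a, ker Cs (ψ i) y a * far i y a) +
        ∑ c ∈ Fintype.piFinset fun _ : I => Cs, (∏ i, 𝔼 x, ψ i (c i) x) * mt ψ f g c := by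
  have h1 : ∀ y : I → Y, ee (f y + ∑ i, g i y) =
      ∑ c ∈ Fintype.piFinset fun _ : I => Cs, ((∏ j, ψ j (c j) (y j) : ℝ) : ℂ) *
        (ee (f y) * (∏ i, ee (g i y) - ∏ i, Gt ψ g c i y)) +
      ∑ c ∈ Fintype.piFinset fun _ : I => Cs, ((∏ i, 𝔼 x, ψ i (c i) x : ℝ) : ℂ) *
        (((∏ i, dn (ψ i) (c i) (y i) : ℝ) : ℂ) * (ee (f y) * ∏ i, Gt ψ g c i y)) := fun y => by
    have h2 : ∑ c ∈ Fintype.piFinset fun _ : I => Cs, ∏ j, ψ j (c j) (y j) = 1 := by
      rw [← prod_univ_sum (fun _ : I => Cs) fun j c => ψ j c (y j)]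
      exact prod_eq_one fun j _ => (h j).2 _
    rw [← sum_add_distrib, ee_add, ee_sum, ← one_mul (ee (f y) * _), ← Complex.ofReal_one, ← h2,
      Complex.ofReal_sum, sum_mul]
    refine sum_congr rfl fun c _ => ?_
    rw [← mul_assoc ((∏ i, 𝔼 x, ψ i (c i) x : ℝ) : ℂ), ← Complex.ofReal_mul, ← prod_mul_distrib]
    simp only [dn_mul (h _)]
    ring
  simp only [h1]
  rw [expect_add_distrib]
  refine (norm_add_le _ _).trans (add_le_add ?_ ?_)
  · refine (norm_av_le _).trans (le_trans (av_le fun y => (norm_sum_le _ _).trans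
      (le_trans (sum_le_sum fun c _ => le_of_eq ?_) (pt hK h g bad far hb y))) (le_of_eq ?_))
    · rw [norm_mul, norm_mul, norm_ee, one_mul, Complex.norm_real,
        Real.norm_of_nonneg (prod_nonneg fun j _ => (h j).1 _ _)]
    · rw [expect_sum_comm]
      refine sum_congr rfl fun i _ => ?_
      rw [expect_add_distrib, av_coord i fun y => 𝔼 a, ker Cs (ψ i) y a * far i y a]
  · rw [expect_sum_comm]
    refine (norm_sum_le _ _).trans (sum_le_sum fun c _ => le_of_eq ?_)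
    rw [← mul_expect, norm_mul, Complex.norm_real,
      Real.norm_of_nonneg (prod_nonneg fun j _ => av_nonneg ((h j).1 _)), mt]

theorem box [Nonempty I] (hB : BoxS) (h : ∀ i, IsLab Cs (ψ i)) (f : (I → Y) → ℝ)
    (g : I → (I → Y) → ℝ) :
    (∑ c ∈ Fintype.piFinset fun _ : I => Cs, (∏ i, 𝔼 x, ψ i (c i) x) * mt ψ f g c) ^
        (2 ^ Fintype.card I) ≤
      𝔼 y : (I → Y) × (I → Y), (∏ i, ker Cs (ψ i) (y.1 i) (y.2 i)) *
        (ee (∑ ω : I → Bool, sg ω * f (mix ω y.1 y.2))).re := by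
  have h0 : ∀ c : I → C, 0 ≤ ∏ i, 𝔼 x, ψ i (c i) x :=
    fun c => prod_nonneg fun j _ => av_nonneg ((h j).1 _)
  have h1 : ∑ c ∈ Fintype.piFinset fun _ : I => Cs, ∏ i, 𝔼 x, ψ i (c i) x = 1 := by
    rw [← prod_univ_sum (fun _ : I => Cs) fun j c => 𝔼 x, ψ j c x]
    refine prod_eq_one fun j _ => ?_
    rw [← expect_sum_comm]
    simp only [(h j).2]
    exact av_const 1
  refine (Real.pow_arith_mean_le_arith_mean_pow _ _ _ (fun c _ => h0 c) h1
    (fun c _ => norm_nonneg _) _).trans ?_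
  calc _ ≤ ∑ c ∈ Fintype.piFinset fun _ : I => Cs, (∏ i, 𝔼 x, ψ i (c i) x) *
        𝔼 y : (I → Y) × (I → Y), (∏ i, dn (ψ i) (c i) (y.1 i) * dn (ψ i) (c i) (y.2 i)) *
          (ee (∑ ω : I → Bool, sg ω * f (mix ω y.1 y.2))).re := by
        refine sum_le_sum fun c _ => ?_
        by_cases h2 : ∏ i, 𝔼 x, ψ i (c i) x = 0
        · rw [h2, zero_mul, zero_mul]
        · refine mul_le_mul_of_nonneg_left ((hB I Y (fun i => dn (ψ i) (c i))
            (fun i => ⟨dn_nonneg (h i) _, av_dn (prod_ne_zero_iff.1 h2 i (mem_univ i))⟩) f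
            (Gt ψ g c) (Gt_le h g c) fun i y y' => ?_).trans_eq ?_) (h0 c)
          · simp only [Gt, Function.update_idem]
          · rw [Complex.re_expect]
            simp only [Complex.re_ofReal_mul]
    _ = _ := by
        simp only [mul_expect]
        rw [← expect_sum_comm]
        refine expect_congr rfl fun y _ => ?_
        simp only [← mul_assoc]
        rw [← sum_mul]
        refine congrArg (· * _) ?_
        simp only [← prod_mul_distrib, ker]
        rw [prod_univ_sum (fun _ : I => Cs)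
          fun i c => ψ i c (y.1 i) * ψ i c (y.2 i) / 𝔼 x, ψ i c x]
        refine sum_congr rfl fun c _ => prod_congr rfl fun i _ => ?_
        rw [← mul_assoc, dn_mul (h i), dn, mul_div_assoc]

end RStg

open RStg in
theorem stgOf : StgOf := by
  intro hB hK O Z I Y C _ _ _ _ _ _ _ _ W Cs ψ f g bad far β τ X hW hL hb hβ hτ hX
  have a0 : ∀ o z, 0 ≤ ∑ c ∈ Fintype.piFinset fun _ : I => Cs,
      (∏ i, 𝔼 x, ψ o i (c i) x) * mt (ψ o) (f o z) (g o z) c := fun o z =>
    sum_nonneg fun c _ => mul_nonneg (prod_nonneg fun j _ => av_nonneg ((hL o j).1 _))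
      (norm_nonneg _)
  refine (av_le fun o => mul_le_mul_of_nonneg_left (av_le fun z =>
    loc hK (hL o) (f o z) (g o z) (bad o z) (far o) (hb o z)) (hW.1 o)).trans ?_
  simp only [expect_add_distrib, mul_add]
  refine add_le_add ?_ ?_
  · simp only [expect_sum_comm, mul_sum, expect_add_distrib, mul_add]
    rw [← mul_add, ← nsmul_eq_mul, ← card_univ]
    refine sum_le_card_nsmul _ _ _ fun i _ => add_le_add (hβ i) ?_
    exact av_den_le hW fun o => av_le_const fun _ => hτ o i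
  · refine le_rt _ (av_nonneg fun o => mul_nonneg (hW.1 o) (av_nonneg (a0 o))) ?_
    refine (jen hW (fun o => av_nonneg (a0 o)) _).trans (le_trans ?_ hX)
    rw [av_prod]
    refine av_le fun o => ?_
    simp only [nw, mul_assoc]
    rw [← mul_expect]
    refine mul_le_mul_of_nonneg_left ?_ (hW.1 o)
    have h1 := jen (W := fun _ : Z => 1) ⟨fun _ => zero_le_one, av_const 1⟩ (a0 o)
      (2 ^ Fintype.card I)
    simp only [one_mul] at h1
    refine h1.trans ((av_le fun z => box hB (hL o) (f o z) (g o z)).trans ?_)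
    rw [expect_comm]
    refine av_le fun y => ?_
    rw [← mul_expect, ← Complex.re_expect]
    exact mul_le_mul_of_nonneg_left (Complex.re_le_norm _)
      (prod_nonneg fun i _ => (hK C Y Cs (ψ o i) (hL o i)).1.1 _ _)

end Pool.Agent.MP_b1aeef_nt.G4
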