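import Pool.Agent.MP_b1aeef_nt.G4.Kit2

/-! Densities, vertex marginals and the decomposition of the phase. -/

set_option autoImplicit false

namespace Pool.Agent.MP_b1aeef_nt.G4

open Finset
open scoped BigOperators

theorem vtxOf : VtxOf := by
  intro hN hL π
  have k0 : ∀ o i, IsKer (π.K0 o i) := fun o _ =>
    (hL _ _ π.R0 (π.ph0 (o : ℕ)) fun _ => π.one_le_np _).2.1
  have kA : ∀ o i, IsKer (π.KA o i) := fun o i =>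
    (hL _ _ π.RA (π.phA (o.1 : ℕ) (π.x1 o i.2) i.1) fun l => by
      unfold Par.RA
      split_ifs <;> exact π.one_le_np _).2.1
  have kB : ∀ o i, IsKer (π.KB o i) := fun o i =>
    (hL _ _ π.RB (π.phB (π.x2 o i.2) i.1) fun _ => π.one_le_np _).2.1
  have w0 : IsDen π.W0 := ⟨fun _ => zero_le_one, av_const 1⟩
  have n1 := hN _ _ _ π.W0 π.K0 w0 k0
  have n2 := hN _ _ _ π.W1 π.KA n1.1 kA
  have n3 := hN _ _ _ π.W2 π.KB n2.1 kB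
  have sh : ∀ (F : ℤ → ℤ → ℝ) (η : ℝ),
      (∀ c : ℤ, 𝔼 a : π.O0, F ((a : ℕ) : ℤ) (((a : ℕ) : ℤ) + c) ≤ η) → ∀ c' c : ℤ,
      𝔼 a : π.O0, F ((a : ℕ) : ℤ) (((a : ℕ) : ℤ) + c + c') ≤ η := fun F η h c' c => by
    simpa only [add_assoc] using h (c + c')
  have l1 : ∀ (F : ℤ → ℤ → ℝ) (η : ℝ),
      (∀ c : ℤ, 𝔼 a : π.O0, F ((a : ℕ) : ℤ) (((a : ℕ) : ℤ) + c) ≤ η) →
      ∀ β, 𝔼 o : π.O1, π.W1 o * F ((o.1 : ℕ) : ℤ) (π.x1 o β) ≤ η := fun F η h β =>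
    (n1.2.1 β fun o y => F ((o : ℕ) : ℤ) (((o : ℕ) : ℤ) + (π.q : ℤ) ^ π.rho0 * tot y)).trans_le
      (av_den_av_le fun y => by simpa only [Par.W0, one_mul] using h _)
  have l2 : ∀ (F : ℤ → ℤ → ℝ) (η : ℝ),
      (∀ c : ℤ, 𝔼 a : π.O0, F ((a : ℕ) : ℤ) (((a : ℕ) : ℤ) + c) ≤ η) →
      ∀ γ, 𝔼 o : π.O2, π.W2 o * F ((o.1.1 : ℕ) : ℤ) (π.x2 o γ) ≤ η := fun F η h γ =>
    (n2.2.1 γ.2 fun o y => F ((o.1 : ℕ) : ℤ) (π.x1 o γ.1 + (π.q : ℤ) ^ π.rho * tot y)).trans_le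
      (av_den_av_le fun y =>
        l1 (fun a x => F a (x + (π.q : ℤ) ^ π.rho * tot y)) η (sh F η h _) γ.1)
  exact ⟨w0, n1.1, n2.1, n3.1, k0, kA, kB, fun F η h => ⟨l1 F η h, l2 F η h, fun γ ε =>
    (n3.2.1 ε fun o y => F ((o.1.1 : ℕ) : ℤ) (π.x2 o γ + tot y)).trans_le
      (av_den_av_le fun y => l2 (fun a x => F a (x + tot y)) η (sh F η h _) γ)⟩⟩

namespace RVtx

theorem one (hW : WinS) (π : Par) (x : ℤ) (h0 : 0 ≤ x) (h1 : x < (π.q : ℤ) ^ π.TT) :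
    (ds π.q x.toNat : ℝ) = wr π.q π.rho ((x : ℝ) / (π.q : ℝ) ^ 0) +
      ∑ j, wr π.q π.mu ((x : ℝ) / (π.q : ℝ) ^ π.sA j) + wr π.q π.w0 ((x : ℝ) / (π.q : ℝ) ^ π.sm) +
      wr π.q (90051 * π.mu) ((x : ℝ) / (π.q : ℝ) ^ π.tc) +
      ∑ j, wr π.q (π.wB j) ((x : ℝ) / (π.q : ℝ) ^ π.sB j) := by
  obtain ⟨a1, a2, a3, -⟩ := hW π.q π.hq
  have sp : ∀ s w1 w2, wr π.q (w1 + w2) ((x : ℝ) / (π.q : ℝ) ^ s) =
      wr π.q w1 ((x : ℝ) / (π.q : ℝ) ^ s) + wr π.q w2 ((x : ℝ) / (π.q : ℝ) ^ (s + w1)) :=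
    fun s w1 w2 => by rw [a1, div_div, ← pow_add]
  have bl : ∀ s K, wr π.q (K * π.mu) ((x : ℝ) / (π.q : ℝ) ^ s) =
      ∑ j : Fin K, wr π.q π.mu ((x : ℝ) / (π.q : ℝ) ^ (s + j * π.mu)) := fun s K => by
    rw [a2]
    exact sum_congr rfl fun j _ => by rw [div_div, ← pow_add]
  have hq : (1 : ℤ) ≤ π.q := by have := π.hq; omega
  have e0 := a3 (π.rho + (K1 π.d * π.mu + (π.w0 + (K2 π.d * π.mu + (90051 * π.mu +
    (K3 π.d * π.mu + π.TT)))))) x h0 (h1.trans_le (pow_le_pow_right₀ hq (by omega)))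
  have e1 : (x : ℝ) = (x : ℝ) / (π.q : ℝ) ^ 0 := by rw [pow_zero, div_one]
  rw [e1, sp, zero_add, sp, sp, sp, sp, sp, bl, bl, bl _ (K3 π.d)] at e0
  have eA : ∑ j, wr π.q π.mu ((x : ℝ) / (π.q : ℝ) ^ π.sA j) =
      ∑ j : Fin (K1 π.d), wr π.q π.mu ((x : ℝ) / (π.q : ℝ) ^ (π.rho + j * π.mu)) +
      ∑ j : Fin (K2 π.d), wr π.q π.mu ((x : ℝ) / (π.q : ℝ) ^ (π.sp + j * π.mu)) :=
    Fintype.sum_sum_type _
  have eB : ∑ j, wr π.q (π.wB j) ((x : ℝ) / (π.q : ℝ) ^ π.sB j) =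
      ∑ j : Fin (K3 π.d), wr π.q π.mu ((x : ℝ) / (π.q : ℝ) ^ (π.ts + j * π.mu)) +
      wr π.q π.TT ((x : ℝ) / (π.q : ℝ) ^ (π.ts + K3 π.d * π.mu)) := by
    rw [Fin.sum_univ_castSucc]
    refine congrArg₂ (· + ·) ?_ ?_
    · exact sum_congr rfl fun j _ => by
        rw [Par.wB, Par.sB, Fin.val_castSucc, if_pos (Fin.is_lt j)]
    · rw [Par.wB, Par.sB, Fin.val_last, if_neg (lt_irrefl _)]
  rw [← e0, eA, eB]
  simp only [Par.ts, Par.tc, Par.sp, Par.sm]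
  ring

end RVtx

theorem decOf : DecOf := by
  intro hW π n h0 h1
  have e : ∀ l : Fin π.k, _ := fun l =>
    RVtx.one hW π (pk π.a 0 (n + (l : ℕ))) (π.hpos _ (by omega))
      (π.hT _ (by omega) (by have := l.2; omega))
  unfold Par.Ph Par.fL Par.fA Par.fW Par.fC Par.fB Par.Wn Par.P
  rw [sum_comm, sum_comm (s := (univ : Finset (Fin (K3 π.d + 1)))), ← sum_add_distrib,
    ← sum_add_distrib, ← sum_add_distrib, ← sum_add_distrib]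
  refine sum_congr rfl fun l _ => ?_
  rw [e l, ← mul_sum, ← mul_sum]
  ring

end Pool.Agent.MP_b1aeef_nt.G4
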