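import Pool.Agent.MP_b1aeef_nt.G4.Kit2

/-! Weyl differencing along multiples of a power of the base. -/

set_option autoImplicit false

namespace Pool.Agent.MP_b1aeef_nt.G4

open Finset
open scoped BigOperators

namespace RWeyl

/-- averaging over shifts along a progression -/
theorem shift_av (F : ℤ → ℂ) (hF : ∀ n, ‖F n‖ ≤ 1) (N g M : ℕ) (hM : 0 < M) :
    ‖𝔼 a : Fin N, F ((a : ℕ) : ℤ)‖ ≤ 2 * (g * M) / N +
      𝔼 a : Fin N, ‖𝔼 h : Fin M, F (((a : ℕ) : ℤ) + ((g * (h : ℕ) : ℕ) : ℤ))‖ := by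
  have : Nonempty (Fin M) := ⟨⟨0, hM⟩⟩
  have h1 : 𝔼 a : Fin N, F ((a : ℕ) : ℤ) =
      (𝔼 h : Fin M, ((𝔼 a : Fin N, F ((a : ℕ) : ℤ)) -
        𝔼 a : Fin N, F (((a : ℕ) : ℤ) + ((g * (h : ℕ) : ℕ) : ℤ)))) +
      𝔼 a : Fin N, 𝔼 h : Fin M, F (((a : ℕ) : ℤ) + ((g * (h : ℕ) : ℕ) : ℤ)) := by
    rw [expect_sub_distrib, expect_const univ_nonempty, expect_comm, sub_add_cancel]
  rw [h1]
  refine (norm_add_le _ _).trans (add_le_add ?_ (norm_av_le _))
  refine (norm_av_le _).trans (av_le_const fun h => (edge F hF N (g * h)).trans ?_)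
  have h2 : ((h : ℕ) : ℝ) ≤ M := by exact_mod_cast h.2.le
  push_cast
  gcongr

/-- the edge term -/
theorem edge_le {g M H N : ℕ} (hH : 0 < H) (hN : 0 < N) (h : 2 * (g * M) * H ≤ N) :
    2 * ((g : ℝ) * M) / N ≤ 1 / H := by
  have h1 : (0 : ℝ) < H := by exact_mod_cast hH
  have h2 : (0 : ℝ) < N := by exact_mod_cast hN
  rw [div_le_div_iff₀ h2 h1, one_mul]
  exact_mod_cast h

/-- linear phases -/
theorem lin {β ν : ℝ} {φ : ℤ → ℝ} (hφ : IsP 1 β φ) (g M : ℕ) (hM : 0 < M) (hν : 0 < ν)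
    (h : ν ≤ nd (β * g)) (a : ℤ) :
    ‖𝔼 h : Fin M, ee (φ (a + ((g * (h : ℕ) : ℕ) : ℤ)))‖ ≤ 1 / (2 * ν * M) := by
  have h1 : ∀ r : ℕ, ee (φ (a + ((g * r : ℕ) : ℤ))) = ee (φ a) * ee (r * (β * g)) := fun r => by
    have h2 : φ (a + ((g * r : ℕ) : ℤ)) - φ a =
        (((0 : ℕ) : ℝ) + 1) * β * (((g * r : ℕ) : ℤ) : ℝ) := hφ ((g * r : ℕ) : ℤ) a
    rw [← ee_add]
    refine congrArg ee ?_
    push_cast at h2 ⊢
    linarith
  have hM' : (0 : ℝ) < M := by exact_mod_cast hM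
  rw [av_fin M fun r => ee (φ (a + ((g * r : ℕ) : ℤ))), sum_congr rfl fun r _ => h1 r, ← mul_sum,
    norm_div, norm_mul, norm_ee, one_mul, Complex.norm_natCast,
    div_le_div_iff₀ hM' (by positivity)]
  have h3 := geo (β * g) M
  have h4 := norm_nonneg (∑ r ∈ range M, ee (r * (β * g)))
  have h5 : 2 * ν * ‖∑ r ∈ range M, ee (r * (β * g))‖ ≤ 1 :=
    (mul_le_mul_of_nonneg_right (by linarith) h4).trans h3
  nlinarith

/-- the induction on the degree -/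
theorem main (hA : AvgS) {q σ κ N H : ℕ} (hq : 2 ≤ q) (hH : 0 < H)
    (hN : 2 * q ^ (σ + κ) * H ^ 2 ≤ N) (e : ℕ) :
    ∀ (β : ℝ) (φ : ℤ → ℝ) (S : ℕ) (Y : ℝ), IsP (e + 1) β φ → S ≤ (e + 1) * σ → 1 ≤ Y →
      Y ^ 2 ^ e ≤ H →
      (∀ j : ℤ, 1 ≤ |j| → |j| ≤ (H : ℤ) ^ e →
        1 / (2 * (q : ℝ) ^ κ) ≤ nd (((e + 1).factorial : ℝ) * β * (q : ℝ) ^ S * j)) →
      ‖𝔼 a : Fin N, ee (φ ((a : ℕ) : ℤ))‖ ≤ 3 / Y := by
  have hq0 : 0 < q := by omega
  have hq' : (0 : ℝ) < q := by exact_mod_cast hq0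
  have hH' : (0 : ℝ) < H := by exact_mod_cast hH
  have hN0 : 0 < N := lt_of_lt_of_le (by positivity) hN
  have : Nonempty (Fin N) := ⟨⟨0, hN0⟩⟩
  have : Nonempty (Fin H) := ⟨⟨0, hH⟩⟩
  induction e with
  | zero =>
    intro β φ S Y hφ hS hY hYH hj
    have hY0 : 0 < Y := by linarith
    have hM : 0 < H * q ^ κ := by positivity
    have h1 := shift_av (fun n => ee (φ n)) (fun n => (norm_ee _).le) N (q ^ S) (H * q ^ κ) hM
    have h2 : 2 * (q ^ S * (H * q ^ κ)) * H ≤ N := by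
      refine le_trans ?_ hN
      have h3 : q ^ S ≤ q ^ σ := Nat.pow_le_pow_right hq0 (by omega)
      calc 2 * (q ^ S * (H * q ^ κ)) * H = q ^ S * (2 * q ^ κ * H ^ 2) := by ring
        _ ≤ q ^ σ * (2 * q ^ κ * H ^ 2) := Nat.mul_le_mul_right _ h3
        _ = 2 * q ^ (σ + κ) * H ^ 2 := by ring
    have h3 := edge_le hH hN0 h2
    have h4 : 1 / (2 * (q : ℝ) ^ κ) ≤ nd (β * ((q ^ S : ℕ) : ℝ)) := by
      have h5 := hj 1 (by simp) (by simp)
      simpa using h5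
    have h5 : 𝔼 a : Fin N, ‖𝔼 h : Fin (H * q ^ κ),
        ee (φ (((a : ℕ) : ℤ) + ((q ^ S * (h : ℕ) : ℕ) : ℤ)))‖ ≤ 1 / H := by
      refine av_le_const fun a => (lin hφ (q ^ S) _ hM (by positivity) h4 _).trans_eq ?_
      push_cast
      field_simp
    have h6 : 1 / (H : ℝ) ≤ 1 / Y := one_div_le_one_div_of_le hY0 (by simpa using hYH)
    have h7 : 3 / Y = 3 * (1 / Y) := by ring
    have h8 : 0 < 1 / Y := by positivity
    linarith
  | succ e ih =>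
    intro β φ S Y hφ hS hY hYH hj
    have hY0 : 0 < Y := by linarith
    have h1 := shift_av (fun n => ee (φ n)) (fun n => (norm_ee _).le) N (q ^ min S σ) H hH
    have h2 : 2 * (q ^ min S σ * H) * H ≤ N := by
      refine le_trans ?_ hN
      have h3 : q ^ min S σ ≤ q ^ (σ + κ) := Nat.pow_le_pow_right hq0 (by omega)
      calc 2 * (q ^ min S σ * H) * H = q ^ min S σ * (2 * H ^ 2) := by ring
        _ ≤ q ^ (σ + κ) * (2 * H ^ 2) := Nat.mul_le_mul_right _ h3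
        _ = 2 * q ^ (σ + κ) * H ^ 2 := by ring
    have h3 := edge_le hH hN0 h2
    have hS' : S - min S σ ≤ (e + 1) * σ := by
      rw [add_mul (e + 1) 1 σ, one_mul] at hS
      omega
    have h0 : ∀ h h' : Fin H, h ≠ h' →
        ‖𝔼 a : Fin N, ee (φ (((a : ℕ) : ℤ) + ((q ^ min S σ * (h : ℕ) : ℕ) : ℤ)) -
          φ (((a : ℕ) : ℤ) + ((q ^ min S σ * (h' : ℕ) : ℕ) : ℤ)))‖ ≤ 3 / Y ^ 2 := by
      intro h h' hne
      have hd := hφ.diff ((q ^ min S σ * (h : ℕ) : ℕ) : ℤ) ((q ^ min S σ * (h' : ℕ) : ℕ) : ℤ)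
      have hY2 : (Y ^ 2) ^ 2 ^ e ≤ H := by
        rw [← pow_mul, ← pow_succ']
        exact hYH
      have hd0 : ((h : ℕ) : ℤ) - ((h' : ℕ) : ℤ) ≠ 0 := fun h0 => hne (Fin.ext (by omega))
      have hd1 := Int.one_le_abs hd0
      have hd2 : |((h : ℕ) : ℤ) - ((h' : ℕ) : ℤ)| ≤ H := by
        have := h.2
        have := h'.2
        rw [abs_le]
        omega
      have h7 := ih _ _ (S - min S σ) (Y ^ 2) hd hS' (one_le_pow₀ hY) hY2 fun j hj1 hj2 => by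
        have h5 := hj (j * (((h : ℕ) : ℤ) - ((h' : ℕ) : ℤ)))
          (by rw [abs_mul]; exact one_le_mul_of_one_le_of_one_le hj1 hd1)
          (by rw [abs_mul, pow_succ]; exact mul_le_mul hj2 hd2 (abs_nonneg _) (by positivity))
        refine h5.trans_eq (congrArg nd ?_)
        have h6 : (q : ℝ) ^ S = (q : ℝ) ^ min S σ * (q : ℝ) ^ (S - min S σ) := by
          rw [← pow_add, Nat.add_sub_cancel' (min_le_left S σ)]
        rw [Nat.factorial_succ (e + 1), h6]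
        push_cast
        ring
      exact h7
    have h4 := hA (Fin N) (Fin H)
      (fun a h => φ (((a : ℕ) : ℤ) + ((q ^ min S σ * (h : ℕ) : ℕ) : ℤ))) (3 / Y ^ 2)
      (by positivity) h0
    have h5 : Y ^ 2 ≤ H := by
      refine le_trans (pow_le_pow_right₀ hY ?_) hYH
      rw [pow_succ']
      exact Nat.le_mul_of_pos_right 2 (by positivity)
    have h6 : 1 / (H : ℝ) ≤ 1 / Y ^ 2 := one_div_le_one_div_of_le (by positivity) h5
    have h7 : 1 / Y ^ 2 ≤ 1 / Y := one_div_le_one_div_of_le hY0 (by nlinarith)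
    have h8 : Real.sqrt (1 / (Fintype.card (Fin H) : ℝ) + 3 / Y ^ 2) ≤ 2 / Y := by
      rw [Fintype.card_fin]
      refine Real.sqrt_le_iff.2 ⟨by positivity, ?_⟩
      have h9 : (2 / Y) ^ 2 = 1 / Y ^ 2 + 3 / Y ^ 2 := by
        field_simp
        norm_num
      linarith
    have h9 : 3 / Y = 1 / Y + 2 / Y := by ring
    linarith

end RWeyl

theorem weylOf : WeylOf := by
  intro hA q e T κ σ N X β u u' φ hq he1 he4 hφ hβ hκ hT hu hX hX' hN
  obtain ⟨e, rfl⟩ : ∃ e', e = e' + 1 := ⟨e - 1, by omega⟩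
  have hq' : (0 : ℝ) < q := by exact_mod_cast (by omega : 0 < q)
  have hqκ : (0 : ℝ) < (q : ℝ) ^ κ := pow_pos hq' κ
  have hX1 : (1 : ℝ) ≤ X := by exact_mod_cast hX
  refine RWeyl.main hA (σ := σ) (κ := κ) (H := X ^ 8) hq (by positivity)
    (by rw [← pow_mul]; exact hN) e β φ (T - κ) X hφ (by omega) hX1 ?_ fun j hj1 hj2 => ?_
  · push_cast
    refine pow_le_pow_right₀ hX1 ?_
    exact (Nat.pow_le_pow_right (by norm_num) (by omega : e ≤ 3)).trans (by norm_num)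
  · have h1 : (q : ℝ) ^ T = (q : ℝ) ^ (T - κ) * (q : ℝ) ^ κ := by
      rw [← pow_add, Nat.sub_add_cancel hκ]
    have h2 : β * (q : ℝ) ^ (T - κ) = u / (q : ℝ) ^ κ + u' := by
      rw [h1] at hβ
      field_simp
      linarith
    have h3 : (((e + 1).factorial : ℕ) : ℝ) * β * (q : ℝ) ^ (T - κ) * j =
        (((e + 1).factorial : ℕ) : ℝ) * u * j / (q : ℝ) ^ κ +
          ((((e + 1).factorial : ℕ) * u' * j : ℤ) : ℝ) := by
      rw [mul_assoc _ β, h2]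
      push_cast
      ring
    have hf1 : (1 : ℝ) ≤ (((e + 1).factorial : ℕ) : ℝ) := by
      exact_mod_cast Nat.factorial_pos (e + 1)
    have hf2 : (((e + 1).factorial : ℕ) : ℝ) ≤ 24 := by
      exact_mod_cast (Nat.factorial_le he4).trans (by norm_num [Nat.factorial])
    have hj1' : (1 : ℝ) ≤ |(j : ℝ)| := by exact_mod_cast hj1
    have hj2' : |(j : ℝ)| ≤ (X : ℝ) ^ 24 := by
      have h4 : |(j : ℝ)| ≤ ((X : ℝ) ^ 8) ^ e := by exact_mod_cast hj2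
      rw [← pow_mul] at h4
      exact h4.trans (pow_le_pow_right₀ hX1 (by omega))
    have h4 : |(((e + 1).factorial : ℕ) : ℝ) * u * j / (q : ℝ) ^ κ| =
        (((e + 1).factorial : ℕ) : ℝ) * |u| * |(j : ℝ)| / (q : ℝ) ^ κ := by
      rw [abs_div, abs_mul, abs_mul, abs_of_pos hqκ, abs_of_pos (by linarith)]
    have hu0 : 0 ≤ |u| := abs_nonneg u
    have h5 : (((e + 1).factorial : ℕ) : ℝ) * |u| * |(j : ℝ)| ≤ 24 * |u| * (X : ℝ) ^ 24 :=
      mul_le_mul (mul_le_mul_of_nonneg_right hf2 hu0) hj2' (abs_nonneg _) (by positivity)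
    have h6 : 1 * (1 / 2) * 1 ≤ (((e + 1).factorial : ℕ) : ℝ) * |u| * |(j : ℝ)| :=
      mul_le_mul (mul_le_mul hf1 hu (by norm_num) (by linarith)) hj1' zero_le_one (by positivity)
    rw [h3, nd_add_int, nd_eq_abs, h4]
    · rw [div_le_div_iff₀ (by positivity) hqκ]
      nlinarith
    · rw [h4, div_le_iff₀ hqκ]
      linarith

end Pool.Agent.MP_b1aeef_nt.G4
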