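import Pool.Agent.MP_b1aeef_nt.G4.Kit2

/-! Windows of digits. -/

set_option autoImplicit false

namespace Pool.Agent.MP_b1aeef_nt.G4

open Finset
open scoped BigOperators

namespace RWin

theorem ds_add {q : ℕ} (hq : 2 ≤ q) {w a : ℕ} (ha : a < q ^ w) (b : ℕ) :
    ds q (a + q ^ w * b) = ds q a + ds q b := by
  rcases b.eq_zero_or_pos with rfl | hb
  · simp [ds]
  obtain ⟨k, rfl⟩ := Nat.exists_eq_add_of_le ((Nat.digits_length_le_iff hq a).2 ha)
  simp [ds, ← Nat.digits_append_zeroes_append_digits hq hb]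

theorem emod_mul (z : ℤ) {A B : ℕ} (hA : 0 < A) (hB : 0 < B) :
    (z % ((A : ℤ) * B)).toNat = (z % A).toNat + A * (z / A % B).toNat := by
  have a0 : (0 : ℤ) < A := by exact_mod_cast hA
  have b0 : (0 : ℤ) < B := by exact_mod_cast hB
  have h1 := Int.emod_nonneg z a0.ne'
  have h2 := Int.emod_lt_of_pos z a0
  have h3 := Int.emod_nonneg (z / A) b0.ne'
  have h4 := Int.emod_lt_of_pos (z / A) b0
  have h5 : z = z % A + A * (z / A % B) + (A : ℤ) * B * (z / A / B) := by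
    linear_combination -Int.emod_add_mul_ediv z A - A * Int.emod_add_mul_ediv (z / A) B
  have h6 : z % ((A : ℤ) * B) = z % A + A * (z / A % B) := by
    conv_lhs => rw [h5]
    rw [Int.add_mul_emod_self_left, Int.emod_eq_of_lt (by positivity) (by nlinarith)]
  zify
  rw [h6, Int.toNat_of_nonneg (by positivity), Int.toNat_of_nonneg h1, Int.toNat_of_nonneg h3]

variable {q : ℕ}

theorem w1 (hq : 2 ≤ q) (w1 w2 : ℕ) (t : ℝ) :
    wr q (w1 + w2) t = wr q w1 t + wr q w2 (t / (q : ℝ) ^ w1) := by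
  have q0 : ∀ w, 0 < q ^ w := fun w => by positivity
  have h1 := emod_mul ⌊t⌋ (q0 w1) (q0 w2)
  have h2 := Int.floor_div_natCast t (q ^ w1)
  push_cast at h1 h2
  rw [wr, wr, wr, pow_add, h1, h2, ds_add hq, Nat.cast_add]
  rw [Int.toNat_lt' (q0 w1)]
  exact_mod_cast Int.emod_lt_of_pos _ (by exact_mod_cast q0 w1)

theorem w2 (hq : 2 ≤ q) (K μ : ℕ) (t : ℝ) :
    wr q (K * μ) t = ∑ j : Fin K, wr q μ (t / (q : ℝ) ^ ((j : ℕ) * μ)) := by
  induction K with
  | zero => simp [wr, ds]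
  | succ K ih => rw [Fin.sum_univ_castSucc, add_one_mul, w1 hq, ih]; rfl

theorem w5 (w : ℕ) (t : ℝ) (n : ℤ) : wr q w (t + n * (q : ℝ) ^ w) = wr q w t := by
  have := Int.floor_add_intCast t (n * (q : ℤ) ^ w)
  push_cast at this
  rw [wr, this, Int.add_mul_emod_self_right, wr]

theorem w4 (hq : 2 ≤ q) (w : ℕ) (t t' ε : ℝ)
    (h : nd ((t - t') / (q : ℝ) ^ w) ≤ ε / (q : ℝ) ^ w) (h' : ε < nd t) :
    wr q w t = wr q w t' := by
  have q0 : (0 : ℝ) < (q : ℝ) ^ w := by positivity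
  rw [← w5 w t' (round ((t - t') / (q : ℝ) ^ w)), wr, wr]
  rw [nd, le_div_iff₀ q0, ← abs_of_pos q0, ← abs_mul, abs_of_pos q0, sub_mul,
    div_mul_cancel₀ _ q0.ne', abs_le] at h
  have h1 := h'.trans_le (nd_le t ⌊t⌋)
  have h2 := h'.trans_le (nd_le t (⌊t⌋ + 1))
  rw [abs_of_nonneg (sub_nonneg.2 (Int.floor_le t))] at h1
  push_cast at h2
  rw [abs_of_neg (sub_neg.2 (Int.lt_floor_add_one t))] at h2
  rw [show ⌊t' + round ((t - t') / (q : ℝ) ^ w) * (q : ℝ) ^ w⌋ = ⌊t⌋ from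
    Int.floor_eq_iff.2 ⟨by linarith [h.2], by linarith [h.1]⟩]

theorem w6 (hq : 2 ≤ q) (w Q : ℕ) (t : ℝ) (h : Q = q ^ w) :
    wr q w ((Q : ℝ) * t) = ds q (hi Q t).val := by
  have : NeZero Q := ⟨by rw [h]; positivity⟩
  have h1 := ZMod.val_intCast (n := Q) ⌊(Q : ℝ) * t⌋
  rw [wr, hi, ← Nat.cast_pow, ← h, ← h1, Int.toNat_natCast]

end RWin

open RWin

theorem win : WinS := fun _ hq =>
  ⟨w1 hq, w2 hq, fun T x h0 h1 => by rw [wr, Int.floor_intCast, Int.emod_eq_of_lt h0 h1], w4 hq,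
    w5, w6 hq⟩

theorem wnOf : WnOf := fun h π s w n n' c H => by
  rcases sum_ind_cases univ fun l : Fin π.k =>
    nd (π.P 0 (n + (l : ℕ)) / (π.q : ℝ) ^ s) ≤ π.eps with a | a
  · have : π.Wn s w n = π.Wn s w n' := sum_congr rfl fun l hl => by
      rw [(h π.q π.hq).2.2.2.1 w _ _ π.eps (by rw [← sub_div, div_div, ← pow_add]; exact H l)
        (not_le.1 (a l hl))]
    rw [this, sub_self, norm_zero]
    exact mul_nonneg zero_le_two (sum_nonneg fun _ _ => ind_nonneg _)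
  · exact (norm_ee_sub_le _ _).trans (le_mul_of_one_le_right zero_le_two a)

end Pool.Agent.MP_b1aeef_nt.G4
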