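import Pool.Agent.MP_b1aeef_nt.G4.Kit2

/-! The mean of the majorant of the cube averages. -/

set_option autoImplicit false

namespace Pool.Agent.MP_b1aeef_nt.G4

open Finset
open scoped BigOperators

namespace RXi

variable {I : Type} [Fintype I] [DecidableEq I] {Q : ℕ} [NeZero Q]

/-- the phase of the cube with base point `x` -/
noncomputable def ph (q : ℕ) (α : ℝ) (z : I → ZMod Q) (r : (I → Bool) → ℕ) (x : ZMod Q) : ℝ :=
  α * ∑ ω : I → Bool, sg ω * (ds q (x + (∑ i, if ω i then z i else 0) + (r ω : ZMod Q)).val : ℝ)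

omit [NeZero Q] in
theorem ph_opt (q : ℕ) (α : ℝ) (z : Option I → ZMod Q) (r : (I → Bool) → ℕ) (x : ZMod Q) :
    ph q α z (fun ω => r fun i => ω (some i)) x =
      ph q α (fun i => z (some i)) r x - ph q α (fun i => z (some i)) r (x + z none) := by
  unfold ph
  rw [← mul_sub, ← (Equiv.piOptionEquivProd (β := fun _ => Bool)).symm.sum_comp,
    Fintype.sum_prod_type, Fintype.sum_bool]
  simp only [sg, Fintype.prod_option, Fintype.sum_option, Equiv.piOptionEquivProd_symm_apply,
    if_true, Bool.false_eq_true, if_false, one_mul, zero_add, neg_mul, sum_neg_distrib, add_assoc]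
  ring

theorem sq_eq (f : ZMod Q → ℝ) :
    ((‖𝔼 x, ee (f x)‖ ^ 2 : ℝ) : ℂ) = 𝔼 t, 𝔼 x, ee (f x - f (x + t)) := by
  rw [expect_comm]
  have h : ∀ x, 𝔼 t, ee (f x - f (x + t)) = ee (f x) * (starRingEnd ℂ) (𝔼 y, ee (f y)) := by
    intro x
    simp only [ee_sub]
    rw [← mul_expect, map_expect]
    congr 1
    exact Fintype.expect_equiv (Equiv.addLeft x) _ _ fun t => rfl
  simp only [h]
  rw [← expect_mul, Complex.mul_conj, Complex.normSq_eq_norm_sq]

theorem mean_sq (q : ℕ) (α : ℝ) (r : (I → Bool) → ℕ) :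
    ((𝔼 z : I → ZMod Q, ‖cA q α z r‖ ^ 2 : ℝ) : ℂ) =
      𝔼 z : Option I → ZMod Q, cA q α z (fun ω => r fun i => ω (some i)) := by
  rw [Fintype.expect_equiv (Equiv.piOptionEquivProd (β := fun _ => ZMod Q))
    (fun z : Option I → ZMod Q => cA q α z (fun ω => r fun i => ω (some i)))
    (fun p => 𝔼 x, ee (ph q α p.2 r x - ph q α p.2 r (x + p.1)))
    (fun z => expect_congr rfl fun x _ => congrArg ee (ph_opt q α z r x)), av_prod, expect_comm,
    Complex.ofReal_expect]
  exact expect_congr rfl fun z _ => sq_eq (ph q α z r)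

end RXi

theorem xiOf : XiOf := by
  intro hG q α hq hα I _ _
  obtain ⟨m, θ, hm, h0, h1, h⟩ := hG q α hq hα (Option I) (Fintype.card I)
  refine ⟨m, √θ, (Fintype.piFinset fun _ : I → Bool => range (Fintype.card I + 1)).card, hm,
    Real.sqrt_pos.2 h0, (Real.sqrt_lt' one_pos).2 (by simpa using h1), Nat.cast_nonneg _,
    fun j Q _ hQ => ?_⟩
  refine (av_le fun z => min_le_right _ _).trans ?_
  rw [expect_sum_comm, ← nsmul_eq_mul]
  refine sum_le_card_nsmul _ _ _ fun r hr => ?_
  have h2 := h j Q hQ (fun ω => r fun i => ω (some i)) fun ω =>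
    Nat.lt_succ_iff.1 (mem_range.1 (Fintype.mem_piFinset.1 hr _))
  rw [← RXi.mean_sq, Complex.norm_real, Real.norm_eq_abs] at h2
  have h3 := jen (W := fun _ : I → ZMod Q => 1) (g := fun z => ‖cA q α z r‖)
    ⟨fun _ => zero_le_one, av_const 1⟩ (fun _ => norm_nonneg _) 2
  simp only [one_mul] at h3
  refine le_of_pow_le_pow_left₀ two_ne_zero (by positivity) ?_
  rw [← pow_mul, mul_comm, pow_mul, Real.sq_sqrt h0.le]
  exact h3.trans ((le_abs_self _).trans h2)

end Pool.Agent.MP_b1aeef_nt.G4
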