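import Pool.Agent.MP_b1aeef_nt.G4.RBox
import Pool.Agent.MP_b1aeef_nt.G4.RStg
import Pool.Agent.MP_b1aeef_nt.G4.RKer
import Pool.Agent.MP_b1aeef_nt.G4.RNw
import Pool.Agent.MP_b1aeef_nt.G4.RDom
import Pool.Agent.MP_b1aeef_nt.G4.RFej
import Pool.Agent.MP_b1aeef_nt.G4.RMaj
import Pool.Agent.MP_b1aeef_nt.G4.RLab
import Pool.Agent.MP_b1aeef_nt.G4.RGen
import Pool.Agent.MP_b1aeef_nt.G4.RWeyl
import Pool.Agent.MP_b1aeef_nt.G4.RWin
import Pool.Agent.MP_b1aeef_nt.G4.RGow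
import Pool.Agent.MP_b1aeef_nt.G4.RXi
import Pool.Agent.MP_b1aeef_nt.G4.RCar
import Pool.Agent.MP_b1aeef_nt.G4.RIso
import Pool.Agent.MP_b1aeef_nt.G4.RFin
import Pool.Agent.MP_b1aeef_nt.G4.RBd
import Pool.Agent.MP_b1aeef_nt.G4.RVtx
import Pool.Agent.MP_b1aeef_nt.G4.RInv0
import Pool.Agent.MP_b1aeef_nt.G4.RInvB
import Pool.Agent.MP_b1aeef_nt.G4.RSt0
import Pool.Agent.MP_b1aeef_nt.G4.RStA
import Pool.Agent.MP_b1aeef_nt.G4.RStB
import Pool.Agent.MP_b1aeef_nt.G4.RInvF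
import Pool.Agent.MP_b1aeef_nt.G4.REqW
import Pool.Agent.MP_b1aeef_nt.G4.RGen0
import Pool.Agent.MP_b1aeef_nt.G4.RGenA
import Pool.Agent.MP_b1aeef_nt.G4.RColl
import Pool.Agent.MP_b1aeef_nt.G4.RDomA
import Pool.Agent.MP_b1aeef_nt.G4.RFin1
import Pool.Agent.MP_b1aeef_nt.G4.RFinG
import Pool.Agent.MP_b1aeef_nt.G4.RMain
import Pool.Agent.MP_b1aeef_nt.G4.RRes

/-! All steps together. -/

set_option autoImplicit false

namespace Pool.Agent.MP_b1aeef_nt.G4

theorem mainS : MainS :=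
  have stg := stgOf box kerS
  have maj := majOf fejS
  have dom1 := dom1Of maj
  have labS := labOf fejS kerS
  have gen := genOf fejS avg
  have weyl := weylOf avg
  have bd := bdOf maj weyl
  have vtx := vtxOf nwS labS
  have wn := wnOf win
  mainOf (xiOf gow) edgeS (st0Of stg labS win bd vtx (decOf win) wn inv0)
    (stAOf stg labS bd vtx wn invA) (stBOf stg labS bd vtx wn invB)
    (finGOf nwS vtx bd (eqWOf gen weyl) (collOf kerS nwS labS vtx) (farOf nwS labS vtx)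
      (domAOf domS dom1 labS vtx (gen0Of gen weyl) (genAOf gen weyl))
      (fin1Of win (eq2Of labS) (finOf win (isoOf box) (carOf win) domS dom1) invF))

theorem resS : ResS := resOf mainS

end Pool.Agent.MP_b1aeef_nt.G4
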