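import Pool.Agent.MP_b1aeef_nt.G4.Spec

/-! Basic facts: character, distance to the integers, averages, roots, polynomial functions. -/

set_option autoImplicit false

namespace Pool.Agent.MP_b1aeef_nt.G4

open Finset
open scoped BigOperators

theorem ee_add (x y : ℝ) : ee (x + y) = ee x * ee y := by
  unfold ee
  rw [← Complex.exp_add]
  congr 1
  push_cast
  ring

theorem ee_zero : ee 0 = 1 := by simp [ee]

theorem norm_ee (x : ℝ) : ‖ee x‖ = 1 := by
  have h : (2 * Real.pi * x * Complex.I : ℂ) = ((2 * Real.pi * x : ℝ) : ℂ) * Complex.I := by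
    push_cast
    ring
  rw [ee, h, Complex.norm_exp_ofReal_mul_I]

theorem ee_int (n : ℤ) : ee n = 1 := by
  unfold ee
  rw [← Complex.exp_int_mul_two_pi_mul_I n]
  congr 1
  push_cast
  ring

theorem ee_add_int (x : ℝ) (n : ℤ) : ee (x + n) = ee x := by rw [ee_add, ee_int, mul_one]

theorem ee_neg (x : ℝ) : ee (-x) = (starRingEnd ℂ) (ee x) := by
  unfold ee
  rw [← Complex.exp_conj]
  congr 1
  simp [map_ofNat]

theorem ee_sub (x y : ℝ) : ee (x - y) = ee x * (starRingEnd ℂ) (ee y) := by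
  rw [sub_eq_add_neg, ee_add, ee_neg]

theorem ee_pow (x : ℝ) (n : ℕ) : ee (x * n) = ee x ^ n := by
  unfold ee
  rw [← Complex.exp_nat_mul]
  congr 1
  push_cast
  ring

theorem ee_sum {ι : Type} (s : Finset ι) (f : ι → ℝ) : ee (∑ i ∈ s, f i) = ∏ i ∈ s, ee (f i) := by
  classical
  induction s using Finset.induction_on with
  | empty => simp [ee_zero]
  | insert a s ha ih => rw [sum_insert ha, prod_insert ha, ee_add, ih]

theorem ee_re (x : ℝ) : (ee x).re = Real.cos (2 * Real.pi * x) := by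
  have h : (2 * Real.pi * x * Complex.I : ℂ) = ((2 * Real.pi * x : ℝ) : ℂ) * Complex.I := by
    push_cast
    ring
  rw [ee, h, Complex.exp_ofReal_mul_I_re]

theorem norm_ee_sub_le (x y : ℝ) : ‖ee x - ee y‖ ≤ 2 := by
  have h := norm_sub_le (ee x) (ee y)
  rw [norm_ee, norm_ee] at h
  linarith

theorem norm_ee_sub_one (x : ℝ) : ‖ee x - 1‖ = 2 * |Real.sin (Real.pi * x)| := by
  have h : (2 * Real.pi * x * Complex.I : ℂ) = Complex.I * ((2 * Real.pi * x : ℝ) : ℂ) := by
    push_cast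
    ring
  rw [ee, h, Complex.norm_exp_I_mul_ofReal_sub_one, Real.norm_eq_abs, abs_mul, abs_two]
  congr 3
  ring

theorem nd_nonneg (x : ℝ) : 0 ≤ nd x := abs_nonneg _

theorem nd_le_half (x : ℝ) : nd x ≤ 1 / 2 := abs_sub_round x

theorem nd_le (x : ℝ) (n : ℤ) : nd x ≤ |x - n| := round_le x n

theorem nd_le_abs (x : ℝ) : nd x ≤ |x| := by simpa using nd_le x 0

theorem nd_add_int (x : ℝ) (n : ℤ) : nd (x + n) = nd x := by
  unfold nd
  rw [round_add_intCast]
  push_cast
  ring_nf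

theorem nd_int (n : ℤ) : nd n = 0 := by simp [nd]

theorem nd_zero : nd 0 = 0 := by simp [nd]

theorem nd_neg (x : ℝ) : nd (-x) = nd x := by
  have h : ∀ y : ℝ, nd (-y) ≤ nd y := fun y => by
    refine (nd_le (-y) (-round y)).trans_eq ?_
    rw [nd, ← abs_neg]
    push_cast
    ring_nf
  have h2 := h (-x)
  rw [neg_neg] at h2
  exact le_antisymm (h x) h2

theorem nd_sub_comm (x y : ℝ) : nd (x - y) = nd (y - x) := by rw [← nd_neg, neg_sub]

theorem nd_add_le (x y : ℝ) : nd (x + y) ≤ nd x + nd y := by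
  refine (nd_le (x + y) (round x + round y)).trans ?_
  have h := abs_add_le (x - round x) (y - round y)
  push_cast
  rw [show x + y - (round x + round y) = x - round x + (y - round y) by ring]
  exact h

theorem nd_sub_le (x y : ℝ) : nd (x - y) ≤ nd x + nd y := by
  rw [sub_eq_add_neg, ← nd_neg y]
  exact nd_add_le _ _

theorem nd_sum_le {ι : Type} (s : Finset ι) (f : ι → ℝ) :
    nd (∑ i ∈ s, f i) ≤ ∑ i ∈ s, nd (f i) := by
  classical
  induction s using Finset.induction_on with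
  | empty => simp [nd_zero]
  | insert a s ha ih =>
    rw [sum_insert ha, sum_insert ha]
    exact (nd_add_le _ _).trans (by linarith)

theorem nd_int_mul_le (n : ℤ) (x : ℝ) : nd (n * x) ≤ |(n : ℝ)| * nd x := by
  refine (nd_le _ (n * round x)).trans_eq ?_
  rw [nd, ← abs_mul]
  push_cast
  ring_nf

theorem nd_eq_abs {x : ℝ} (h : |x| ≤ 1 / 2) : nd x = |x| := by
  refine le_antisymm (nd_le_abs x) ?_
  unfold nd
  rcases eq_or_ne (round x) 0 with h0 | h0
  · simp [h0]
  · have h1 : (1 : ℝ) ≤ |(round x : ℝ)| := by exact_mod_cast Int.one_le_abs h0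
    have h2 := abs_sub_abs_le_abs_sub (round x : ℝ) x
    rw [abs_sub_comm] at h2
    linarith

theorem nd_le_norm (x : ℝ) : 4 * nd x ≤ ‖ee x - 1‖ := by
  have h1 : ee x = ee (x - round x) := by
    rw [← ee_add_int (x - round x) (round x), sub_add_cancel]
  have h2 := nd_le_half x
  have h3 := Real.mul_abs_le_abs_sin (x := Real.pi * (x - round x)) (by
    rw [abs_mul, abs_of_pos Real.pi_pos]
    unfold nd at h2
    nlinarith [Real.pi_pos])
  rw [abs_mul, abs_of_pos Real.pi_pos, ← mul_assoc, div_mul_cancel₀ _ Real.pi_ne_zero] at h3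
  rw [h1, norm_ee_sub_one, nd]
  linarith

/-- geometric sums -/
theorem geo (x : ℝ) (H : ℕ) : 2 * nd x * ‖∑ r ∈ range H, ee (r * x)‖ ≤ 1 := by
  have h1 : (ee x - 1) * ∑ r ∈ range H, ee (r * x) = ee (H * x) - 1 := by
    induction H with
    | zero => simp [ee_zero]
    | succ H ih =>
      rw [sum_range_succ, mul_add, ih]
      push_cast
      rw [add_mul (H : ℝ) 1 x, one_mul, ee_add]
      ring
  have h2 := congrArg norm h1
  rw [norm_mul] at h2
  have h3 := norm_sub_le (ee (H * x)) 1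
  rw [norm_ee, norm_one] at h3
  nlinarith [nd_le_norm x, norm_nonneg (∑ r ∈ range H, ee (r * x))]

/-- complete sums vanish -/
theorem sum_ee_eq_zero (R : ℕ) (n : ℤ) (h0 : n ≠ 0) (h : |n| < R) :
    ∑ r ∈ range R, ee (r * ((n : ℝ) / R)) = 0 := by
  have hR : (0 : ℤ) < R := (abs_nonneg n).trans_lt h
  have hR' : (0 : ℝ) < R := by exact_mod_cast hR
  have h1 : ∀ H : ℕ, (ee ((n : ℝ) / R) - 1) * ∑ r ∈ range H, ee (r * ((n : ℝ) / R)) =
      ee (H * ((n : ℝ) / R)) - 1 := by
    intro H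
    induction H with
    | zero => simp [ee_zero]
    | succ H ih =>
      rw [sum_range_succ, mul_add, ih]
      push_cast
      rw [add_mul (H : ℝ) 1, one_mul, ee_add]
      ring
  have h2 := h1 R
  rw [mul_div_cancel₀ _ hR'.ne', ee_int, sub_self] at h2
  refine (mul_eq_zero.1 h2).resolve_left fun h3 => ?_
  have h4 := nd_le_norm ((n : ℝ) / R)
  rw [h3, norm_zero] at h4
  have h5 : (n : ℝ) / R - round ((n : ℝ) / R) = 0 :=
    abs_eq_zero.1 (le_antisymm (by unfold nd at h4; linarith) (abs_nonneg _))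
  have h6 : n = round ((n : ℝ) / R) * R := by
    have : (n : ℝ) = round ((n : ℝ) / R) * R := by
      rw [← div_eq_iff hR'.ne']
      linarith
    exact_mod_cast this
  exact h0 (Int.eq_zero_of_abs_lt_dvd (Dvd.intro_left _ h6.symm) h)

theorem ind_pos {p : Prop} (h : p) : ind p = 1 := if_pos h

theorem ind_neg {p : Prop} (h : ¬p) : ind p = 0 := if_neg h

theorem ind_nonneg (p : Prop) : 0 ≤ ind p := by
  by_cases h : p
  · rw [ind_pos h]; exact zero_le_one
  · rw [ind_neg h]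

theorem ind_le_one (p : Prop) : ind p ≤ 1 := by
  by_cases h : p
  · rw [ind_pos h]
  · rw [ind_neg h]; exact zero_le_one

theorem ind_mono {p p' : Prop} (h : p → p') : ind p ≤ ind p' := by
  by_cases hp : p
  · rw [ind_pos hp, ind_pos (h hp)]
  · rw [ind_neg hp]; exact ind_nonneg _

/-- a sum of indicators is at least one unless all events fail -/
theorem sum_ind_cases {ι : Type} (s : Finset ι) (p : ι → Prop) :
    (∀ i ∈ s, ¬p i) ∨ 1 ≤ ∑ i ∈ s, ind (p i) := by
  by_cases h : ∀ i ∈ s, ¬p i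
  · exact Or.inl h
  · push Not at h
    obtain ⟨i, hi, hp⟩ := h
    exact Or.inr ((ind_pos hp).symm.trans_le (single_le_sum (fun j _ => ind_nonneg (p j)) hi))

theorem sg_false {I : Type} [Fintype I] : sg (fun _ : I => false) = 1 := by simp [sg]

theorem sg_sum {I J : Type} [Fintype I] [Fintype J] (ω : I ⊕ J → Bool) :
    sg ω = sg (fun i => ω (Sum.inl i)) * sg (fun j => ω (Sum.inr j)) := by
  simp [sg, Fintype.prod_sum_type]

theorem mix_false {I Y : Type} (y0 y1 : I → Y) : mix (fun _ => false) y0 y1 = y0 := by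
  funext i
  simp [mix]

theorem tot_nonneg {I : Type} [Fintype I] {H : ℕ} (y : I → Fin H) : 0 ≤ tot y :=
  sum_nonneg fun _ _ => Int.natCast_nonneg _

theorem tot_le {I : Type} [Fintype I] {H : ℕ} (y : I → Fin H) :
    tot y ≤ (Fintype.card I : ℤ) * H := by
  have h := sum_le_card_nsmul univ (fun i => ((y i : ℕ) : ℤ)) H
    fun i _ => by exact_mod_cast (y i).2.le
  simpa [tot] using h

theorem tot_unit {H : ℕ} (y : Unit → Fin H) : tot y = ((y () : ℕ) : ℤ) := by simp [tot]

theorem le_tot {I : Type} [Fintype I] {H : ℕ} (y : I → Fin H) (i : I) : ((y i : ℕ) : ℤ) ≤ tot y :=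
  single_le_sum (f := fun i => ((y i : ℕ) : ℤ)) (fun _ _ => Int.natCast_nonneg _) (mem_univ i)

theorem tot_update {I : Type} [Fintype I] [DecidableEq I] {H : ℕ} (y : I → Fin H) (i : I)
    (b : Fin H) : tot (Function.update y i b) = tot y - ((y i : ℕ) : ℤ) + ((b : ℕ) : ℤ) := by
  unfold tot
  rw [← add_sum_erase _ _ (mem_univ i), ← add_sum_erase univ (fun i => ((y i : ℕ) : ℤ)) (mem_univ i),
    sum_congr rfl fun j hj => by rw [Function.update_of_ne (ne_of_mem_erase hj)]]
  simp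
  ring

theorem tot_mix {I : Type} [Fintype I] {H : ℕ} (ω : I → Bool) (y0 y1 : I → Fin H) :
    tot (mix ω y0 y1) =
      tot y0 + ∑ i, if ω i then ((y1 i : ℕ) : ℤ) - ((y0 i : ℕ) : ℤ) else 0 := by
  unfold tot
  rw [← sum_add_distrib]
  refine sum_congr rfl fun i _ => ?_
  cases h : ω i <;> simp [mix, h]

/-! ### averages -/

theorem norm_av_le {A : Type} [Fintype A] (f : A → ℂ) : ‖𝔼 a, f a‖ ≤ 𝔼 a, ‖f a‖ :=
  RCLike.norm_expect_le (K := ℂ)

theorem av_le {A : Type} [Fintype A] {f g : A → ℝ} (h : ∀ a, f a ≤ g a) : 𝔼 a, f a ≤ 𝔼 a, g a :=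
  expect_le_expect fun a _ => h a

theorem av_nonneg {A : Type} [Fintype A] {f : A → ℝ} (h : ∀ a, 0 ≤ f a) : 0 ≤ 𝔼 a, f a :=
  expect_nonneg fun a _ => h a

theorem av_const {A : Type} [Fintype A] [Nonempty A] (c : ℝ) : 𝔼 _a : A, c = c :=
  expect_const univ_nonempty c

theorem av_le_const {A : Type} [Fintype A] [Nonempty A] {f : A → ℝ} {c : ℝ} (h : ∀ a, f a ≤ c) :
    𝔼 a, f a ≤ c := (av_le h).trans_eq (av_const c)

theorem norm_av_ee_le {A : Type} [Fintype A] (f : A → ℝ) : ‖𝔼 a, ee (f a)‖ ≤ 1 := by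
  refine (norm_av_le _).trans ?_
  cases isEmpty_or_nonempty A
  · simp
  · exact av_le_const fun a => (norm_ee _).le

theorem av_prod {A B M : Type} [Fintype A] [Fintype B] [AddCommMonoid M] [Module ℚ≥0 M]
    (f : A × B → M) : 𝔼 p : A × B, f p = 𝔼 a, 𝔼 b, f (a, b) := by
  rw [← univ_product_univ, expect_product]

theorem av_den_le {O : Type} [Fintype O] {W f : O → ℝ} {c : ℝ} (hW : IsDen W) (h : ∀ o, f o ≤ c) :
    𝔼 o, W o * f o ≤ c := by
  refine (av_le fun o => mul_le_mul_of_nonneg_left (h o) (hW.1 o)).trans_eq ?_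
  rw [← expect_mul, hW.2, one_mul]

/-- swapping a weighted and a uniform average -/
theorem av_den_av_le {O Z : Type} [Fintype O] [Fintype Z] [Nonempty Z] {W : O → ℝ}
    {f : O → Z → ℝ} {c : ℝ} (h : ∀ z, 𝔼 o, W o * f o z ≤ c) : 𝔼 o, W o * 𝔼 z, f o z ≤ c := by
  simp only [mul_expect]
  rw [expect_comm]
  exact av_le_const h

/-- power mean inequality -/
theorem jen {O : Type} [Fintype O] {W g : O → ℝ} (hW : IsDen W) (hg : ∀ o, 0 ≤ g o) (m : ℕ) :
    (𝔼 o, W o * g o) ^ m ≤ 𝔼 o, W o * g o ^ m := by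
  have h1 : ∑ o, W o / Fintype.card O = 1 := by
    rw [← sum_div, ← hW.2, expect_eq_sum_div_card, card_univ]
  have h := Real.pow_arith_mean_le_arith_mean_pow univ (fun o => W o / Fintype.card O) g
    (fun o _ => div_nonneg (hW.1 o) (Nat.cast_nonneg _)) h1 (fun o _ => hg o) m
  simp only [expect_eq_sum_div_card, card_univ, sum_div]
  simpa only [div_mul_eq_mul_div] using h

theorem rt_nonneg (n : ℕ) {x : ℝ} (hx : 0 ≤ x) : 0 ≤ rt n x := Real.rpow_nonneg hx _

theorem rt_mono (n : ℕ) {x y : ℝ} (hx : 0 ≤ x) (h : x ≤ y) : rt n x ≤ rt n y :=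
  Real.rpow_le_rpow hx h (by positivity)

theorem rt_pow (n : ℕ) {x : ℝ} (hx : 0 ≤ x) : rt n x ^ (2 ^ n) = x := by
  rw [rt, ← Real.rpow_natCast, ← Real.rpow_mul hx]
  simp

theorem le_rt (n : ℕ) {x y : ℝ} (hx : 0 ≤ x) (h : x ^ (2 ^ n) ≤ y) : x ≤ rt n y := by
  have hy : 0 ≤ y := (pow_nonneg hx _).trans h
  refine le_of_pow_le_pow_left₀ (n := 2 ^ n) (by positivity) (rt_nonneg n hy) ?_
  rwa [rt_pow n hy]

theorem av_rt_le {O : Type} [Fintype O] {W g : O → ℝ} (hW : IsDen W) (hg : ∀ o, 0 ≤ g o) (n : ℕ) :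
    𝔼 o, W o * rt n (g o) ≤ rt n (𝔼 o, W o * g o) := by
  refine le_rt n (av_nonneg fun o => mul_nonneg (hW.1 o) (rt_nonneg n (hg o))) ?_
  refine (jen hW (fun o => rt_nonneg n (hg o)) _).trans_eq ?_
  simp only [rt_pow n (hg _)]

theorem xi_mem {I : Type} [Fintype I] [DecidableEq I] {Q : ℕ} [NeZero Q] (q : ℕ) (α : ℝ)
    (z : I → ZMod Q) : 0 ≤ xi q α z ∧ xi q α z ≤ 1 :=
  ⟨le_min zero_le_one (sum_nonneg fun _ _ => norm_nonneg _), min_le_left _ _⟩

theorem av_fin (N : ℕ) (F : ℕ → ℂ) : 𝔼 a : Fin N, F a = (∑ n ∈ range N, F n) / N := by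
  rw [expect_eq_sum_div_card, card_univ, Fintype.card_fin, Fin.sum_univ_eq_sum_range]

theorem av_finR (N : ℕ) (F : ℕ → ℝ) : 𝔼 a : Fin N, F a = (∑ n ∈ range N, F n) / N := by
  rw [expect_eq_sum_div_card, card_univ, Fintype.card_fin, Fin.sum_univ_eq_sum_range]

/-- moving the range of summation -/
theorem edge (F : ℤ → ℂ) (hF : ∀ n, ‖F n‖ ≤ 1) (N s : ℕ) :
    ‖(𝔼 a : Fin N, F ((a : ℕ) : ℤ)) - 𝔼 a : Fin N, F (((a : ℕ) : ℤ) + s)‖ ≤ 2 * s / N := by
  rw [av_fin N fun a => F a, av_fin N fun a => F (a + s), ← sub_div, norm_div, Complex.norm_natCast]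
  gcongr
  have h1 : ∑ n ∈ range N, F n - ∑ n ∈ range N, F (n + s) =
      ∑ n ∈ range s, F n - ∑ n ∈ range s, F (N + n) := by
    have h2 := sum_range_add (fun n : ℕ => F n) N s
    have h3 := sum_range_add (fun n : ℕ => F n) s N
    rw [add_comm s N, h2] at h3
    simp only [Nat.cast_add, add_comm (s : ℤ)] at h3
    linear_combination h3
  rw [h1]
  refine (norm_sub_le _ _).trans ?_
  have h4 : ∀ G : ℕ → ℤ, ‖∑ n ∈ range s, F (G n)‖ ≤ s := fun G =>
    (norm_sum_le _ _).trans (by simpa using sum_le_card_nsmul (range s) _ 1 fun n _ => hF (G n))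
  linarith [h4 fun n => n, h4 fun n => N + n]

/-! ### polynomial functions -/

theorem IsP.congr {e : ℕ} {β β' : ℝ} {φ φ' : ℤ → ℝ} (h : IsP e β φ) (h1 : β = β')
    (h2 : ∀ n, φ n = φ' n) : IsP e β' φ' := by
  rw [← h1, ← funext h2]
  exact h

theorem IsP.add {e : ℕ} {β β' : ℝ} {φ φ' : ℤ → ℝ} (h : IsP e β φ) (h' : IsP e β' φ') :
    IsP e (β + β') (fun n => φ n + φ' n) := by
  induction e generalizing β β' φ φ' with
  | zero => exact fun n => by simp only [h n, h' n]
  | succ e ih => exact fun k => (ih (h k) (h' k)).congr (by ring) fun n => by ring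

theorem IsP.mul {e : ℕ} {β : ℝ} {φ : ℤ → ℝ} (h : IsP e β φ) (c : ℝ) :
    IsP e (c * β) (fun n => c * φ n) := by
  induction e generalizing β φ with
  | zero => exact fun n => by simp only [h n]
  | succ e ih => exact fun k => (ih (h k)).congr (by ring) fun n => by ring

theorem IsP.shift {e : ℕ} {β : ℝ} {φ : ℤ → ℝ} (h : IsP e β φ) (c : ℤ) :
    IsP e β (fun n => φ (n + c)) := by
  induction e generalizing β φ with
  | zero => exact fun n => h _
  | succ e ih => exact fun k => (ih (h k)).congr rfl fun n => by rw [add_right_comm]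

theorem isP_zero (e : ℕ) : IsP e 0 (fun _ => 0) := by
  induction e with
  | zero => exact fun _ => rfl
  | succ e ih => exact fun k => ih.congr (by ring) fun n => by ring

theorem IsP.up {e : ℕ} {β : ℝ} {φ : ℤ → ℝ} (h : IsP e β φ) : IsP (e + 1) 0 φ := by
  induction e generalizing β φ with
  | zero => exact fun k n => by simp only [h (n + k), h n]; ring
  | succ e ih => exact fun k => (ih (h k)).congr (by ring) fun _ => rfl

theorem IsP.diff {e : ℕ} {β : ℝ} {φ : ℤ → ℝ} (h : IsP (e + 1) β φ) (c c' : ℤ) :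
    IsP e ((e + 1) * β * (c - c')) (fun n => φ (n + c) - φ (n + c')) :=
  ((h (c - c')).shift c').congr (by push_cast; ring) fun n => by
    rw [show n + c' + (c - c') = n + c by ring]

theorem IsP.sum {ι : Type} {e : ℕ} (s : Finset ι) {β : ι → ℝ} {φ : ι → ℤ → ℝ}
    (h : ∀ i ∈ s, IsP e (β i) (φ i)) : IsP e (∑ i ∈ s, β i) (fun n => ∑ i ∈ s, φ i n) := by
  classical
  induction s using Finset.induction_on with
  | empty => exact (isP_zero e).congr (by simp) fun n => by simp
  | insert a s ha ih =>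
    exact ((h a (mem_insert_self _ _)).add (ih fun i hi => h i (mem_insert_of_mem hi))).congr
      (by rw [sum_insert ha]) fun n => by rw [sum_insert ha]

end Pool.Agent.MP_b1aeef_nt.G4
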