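import Pool.Agent.MP_b1aeef_nt.G4.Kit

/-! Facts on the parameters: positions, sizes, polynomial functions. -/

set_option autoImplicit false

namespace Pool.Agent.MP_b1aeef_nt.G4

open Finset
open scoped BigOperators

theorem pk_add (a : ℕ → ℤ) (x h : ℤ) : pk a 0 (x + h) =
    pk a 0 x + pk a 1 x * h + pk a 2 x * h ^ 2 + pk a 3 x * h ^ 3 + pk a 4 x * h ^ 4 := by
  simp only [pk]
  ring

theorem pk1_add (a : ℕ → ℤ) (x h : ℤ) : pk a 1 (x + h) =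
    pk a 1 x + 2 * pk a 2 x * h + 3 * pk a 3 x * h ^ 2 + 4 * pk a 4 x * h ^ 3 := by
  simp only [pk]
  ring

instance (d : ℕ) : Nonempty (JA d) := ⟨Sum.inl ⟨0, by unfold K1; omega⟩⟩

namespace Par

variable (π : Par)

theorem cases : (π.d = 3 ∧ K1 π.d = 44000 ∧ K2 π.d = 999910999 ∧ K3 π.d = 0 ∧ π.a 4 = 0) ∨
    (π.d = 4 ∧ K1 π.d = 500044000 ∧ K2 π.d = 499910999 ∧ K3 π.d = 1000000000) := by
  rcases π.hd with ⟨h, h4, -⟩ | ⟨h, -⟩
  · exact Or.inl ⟨h, by rw [h]; rfl, by rw [h]; rfl, by rw [h]; rfl, h4⟩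
  · exact Or.inr ⟨h, by rw [h]; rfl, by rw [h]; rfl, by rw [h]; rfl⟩

theorem two_le_q : (2 : ℝ) ≤ π.q := by exact_mod_cast π.hq
theorem q_pos : (0 : ℝ) < π.q := by linarith [π.two_le_q]
theorem one_le_q : (1 : ℝ) ≤ π.q := by linarith [π.two_le_q]
theorem qp_pos (n : ℕ) : (0 : ℝ) < (π.q : ℝ) ^ n := pow_pos π.q_pos n
theorem one_le_qp (n : ℕ) : (1 : ℝ) ≤ (π.q : ℝ) ^ n := one_le_pow₀ π.one_le_q
theorem qp_le {m n : ℕ} (h : m ≤ n) : (π.q : ℝ) ^ m ≤ (π.q : ℝ) ^ n :=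
  pow_le_pow_right₀ π.one_le_q h
theorem one_le_np (n : ℕ) : 1 ≤ π.q ^ n := Nat.pos_of_neZero _
theorem B_pow (n : ℕ) : π.B ^ n = (π.q : ℝ) ^ (n * π.mu) := by rw [B, ← pow_mul, mul_comm]
theorem B_pos : 0 < π.B := π.qp_pos _
theorem E_pos : 0 < π.E := π.qp_pos _
theorem Qr_pos : 0 < π.Qr := π.qp_pos _
theorem one_le_B : 1 ≤ π.B := π.one_le_qp _
theorem one_le_E : 1 ≤ π.E := π.one_le_qp _
theorem one_le_Qr : 1 ≤ π.Qr := π.one_le_qp _
theorem Bp_le {m n : ℕ} (h : m ≤ n) : π.B ^ m ≤ π.B ^ n := pow_le_pow_right₀ π.one_le_B h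
theorem eps_pos : 0 < π.eps := by have := π.E_pos; unfold eps; positivity
theorem M_ge : (1000 : ℝ) ≤ π.M0 := by exact_mod_cast π.hM
theorem k_le : (π.k : ℝ) ≤ π.M0 := by exact_mod_cast π.hk

theorem big : 1000 * π.M0 * π.Qr * π.E ^ 2 ≤ π.B := by
  have h : ((1000 * π.M0 * π.q ^ (π.w0 + 2 * π.la) : ℕ) : ℝ) ≤ ((π.q ^ π.mu : ℕ) : ℝ) := by
    exact_mod_cast π.hbig
  push_cast at h
  rw [pow_add, mul_comm 2, pow_mul] at h
  unfold Qr E B
  linarith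

theorem bigE : 1000 * π.M0 * π.E ^ 2 ≤ π.B := by
  have h1 := π.big
  have h2 := π.one_le_Qr
  have h3 : 0 ≤ 1000 * π.M0 * π.E ^ 2 := by positivity
  nlinarith

theorem bigM : 1000 * π.M0 * π.E ≤ π.B := by
  have h1 := π.bigE
  have h2 := π.one_le_E
  have h3 : 0 ≤ 1000 * π.M0 * π.E := by positivity
  nlinarith

theorem M_le_B : 1000 * π.M0 ≤ π.B := by
  have h1 := π.bigM
  have h2 := π.one_le_E
  have h3 : (0 : ℝ) ≤ 1000 * π.M0 := by positivity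
  nlinarith

theorem E_le_B : 1000 * π.E ≤ π.B := by
  nlinarith [π.bigM, π.M_ge, π.E_pos]

theorem w_lt : π.w0 + 2 * π.la < π.mu := by
  have h1 := π.hbig
  have h2 := π.hM
  have h3 := π.one_le_np (π.w0 + 2 * π.la)
  exact (Nat.pow_lt_pow_iff_right π.hq).1 (by nlinarith)

theorem Qr_le_B : π.Qr ≤ π.B := π.qp_le (by have := π.w_lt; omega)

theorem N_ge : π.B ^ 1000000000 ≤ π.N := by
  rw [B_pow]
  exact_mod_cast π.hN1

theorem N_le : 2 * (π.N : ℝ) ≤ π.B ^ 1000000001 := by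
  rw [B_pow]
  exact_mod_cast π.hN2

theorem abs_a {i : ℕ} (h : i ≤ 4) : |(π.a i : ℝ)| ≤ π.M0 := by exact_mod_cast π.ha i h

theorem d_le : π.d ≤ 4 := by rcases π.cases with h | h <;> omega
theorem le_d : 3 ≤ π.d := by rcases π.cases with h | h <;> omega

theorem lead_ne : π.a π.d ≠ 0 := by
  rcases π.hd with ⟨h, -, h3⟩ | ⟨h, h4⟩ <;> rw [h] <;> assumption

theorem one_le_lead : 1 ≤ |(π.a π.d : ℝ)| := by exact_mod_cast Int.one_le_abs π.lead_ne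

theorem lead_le : |(π.a π.d : ℝ)| ≤ π.M0 := π.abs_a π.d_le

theorem sm_eq : π.sm = (999955000 + K1 π.d) * π.mu := by unfold sm rho; ring

theorem tc_eq : π.tc = 1999909999 * π.mu + π.w0 := by
  unfold tc sp sm rho
  rcases π.cases with ⟨-, h1, h2, -⟩ | ⟨-, h1, h2, -⟩ <;> rw [h1, h2] <;> ring

theorem ts_eq : π.ts = 2000000050 * π.mu + π.w0 := by rw [ts, tc_eq]; ring

theorem rho_le_sA (j : JA π.d) : π.rho ≤ π.sA j := by
  rcases j with j | j <;> simp only [sA, sp, sm] <;> omega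

theorem sA_le (j : JA π.d) : π.sA j + π.mu ≤ π.tc := by
  rcases j with j | j
  · have h := Nat.mul_le_mul_right π.mu (Nat.succ_le_of_lt j.2)
    rw [Nat.succ_mul] at h
    simp only [sA, tc, sp, sm]
    omega
  · have h := Nat.mul_le_mul_right π.mu (Nat.succ_le_of_lt j.2)
    rw [Nat.succ_mul] at h
    simp only [sA, tc]
    omega

theorem tc_le : π.tc ≤ 2 * π.rho := by
  have := π.w_lt
  rw [tc_eq, rho]
  omega

theorem sB_le (j : Fin (K3 π.d + 1)) : π.sB j ≤ π.ts + K3 π.d * π.mu :=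
  Nat.add_le_add_left (Nat.mul_le_mul_right _ (Nat.lt_succ_iff.1 j.2)) _

theorem rho_le_sB (j : Fin (K3 π.d + 1)) : π.rho ≤ π.sB j := by
  rw [sB, ts_eq, rho]
  omega

theorem sp_le : π.sp ≤ 1499999001 * π.mu := by
  have := π.w_lt
  rw [sp, sm_eq]
  rcases π.cases with ⟨-, h1, -⟩ | ⟨-, h1, -⟩ <;> rw [h1] <;> omega

theorem le_sm : 999999000 * π.mu ≤ π.sm := by
  rw [sm_eq]
  rcases π.cases with ⟨-, h1, -⟩ | ⟨-, h1, -⟩ <;> rw [h1] <;> omega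

theorem Cd_eq : π.Cd = 8 * ((π.q ^ π.w0 : ℕ) : ℝ) / (π.Rp : ℕ) := by
  have h : π.w0 = 2 * π.la + 4 + (π.w0 - (2 * π.la + 4)) := by have := π.hw; omega
  have h2 := π.qp_pos (π.w0 - (2 * π.la + 4))
  unfold Cd Rp
  push_cast
  rw [eq_div_iff h2.ne', mul_assoc, ← pow_add, ← h]

theorem one_le_Cd : 1 ≤ π.Cd := by
  have := π.one_le_qp (2 * π.la + 4)
  unfold Cd
  linarith

theorem GR_le : 7 * π.Gp * π.Rp ≤ π.q ^ π.w0 := by
  have h : π.w0 = 3 + (2 * π.la + 1 + (π.w0 - (2 * π.la + 4))) := by have := π.hw; omega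
  have h2 : 2 ^ 3 ≤ π.q ^ 3 := Nat.pow_le_pow_left π.hq 3
  unfold Gp Rp
  rw [mul_assoc, ← pow_add]
  conv_rhs => rw [h, pow_add]
  exact Nat.mul_le_mul_right _ (by omega)

theorem Rp_le : π.Rp ≤ π.q ^ π.mu :=
  Nat.pow_le_pow_right (by have := π.hq; omega) (by have := π.w_lt; omega)

theorem totA_le (y : IA π.d → π.YA) : (tot y : ℝ) ≤ π.B ^ 865 := by
  have h1 : (tot y : ℝ) ≤ (Fintype.card (IA π.d) : ℝ) * (π.q : ℝ) ^ (864 * π.mu) := by
    exact_mod_cast tot_le y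
  have h2 : (Fintype.card (IA π.d) : ℝ) + 1 ≤ π.M0 := by exact_mod_cast π.hA
  have h3 := π.M_le_B
  have h4 := π.M_ge
  rw [← B_pow] at h1
  rw [pow_succ' π.B 864]
  exact h1.trans (mul_le_mul_of_nonneg_right (by linarith) (pow_pos π.B_pos _).le)

theorem totB_le (v : IB π.d → π.YB) : (tot v : ℝ) + π.k ≤ π.B ^ 4 := by
  have h1 : (tot v : ℝ) ≤ (Fintype.card (IB π.d) : ℝ) * (π.q : ℝ) ^ (3 * π.mu) := by
    exact_mod_cast tot_le v
  have h2 : (Fintype.card (IB π.d) : ℝ) ≤ π.M0 := by exact_mod_cast π.hB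
  have h3 := π.M_le_B
  have h4 := π.M_ge
  have h5 := π.k_le
  have h6 : 1 ≤ π.B ^ 3 := one_le_pow₀ π.one_le_B
  rw [← B_pow] at h1
  rw [pow_succ' π.B 3]
  nlinarith [mul_le_mul_of_nonneg_right h2 (zero_le_one.trans h6)]

theorem Yb_le (b : π.Yb) : ((b : ℕ) : ℝ) ≤ π.B ^ 22 := by
  rw [B_pow]
  exact_mod_cast b.2.le

/-- the small shifts -/
theorem small_le (v : IB π.d → π.YB) (b : π.Yb) :
    (tot v : ℝ) + (b : ℕ) + π.k + π.B ^ 3 ≤ π.B ^ 23 := by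
  have h1 := π.totB_le v
  have h2 := π.Yb_le b
  have h3 := π.Bp_le (show 4 ≤ 22 by norm_num)
  have h4 := π.Bp_le (show 3 ≤ 22 by norm_num)
  have h5 : (3 : ℝ) ≤ π.B := by linarith [π.M_le_B, π.M_ge]
  rw [pow_succ' π.B 22]
  nlinarith [pow_pos π.B_pos 22]

/-- all shifts together -/
theorem shift_le (y : Unit → π.Y0) (M : IA π.d → π.YA) (v : IB π.d → π.YB) (b : π.Yb) :
    (((π.q : ℤ) ^ π.rho0 * tot y + (π.q : ℤ) ^ π.rho * tot M + tot v + (b : ℕ) + π.k : ℤ) : ℝ) ≤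
      3 * π.B ^ 999999999 := by
  have h1 : (tot y : ℝ) ≤ π.B ^ 5300000 := by
    rw [B_pow, tot_unit]
    exact_mod_cast (y ()).2.le
  have h2 := π.totA_le M
  have h3 := π.small_le v b
  have h4 : π.B ^ 860000000 * (tot y : ℝ) ≤ π.B ^ 999999999 :=
    (mul_le_mul_of_nonneg_left h1 (pow_pos π.B_pos _).le).trans
      (by rw [← pow_add]; exact π.Bp_le (by norm_num))
  have h5 : π.B ^ 999955000 * (tot M : ℝ) ≤ π.B ^ 999999999 :=
    (mul_le_mul_of_nonneg_left h2 (pow_pos π.B_pos _).le).trans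
      (by rw [← pow_add]; exact π.Bp_le (by norm_num))
  have h6 := π.Bp_le (show 23 ≤ 999999999 by norm_num)
  have h7 := pow_pos π.B_pos 3
  push_cast
  rw [rho, rho0, ← B_pow, ← B_pow]
  linarith

theorem three_le_N : 3 * π.B ^ 999999999 ≤ π.N := by
  have h5 : (3 : ℝ) ≤ π.B := by linarith [π.M_le_B, π.M_ge]
  refine le_trans ?_ π.N_ge
  rw [pow_succ' π.B 999999999]
  exact mul_le_mul_of_nonneg_right h5 (pow_pos π.B_pos _).le

/-- every point lies in the range of the digit decomposition -/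
theorem pt_le (a0 : π.O0) (y : Unit → π.Y0) (M : IA π.d → π.YA) (v : IB π.d → π.YB) (b : π.Yb) :
    ((a0 : ℕ) : ℤ) + (π.q : ℤ) ^ π.rho0 * tot y + (π.q : ℤ) ^ π.rho * tot M + tot v + (b : ℕ) +
      π.k ≤ 2 * π.N := by
  have h1 : (π.q : ℤ) ^ π.rho0 * tot y + (π.q : ℤ) ^ π.rho * tot M + tot v + (b : ℕ) + π.k ≤
      π.N := by exact_mod_cast (π.shift_le y M v b).trans π.three_le_N
  have h2 := a0.2
  omega

theorem pt_nonneg (a0 : π.O0) (y : Unit → π.Y0) (M : IA π.d → π.YA) :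
    0 ≤ ((a0 : ℕ) : ℤ) + (π.q : ℤ) ^ π.rho0 * tot y + (π.q : ℤ) ^ π.rho * tot M := by
  have h1 := tot_nonneg y
  have h2 := tot_nonneg M
  positivity

theorem x2_nonneg (o : π.O2) (γ : Ga π.d) : 0 ≤ π.x2 o γ := π.pt_nonneg _ _ _

theorem x2_le (o : π.O2) (γ : Ga π.d) : π.x2 o γ ≤ 2 * π.N := by
  have h := π.pt_le o.1.1 (mix γ.1 o.1.2.1 o.1.2.2) (mix γ.2 o.2.1 o.2.2) (fun _ => 0) 0
  have h1 := tot_nonneg (fun _ : IB π.d => (0 : π.YB))
  unfold x2 x1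
  omega

theorem vt_nonneg (o : π.O3) (τ : Ta π.d π.k) : 0 ≤ π.vt o τ :=
  add_nonneg (tot_nonneg _) (Int.natCast_nonneg _)

theorem vt_le (o : π.O3) (τ : Ta π.d π.k) : (π.vt o τ : ℝ) ≤ π.B ^ 4 := by
  have h1 := π.totB_le (mix τ.1 o.2.1 o.2.2)
  have h2 : ((τ.2 : ℕ) : ℝ) ≤ π.k := by exact_mod_cast τ.2.2.le
  unfold vt
  push_cast
  linarith

theorem bd_nonneg (s : ℕ) (n : ℤ) : 0 ≤ π.bd s n := ind_nonneg _

theorem isP0 : IsP π.d (π.a π.d) (π.P 0) := by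
  rcases π.hd with ⟨h, h4, -⟩ | ⟨h, -⟩ <;> rw [h]
  · intro h1 h2 h3 n
    simp only [P, pk, h4]
    push_cast
    ring
  · intro h1 h2 h3 h4 n
    simp only [P, pk]
    push_cast
    ring

theorem isP1 : IsP (π.d - 1) (π.d * π.a π.d) (π.P 1) := by
  rcases π.hd with ⟨h, h4, -⟩ | ⟨h, -⟩ <;> rw [h]
  · intro h1 h2 n
    simp only [P, pk, h4]
    push_cast
    ring
  · intro h1 h2 h3 n
    simp only [P, pk]
    push_cast
    ring

theorem isP2 (κ : ℕ) : IsP (π.d - 1) 0 (π.P (κ + 2)) := by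
  rcases π.hd with ⟨h, h4, -⟩ | ⟨h, -⟩ <;> rw [h]
  · intro h1 h2 n
    rcases κ with _ | _ | _ | κ <;> simp only [P, pk, h4] <;> push_cast <;> ring
  · intro h1 h2 h3 n
    rcases κ with _ | _ | _ | κ <;> simp only [P, pk] <;> push_cast <;> ring

theorem isP0_diff (c c' : ℤ) : IsP (π.d - 1) (π.d * π.a π.d * (c - c'))
    (fun n => π.P 0 (n + c) - π.P 0 (n + c')) := by
  have h : π.d = π.d - 1 + 1 := by have := π.le_d; omega
  have h1 : IsP (π.d - 1 + 1) (π.a π.d) (π.P 0) := h ▸ π.isP0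
  refine (h1.diff c c').congr ?_ fun _ => rfl
  rw [Nat.cast_sub (by omega)]
  push_cast
  ring

theorem isP1_diff (c c' : ℤ) : IsP (π.d - 2) ((π.d - 1) * (π.d * π.a π.d) * (c - c'))
    (fun n => π.P 1 (n + c) - π.P 1 (n + c')) := by
  have h3 := π.le_d
  have h : π.d - 1 = π.d - 2 + 1 := by omega
  have h1 : IsP (π.d - 2 + 1) (π.d * π.a π.d) (π.P 1) := h ▸ π.isP1
  refine (h1.diff c c').congr ?_ fun _ => rfl
  rw [Nat.cast_sub (by omega)]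
  push_cast
  ring

theorem isP_diff (κ : ℕ) (c c' : ℤ) :
    IsP (π.d - 1) 0 (fun n => π.P (κ + 1) (n + c) - π.P (κ + 1) (n + c')) := by
  have h : π.d = π.d - 1 + 1 := by have := π.le_d; omega
  have h1 : IsP (π.d - 1 + 1) 0 (π.P (κ + 1)) := by
    rcases κ with _ | κ
    · exact π.isP1.up
    · exact (π.isP2 κ).up
  exact (h1.diff c c').congr (by ring) fun _ => rfl

end Par

end Pool.Agent.MP_b1aeef_nt.G4
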