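import Pool.Agent.MP_b1aeef_nt.G4.Kit2

/-! The weighted box inequality. -/

set_option autoImplicit false

namespace Pool.Agent.MP_b1aeef_nt.G4

open Finset
open scoped BigOperators ComplexConjugate

noncomputable section

namespace RBox

variable {Y : Type} [Fintype Y] {n : ℕ}

/-- the average to be bounded -/
def tt {I : Type} [Fintype I] [DecidableEq I] (p : I → Y → ℝ) (f : (I → Y) → ℝ)
    (G : I → (I → Y) → ℂ) : ℂ :=
  𝔼 y : I → Y, ((∏ i, p i (y i) : ℝ) : ℂ) * (ee (f y) * ∏ i, G i y)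

/-- the box average -/
def bx {I : Type} [Fintype I] [DecidableEq I] (p : I → Y → ℝ) (f : (I → Y) → ℝ) : ℂ :=
  𝔼 y : (I → Y) × (I → Y), ((∏ i, p i (y.1 i) * p i (y.2 i) : ℝ) : ℂ) *
    ee (∑ ω : I → Bool, sg ω * f (mix ω y.1 y.2))

/-- the difference in the first coordinate -/
def df (f : (Fin (n + 1) → Y) → ℝ) (c : Y × Y) (y : Fin n → Y) : ℝ :=
  f (Fin.cons c.1 y) - f (Fin.cons c.2 y)

/-- the new weights -/
def dg (G : Fin (n + 1) → (Fin (n + 1) → Y) → ℂ) (c : Y × Y) (i : Fin n) (y : Fin n → Y) : ℂ :=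
  G i.succ (Fin.cons c.1 y) * conj (G i.succ (Fin.cons c.2 y))

theorem av_cons {M : Type} [AddCommMonoid M] [Module ℚ≥0 M] (F : (Fin (n + 1) → Y) → M) :
    𝔼 y, F y = 𝔼 y : Fin n → Y, 𝔼 a : Y, F (Fin.cons a y) := by
  rw [expect_comm, ← av_prod fun z : Y × (Fin n → Y) => F (Fin.cons z.1 z.2)]
  exact (Fintype.expect_equiv (Fin.consEquiv fun _ => Y) _ _ fun _ => rfl).symm

theorem den_pi (p : Fin n → Y → ℝ) (hp : ∀ i, IsDen (p i)) :
    IsDen fun y : Fin n → Y => ∏ i, p i (y i) := by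
  refine ⟨fun y => prod_nonneg fun i _ => (hp i).1 _, ?_⟩
  induction n with
  | zero => simp
  | succ n ih =>
    rw [av_cons]
    simp only [Fin.prod_univ_succ, Fin.cons_zero, Fin.cons_succ, ← expect_mul, (hp 0).2, one_mul]
    exact ih _ fun i => hp _

theorem den_two {p : Y → ℝ} (hp : IsDen p) : IsDen fun c : Y × Y => p c.1 * p c.2 := by
  refine ⟨fun c => mul_nonneg (hp.1 _) (hp.1 _), ?_⟩
  rw [av_prod]
  simp only [← mul_expect, hp.2, mul_one]

omit [Fintype Y] in
theorem mix_cons (b : Bool) (ω : Fin n → Bool) (a a' : Y) (y y' : Fin n → Y) :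
    mix (Fin.cons b ω : Fin (n + 1) → Bool) (Fin.cons a y) (Fin.cons a' y') =
      Fin.cons (if b then a' else a) (mix ω y y') := by
  funext i
  induction i using Fin.cases <;> simp [mix]

omit [Fintype Y] in
theorem cube_cons (f : (Fin (n + 1) → Y) → ℝ) (c : Y × Y) (y y' : Fin n → Y) :
    ∑ ω : Fin (n + 1) → Bool, sg ω * f (mix ω (Fin.cons c.1 y) (Fin.cons c.2 y')) =
      ∑ ω : Fin n → Bool, sg ω * df f c (mix ω y y') := by
  rw [← (Fin.consEquiv fun _ => Bool).sum_comp, Fintype.sum_prod_type, Fintype.sum_bool,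
    ← sum_add_distrib]
  refine sum_congr rfl fun ω _ => ?_
  have h : ∀ b : Bool, (Fin.consEquiv fun _ => Bool) (b, ω) = Fin.cons b ω := fun _ => rfl
  simp only [h, mix_cons, sg, Fin.prod_univ_succ, Fin.cons_zero, Fin.cons_succ, df]
  simp
  ring

theorem bx_cons (p : Fin (n + 1) → Y → ℝ) (f : (Fin (n + 1) → Y) → ℝ) :
    bx p f = 𝔼 c : Y × Y, ((p 0 c.1 * p 0 c.2 : ℝ) : ℂ) * bx (fun i => p i.succ) (df f c) := by
  unfold bx
  simp only [mul_expect]
  rw [← av_prod fun z : (Y × Y) × (Fin n → Y) × (Fin n → Y) =>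
    ((p 0 z.1.1 * p 0 z.1.2 : ℝ) : ℂ) * (((∏ i, p i.succ (z.2.1 i) * p i.succ (z.2.2 i) : ℝ) : ℂ) *
      ee (∑ ω : Fin n → Bool, sg ω * df f z.1 (mix ω z.2.1 z.2.2)))]
  refine (Fintype.expect_equiv ((Equiv.prodProdProdComm Y Y (Fin n → Y) (Fin n → Y)).trans
    ((Fin.consEquiv fun _ => Y).prodCongr (Fin.consEquiv fun _ => Y))) _ _ fun z => ?_).symm
  rw [← cube_cons, ← mul_assoc, ← Complex.ofReal_mul, Fin.prod_univ_succ]
  rfl

theorem step (p : Fin (n + 1) → Y → ℝ) (hp : ∀ i, IsDen (p i)) (f : (Fin (n + 1) → Y) → ℝ)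
    (G : Fin (n + 1) → (Fin (n + 1) → Y) → ℂ) (h1 : ∀ i y, ‖G i y‖ ≤ 1)
    (h2 : ∀ i y y', G i (Function.update y i y') = G i y) :
    ‖tt p f G‖ ^ 2 ≤ 𝔼 c : Y × Y, p 0 c.1 * p 0 c.2 *
      (tt (fun i => p i.succ) (df f c) (dg G c)).re := by
  obtain ⟨a₀⟩ : Nonempty Y := by
    by_contra h
    have := (hp 0).2
    rw [not_nonempty_iff] at h
    simp at this
  set u : Y → (Fin n → Y) → ℂ := fun a y =>
    (p 0 a : ℂ) * (ee (f (Fin.cons a y)) * ∏ i : Fin n, G i.succ (Fin.cons a y)) with hu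
  have e1 : tt p f G = 𝔼 y : Fin n → Y, ((∏ i, p i.succ (y i) : ℝ) : ℂ) *
      (G 0 (Fin.cons a₀ y) * 𝔼 a, u a y) := by
    rw [tt, av_cons]
    refine expect_congr rfl fun y _ => ?_
    simp only [mul_expect]
    refine expect_congr rfl fun a _ => ?_
    have := h2 0 (Fin.cons a₀ y) a
    rw [Fin.update_cons_zero] at this
    simp only [Fin.prod_univ_succ, Fin.cons_zero, Fin.cons_succ, this, hu]
    push_cast
    ring
  have hw := den_pi (fun i => p i.succ) fun i => hp _
  have e2 : ‖tt p f G‖ ≤ 𝔼 y : Fin n → Y, (∏ i, p i.succ (y i)) * ‖𝔼 a, u a y‖ := by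
    rw [e1]
    refine (norm_av_le _).trans (av_le fun y => ?_)
    rw [norm_mul, norm_mul, Complex.norm_real, Real.norm_of_nonneg (hw.1 y)]
    exact mul_le_mul_of_nonneg_left (mul_le_of_le_one_left (norm_nonneg _) (h1 _ _)) (hw.1 y)
  refine ((pow_le_pow_left₀ (norm_nonneg _) e2 2).trans
    (jen hw (fun _ => norm_nonneg _) 2)).trans_eq ?_
  have e3 : ∀ y, ((‖𝔼 a, u a y‖ ^ 2 : ℝ) : ℂ) = 𝔼 c : Y × Y, u c.1 y * conj (u c.2 y) := fun y => by
    rw [av_prod]
    dsimp only
    rw [← expect_mul_expect, Complex.ofReal_pow, ← Complex.mul_conj']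
    congr 1
    simp only [expect_eq_sum_div_card, map_div₀, map_sum, map_natCast]
  rw [← Complex.ofReal_re (𝔼 y : Fin n → Y, _), Complex.ofReal_expect]
  simp only [← Complex.re_ofReal_mul, ← Complex.re_expect, tt, Complex.ofReal_mul, e3, mul_expect]
  rw [expect_comm]
  congr 1
  refine expect_congr rfl fun c _ => expect_congr rfl fun y _ => ?_
  simp only [hu, df, dg, ee_sub, prod_mul_distrib, map_mul, map_prod, Complex.conj_ofReal]
  ring

theorem fin_box (n : ℕ) : ∀ (p : Fin (n + 1) → Y → ℝ), (∀ i, IsDen (p i)) →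
    ∀ (f : (Fin (n + 1) → Y) → ℝ) (G : Fin (n + 1) → (Fin (n + 1) → Y) → ℂ),
      (∀ i y, ‖G i y‖ ≤ 1) → (∀ i y y', G i (Function.update y i y') = G i y) →
      ‖tt p f G‖ ^ 2 ^ (n + 1) ≤ (bx p f).re := by
  induction n with
  | zero =>
    intro p hp f G h1 h2
    refine (step p hp f G h1 h2).trans_eq ?_
    rw [bx_cons, Complex.re_expect]
    refine expect_congr rfl fun c _ => ?_
    rw [Complex.re_ofReal_mul]
    congr 2
    simp only [tt, bx, univ_unique, expect_singleton, sum_singleton, sg, univ_eq_empty, prod_empty,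
      one_mul, mul_one]
    refine (expect_const univ_nonempty _).symm.trans (expect_congr rfl fun y _ => ?_)
    exact congrArg (fun z => ((1 : ℝ) : ℂ) * ee (df f c z)) (Subsingleton.elim _ _)
  | succ n ih =>
    intro p hp f G h1 h2
    have hd := den_two (hp 0)
    have e1 := (step p hp f G h1 h2).trans (av_le fun c =>
      mul_le_mul_of_nonneg_left (Complex.re_le_norm _) (hd.1 c))
    rw [pow_succ' 2 (n + 1), pow_mul]
    refine ((pow_le_pow_left₀ (by positivity) e1 _).trans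
      (jen hd (fun _ => norm_nonneg _) _)).trans ?_
    rw [bx_cons, Complex.re_expect]
    refine av_le fun c => ?_
    rw [Complex.re_ofReal_mul]
    refine mul_le_mul_of_nonneg_left (ih _ (fun i => hp _) _ _ (fun i y => ?_) fun i y y' => ?_)
      (hd.1 c)
    · rw [dg, norm_mul, Complex.norm_conj]
      exact mul_le_one₀ (h1 _ _) (norm_nonneg _) (h1 _ _)
    · simp only [dg, Fin.cons_update, h2]

end RBox

open RBox

theorem box : BoxS := fun I Y _ _ _ _ p hp f G h1 h2 => by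
  obtain ⟨n, hn⟩ : ∃ n, Fintype.card I = n + 1 := Nat.exists_eq_succ_of_ne_zero Fintype.card_ne_zero
  let e : I ≃ Fin (n + 1) := Fintype.equivFinOfCardEq hn
  have h := fin_box n (fun j => p (e.symm j)) (fun _ => hp _) (fun y => f fun i => y (e i))
    (fun j y => G (e.symm j) fun i => y (e i)) (fun _ _ => h1 _ _) fun j y y' => by
      rw [← h2 (e.symm j) (fun i => y (e i)) y']
      congr 1
      funext i
      rcases eq_or_ne i (e.symm j) with rfl | hi
      · simp
      · rw [Function.update_of_ne hi, Function.update_of_ne (e.eq_symm_apply.not.1 hi)]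
  rw [hn]
  refine Eq.trans_le ?_ (h.trans_eq ?_)
  · congr 2
    refine Fintype.expect_equiv (e.arrowCongr (Equiv.refl Y)) _ _ fun y => ?_
    simp only [← e.prod_comp, Equiv.arrowCongr_apply, Equiv.coe_refl, Function.comp_apply, id,
      Equiv.symm_apply_apply]
  · congr 1
    refine (Fintype.expect_equiv ((e.arrowCongr (Equiv.refl Y)).prodCongr
      (e.arrowCongr (Equiv.refl Y))) _ _ fun y => ?_).symm
    rw [← (e.arrowCongr (Equiv.refl Bool)).sum_comp]
    simp only [← e.prod_comp, Equiv.prodCongr_apply, Prod.map_fst, Prod.map_snd, sg, mix,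
      Equiv.arrowCongr_apply, Equiv.coe_refl, Function.comp_apply, id, Equiv.symm_apply_apply]
    rfl

end

end Pool.Agent.MP_b1aeef_nt.G4
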