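import Pool.Agent.MP_b1aeef_nt.G4.Kit2

/-! Row Gow: cube averages of the digit sum decay geometrically. -/

set_option autoImplicit false

namespace Pool.Agent.MP_b1aeef_nt.G4

open Finset
open scoped BigOperators

namespace RGow

theorem ds_step {q : ℕ} (hq : 2 ≤ q) {x : ℕ} (hx : x < q) (y : ℕ) :
    ds q (x + q * y) = x + ds q y := by
  by_cases h : x ≠ 0 ∨ y ≠ 0
  · rw [ds, Nat.digits_add q hq x y hx h, List.sum_cons, ds]
  · push Not at h
    simp [h.1, h.2, ds]

theorem ds_block {q : ℕ} (hq : 2 ≤ q) (m : ℕ) {a : ℕ} (ha : a < q ^ m) (b : ℕ) :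
    ds q (a + q ^ m * b) = ds q a + ds q b := by
  induction m generalizing a with
  | zero =>
    obtain rfl : a = 0 := by simpa using ha
    simp [ds]
  | succ m ih =>
    have h1 : a % q < q := Nat.mod_lt _ (by omega)
    have h2 : a / q < q ^ m := Nat.div_lt_of_lt_mul (by rwa [← pow_succ'])
    have h3 := ds_step hq h1 (a / q)
    rw [Nat.mod_add_div] at h3
    have h4 : a + q ^ (m + 1) * b = a % q + q * (a / q + q ^ m * b) := by
      rw [mul_add, ← add_assoc, Nat.mod_add_div]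
      ring
    rw [h4, ds_step hq h1, ih h2, h3, add_assoc]

theorem sum_cons (n : ℕ) (f : (Fin (n + 1) → Bool) → ℝ) : ∑ ω, sg ω * f ω =
    ∑ ω : Fin n → Bool, sg ω * (f (Fin.cons false ω) - f (Fin.cons true ω)) := by
  rw [← (Fin.consEquiv fun _ => Bool).sum_comp, Fintype.sum_prod_type, Fintype.sum_bool,
    ← sum_add_distrib]
  refine sum_congr rfl fun ω _ => ?_
  change sg (Fin.cons true ω : Fin (n + 1) → Bool) * f (Fin.cons true ω) +
    sg (Fin.cons false ω : Fin (n + 1) → Bool) * f (Fin.cons false ω) = _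
  simp only [sg, Fin.prod_univ_succ, Fin.cons_zero, Fin.cons_succ]
  simp
  ring

/-- The number with the largest digit at the chosen places. -/
def tt (q : ℕ) {n : ℕ} (ω : Fin n → Bool) : ℕ := ∑ i, if ω i then (q - 1) * q ^ (i : ℕ) else 0

theorem tt_cons (q : ℕ) {n : ℕ} (b : Bool) (ω : Fin n → Bool) :
    tt q (Fin.cons b ω : Fin (n + 1) → Bool) = (if b then q - 1 else 0) + q * tt q ω := by
  rw [tt, tt, Fin.sum_univ_succ, mul_sum]
  simp only [Fin.cons_zero, Fin.cons_succ, Fin.val_zero, pow_zero, mul_one, Fin.val_succ]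
  congr 1
  refine sum_congr rfl fun i _ => ?_
  split_ifs <;> ring

theorem jump {q : ℕ} (hq : 2 ≤ q) (n : ℕ) : ∑ ω : Fin (n + 1) → Bool,
    sg ω * ((ds q (1 + tt q ω) : ℝ) - ds q (tt q ω)) = (-1) ^ n * ((q : ℝ) - 1) := by
  have key : ∀ n, ∑ ω : Fin (n + 1) → Bool, sg ω * ((ds q (1 + tt q ω) : ℝ) - ds q (tt q ω)) =
      q * (∑ ω : Fin n → Bool, sg ω * 1) -
        ∑ ω : Fin n → Bool, sg ω * ((ds q (1 + tt q ω) : ℝ) - ds q (tt q ω)) := fun n => by
    rw [sum_cons, mul_sum, ← sum_sub_distrib]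
    refine sum_congr rfl fun ω _ => ?_
    have e : 1 + (q - 1 + q * tt q ω) = 0 + q * (1 + tt q ω) := by
      rw [mul_add]
      omega
    simp only [tt_cons, if_true, Bool.false_eq_true, if_false]
    rw [e, ← add_assoc, ds_step hq (by omega), ds_step hq (by omega), ds_step hq (by omega),
      ds_step hq (by omega)]
    push_cast [Nat.cast_sub (show 1 ≤ q by omega)]
    ring
  induction n with
  | zero =>
    have := ds_step hq (x := 1) hq 0
    rw [key]
    simp only [ds, mul_zero, add_zero] at this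
    simp [sg, tt, ds, this]
  | succ n ih =>
    rw [key, ih, sum_cons]
    simp [pow_succ]

theorem lt_two {x : ℝ} (h : ∀ n : ℤ, x ≠ n) : ‖ee x + 1‖ < 2 := by
  have h1 := parallelogram_law_with_norm ℝ (ee x) 1
  have h2 := nd_le_norm x
  have h3 : 0 < nd x := abs_pos.2 (sub_ne_zero.2 (h _))
  rw [norm_ee, norm_one] at h1
  nlinarith [norm_nonneg (ee x + 1)]

theorem contr {A : Type} [Fintype A] {a b : A} (h : a ≠ b) {c : ℝ} (hc : c < 2) :
    ∃ θ : ℝ, 0 < θ ∧ θ < 1 ∧ ∀ (f : A → ℂ) (t : ℝ), 0 ≤ t → (∀ x, ‖f x‖ ≤ t) →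
      ‖f a + f b‖ ≤ c * t → ‖𝔼 x, f x‖ ≤ θ * t := by
  classical
  have hN : (0 : ℝ) < Fintype.card A := by exact_mod_cast Fintype.card_pos_iff.2 ⟨a⟩
  refine ⟨max (1 / 2) ((Fintype.card A - 2 + c) / Fintype.card A), lt_max_of_lt_left (by norm_num),
    max_lt (by norm_num) (by rw [div_lt_one hN]; linarith), fun f t ht h1 h2 => ?_⟩
  refine le_trans ?_ (mul_le_mul_of_nonneg_right (le_max_right _ _) ht)
  have h3 := sum_sdiff (f := f) (subset_univ {a, b})
  have h4 := sum_sdiff (f := fun _ : A => t) (subset_univ {a, b})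
  have h5 : ‖∑ x ∈ univ \ {a, b}, f x‖ ≤ ∑ _x ∈ univ \ {a, b}, t :=
    norm_sum_le_of_le _ fun x _ => h1 x
  rw [sum_pair h] at h3 h4
  rw [sum_const (s := univ), card_univ, nsmul_eq_mul] at h4
  rw [expect_eq_sum_div_card, card_univ, norm_div, Complex.norm_natCast, div_mul_eq_mul_div, ← h3]
  gcongr
  linarith [norm_add_le (∑ x ∈ univ \ {a, b}, f x) (f a + f b)]

variable {I : Type} [Fintype I] [DecidableEq I]

/-- A vertex of the cube. -/
def vx (ω : I → Bool) (p : Option I → ℕ) : ℕ := p none + ∑ i, if ω i then p (some i) else 0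

/-- The phase. -/
noncomputable def ph (q : ℕ) (α : ℝ) (Q : ℕ) (r : (I → Bool) → ℕ) (p : Option I → ℕ) : ℝ :=
  α * ∑ ω : I → Bool, sg ω * (ds q ((vx ω p + r ω) % Q) : ℝ)

/-- The cube average. -/
noncomputable def av (q : ℕ) (α : ℝ) (Q : ℕ) (r : (I → Bool) → ℕ) : ℂ :=
  𝔼 p : Option I → Fin Q, ee (ph q α Q r fun o => p o)

omit [DecidableEq I] in
theorem vx_add (ω : I → Bool) (p p' : Option I → ℕ) (M : ℕ) :
    vx ω (fun o => p o + M * p' o) = vx ω p + M * vx ω p' := by
  have : ∑ i, (if ω i then p (some i) + M * p' (some i) else 0) =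
      ∑ i, ((if ω i then p (some i) else 0) + M * if ω i then p' (some i) else 0) :=
    sum_congr rfl fun i _ => by split_ifs <;> simp
  rw [vx, vx, vx, this, sum_add_distrib, ← mul_sum]
  ring

omit [DecidableEq I] in
theorem vx_le (ω : I → Bool) (p : Option I → ℕ) {M : ℕ} (h : ∀ o, p o ≤ M) :
    vx ω p ≤ M + Fintype.card I * M :=
  add_le_add (h _) (by
    simpa using sum_le_card_nsmul univ (fun i => if ω i then p (some i) else 0) M
      fun i _ => by split_ifs <;> simp [h])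

theorem link (q : ℕ) (α : ℝ) (Q : ℕ) [NeZero Q] (r : (I → Bool) → ℕ) :
    𝔼 z : I → ZMod Q, cA q α z r = av q α Q r := by
  have e : ∀ a : Fin Q, (ZMod.finEquiv Q a).val = a := fun a => by
    obtain ⟨n, rfl⟩ := Nat.exists_eq_succ_of_ne_zero (NeZero.ne Q)
    rfl
  unfold cA
  rw [expect_comm, ← av_prod (fun p : ZMod Q × (I → ZMod Q) => ee (α * ∑ ω : I → Bool, sg ω *
    (ds q (p.1 + (∑ i, if ω i then p.2 i else 0) + (r ω : ZMod Q)).val : ℝ)))]
  refine (Fintype.expect_equiv ((Equiv.piCongrRight fun _ => (ZMod.finEquiv Q).toEquiv).trans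
    Equiv.piOptionEquivProd) _ _ fun p => ?_).symm
  unfold ph
  congr 2
  refine sum_congr rfl fun ω _ => ?_
  rw [← ZMod.val_natCast]
  congr 4
  simp only [vx, ← e]
  push_cast [ZMod.natCast_zmod_val]
  rfl

theorem split {q : ℕ} (hq : 2 ≤ q) (α : ℝ) (Q m : ℕ) (r : (I → Bool) → ℕ) :
    av q α (Q * q ^ m) r = 𝔼 p : Option I → Fin (q ^ m), ee (ph q α (q ^ m) r fun o => p o) *
      av q α Q fun ω => (vx ω (fun o => p o) + r ω) / q ^ m := by
  have hM : 0 < q ^ m := by positivity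
  simp only [av, mul_expect]
  rw [expect_comm, ← av_prod (fun p : (Option I → Fin Q) × (Option I → Fin (q ^ m)) =>
    ee (ph q α (q ^ m) r fun o => p.2 o) *
      ee (ph q α Q (fun ω => (vx ω (fun o => p.2 o) + r ω) / q ^ m) fun o => p.1 o))]
  refine (Fintype.expect_equiv ((Equiv.arrowProdEquivProdArrow _ _ _).symm.trans
    (Equiv.piCongrRight fun _ => finProdFinEquiv)) _ _ fun p => ?_).symm
  rw [← ee_add, ph, ph, ph, ← mul_add, ← sum_add_distrib]
  congr 2
  refine sum_congr rfl fun ω _ => ?_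
  change _ = sg ω * (ds q ((vx ω (fun o => p.2 o + q ^ m * p.1 o) + r ω) % (Q * q ^ m)) : ℝ)
  rw [vx_add, mul_comm Q, Nat.mod_mul, ds_block hq m (Nat.mod_lt _ hM), add_right_comm,
    Nat.add_mul_mod_self_left, Nat.add_mul_div_left _ _ hM, add_comm (_ / _)]
  push_cast
  ring

end RGow

open RGow in
theorem gow : GowS := by
  intro q α hq hα I _ _ _ B0
  obtain ⟨n, hn⟩ := Nat.exists_eq_succ_of_ne_zero (Fintype.card_ne_zero (α := I))
  let e : I ≃ Fin (n + 1) := Fintype.equivFinOfCardEq hn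
  obtain ⟨B, hB⟩ : ∃ B, B = B0 + (Fintype.card I + 2) := ⟨_, rfl⟩
  let z : ℕ → Option I → ℕ := fun x o => o.elim x fun i => (q - 1) * q ^ (e i : ℕ)
  obtain ⟨m, hm⟩ : ∃ m, m = q ^ B * (2 + ∑ i, z 0 (some i)) := ⟨_, rfl⟩
  have b1 : B < q ^ B := Nat.lt_pow_self hq
  have b2 : m < q ^ m := Nat.lt_pow_self hq
  have hz : ∀ x ω, vx ω (z x) = x + tt q (ω ∘ e.symm) := fun x ω => by
    rw [tt, ← e.sum_comp]
    simp [vx, z]
  have z1 : ∀ x ≤ 1, ∀ o, q ^ B * z x o < q ^ m := fun x hx o => by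
    refine lt_of_le_of_lt (hm ▸ Nat.mul_le_mul_left _ ?_) b2
    cases o with
    | none => exact hx.trans (by omega)
    | some i => exact (single_le_sum (f := fun i => z 0 (some i)) (fun _ _ => Nat.zero_le _)
        (mem_univ i)).trans (Nat.le_add_left _ _)
  have z2 : ∀ x ≤ 1, ∀ ω, ∀ r ≤ B, vx ω (fun o => q ^ B * z x o) + r = r + q ^ B * vx ω (z x) ∧
      r + q ^ B * vx ω (z x) < q ^ m := fun x hx ω r hr => by
    have h1 := vx_add ω (fun _ => 0) (z x) (q ^ B)
    have h2 : vx ω (z x) ≤ 1 + ∑ i, z 0 (some i) :=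
      add_le_add hx (sum_le_sum fun i _ => by split_ifs <;> simp [z])
    have h3 := Nat.mul_le_mul_left (q ^ B) h2
    have h4 : vx ω (fun _ => 0) = 0 := by simp [vx]
    simp only [zero_add] at h1
    rw [mul_add] at h3 hm
    omega
  have hx : ∀ k : ℤ, α * ((-1) ^ n * ((q : ℝ) - 1)) ≠ k := fun k hk => hα ((-1) ^ n * k) (by
    push_cast
    rw [← hk, mul_left_comm α, ← mul_assoc, ← mul_pow]
    simp [mul_comm])
  let a : Option I → Fin (q ^ m) := fun o => ⟨_, z1 1 le_rfl o⟩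
  let b : Option I → Fin (q ^ m) := fun o => ⟨_, z1 0 zero_le_one o⟩
  have hab : a ≠ b := fun h => by
    have : q ^ B * 1 = q ^ B * 0 := congrArg Fin.val (congrFun h none)
    omega
  obtain ⟨θ, t0, t1, hθ⟩ := contr hab (lt_two hx)
  have key : ∀ j, ∀ r : (I → Bool) → ℕ, (∀ ω, r ω ≤ B) → ‖av q α (q ^ (m * j)) r‖ ≤ θ ^ j := by
    intro j
    induction j with
    | zero => exact fun r _ => (norm_av_ee_le _).trans_eq (pow_zero θ).symm
    | succ j ih =>
      intro r hr
      rw [mul_add_one, pow_add, split hq, pow_succ']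
      refine hθ _ _ (pow_nonneg t0.le _) (fun p => ?_) ?_
      · rw [norm_mul, norm_ee, one_mul]
        refine ih _ fun ω => Nat.div_le_of_le_mul ?_
        have h1 := vx_le ω (fun o => p o) (M := q ^ m) fun o => (p o).2.le
        have h2 := z1 1 le_rfl none
        have h3 := hr ω
        have h4 : q ^ m * (Fintype.card I + 2) ≤ q ^ m * B := Nat.mul_le_mul_left _ (by omega)
        change q ^ B * 1 < _ at h2
        rw [mul_add, mul_comm] at h4
        omega
      have c : ∀ x ≤ 1, (fun ω => (vx ω (fun o => q ^ B * z x o) + r ω) / q ^ m) = fun _ => 0 :=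
        fun x hx => funext fun ω => by
          rw [(z2 x hx ω _ (hr ω)).1, Nat.div_eq_of_lt (z2 x hx ω _ (hr ω)).2]
      have d : ∀ x ≤ 1, ph q α (q ^ m) r (fun o => q ^ B * z x o) =
          α * ∑ ω : I → Bool, sg ω * ((ds q (r ω) : ℝ) + ds q (x + tt q (ω ∘ e.symm))) :=
        fun x hx => congrArg _ (sum_congr rfl fun ω _ => by
          rw [(z2 x hx ω _ (hr ω)).1, Nat.mod_eq_of_lt (z2 x hx ω _ (hr ω)).2,
            ds_block hq B ((hr ω).trans_lt b1), hz, Nat.cast_add])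
      have f : ph q α (q ^ m) r (fun o => q ^ B * z 1 o) =
          α * ((-1) ^ n * ((q : ℝ) - 1)) + ph q α (q ^ m) r (fun o => q ^ B * z 0 o) := by
        rw [d 1 le_rfl, d 0 zero_le_one, ← jump hq, ← mul_add,
          ← (e.arrowCongr (Equiv.refl Bool)).sum_comp, ← sum_add_distrib]
        refine congrArg _ (sum_congr rfl fun ω _ => ?_)
        have : sg (e.arrowCongr (Equiv.refl Bool) ω) = sg ω :=
          e.symm.prod_comp fun i => if ω i then (-1 : ℝ) else 1
        rw [this, zero_add]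
        change _ = sg ω * ((ds q (1 + tt q (ω ∘ e.symm)) : ℝ) - ds q (tt q (ω ∘ e.symm))) + _
        ring
      change ‖ee (ph q α (q ^ m) r fun o => q ^ B * z 1 o) *
        av q α _ (fun ω => (vx ω (fun o => q ^ B * z 1 o) + r ω) / q ^ m) +
        ee (ph q α (q ^ m) r fun o => q ^ B * z 0 o) *
        av q α _ (fun ω => (vx ω (fun o => q ^ B * z 0 o) + r ω) / q ^ m)‖ ≤ _
      rw [c 1 le_rfl, c 0 zero_le_one, f, ee_add, ← add_mul, ← add_one_mul, norm_mul, norm_mul,
        norm_ee, mul_one]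
      exact mul_le_mul_of_nonneg_left (ih _ fun _ => Nat.zero_le _) (norm_nonneg _)
  refine ⟨m, θ, ?_, t0, t1, fun j Q _ hQ r hr => ?_⟩
  · rw [hm]
    exact Nat.mul_pos (by omega) (by omega)
  · rw [link, hQ]
    exact key j r fun ω => (hr ω).trans (by omega)

end Pool.Agent.MP_b1aeef_nt.G4
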