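import Pool.Agent.MP_b1aeef_nt.G4.Kit2

/-! The value of the polynomial in the surviving window. -/

set_option autoImplicit false

namespace Pool.Agent.MP_b1aeef_nt.G4

open Finset
open scoped BigOperators

namespace RInvF

variable (π : Par)

theorem lin (x g : ℤ) : ∃ n : ℤ, π.P 0 (x + (π.q : ℤ) ^ π.rho0 * g) / (π.q : ℝ) ^ π.sp =
    π.P 0 x / (π.q : ℝ) ^ π.sp + π.P 1 x * ((π.q : ℝ) ^ π.rho0 * g) / (π.q : ℝ) ^ π.sp + n := by
  obtain ⟨e, he⟩ : ∃ e, π.rho0 + π.rho0 = π.sp + e :=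
    Nat.exists_eq_add_of_le (by have := π.sp_le; unfold Par.rho0; omega)
  have h1 : (π.q : ℝ) ^ π.rho0 * (π.q : ℝ) ^ π.rho0 = (π.q : ℝ) ^ π.sp * (π.q : ℝ) ^ e := by
    rw [← pow_add, he, pow_add]
  refine ⟨(π.q : ℤ) ^ e * g ^ 2 * (pk π.a 2 x + pk π.a 3 x * ((π.q : ℤ) ^ π.rho0 * g) +
    pk π.a 4 x * ((π.q : ℤ) ^ π.rho0 * g) ^ 2), ?_⟩
  have h2 := (π.qp_pos π.sp).ne'
  rw [Par.P, pk_add, Par.P, Par.P]
  push_cast
  generalize (π.q : ℝ) ^ π.rho0 = R at h1 ⊢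
  generalize (π.q : ℝ) ^ π.sp = Q at h1 h2 ⊢
  generalize (π.q : ℝ) ^ e = S at h1 ⊢
  field_simp
  linear_combination ((g : ℝ) ^ 2 * ((pk π.a 2 x : ℝ) + (pk π.a 3 x : ℝ) * (R * g) +
    (pk π.a 4 x : ℝ) * (R * g) ^ 2)) * h1

theorem dW_nonneg : 0 ≤ π.dW := by
  have h1 := π.eps_pos
  have h2 := π.Qr_pos
  have h3 := π.B_pos
  unfold Par.dW
  positivity

theorem one (a u : ℤ) (r m0 m1 : ℕ) (hu0 : 0 ≤ u) (hu : (u : ℝ) ≤ π.B ^ 23)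
    (h : ∀ j, nd (π.wph a r j m0 - π.wph a r j m1) ≤ π.dW) :
    nd (π.P 1 (a + u) * ((π.q : ℝ) ^ r * ((m1 : ℝ) - m0)) / (π.q : ℝ) ^ π.sp -
      (π.zt a r m1 - π.zt a r m0)) ≤ 3 * (π.B ^ 69 * π.dW) := by
  have e : π.P 1 (a + u) * ((π.q : ℝ) ^ r * ((m1 : ℝ) - m0)) / (π.q : ℝ) ^ π.sp -
      (π.zt a r m1 - π.zt a r m0) =
      ∑ j : Fin 3, ((u ^ ((j : ℕ) + 1) : ℤ) : ℝ) * (π.wph a r j m1 - π.wph a r j m0) := by
    rw [Fin.sum_univ_three]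
    simp only [Par.P, Par.zt, Par.wph, pk1_add, Fin.val_zero, Fin.val_one, Fin.val_two]
    push_cast
    ring
  rw [e]
  refine (nd_sum_le _ _).trans ?_
  have h1 : ∀ j : Fin 3, nd (((u ^ ((j : ℕ) + 1) : ℤ) : ℝ) * (π.wph a r j m1 - π.wph a r j m0)) ≤
      π.B ^ 69 * π.dW := fun j => by
    refine (nd_int_mul_le _ _).trans ?_
    rw [nd_sub_comm]
    refine mul_le_mul ?_ (h j) (nd_nonneg _) (pow_pos π.B_pos _).le
    have h2 : (0 : ℝ) ≤ u := by exact_mod_cast hu0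
    push_cast
    rw [abs_of_nonneg (pow_nonneg h2 _)]
    refine (pow_le_pow_left₀ h2 hu _).trans ?_
    rw [← pow_mul]
    exact π.Bp_le (by have := j.2; omega)
  rw [Fin.sum_univ_three]
  linarith [h1 0, h1 1, h1 2]

theorem many {I : Type} [Fintype I] {H : ℕ} (a u : ℤ) (r : ℕ) (ω : I → Bool) (y0 y1 : I → Fin H)
    (hu0 : 0 ≤ u) (hu : (u : ℝ) ≤ π.B ^ 23)
    (h : ∀ i j, nd (π.wph a r j (y0 i) - π.wph a r j (y1 i)) ≤ π.dW) :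
    nd (π.P 1 (a + u) * ((π.q : ℝ) ^ r * ((tot (mix ω y0 y1) : ℝ) - (tot y0 : ℝ))) /
      (π.q : ℝ) ^ π.sp - ∑ i, if ω i then π.zt a r (y1 i) - π.zt a r (y0 i) else 0) ≤
      Fintype.card I * (3 * (π.B ^ 69 * π.dW)) := by
  have e : π.P 1 (a + u) * ((π.q : ℝ) ^ r * ((tot (mix ω y0 y1) : ℝ) - (tot y0 : ℝ))) /
      (π.q : ℝ) ^ π.sp - (∑ i, if ω i then π.zt a r (y1 i) - π.zt a r (y0 i) else 0) =
      ∑ i, if ω i then π.P 1 (a + u) * ((π.q : ℝ) ^ r * (((y1 i : ℕ) : ℝ) - ((y0 i : ℕ) : ℝ))) /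
        (π.q : ℝ) ^ π.sp - (π.zt a r (y1 i) - π.zt a r (y0 i)) else 0 := by
    rw [tot_mix]
    push_cast
    rw [add_sub_cancel_left, mul_sum, mul_sum, sum_div, ← sum_sub_distrib]
    refine sum_congr rfl fun i _ => ?_
    cases ω i <;> simp
  rw [e]
  refine (nd_sum_le _ _).trans ?_
  have h0 : 0 ≤ 3 * (π.B ^ 69 * π.dW) :=
    mul_nonneg (by norm_num) (mul_nonneg (pow_pos π.B_pos _).le (dW_nonneg π))
  refine (sum_le_card_nsmul univ _ (3 * (π.B ^ 69 * π.dW)) fun i _ => ?_).trans_eq ?_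
  · split_ifs
    · exact one π a u r _ _ hu0 hu (h i)
    · rw [nd_zero]
      exact h0
  · rw [card_univ, nsmul_eq_mul]

theorem ind_zero {p : Prop} (h : ind p = 0) : ¬p := fun hp => by
  rw [ind_pos hp] at h
  exact one_ne_zero h

theorem far (o : π.O2) (h : π.farW o = 0) :
    (∀ i j, nd (π.wph (o.1.1 : ℕ) π.rho0 j (o.1.2.1 i) -
      π.wph (o.1.1 : ℕ) π.rho0 j (o.1.2.2 i)) ≤ π.dW) ∧
    ∀ i j, nd (π.wph (o.1.1 : ℕ) π.rho j (o.2.1 i) -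
      π.wph (o.1.1 : ℕ) π.rho j (o.2.2 i)) ≤ π.dW := by
  unfold Par.farW at h
  rw [add_eq_zero_iff_of_nonneg (sum_nonneg fun _ _ => ind_nonneg _)
    (sum_nonneg fun _ _ => sum_nonneg fun _ _ => ind_nonneg _)] at h
  obtain ⟨h1, h2⟩ := h
  rw [sum_eq_zero_iff_of_nonneg fun _ _ => ind_nonneg _] at h1
  rw [sum_eq_zero_iff_of_nonneg fun _ _ => sum_nonneg fun _ _ => ind_nonneg _] at h2
  refine ⟨fun _ j => not_lt.1 (ind_zero (h1 j (mem_univ _))), fun i j => ?_⟩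
  have h3 := h2 i (mem_univ _)
  rw [sum_eq_zero_iff_of_nonneg fun _ _ => ind_nonneg _] at h3
  exact not_lt.1 (ind_zero (h3 j (mem_univ _)))

theorem err4 {a3 a4 x b v M T : ℝ} (h3 : |a3| ≤ M) (h4 : |a4| ≤ M) (hx : 0 ≤ x) (hb : 0 ≤ b)
    (hv : 0 ≤ v) (t1 : b * v ^ 2 ≤ T) (t2 : x * (b * v ^ 2) ≤ T) (t3 : b * (b * v ^ 2) ≤ T)
    (t4 : b * v ^ 2 * v ≤ T) :
    |a3 * (3 * (b * v ^ 2)) + a4 * (12 * (x * (b * v ^ 2)) + 6 * (b * (b * v ^ 2)) +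
      4 * (b * v ^ 2 * v))| ≤ 25 * M * T := by
  have hM : 0 ≤ M := (abs_nonneg _).trans h3
  refine (abs_add_le _ _).trans ?_
  rw [abs_mul, abs_mul a4, abs_of_nonneg (a := 3 * (b * v ^ 2)) (by positivity),
    abs_of_nonneg (a := 12 * (x * (b * v ^ 2)) + 6 * (b * (b * v ^ 2)) + 4 * (b * v ^ 2 * v))
      (by positivity)]
  have e1 : |a3| * (3 * (b * v ^ 2)) ≤ M * (3 * T) :=
    mul_le_mul h3 (by linarith) (by positivity) hM
  have e2 : |a4| * (12 * (x * (b * v ^ 2)) + 6 * (b * (b * v ^ 2)) + 4 * (b * v ^ 2 * v)) ≤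
      M * (22 * T) := mul_le_mul h4 (by linarith) (by positivity) hM
  linarith

theorem fin_le {X : ℝ} {n : ℕ} (h : X ≤ 25 * π.M0 * π.B ^ n) (hn : (n + 1) * π.mu ≤ π.sm) :
    X / (π.q : ℝ) ^ π.sp ≤ π.eps / π.Qr / 2 := by
  have h1 : π.B ^ n * π.B ≤ (π.q : ℝ) ^ π.sm := by
    rw [← pow_succ, π.B_pow]
    exact π.qp_le hn
  have h2 := π.bigM
  have h3 := π.E_pos
  have h4 := π.Qr_pos
  have h5 := pow_pos π.B_pos n
  have h6 := π.qp_pos π.sm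
  have h7 : (π.q : ℝ) ^ π.sp = (π.q : ℝ) ^ π.sm * π.Qr := by rw [Par.sp, pow_add, Par.Qr]
  have h8 : (0 : ℝ) ≤ π.M0 * π.E := by positivity
  rw [h7, Par.eps, div_div, div_div, div_le_div_iff₀ (by positivity) (by positivity)]
  generalize π.B ^ n = T at h h1 h5
  have h9 : X * (14 * π.E) ≤ (π.q : ℝ) ^ π.sm := by
    have e1 : X * (14 * π.E) ≤ 25 * π.M0 * T * (14 * π.E) :=
      mul_le_mul_of_nonneg_right h (by positivity)
    have e2 : T * (350 * (π.M0 * π.E)) ≤ T * π.B :=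
      mul_le_mul_of_nonneg_left (by linarith) h5.le
    linarith
  have h10 := mul_le_mul_of_nonneg_right h9 h4.le
  linarith

theorem err (x b v : ℤ) (hx0 : 0 ≤ x) (hx : x ≤ 2 * π.N) (hb0 : 0 ≤ b) (hb : (b : ℝ) ≤ π.B ^ 22)
    (hv0 : 0 ≤ v) (hv : (v : ℝ) ≤ π.B ^ 4) :
    |((π.P 2 (x + b) - π.P 2 x) * (v : ℝ) ^ 2 + (π.P 3 (x + b) - π.P 3 x) * (v : ℝ) ^ 3) /
      (π.q : ℝ) ^ π.sp| ≤ π.eps / π.Qr / 2 := by
  have x0 : (0 : ℝ) ≤ x := by exact_mod_cast hx0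
  have b0 : (0 : ℝ) ≤ b := by exact_mod_cast hb0
  have v0 : (0 : ℝ) ≤ v := by exact_mod_cast hv0
  have hB := π.B_pos
  have t1 : (b : ℝ) * (v : ℝ) ^ 2 ≤ π.B ^ 30 := by
    have := mul_le_mul hb (pow_le_pow_left₀ v0 hv 2) (by positivity) (by positivity)
    rwa [← pow_mul, ← pow_add] at this
  have t3 : (b : ℝ) * ((b : ℝ) * (v : ℝ) ^ 2) ≤ π.B ^ 52 := by
    have := mul_le_mul hb t1 (by positivity) (by positivity)
    rwa [← pow_add] at this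
  have t4 : (b : ℝ) * (v : ℝ) ^ 2 * v ≤ π.B ^ 34 := by
    have := mul_le_mul t1 hv (by positivity) (by positivity)
    rwa [← pow_add] at this
  rw [abs_div, abs_of_pos (π.qp_pos _)]
  rcases π.cases with ⟨-, -, -, -, h4⟩ | ⟨-, h1, -⟩
  · refine fin_le π (n := 52) ?_ (by have := π.le_sm; omega)
    have := err4 (π.abs_a (i := 3) (by norm_num)) (π.abs_a (i := 4) le_rfl) le_rfl b0 v0
      (t1.trans (π.Bp_le (n := 52) (by norm_num))) (by rw [zero_mul]; positivity) t3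
      (t4.trans (π.Bp_le (by norm_num)))
    refine le_trans (le_of_eq (congrArg _ ?_)) this
    simp only [Par.P, pk, h4]
    push_cast
    ring
  · refine fin_le π (n := 1000000031) ?_ (by rw [π.sm_eq, h1]; omega)
    have t2 : (x : ℝ) * ((b : ℝ) * (v : ℝ) ^ 2) ≤ π.B ^ 1000000031 := by
      have h2 : (x : ℝ) ≤ 2 * π.N := by exact_mod_cast hx
      have := mul_le_mul (h2.trans π.N_le) t1 (by positivity) (pow_pos hB _).le
      rwa [← pow_add] at this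
    have := err4 (π.abs_a (i := 3) (by norm_num)) (π.abs_a (i := 4) le_rfl) x0 b0 v0
      (t1.trans (π.Bp_le (n := 1000000031) (by norm_num))) t2
      (t3.trans (π.Bp_le (by norm_num))) (t4.trans (π.Bp_le (by norm_num)))
    refine le_trans (le_of_eq (congrArg _ ?_)) this
    simp only [Par.P, pk]
    push_cast
    ring

theorem taylor (x b v : ℤ) : π.P 0 (x + b + v) = π.P 0 (x + b) + π.P 1 (x + b) * v +
    (π.P 2 x * (v : ℝ) ^ 2 + π.P 3 x * (v : ℝ) ^ 3 + π.P 4 x * (v : ℝ) ^ 4) +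
    ((π.P 2 (x + b) - π.P 2 x) * (v : ℝ) ^ 2 + (π.P 3 (x + b) - π.P 3 x) * (v : ℝ) ^ 3) := by
  simp only [Par.P, pk]
  push_cast
  ring

end RInvF

open RInvF in
theorem invF : InvFS := by
  intro π o b γ τ c c' hf h1 h2
  obtain ⟨f1, f2⟩ := far π o.1 hf
  have hv0 := π.vt_nonneg o τ
  have hv := π.vt_le o τ
  have hu0 : 0 ≤ ((b : ℕ) : ℤ) + π.vt o τ := add_nonneg (Int.natCast_nonneg _) hv0
  have hu : ((((b : ℕ) : ℤ) + π.vt o τ : ℤ) : ℝ) ≤ π.B ^ 23 := by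
    have e1 := π.small_le (mix τ.1 o.2.1 o.2.2) b
    have e2 : ((τ.2 : ℕ) : ℝ) ≤ π.k := by exact_mod_cast τ.2.2.le
    have e3 := pow_pos π.B_pos 3
    unfold Par.vt
    push_cast
    linarith
  have m1 := many π (o.1.1.1 : ℕ) _ π.rho0 (fun u => γ (Sum.inl u)) o.1.1.2.1 o.1.1.2.2 hu0 hu f1
  have m2 := many π (o.1.1.1 : ℕ) _ π.rho (fun i => γ (Sum.inr i)) o.1.2.1 o.1.2.2 hu0 hu f2
  have m3 := err π (π.x0 o.1) (b : ℕ) (π.vt o τ) (π.x2_nonneg _ _) (π.x2_le _ _)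
    (Int.natCast_nonneg _) (by exact_mod_cast π.Yb_le b) hv0 hv
  have m4 := taylor π (π.x0 o.1) (b : ℕ) (π.vt o τ)
  obtain ⟨e, he⟩ : ∃ e, π.rho = π.rho0 + e :=
    Nat.exists_eq_add_of_le (by unfold Par.rho Par.rho0; omega)
  have hz : (π.q : ℤ) ^ π.rho = (π.q : ℤ) ^ π.rho0 * (π.q : ℤ) ^ e := by rw [← pow_add, ← he]
  have hr : (π.q : ℝ) ^ π.rho = (π.q : ℝ) ^ π.rho0 * (π.q : ℝ) ^ e := by rw [← pow_add, ← he]
  obtain ⟨n1, e1⟩ := lin π (((o.1.1.1 : ℕ) : ℤ) + (((b : ℕ) : ℤ) + π.vt o τ))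
    (tot (mix (fun u => γ (Sum.inl u)) o.1.1.2.1 o.1.1.2.2) +
      (π.q : ℤ) ^ e * tot (mix (fun i => γ (Sum.inr i)) o.1.2.1 o.1.2.2))
  obtain ⟨n0, e0⟩ := lin π (((o.1.1.1 : ℕ) : ℤ) + (((b : ℕ) : ℤ) + π.vt o τ))
    (tot o.1.1.2.1 + (π.q : ℤ) ^ e * tot o.1.2.1)
  have a1 : π.x3 o (fun u => γ (Sum.inl u), fun i => γ (Sum.inr i)) τ.1 + (b : ℕ) + (τ.2 : ℕ) =
      ((o.1.1.1 : ℕ) : ℤ) + (((b : ℕ) : ℤ) + π.vt o τ) + (π.q : ℤ) ^ π.rho0 *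
        (tot (mix (fun u => γ (Sum.inl u)) o.1.1.2.1 o.1.1.2.2) +
          (π.q : ℤ) ^ e * tot (mix (fun i => γ (Sum.inr i)) o.1.2.1 o.1.2.2)) := by
    simp only [Par.x3, Par.x2, Par.x1, Par.vt, hz]
    ring
  have a0 : π.x0 o.1 + (b : ℕ) + π.vt o τ =
      ((o.1.1.1 : ℕ) : ℤ) + (((b : ℕ) : ℤ) + π.vt o τ) + (π.q : ℤ) ^ π.rho0 *
        (tot o.1.1.2.1 + (π.q : ℤ) ^ e * tot o.1.2.1) := by
    simp only [Par.x0, Par.x2, Par.x1, mix_false, hz]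
    ring
  rw [← a1] at e1
  rw [← a0, m4] at e0
  have hQ : (π.q : ℝ) ^ π.sp = (π.q : ℝ) ^ π.sm * π.Qr := by rw [Par.sp, pow_add, Par.Qr]
  have hs : (∑ i, if γ i then π.Zd o.1 i else 0) =
      (∑ i, if γ (Sum.inl i) then π.zt (o.1.1.1 : ℕ) π.rho0 (o.1.1.2.2 i) -
        π.zt (o.1.1.1 : ℕ) π.rho0 (o.1.1.2.1 i) else 0) +
      ∑ i, if γ (Sum.inr i) then π.zt (o.1.1.1 : ℕ) π.rho (o.1.2.2 i) -
        π.zt (o.1.1.1 : ℕ) π.rho (o.1.2.1 i) else 0 := Fintype.sum_sum_type _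
  have hq := π.Qr_pos
  rw [hs, sub_div, div_div, ← hQ, mul_div_cancel_left₀ _ hq.ne', e1]
  have m5 : nd ((π.vt o τ : ℝ) * (π.fi (π.x0 o.1) b - c')) ≤ π.B ^ 4 * π.dF := by
    refine (nd_int_mul_le _ _).trans (mul_le_mul ?_ h2 (nd_nonneg _) (pow_pos π.B_pos _).le)
    rwa [abs_of_nonneg (by exact_mod_cast hv0)]
  have m6 := (nd_le_abs _).trans m3
  have m7 := (nd_add_le _ _).trans (add_le_add ((nd_add_le _ _).trans (add_le_add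
    ((nd_add_le _ _).trans (add_le_add h1 m5)) m6)) ((nd_add_le _ _).trans (add_le_add m1 m2)))
  rw [← nd_add_int _ (n1 - n0)] at m7
  refine le_trans (le_of_eq (congrArg nd ?_)) (m7.trans ?_)
  · rw [hr]
    simp only [Par.th, Par.fi, Par.kap]
    push_cast at e0 ⊢
    linear_combination -e0
  · have c1 : (Fintype.card (IA π.d) : ℝ) + 1 ≤ π.M0 := by exact_mod_cast π.hA
    have c2 : (0 : ℝ) < π.M0 := by linarith [π.M_ge]
    have c3 := pow_pos π.B_pos 69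
    have c4 : 1 ≤ π.B ^ 4 := one_le_pow₀ π.one_le_B
    have c5 := π.B_pos.ne'
    have c6 : π.M0 * (3 * (π.B ^ 69 * π.dW)) = π.eps / π.Qr / 4 := by
      unfold Par.dW
      field_simp
      ring
    have c7 : π.B ^ 4 * π.dF = π.eps / π.Qr / 8 := by
      unfold Par.dF
      field_simp
    have c8 : 0 ≤ π.dF := (nd_nonneg _).trans h1
    have c9 : π.dF ≤ π.B ^ 4 * π.dF := le_mul_of_one_le_left c8 c4
    have c10 := mul_le_mul_of_nonneg_right c1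
      (mul_nonneg (show (0 : ℝ) ≤ 3 by norm_num) (mul_nonneg c3.le (dW_nonneg π)))
    rw [Fintype.card_unit, Nat.cast_one]
    linarith

end Pool.Agent.MP_b1aeef_nt.G4
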