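import Pool.Agent.MP_b1aeef_nt.G4.Defs

/-! Statements of the steps. -/

set_option autoImplicit false

namespace Pool.Agent.MP_b1aeef_nt.G4

open Finset
open scoped BigOperators

/-! ### abstract probability -/

/-- weighted box inequality -/
def BoxS : Prop :=
  ∀ (I Y : Type) [Fintype I] [DecidableEq I] [Nonempty I] [Fintype Y] (p : I → Y → ℝ),
    (∀ i, IsDen (p i)) →
    ∀ (f : (I → Y) → ℝ) (G : I → (I → Y) → ℂ), (∀ i y, ‖G i y‖ ≤ 1) →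
      (∀ i y y', G i (Function.update y i y') = G i y) →
      ‖𝔼 y : I → Y, ((∏ i, p i (y i) : ℝ) : ℂ) * (ee (f y) * ∏ i, G i y)‖ ^ (2 ^ Fintype.card I) ≤
        (𝔼 y : (I → Y) × (I → Y), ((∏ i, p i (y.1 i) * p i (y.2 i) : ℝ) : ℂ) *
          ee (∑ ω : I → Bool, sg ω * f (mix ω y.1 y.2))).re

/-- pair kernels: stochastic, and small on graphs -/
def KerS : Prop :=
  ∀ (C Y : Type) [Fintype Y] [Nonempty Y] (Cs : Finset C) (ψ : C → Y → ℝ), IsLab Cs ψ →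
    IsKer (ker Cs ψ) ∧ ∀ s : Y → Y → Prop, (∀ y y1 y2, s y y1 → s y y2 → y1 = y2) →
      𝔼 y, 𝔼 y', ker Cs ψ y y' * ind (s y y') ≤ (Cs.card : ℝ) / Fintype.card Y

/-- the density after a stage: total mass, vertex marginals, resampling one direction -/
def NwS : Prop :=
  ∀ (O I Y : Type) [Fintype O] [Fintype I] [DecidableEq I] [Fintype Y] [Nonempty Y] (W : O → ℝ)
    (K : O → I → Y → Y → ℝ), IsDen W → (∀ o i, IsKer (K o i)) →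
    IsDen (nw W K) ∧
    (∀ (ω : I → Bool) (F : O → (I → Y) → ℝ),
      𝔼 p : O × (I → Y) × (I → Y), nw W K p * F p.1 (mix ω p.2.1 p.2.2) =
        𝔼 o, W o * 𝔼 y, F o y) ∧
    ∀ (i : I) (h : O → (I → Y) → (I → Y) → ℝ) (η : O → ℝ),
      (∀ o y0 y1, 𝔼 a, 𝔼 b, K o i a b * h o (Function.update y0 i a) (Function.update y1 i b) ≤
        η o) →
      𝔼 p : O × (I → Y) × (I → Y), nw W K p * h p.1 p.2.1 p.2.2 ≤ 𝔼 o, W o * η o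

/-- one stage -/
def StgS : Prop :=
  ∀ (O Z I Y C : Type) [Fintype O] [Fintype Z] [Nonempty Z] [Fintype I] [DecidableEq I]
    [Nonempty I] [Fintype Y] [Nonempty Y] (W : O → ℝ) (Cs : Finset C) (ψ : O → I → C → Y → ℝ)
    (f : O → Z → (I → Y) → ℝ) (g bad : O → Z → I → (I → Y) → ℝ) (far : O → I → Y → Y → ℝ)
    (β τ X : ℝ), IsDen W → (∀ o i, IsLab Cs (ψ o i)) →
    (∀ o z i y y', ‖ee (g o z i y) - ee (g o z i (Function.update y i y'))‖ ≤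
      bad o z i y + far o i (y i) y') →
    (∀ i, 𝔼 o, W o * 𝔼 z, 𝔼 y, bad o z i y ≤ β) →
    (∀ o i, 𝔼 y, 𝔼 y', ker Cs (ψ o i) y y' * far o i y y' ≤ τ) →
    𝔼 p : O × (I → Y) × (I → Y), nw W (fun o i => ker Cs (ψ o i)) p *
      ‖𝔼 z, ee (∑ ω : I → Bool, sg ω * f p.1 z (mix ω p.2.1 p.2.2))‖ ≤ X →
    𝔼 o, W o * 𝔼 z, ‖𝔼 y, ee (f o z y + ∑ i, g o z i y)‖ ≤
      Fintype.card I * (β + τ) + rt (Fintype.card I) X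

def StgOf : Prop := BoxS → KerS → StgS

/-- domination for a product of kernels -/
def DomS : Prop :=
  ∀ (O I Y A : Type) [Fintype O] [Fintype I] [DecidableEq I] [Fintype Y] [Nonempty Y] [Fintype A]
    [Nonempty A] (W : O → ℝ) (K : O → I → Y → Y → ℝ) (z : O → I → Y → Y → A) (η : O → I → ℝ)
    (C : ℝ), IsDen W → (∀ o i, IsKer (K o i)) → 1 ≤ C → (∀ o i, 0 ≤ η o i) →
    (∀ o i (ξ : A → ℝ), (∀ a, 0 ≤ ξ a ∧ ξ a ≤ 1) →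
      𝔼 y, 𝔼 y', K o i y y' * ξ (z o i y y') ≤ η o i + C * 𝔼 a, ξ a) →
    ∀ Ξ : O → (I → A) → ℝ, (∀ o a, 0 ≤ Ξ o a ∧ Ξ o a ≤ 1) →
      𝔼 p : O × (I → Y) × (I → Y), nw W K p * Ξ p.1 (fun i => z p.1 i (p.2.1 i) (p.2.2 i)) ≤
        C ^ Fintype.card I * 𝔼 o, W o * (∑ i, η o i + 𝔼 a, Ξ o a)

/-! ### Fejer labels -/

def FejS : Prop :=
  ∀ R : ℕ, 1 ≤ R →
    (∀ x, 0 ≤ fej R x) ∧
    (∀ x : ℝ, ∑ c ∈ range R, fej R (x - (c : ℝ) / R) = 1) ∧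
    (∀ x δ : ℝ, 0 < δ →
      ∑ c ∈ range R, fej R (x - (c : ℝ) / R) * ind (δ < nd (x - (c : ℝ) / R)) ≤ 4 / (R * δ)) ∧
    (∀ x : ℝ, nd x ≤ 1 / (7 * R) → 1 / 4 ≤ fej R x) ∧
    ∀ x : ℝ, (fej R x : ℂ) =
      (∑ r ∈ range R, ∑ r' ∈ range R, ee (((r : ℝ) - r') * x)) / (R : ℂ) ^ 2

def MajS : Prop :=
  ∀ (Y : Type) [Fintype Y] (w θ : Y → ℝ) (R : ℕ) (t : ℝ), 1 ≤ R → (∀ y, 0 ≤ w y) →
    𝔼 y, w y * ind (nd (θ y - t) ≤ 1 / (7 * R)) ≤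
      4 * ((𝔼 y, w y) / R + ∑ k ∈ Ico 1 R, ‖𝔼 y, (w y : ℂ) * ee (k * θ y)‖)

def MajOf : Prop := FejS → MajS

/-- domination for one direction -/
def Dom1S : Prop :=
  ∀ (C Y : Type) [Fintype Y] [Nonempty Y] (Cs : Finset C) (ψ : C → Y → ℝ) (ζ : Y → ℝ)
    (Q R G : ℕ) [NeZero Q], IsLab Cs ψ → 1 ≤ R → 1 ≤ G → 7 * G * R ≤ Q →
    ∀ ξ : ZMod Q → ℝ, (∀ a, 0 ≤ ξ a ∧ ξ a ≤ 1) →
      𝔼 y, 𝔼 y', ker Cs ψ y y' * ξ (hi Q (ζ y' - ζ y)) ≤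
        eta Cs ψ ζ R G + 8 * (Q : ℝ) / R * 𝔼 a, ξ a

def Dom1Of : Prop := MajS → Dom1S

def LabS : Prop :=
  ∀ (L Y : Type) [Fintype L] [DecidableEq L] [Fintype Y] [Nonempty Y] (R : L → ℕ)
    (Φ : L → Y → ℝ), (∀ l, 1 ≤ R l) →
    IsLab (cs R) (lab R Φ) ∧ IsKer (fk R Φ) ∧
    (∀ l (δ : ℝ) y, 0 < δ →
      ∑ c ∈ cs R, lab R Φ c y * ind (δ < nd (Φ l y - (c l : ℝ) / R l)) ≤ 4 / (R l * δ)) ∧
    ∀ l (δ : ℝ), 0 < δ →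
      𝔼 y, 𝔼 y', fk R Φ y y' * ind (δ < nd (Φ l y - Φ l y')) ≤ 16 / (R l * δ)

def LabOf : Prop := FejS → KerS → LabS

def AvgS : Prop :=
  ∀ (A Y : Type) [Fintype A] [Nonempty A] [Fintype Y] [Nonempty Y] (Θ : A → Y → ℝ) (η : ℝ),
    0 ≤ η → (∀ y y', y ≠ y' → ‖𝔼 a, ee (Θ a y - Θ a y')‖ ≤ η) →
    𝔼 a, ‖𝔼 y, ee (Θ a y)‖ ≤ Real.sqrt (1 / Fintype.card Y + η)

def GenS : Prop :=
  ∀ (A L Y : Type) [Fintype A] [Nonempty A] [Fintype L] [DecidableEq L] [Fintype Y] [Nonempty Y]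
    (R : L → ℕ) (Φ : A → L → Y → ℝ) (η : ℝ), (∀ l, 1 ≤ R l) → 0 ≤ η →
    (∀ ζ : A → Y → ℝ,
      (∀ n : L → ℤ, (∀ l, |n l| < R l) → ∀ y y', y ≠ y' →
        ‖𝔼 a, ee (∑ l, n l * (Φ a l y - Φ a l y') + (ζ a y - ζ a y'))‖ ≤ η) →
      𝔼 a, ∑ c ∈ cs R, ‖𝔼 y, (lab R (Φ a) c y : ℂ) * ee (ζ a y)‖ ≤
        (∏ l, (R l : ℝ)) * Real.sqrt (1 / Fintype.card Y + η)) ∧
    ((∀ n : L → ℤ, n ≠ 0 → (∀ l, |n l| < R l) → ∀ y y', y ≠ y' →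
        ‖𝔼 a, ee (∑ l, n l * (Φ a l y - Φ a l y'))‖ ≤ η) →
      𝔼 a, ∑ c ∈ cs R, |(𝔼 y, lab R (Φ a) c y) - 1 / ∏ l, (R l : ℝ)| ≤
        (∏ l, (R l : ℝ)) * Real.sqrt (1 / Fintype.card Y + η))

def GenOf : Prop := FejS → AvgS → GenS

/-- passing to the uniform law on the grid -/
def Eq2S : Prop :=
  ∀ (Y : Type) [Fintype Y] [Nonempty Y] (R : ℕ) [NeZero R] (θ φ bad : Y → ℝ) (F : Y → ℂ)
    (Ψ : ZMod R × ZMod R → ℂ) (δ : ℝ), 0 < δ → (∀ y, ‖F y‖ ≤ 1) → (∀ c, ‖Ψ c‖ ≤ 1) →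
    (∀ y, 0 ≤ bad y) →
    (∀ y (c : ZMod R × ZMod R), nd (θ y - (c.1.val : ℝ) / R) ≤ δ →
      nd (φ y - (c.2.val : ℝ) / R) ≤ δ → ‖F y - Ψ c‖ ≤ bad y) →
    ‖𝔼 y, F y‖ ≤ ‖𝔼 c, Ψ c‖ + 𝔼 y, bad y + 16 / (R * δ) + def2 R θ φ

def Eq2Of : Prop := LabS → Eq2S

/-! ### Weyl sums -/

def WeylS : Prop :=
  ∀ (q e T κ σ N X : ℕ) (β u : ℝ) (u' : ℤ) (φ : ℤ → ℝ), 2 ≤ q → 1 ≤ e → e ≤ 4 → IsP e β φ →
    β * (q : ℝ) ^ T = u + u' * (q : ℝ) ^ κ → κ ≤ T → T ≤ κ + e * σ → 1 / 2 ≤ |u| → 1 ≤ X →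
    48 * |u| * (X : ℝ) ^ 24 ≤ (q : ℝ) ^ κ → 2 * q ^ (σ + κ) * X ^ 16 ≤ N →
    ‖𝔼 a : Fin N, ee (φ ((a : ℕ) : ℤ))‖ ≤ 3 / X

def WeylOf : Prop := AvgS → WeylS

/-! ### digits -/

def WinS : Prop :=
  ∀ q : ℕ, 2 ≤ q →
    (∀ w1 w2 (t : ℝ), wr q (w1 + w2) t = wr q w1 t + wr q w2 (t / (q : ℝ) ^ w1)) ∧
    (∀ K μ (t : ℝ), wr q (K * μ) t = ∑ j : Fin K, wr q μ (t / (q : ℝ) ^ ((j : ℕ) * μ))) ∧
    (∀ T (x : ℤ), 0 ≤ x → x < (q : ℤ) ^ T → wr q T x = ds q x.toNat) ∧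
    (∀ w (t t' ε : ℝ), nd ((t - t') / (q : ℝ) ^ w) ≤ ε / (q : ℝ) ^ w → ε < nd t →
      wr q w t = wr q w t') ∧
    (∀ w (t : ℝ) (n : ℤ), wr q w (t + n * (q : ℝ) ^ w) = wr q w t) ∧
    ∀ w Q (t : ℝ), Q = q ^ w → wr q w ((Q : ℝ) * t) = ds q (hi Q t).val

def GowS : Prop :=
  ∀ (q : ℕ) (α : ℝ), 2 ≤ q → (∀ n : ℤ, ((q : ℝ) - 1) * α ≠ n) →
    ∀ (I : Type) [Fintype I] [DecidableEq I] [Nonempty I] (B0 : ℕ),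
      ∃ (m : ℕ) (θ : ℝ), 1 ≤ m ∧ 0 < θ ∧ θ < 1 ∧ ∀ (j Q : ℕ) [NeZero Q], Q = q ^ (m * j) →
        ∀ r : (I → Bool) → ℕ, (∀ ω, r ω ≤ B0) → ‖𝔼 z : I → ZMod Q, cA q α z r‖ ≤ θ ^ j

def XiS : Prop :=
  ∀ (q : ℕ) (α : ℝ), 2 ≤ q → (∀ n : ℤ, ((q : ℝ) - 1) * α ≠ n) →
    ∀ (I : Type) [Fintype I] [DecidableEq I],
      ∃ (m : ℕ) (θ C : ℝ), 1 ≤ m ∧ 0 < θ ∧ θ < 1 ∧ 0 ≤ C ∧ ∀ (j Q : ℕ) [NeZero Q],
        Q = q ^ (m * j) → 𝔼 z : I → ZMod Q, xi q α z ≤ C * θ ^ j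

def XiOf : Prop := GowS → XiS

def CarS : Prop :=
  ∀ (q w Q R : ℕ) [NeZero Q] [NeZero R], 2 ≤ q → Q = q ^ w → Q ∣ R →
    ∀ (I : Type) [Fintype I] [DecidableEq I] (α κ : ℝ) (Y : I → ℝ),
      ‖𝔼 c : ZMod R, ee (α * ∑ ω : I → Bool, sg ω *
        wr q w ((Q : ℝ) * ((c.val : ℝ) / R + κ + ∑ i, if ω i then Y i else 0)))‖ ≤
        xi q α (fun i => hi Q (Y i))

def CarOf : Prop := WinS → CarS

def IsoS : Prop :=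
  ∀ (T : Type) [Fintype T] [DecidableEq T] (τ0 : T) (R : ℕ) [NeZero R] (v : T → ℤ)
    (f : T → ZMod R → ℝ),
    ‖𝔼 c : ZMod R × ZMod R, ee (∑ τ, f τ (c.1 + (v τ : ZMod R) * c.2))‖ ^ (2 ^ Fintype.card T) ≤
      𝔼 j : (T → ZMod R) × (T → ZMod R), ‖𝔼 c : ZMod R, ee (∑ ω : T → Bool, sg ω *
        f τ0 (c + ∑ τ, if ω τ then (dl v τ0 τ : ZMod R) * (j.2 τ - j.1 τ) else 0))‖

def IsoOf : Prop := BoxS → IsoS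

/-- isolation of one point, carries, domination of the new directions -/
def FinS : Prop :=
  ∀ (q w Q R Rp Hv : ℕ) [NeZero Q] [NeZero R], 2 ≤ q → Q = q ^ w → Q ∣ R → 1 ≤ Rp →
    7 * Rp ≤ Q → Rp * Hv ≤ R → 1 ≤ Hv →
    ∀ (I T : Type) [Fintype I] [DecidableEq I] [Fintype T] [DecidableEq T] [DecidableEq (I ⊕ T)]
      (τ0 : T) (v : T → ℤ) (al κ : T → ℝ) (Z : I → ℝ),
      (∀ τ, τ ≠ τ0 → v τ ≠ v τ0 ∧ |v τ0 - v τ| ≤ Hv) →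
      ‖𝔼 c : ZMod R × ZMod R, ee (∑ τ, al τ * ∑ γ : I → Bool, sg γ *
        wr q w ((Q : ℝ) * (((c.1.val : ℝ) + v τ * (c.2.val : ℝ)) / R + κ τ +
          ∑ i, if γ i then Z i else 0)))‖ ≤
        rt (Fintype.card T) ((8 * (Q : ℝ) / Rp) ^ Fintype.card T *
          𝔼 z : T → ZMod Q, xi q (al τ0) (Sum.elim (fun i => hi Q (Z i)) z))

def FinOf : Prop := WinS → IsoS → CarS → DomS → Dom1S → FinS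

/-! ### the concrete stages -/

def BdS : Prop :=
  ∀ (π : Par) (s : ℕ) (c : ℤ), π.rho ≤ s → s ≤ π.ts + K3 π.d * π.mu →
    𝔼 a : π.O0, π.bd s (((a : ℕ) : ℤ) + c) ≤ 8 / π.E

def BdOf : Prop := MajS → WeylS → BdS

/-- densities and vertex marginals -/
def VtxS : Prop :=
  ∀ π : Par, IsDen π.W0 ∧ IsDen π.W1 ∧ IsDen π.W2 ∧ IsDen π.W3 ∧
    (∀ o i, IsKer (π.K0 o i)) ∧ (∀ o i, IsKer (π.KA o i)) ∧ (∀ o i, IsKer (π.KB o i)) ∧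
    ∀ (F : ℤ → ℤ → ℝ) (η : ℝ),
      (∀ c : ℤ, 𝔼 a : π.O0, F ((a : ℕ) : ℤ) (((a : ℕ) : ℤ) + c) ≤ η) →
      (∀ β, 𝔼 o : π.O1, π.W1 o * F ((o.1 : ℕ) : ℤ) (π.x1 o β) ≤ η) ∧
      (∀ γ, 𝔼 o : π.O2, π.W2 o * F ((o.1.1 : ℕ) : ℤ) (π.x2 o γ) ≤ η) ∧
      ∀ γ ε, 𝔼 o : π.O3, π.W3 o * F ((o.1.1.1 : ℕ) : ℤ) (π.x3 o γ ε) ≤ η

def VtxOf : Prop := NwS → LabS → VtxS

def DecS : Prop :=
  ∀ (π : Par) (n : ℤ), 0 ≤ n → n + π.k ≤ 2 * π.N →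
    π.Ph n = π.fL n + π.fA n + π.fW n + π.fC n + π.fB n

def DecOf : Prop := WinS → DecS

/-- invariance of a window phase off the boundary -/
def WnS : Prop :=
  ∀ (π : Par) (s w : ℕ) (n n' : ℤ) (c : ℝ),
    (∀ l : Fin π.k, nd ((π.P 0 (n + (l : ℕ)) - π.P 0 (n' + (l : ℕ))) / (π.q : ℝ) ^ (s + w)) ≤
      π.eps / (π.q : ℝ) ^ w) →
    ‖ee (c * π.Wn s w n) - ee (c * π.Wn s w n')‖ ≤ 2 * ∑ l : Fin π.k, π.bd s (n + (l : ℕ))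

def WnOf : Prop := WinS → WnS

def EdgeS : Prop := ∀ π : Par, ‖𝔼 a : π.O0, ee (π.Ph ((a : ℕ) : ℤ))‖ ≤ 1 / π.E + π.A0

def Inv0S : Prop :=
  ∀ (π : Par) (a0 U u : ℤ) (m m' : π.Y0), 0 ≤ U → (U : ℝ) ≤ π.B ^ 865 → 0 ≤ u →
    (u : ℝ) ≤ π.B ^ 23 →
    (∀ s, nd (π.ph0 a0 (Sum.inl s) m - π.ph0 a0 (Sum.inl s) m') ≤ π.d0) →
    nd ((π.P 0 (a0 + (π.q : ℤ) ^ π.rho0 * (m : ℕ) + (π.q : ℤ) ^ π.rho * U + u) -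
      π.P 0 (a0 + (π.q : ℤ) ^ π.rho0 * (m' : ℕ) + (π.q : ℤ) ^ π.rho * U + u)) /
        (π.q : ℝ) ^ (π.tc + 90051 * π.mu)) ≤ π.eps / (π.q : ℝ) ^ (90051 * π.mu)

def InvAS : Prop :=
  ∀ (π : Par) (a0 x U u : ℤ) (j : JA π.d) (m m' : π.YA), 0 ≤ u → (u : ℝ) ≤ π.B ^ 23 →
    (∀ κ, nd (π.phA a0 x j (Sum.inl κ) m - π.phA a0 x j (Sum.inl κ) m') ≤ π.dA κ) →
    nd ((π.P 0 (x + (π.q : ℤ) ^ π.rho * (U + (m : ℕ)) + u) -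
      π.P 0 (x + (π.q : ℤ) ^ π.rho * (U + (m' : ℕ)) + u)) /
        (π.q : ℝ) ^ (π.sA j + π.mu)) ≤ π.eps / (π.q : ℝ) ^ π.mu

def InvBS : Prop :=
  ∀ (π : Par) (x u : ℤ) (j : Fin (K3 π.d + 1)) (v v' : π.YB), 0 ≤ x → x ≤ 2 * π.N → 0 ≤ u →
    (u : ℝ) + π.B ^ 3 ≤ π.B ^ 23 →
    nd (π.phB x j () v - π.phB x j () v') ≤ π.dB →
    nd ((π.P 0 (x + u + (v : ℕ)) - π.P 0 (x + u + (v' : ℕ))) / (π.q : ℝ) ^ (π.sB j + π.wB j)) ≤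
      π.eps / (π.q : ℝ) ^ π.wB j

def St0S : Prop := ∀ π : Par, π.A0 ≤ 100 * π.M0 / π.E + rt 1 π.A1

def St0Of : Prop := StgS → LabS → WinS → BdS → VtxS → DecS → WnS → Inv0S → St0S

def StAS : Prop :=
  ∀ π : Par, π.A1 ≤ Fintype.card (IA π.d) * (100 * π.M0 / π.E) + rt (Fintype.card (IA π.d)) π.A2

def StAOf : Prop := StgS → LabS → BdS → VtxS → WnS → InvAS → StAS

def StBS : Prop :=
  ∀ π : Par, π.A2 ≤ Fintype.card (IB π.d) * (100 * π.M0 / π.E) + rt (Fintype.card (IB π.d)) π.A3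

def StBOf : Prop := StgS → LabS → BdS → VtxS → WnS → InvBS → StBS

/-- the value in the surviving window -/
def InvFS : Prop :=
  ∀ (π : Par) (o : π.O3) (b : π.Yb) (γ : I0 π.d → Bool) (τ : Ta π.d π.k) (c c' : ℝ),
    π.farW o.1 = 0 → nd (π.th (π.x0 o.1) b - c) ≤ π.dF → nd (π.fi (π.x0 o.1) b - c') ≤ π.dF →
    nd ((π.P 0 (π.x3 o (fun u => γ (Sum.inl u), fun i => γ (Sum.inr i)) τ.1 + (b : ℕ) +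
        (τ.2 : ℕ)) / (π.q : ℝ) ^ π.sm -
      π.Qr * (c + π.vt o τ * c' + π.kap (π.x0 o.1) (π.vt o τ) +
        ∑ i, if γ i then π.Zd o.1 i else 0)) / π.Qr) ≤ π.eps / π.Qr

def EqWS : Prop :=
  ∀ (π : Par) (c : ℤ), 𝔼 a : π.O0,
    def2 (π.q ^ (5 * π.mu)) (π.th (((a : ℕ) : ℤ) + c)) (π.fi (((a : ℕ) : ℤ) + c)) ≤ 2 / π.B

def EqWOf : Prop := GenS → WeylS → EqWS

def Gen0S : Prop :=
  ∀ π : Par, 𝔼 a : π.O0, eta (cs π.R0) (lab π.R0 (π.ph0 (a : ℕ)))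
    (fun m : π.Y0 => π.zt (a : ℕ) π.rho0 m) π.Rp π.Gp ≤ 1 / π.B

def Gen0Of : Prop := GenS → WeylS → Gen0S

def GenAS : Prop :=
  ∀ (π : Par) (j : JA π.d) (c : ℤ), 𝔼 a : π.O0,
    eta (cs π.RA) (lab π.RA (π.phA (a : ℕ) (((a : ℕ) : ℤ) + c) j))
      (fun m : π.YA => π.zt (a : ℕ) π.rho m) π.Rp π.Gp ≤ 1 / π.B

def GenAOf : Prop := GenS → WeylS → GenAS

def CollS : Prop :=
  ∀ π : Par, 𝔼 o : π.O3, π.W3 o * ind (∃ τ, τ ≠ π.tau0 ∧ π.vt o τ = π.vt o π.tau0) ≤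
    Fintype.card (Ta π.d π.k) / π.B

def CollOf : Prop := KerS → NwS → LabS → VtxS → CollS

def FarS : Prop := ∀ π : Par, 𝔼 o : π.O2, π.W2 o * π.farW o ≤ 3 * π.M0 / π.E

def FarOf : Prop := NwS → LabS → VtxS → FarS

def DomAS : Prop :=
  ∀ (π : Par) (Ξ : (I0 π.d → π.ZQ) → ℝ), (∀ z, 0 ≤ Ξ z ∧ Ξ z ≤ 1) →
    𝔼 o : π.O2, π.W2 o * Ξ (fun i => hi (π.q ^ π.w0) (π.Zd o i)) ≤
      π.Cd ^ Fintype.card (I0 π.d) * (π.M0 / π.B + 𝔼 z, Ξ z)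

def DomAOf : Prop := DomS → Dom1S → LabS → VtxS → Gen0S → GenAS → DomAS

/-- the last stage for fixed outer variables -/
def Fin1S : Prop :=
  ∀ (π : Par) (o : π.O3),
    ‖𝔼 z : π.Yb, ee (∑ ε : IB π.d → Bool, sg ε * ∑ γ : Ga π.d, sg γ.1 * sg γ.2 *
      π.fW (π.x3 o γ ε + (z : ℕ)))‖ ≤
      2 * π.farW o.1 +
      (2 * ∑ γ : Ga π.d, ∑ τ : Ta π.d π.k,
        𝔼 b : π.Yb, π.bd π.sm (π.x3 o γ τ.1 + (b : ℕ) + (τ.2 : ℕ))) + 1 / π.E +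
      def2 (π.q ^ (5 * π.mu)) (π.th (π.x0 o.1)) (π.fi (π.x0 o.1)) +
      ind (∃ τ, τ ≠ π.tau0 ∧ π.vt o τ = π.vt o π.tau0) +
      rt (Fintype.card (Ta π.d π.k)) (π.Cd ^ Fintype.card (Ta π.d π.k) *
        𝔼 z : Ta π.d π.k → π.ZQ,
          xi π.q (π.al π.l0) (Sum.elim (fun i => hi (π.q ^ π.w0) (π.Zd o.1 i)) z))

def Fin1Of : Prop := WinS → Eq2S → FinS → InvFS → Fin1S

def FinGS : Prop :=
  ∀ π : Par, π.A3 ≤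
    100 * π.M0 * Fintype.card (Ga π.d) * Fintype.card (Ta π.d π.k) / π.E +
    rt (Fintype.card (Ta π.d π.k)) (π.Cd ^ Fintype.card (I0 π.d ⊕ Ta π.d π.k) *
      (π.M0 / π.B + 𝔼 z : I0 π.d ⊕ Ta π.d π.k → π.ZQ, xi π.q (π.al π.l0) z))

def FinGOf : Prop := NwS → VtxS → BdS → EqWS → CollS → FarS → DomAS → Fin1S → FinGS

/-! ### assembly -/

def MainS : Prop :=
  ∀ (q d k : ℕ) (a : ℕ → ℤ) (al : Fin k → ℝ) (l0 : Fin k), 2 ≤ q → Deg a d →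
    (∀ n : ℤ, ((q : ℝ) - 1) * al l0 ≠ n) → (∀ n : ℤ, 0 ≤ n → 0 ≤ pk a 0 n) →
    ∃ c C : ℝ, 0 < c ∧ ∀ N : ℕ,
      ‖∑ n ∈ range N, ee (∑ l : Fin k, al l * (ds q (pk a 0 ((n : ℤ) + (l : ℕ))).toNat : ℝ))‖ ≤
        C * (N : ℝ) ^ (1 - c)

def MainOf : Prop := XiS → EdgeS → St0S → StAS → StBS → FinGS → MainS

def ResS : Prop :=
  ∀ (q m k : ℕ), 2 ≤ q → 1 ≤ m → ∀ P : Polynomial ℤ, (P.natDegree = 3 ∨ P.natDegree = 4) →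
    (∀ n : ℕ, 0 ≤ P.eval (n : ℤ)) →
    ∃ c C : ℝ, 0 < c ∧ ∀ (w : Fin k → ℕ) (N : ℕ),
      |((((range N).filter fun n => ∀ l : Fin k,
            (Nat.digits q (P.eval ((n + l : ℕ) : ℤ)).toNat).sum ≡ w l [MOD m]).card : ℕ) : ℝ) -
          ((Nat.gcd m (q - 1) : ℝ) / m) ^ k *
            ((((range N).filter fun n => ∀ l : Fin k,
              (P.eval ((n + l : ℕ) : ℤ)).toNat ≡ w l [MOD Nat.gcd m (q - 1)]).card : ℕ) : ℝ)| ≤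
        C * (N : ℝ) ^ (1 - c)

def ResOf : Prop := MainS → ResS

end Pool.Agent.MP_b1aeef_nt.G4
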